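import Mathlib
import Pool.Agent.LGO.G.Geo

/-!
# LGO/F3: the point `(∞, ∞, ∞)`

`inf3`: for three coordinates of a curve `V` over the algebraic numbers, either a polynomial in the inverses of
the coordinates, with nonzero constant term, vanishes on `V`, or `V` contains a sequence along which the three
coordinates tend to infinity.

PROOF.  `L, ψ` from `exists_funQ`.  If some `ψ a = 0` the first alternative is empty.  Otherwise let `R` be the
`Qb`-algebra generated by the `1 / ψ a` and `I` the ideal generated by them.  If `I = R` then `1 = ∑ c_a / ψ_a`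
with `c_a ∈ R`, which is the first alternative (clear the denominators).  Otherwise there is a place `O` with
`1 / ψ a` in its maximal ideal for all `a`; `exists_pole` gives a function `F` with its only pole at `O`;
`exists_cert` for `1 / ψ a` gives `‖F‖ ≤ C ‖x_a‖ ^ m` where `‖F‖ ≥ C`, and `F` is unbounded on `V`.
-/

namespace Pool.Agent.LGO

open MvPolynomial Filter Topology Pool.Agent.Hhelper14.ZPL

private theorem Inf3_unit {n : ℕ} {V : Set (Fin n → ℂ)}
    (hV : Pool.Agent.Hhelper14.ZPL.IsIrredClosed V) (G : MvPolynomial (Fin n) ℂ) {B : ℝ}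
    (hB : ∀ x ∈ V, ‖eval x G‖ ≤ B) {c : ℂ} (hc : B < ‖c‖) :
    ∃ b : MvPolynomial (Fin n) ℂ, b * (G - C c) - 1 ∈ vanishingIdeal ℂ V := by
  have h1 : zeroLocus ℂ (vanishingIdeal ℂ V ⊔ Ideal.span {(G - C c : MvPolynomial (Fin n) ℂ)}) =
      ∅ := by
    rw [Set.eq_empty_iff_forall_notMem]
    intro x hx
    have hx1 : x ∈ V := by
      rw [← hV.2]
      intro p hp
      exact hx p (Ideal.mem_sup_left hp)
    have hx2 := hx (G - C c) (Ideal.mem_sup_right (Ideal.subset_span rfl))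
    rw [aeval_eq_eval] at hx2
    have hx3 : eval x G = c := by
      have h5 : eval x (G - C c) = 0 := hx2
      rw [map_sub, eval_C] at h5
      exact sub_eq_zero.1 h5
    have := hB x hx1
    rw [hx3] at this
    linarith
  have h2 := vanishingIdeal_zeroLocus_eq_radical (k := ℂ) (K := ℂ)
    (vanishingIdeal ℂ V ⊔ Ideal.span {(G - C c : MvPolynomial (Fin n) ℂ)})
  rw [h1] at h2
  have h3 : (vanishingIdeal ℂ (∅ : Set (Fin n → ℂ))) = (⊤ : Ideal (MvPolynomial (Fin n) ℂ)) := by
    rw [Ideal.eq_top_iff_one, mem_vanishingIdeal_iff]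
    intro x hx
    exact absurd hx (Set.notMem_empty x)
  rw [h3] at h2
  have h4 := Ideal.radical_eq_top.1 h2.symm
  rw [Ideal.eq_top_iff_one, Submodule.mem_sup] at h4
  obtain ⟨y, hy, z, hz, hyz⟩ := h4
  obtain ⟨b, hb⟩ := Ideal.mem_span_singleton'.1 hz
  refine ⟨b, ?_⟩
  rw [hb, ← hyz]
  have : z - (y + z) = -y := by ring
  rw [this]
  exact neg_mem hy

private theorem Inf3_bdd {n : ℕ} {V : Set (Fin n → ℂ)}
    (hV : Pool.Agent.Hhelper14.ZPL.IsIrredClosed V) (G : MvPolynomial (Fin n) ℂ) (hj : ∀ c : ℂ, ∃ x ∈ V, eval x G ≠ c)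
    (B : ℝ) : ∃ x ∈ V, B < ‖eval x G‖ := by
  by_contra hcon
  push Not at hcon
  have hprime : (vanishingIdeal ℂ V).IsPrime := hV.1
  let R := MvPolynomial (Fin n) ℂ ⧸ vanishingIdeal ℂ V
  let L := FractionRing R
  let ξ : L := algebraMap R L (Ideal.Quotient.mk _ G)
  have hinj : Function.Injective (algebraMap R L) := IsFractionRing.injective R L
  have hcst : ∀ a : ℂ, algebraMap ℂ L a = algebraMap R L (Ideal.Quotient.mk _ (C a)) := by
    intro a
    rw [IsScalarTower.algebraMap_apply ℂ R L]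
    rfl
  have hsub : ∀ a : ℂ, ξ - algebraMap ℂ L a =
      algebraMap R L (Ideal.Quotient.mk _ (G - C a)) := by
    intro a
    rw [hcst, map_sub, map_sub]
  have htr : Transcendental ℂ ξ := by
    intro halg
    have hint : IsIntegral ℂ ξ := halg.isIntegral
    have h1 : (minpoly ℂ ξ).degree = 1 :=
      IsAlgClosed.degree_eq_one_of_irreducible ℂ (minpoly.irreducible hint)
    obtain ⟨c, hc⟩ := minpoly.mem_range_of_degree_eq_one ℂ ξ h1
    have h2 := hsub c
    rw [hc, sub_self] at h2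
    have h3 : (Ideal.Quotient.mk (vanishingIdeal ℂ V)) (G - C c) = 0 := by
      apply hinj
      rw [← h2, map_zero]
    rw [Ideal.Quotient.eq_zero_iff_mem, mem_vanishingIdeal_iff] at h3
    obtain ⟨x, hx, hne⟩ := hj c
    have h4 := h3 x hx
    rw [aeval_eq_eval] at h4
    apply hne
    have h5 : eval x (G - C c) = 0 := h4
    rw [map_sub, eval_C] at h5
    exact sub_eq_zero.1 h5
  have hli := htr.linearIndependent_sub_inv
  have hli2 : LinearIndependent ℂ fun a : {a : ℂ // B < ‖a‖} => (ξ - algebraMap ℂ L a)⁻¹ :=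
    hli.comp _ Subtype.val_injective
  choose b hb using fun a : {a : ℂ // B < ‖a‖} => Inf3_unit hV G hcon a.2
  have hli3 : LinearIndependent ℂ fun a : {a : ℂ // B < ‖a‖} =>
      (Ideal.Quotient.mk (vanishingIdeal ℂ V) (b a) : R) := by
    refine LinearIndependent.of_comp (IsScalarTower.toAlgHom ℂ R L).toLinearMap ?_
    have : (⇑(IsScalarTower.toAlgHom ℂ R L).toLinearMap ∘ fun a : {a : ℂ // B < ‖a‖} =>
        (Ideal.Quotient.mk (vanishingIdeal ℂ V) (b a) : R)) =
        fun a : {a : ℂ // B < ‖a‖} => (ξ - algebraMap ℂ L a)⁻¹ := by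
      funext a
      have h5 : algebraMap R L (Ideal.Quotient.mk _ (b a)) * (ξ - algebraMap ℂ L a) = 1 := by
        rw [hsub, ← map_mul, ← map_mul, ← map_one (algebraMap R L)]
        congr 1
        rw [← map_one (Ideal.Quotient.mk (vanishingIdeal ℂ V)), Ideal.Quotient.eq]
        exact hb a
      exact eq_inv_of_mul_eq_one_left h5
    rw [this]
    exact hli2
  have h6 := hli3.cardinal_le_rank
  have h7 : Module.rank ℂ R ≤ Cardinal.aleph0 := by
    have h8 : Module.rank ℂ R ≤ Module.rank ℂ (MvPolynomial (Fin n) ℂ) :=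
      LinearMap.rank_le_of_surjective (Ideal.Quotient.mkₐ ℂ (vanishingIdeal ℂ V)).toLinearMap
        (Ideal.Quotient.mkₐ_surjective ℂ (vanishingIdeal ℂ V))
    refine h8.trans ?_
    rw [← (basisMonomials (Fin n) ℂ).mk_eq_rank'']
    exact Cardinal.mk_le_aleph0
  have h9 : Countable {a : ℂ // B < ‖a‖} := Cardinal.mk_le_aleph0_iff.1 (h6.trans h7)
  have h10 : ({a : ℂ | B < ‖a‖} : Set ℂ).Countable := h9
  have h11 := h10.dense_compl ℝ
  have h12 : IsClosed ({a : ℂ | B < ‖a‖}ᶜ : Set ℂ) :=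
    (isOpen_lt continuous_const continuous_norm).isClosed_compl
  have h13 : (((|B| + 1 : ℝ) : ℂ)) ∈ ({a : ℂ | B < ‖a‖}ᶜ : Set ℂ) := by
    have := h12.closure_eq ▸ h11 (((|B| + 1 : ℝ) : ℂ))
    exact this
  apply h13
  show B < ‖(((|B| + 1 : ℝ) : ℂ))‖
  rw [Complex.norm_real, Real.norm_eq_abs]
  have h14 := le_abs_self B
  have h15 := le_abs_self (|B| + 1)
  linarith


/-- clear the denominators of `A(1 / y)` -/
private theorem Inf3_clear (A : MvPolynomial (Fin 3) Qb) : ∃ (G : MvPolynomial (Fin 3) Qb) (N : ℕ),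
    ∀ (K : Type) [Field K] [Algebra Qb K] (y : Fin 3 → K), (∀ a, y a ≠ 0) →
      aeval y G = (∏ a, y a) ^ N * aeval (fun a => (y a)⁻¹) A := by
  induction A using MvPolynomial.induction_on with
  | C r =>
    refine ⟨C r, 0, fun K _ _ y _ => ?_⟩
    rw [aeval_C, aeval_C, pow_zero, one_mul]
  | add P Q hP hQ =>
    obtain ⟨G1, N1, h1⟩ := hP
    obtain ⟨G2, N2, h2⟩ := hQ
    refine ⟨(∏ a, X a) ^ N2 * G1 + (∏ a, X a) ^ N1 * G2, N1 + N2, fun K _ _ y hy => ?_⟩
    rw [map_add, map_add, map_mul, map_mul, map_pow, map_pow, map_prod, h1 K y hy, h2 K y hy]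
    simp only [aeval_X]
    ring
  | mul_X P b hP =>
    obtain ⟨G, N, h1⟩ := hP
    refine ⟨G * ∏ a ∈ Finset.univ.erase b, X a, N + 1, fun K _ _ y hy => ?_⟩
    rw [map_mul, map_mul, map_prod, h1 K y hy, aeval_X, pow_succ,
      ← Finset.mul_prod_erase Finset.univ y (Finset.mem_univ b)]
    simp only [aeval_X]
    have := hy b
    field_simp

theorem inf3 {n : ℕ} {V : Set (Fin n → ℂ)} (hV : Pool.Agent.Hhelper14.ZPL.IsIrredClosed V)
    (hVk : KClosed V) (hdim : Pool.Agent.Hhelper14.ZPL.dim V = 1) (i : Fin 3 → Fin n) :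
    (∃ Q : MvPolynomial (Fin 3) ℂ, constantCoeff Q ≠ 0 ∧
      ∀ x ∈ V, (∀ a, x (i a) ≠ 0) → eval (fun a => (x (i a))⁻¹) Q = 0) ∨
    ∃ P : ℕ → Fin n → ℂ, (∀ k, P k ∈ V) ∧
      ∀ a, Tendsto (fun k => ‖P k (i a)‖) atTop atTop := by
  obtain ⟨L, hL, hA, ψ, hgen, hdep, h0, hfin⟩ := exists_funQ hV hVk hdim i
  by_cases hψ : ∀ a, ψ a ≠ 0
  swap
  · left
    push Not at hψ
    obtain ⟨a, ha⟩ := hψ
    refine ⟨1, by rw [map_one]; exact one_ne_zero, fun x hx hx0 => ?_⟩
    exfalso
    apply hx0 a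
    have h1 : aeval ψ (X a : MvPolynomial (Fin 3) Qb) = 0 := by rw [aeval_X, ha]
    have h2 := (h0 _).mp h1 x hx
    rwa [aeval_X] at h2
  set R : Subalgebra Qb L := Algebra.adjoin Qb (Set.range fun a => (ψ a)⁻¹) with hR
  have hmem : ∀ a, (ψ a)⁻¹ ∈ R.toSubring := fun a => Algebra.subset_adjoin ⟨a, rfl⟩
  set I : Ideal R.toSubring := Ideal.span (Set.range fun a => (⟨(ψ a)⁻¹, hmem a⟩ : R.toSubring))
    with hI
  by_cases htop : I = ⊤
  · left
    have h1 : (1 : R.toSubring) ∈ I := by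
      rw [htop]
      exact Submodule.mem_top
    rw [hI, Ideal.mem_span_range_iff_exists_fun] at h1
    obtain ⟨c, hc⟩ := h1
    have hpol : ∀ a, ∃ A : MvPolynomial (Fin 3) Qb,
        aeval (fun b => (ψ b)⁻¹) A = ((c a : R.toSubring) : L) := by
      intro a
      have h2 : ((c a : R.toSubring) : L) ∈ Algebra.adjoin Qb (Set.range fun a => (ψ a)⁻¹) :=
        (c a).2
      rw [Algebra.adjoin_range_eq_range_aeval] at h2
      obtain ⟨A, hA⟩ := h2
      exact ⟨A, hA⟩
    choose A hA' using hpol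
    have hrel : aeval (fun b => (ψ b)⁻¹) (1 - ∑ a, A a * X a : MvPolynomial (Fin 3) Qb) = 0 := by
      have h2 := congrArg (fun z : R.toSubring => (z : L)) hc
      simp only [Subring.coe_one] at h2
      rw [map_sub, map_one, map_sum, sub_eq_zero, ← h2]
      push_cast
      refine Finset.sum_congr rfl fun a _ => ?_
      rw [map_mul, aeval_X, hA' a]
    obtain ⟨G, N, hG⟩ := Inf3_clear (1 - ∑ a, A a * X a)
    have hG0 : aeval ψ G = 0 := by rw [hG L ψ hψ, hrel, mul_zero]
    refine ⟨(1 - ∑ a, A a * X a : MvPolynomial (Fin 3) Qb).map (algebraMap Qb ℂ), ?_,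
      fun x hx hx0 => ?_⟩
    · rw [constantCoeff_map, map_sub, map_one, map_sum]
      simp
    · have h2 := (h0 G).mp hG0 x hx
      rw [hG ℂ (x ∘ i) hx0] at h2
      have h3 := (mul_eq_zero.1 h2).resolve_left
        (pow_ne_zero _ (Finset.prod_ne_zero_iff.2 fun a _ => hx0 a))
      rw [eval_map, ← aeval_def]
      exact h3
  · right
    obtain ⟨O, hO, hIO⟩ := Ideal.image_subset_nonunits_valuationSubring I htop
    have hOver : Over Qb O := fun c => hO (R.algebraMap_mem c)
    have hnon : ∀ a, (ψ a)⁻¹ ∈ O.nonunits := fun a =>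
      hIO ⟨⟨(ψ a)⁻¹, hmem a⟩, Ideal.subset_span ⟨a, rfl⟩, rfl⟩
    have hnot : ∀ a, ψ a ∉ O := fun a => (O.inv_mem_nonunits_iff.mp (hnon a)).resolve_left (hψ a)
    have htr : Transcendental Qb (ψ 0) := by
      intro halg
      obtain ⟨c, hc⟩ := const_of_isAlgebraic halg
      exact hnot 0 (hc ▸ hOver c)
    obtain ⟨t, δ, b, hS⟩ := exists_setup hdep ψ hgen htr
    have htO : t ∉ O := by
      intro ht
      exact hnot 0 (hS.int (ψ 0) (Algebra.subset_adjoin ⟨0, rfl⟩) O hOver ht)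
    obtain ⟨F0, hF0A, hF0t, hF0O, huniq⟩ := exists_pole hdep hS (O := O) ⟨hOver, htO⟩
    rw [Algebra.adjoin_range_eq_range_aeval] at hF0A
    obtain ⟨F, hF⟩ := hF0A
    have hF' : aeval ψ F = F0 := hF
    obtain ⟨G, hGd⟩ : ∃ G : MvPolynomial (Fin n) ℂ, G = (rename i F).map (algebraMap Qb ℂ) := ⟨_, rfl⟩
    have hev : ∀ x : Fin n → ℂ, eval x G = aeval (x ∘ i) F := by
      intro x
      rw [hGd, eval_map, ← aeval_def, aeval_rename]
    -- `F` is not constant
    have hnc : ∀ c : ℂ, ∃ x ∈ V, eval x G ≠ c := by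
      intro c
      by_contra hcon
      push Not at hcon
      have h1 : (1 : MvPolynomial (Fin n) Qb) ∉
          (vanishingIdeal Qb V : Ideal (MvPolynomial (Fin n) Qb)) := by
        intro h2
        have h3 : (1 : MvPolynomial (Fin n) ℂ) ∈ vanishingIdeal ℂ V := by
          rw [mem_vanishingIdeal_iff]
          intro x hx
          have h4 := (mem_vanishingIdeal_iff.mp h2) x hx
          rw [map_one] at h4
          exact absurd h4 one_ne_zero
        exact hV.1.ne_top ((Ideal.eq_top_iff_one _).2 h3)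
      obtain ⟨z, hz, -⟩ := exists_Qb_point hVk h1
      have h4 : c = ((aeval (z ∘ i) F : Qb) : ℂ) := by
        rw [← hcon _ hz, hev, ← aeval_coe]
        rfl
      have h5 : aeval ψ (F - C (aeval (z ∘ i) F : Qb) : MvPolynomial (Fin 3) Qb) = 0 := by
        rw [h0]
        intro x hx
        have h6 := hcon x hx
        rw [hev] at h6
        rw [map_sub, h6, aeval_C, h4]
        exact sub_self _
      rw [map_sub, aeval_C, sub_eq_zero, hF'] at h5
      apply hF0t
      rw [h5]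
      exact isAlgebraic_algebraMap _
    choose P hP hP' using fun m : ℕ => Inf3_bdd hV G hnc m
    have hPF : Tendsto (fun k => ‖(aeval (P k ∘ i) F : ℂ)‖) atTop atTop := by
      refine tendsto_atTop_mono (fun m => ?_) tendsto_natCast_atTop_atTop
      rw [← hev]
      exact (hP' m).le
    refine ⟨P, hP, fun a => ?_⟩
    -- the certificate
    have hval : O.valuation (aeval ψ (1 : MvPolynomial (Fin 3) Qb) /
        aeval ψ (X a : MvPolynomial (Fin 3) Qb)) < 1 := by
      rw [map_one, aeval_X, one_div]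
      exact (ValuationSubring.mem_nonunits_iff _).1 (hnon a)
    obtain ⟨m, hm, hcert⟩ := exists_cert hdep hOver hF0O huniq hval
    have hD0 : aeval ψ (X a : MvPolynomial (Fin 3) Qb) ≠ 0 := by rw [aeval_X]; exact hψ a
    have hc := hcert (div_ne_zero (by rw [map_one]; exact one_ne_zero) hD0)
    rw [← hF'] at hc
    obtain ⟨C, hC, hineq⟩ := ineq_of_cert ψ F 1 (X a) m hD0 hc
    have hineq' : ∀ᶠ k in atTop, ‖(aeval (P k ∘ i) F : ℂ)‖ ≤ C * ‖P k (i a)‖ ^ m := by
      filter_upwards [hPF.eventually_ge_atTop C] with k hk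
      have h1 := hineq (RingEquiv.refl ℂ) (P k ∘ i)
        (fun G hG => (h0 G).mp hG (P k) (hP k)) hk
      simpa using h1
    have hT : Tendsto (fun k => C * ‖P k (i a)‖ ^ m) atTop atTop :=
      tendsto_atTop_mono' _ hineq' hPF
    have hT2 : Tendsto (fun k => ‖P k (i a)‖ ^ m) atTop atTop :=
      (tendsto_const_mul_atTop_of_pos hC).1 hT
    by_contra hcon
    rw [tendsto_atTop_atTop] at hcon
    push Not at hcon
    obtain ⟨B, hB⟩ := hcon
    rw [tendsto_atTop_atTop] at hT2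
    obtain ⟨k₀, hk₀⟩ := hT2 (|B| ^ m + 1)
    obtain ⟨k, hk, hlt⟩ := hB k₀
    have h1 := hk₀ k hk
    have h2 : ‖P k (i a)‖ ^ m ≤ |B| ^ m :=
      pow_le_pow_left₀ (norm_nonneg _) (hlt.le.trans (le_abs_self B)) m
    linarith

end Pool.Agent.LGO
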