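import Mathlib
import Pool.Agent.LGO.F.ZTr

/-!
# LGO/F3 (note 3121, engine P3, zero estimate with abstract function data): definitions

The modules `F3/Ab*` are the modules `F/ZPts, ZSg, ZTr, ZLn, ZCt, ZSc, ZFin` with the function `FF` replaced by an abstract function `f`, the periods
`Gam` by an abstract group `Gm`, and `Gen` by `Gn`.  The hypothesis `h : ZD w τ c₁ c₂ N a b` is only a carrier for `w, τ, N` (for the lemmas about `xx`,
`OffN`, `Go`); `c₁ c₂ a b` play no role (`fake`).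

* `PGp w τ N Gm`: `Gm ⊆ Λ²` is a group, contains `(w, w τ)` and `(N Λ)²`, and has `N³` classes modulo `(N Λ)²`.
* `FD`: `f` is periodic, meromorphic on slices, and the order along a line is nearly constant.
* `GX`: `G(x₁, x₂) = R(x₁, x₂) α(x₁)^(2(L₁-1)) α(x₂)^(2(L₂-1)) f(z₁, z₂) f(z₁, - z₂)`, `x = ℘_(NΛ)(z)` (as `GD` in `F/ZG.lean`).
* `rotS`: the symmetry `(z₁, z₂) ↦ (z₂, - z₁)`, `w' = w τ`, `τ' = - 1 / τ`.

PROOFS.  `fake`: `ℤ (w + w τ) + ℤ N w τ = ℤ (w + w τ) + N Λ` because `N w = N (w + w τ) - N w τ`.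
`PGp.rot`: `w τ (- 1 / τ) = - w`; `lat (w τ) (- w) (x, y) = lat w (w τ) (- y, x)`; `cnt`: the image of `H` under `z ↦ (z₂, - z₁)`.
`GX.rot`: exactly `GD.rot` in `F/ZG.lean` (`xx_rot`, `offN_rot`; `f'(z) f'(z₁, - z₂) = f(- z₂, z₁) f(z₂, z₁)` and `f(- z₂, z₁) = f(z₂, - z₁)`).
-/

namespace Pool.Agent.LGO.F3

open Polynomial Pool.Agent.EllSch Pool.Agent.LGO.Mul Pool.Agent.LGO.F Filter Topology Asymptotics
open scoped Polynomial.Bivariate

variable {w τ c₁ c₂ : ℂ} {N : ℕ} {a b : ℤ}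

theorem fake (hw : w ≠ 0) (hi : 0 < τ.im) (hc : NonCM τ) (hN : 1 ≤ N) :
    ZD w τ (w + w * τ) (N * (w * τ)) N 1 1 := by
  have hNr : (0 : ℝ) < N := by exact_mod_cast hN
  have hNz : (1 : ℤ) ≤ N := by exact_mod_cast hN
  refine ⟨hw, hi, hc, hN, ?_, one_ne_zero, one_ne_zero, ?_, ?_, ?_, ?_⟩
  · unfold Ind
    have h2 : (w + w * τ).re * ((N : ℂ) * (w * τ)).im - (w + w * τ).im * ((N : ℂ) * (w * τ)).re =
        (N : ℝ) * (Complex.normSq w * τ.im) := by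
      have e1 : ∀ t : ℂ, ((N : ℂ) * t).re = N * t.re := fun t => by
        rw [← Complex.ofReal_natCast, Complex.re_ofReal_mul]
      have e2 : ∀ t : ℂ, ((N : ℂ) * t).im = N * t.im := fun t => by
        rw [← Complex.ofReal_natCast, Complex.im_ofReal_mul]
      rw [e1, e2, Complex.add_re, Complex.add_im, Complex.mul_re, Complex.mul_im,
        Complex.normSq_apply]
      ring
    rw [h2]
    exact (mul_pos hNr (mul_pos (Complex.normSq_pos.2 hw) hi)).ne'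
  · rw [abs_one]
    exact hNz
  · rw [abs_one]
    exact hNz
  · intro d hd _ _
    exact isUnit_of_dvd_one hd
  · intro z
    constructor
    · rintro ⟨x, hx⟩
      refine ⟨x.1, (0, x.2), ?_⟩
      rw [hx]
      unfold lat
      push_cast
      ring
    · rintro ⟨k, y, hz⟩
      refine ⟨(k + N * y.1, y.2 - y.1), ?_⟩
      rw [hz]
      unfold lat
      push_cast
      ring

/-- a group of periods in `Λ²`, `Λ = ℤ w + ℤ w τ`, of index `N` -/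
structure PGp (w τ : ℂ) (N : ℕ) (Gm : Set (ℂ × ℂ)) : Prop where
  lat₁ : ∀ g ∈ Gm, ∃ x, g.1 = lat w (w * τ) x
  lat₂ : ∀ g ∈ Gm, ∃ x, g.2 = lat w (w * τ) x
  sub : ∀ g ∈ Gm, ∀ g' ∈ Gm, g - g' ∈ Gm
  diag : (w, w * τ) ∈ Gm
  big : ∀ x y : ℤ × ℤ, ((N : ℂ) * lat w (w * τ) x, (N : ℂ) * lat w (w * τ) y) ∈ Gm
  cnt : ∃ H : Finset (ℂ × ℂ), H.card = N ^ 3 ∧ (∀ g ∈ H, g ∈ Gm) ∧
    ∀ g ∈ H, ∀ g' ∈ H, EqN w τ N g g' → g = g'

/-- rotation of a set -/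
def rotS (S : Set (ℂ × ℂ)) : Set (ℂ × ℂ) := {z | (-z.2, z.1) ∈ S}

private theorem AbDef_mul (h : ZD w τ c₁ c₂ N a b) : w * τ * (-1 / τ) = -w := by
  have h0 : τ ≠ 0 := by
    intro h0
    have := h.im
    rw [h0] at this
    simp at this
  field_simp

private theorem AbDef_swap_eval (P : ℂ[X][Y]) (x y : ℂ) :
    (Bivariate.swap P).evalEval x y = P.evalEval y x := by
  have h1 := Bivariate.aevalAeval_swap (R := ℂ) (A := ℂ) x y P
  rw [coe_aevalAeval_eq_evalEval, coe_aevalAeval_eq_evalEval] at h1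
  exact h1

private theorem AbDef_swap_dX (P : ℂ[X][Y]) : dX (Bivariate.swap P) = dY P := by
  unfold dX dY
  rw [Bivariate.swap_swap_apply]

private theorem AbDef_swap_dY (P : ℂ[X][Y]) : dY (Bivariate.swap P) = dX P := rfl

theorem PGp.rot (h : ZD w τ c₁ c₂ N a b) {Gm : Set (ℂ × ℂ)} (hG : PGp w τ N Gm) :
    PGp (w * τ) (-1 / τ) N (rotS Gm) := by
  classical
  have hm := AbDef_mul h
  have e1 : ∀ x : ℤ × ℤ, lat (w * τ) (w * τ * (-1 / τ)) x = lat w (w * τ) (-x.2, x.1) := by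
    intro x
    rw [hm]
    unfold lat
    push_cast
    ring
  have e2 : ∀ x : ℤ × ℤ, lat w (w * τ) x = lat (w * τ) (w * τ * (-1 / τ)) (x.2, -x.1) := by
    intro x
    rw [e1]
    simp
  have e3 : ∀ x : ℤ × ℤ, -lat w (w * τ) x = lat w (w * τ) (-x.1, -x.2) := by
    intro x
    unfold lat
    push_cast
    ring
  refine ⟨?_, ?_, ?_, ?_, ?_, ?_⟩
  · intro g hg
    obtain ⟨x, hx⟩ := hG.lat₂ _ hg
    exact ⟨(x.2, -x.1), by rw [← e2]; exact hx⟩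
  · intro g hg
    obtain ⟨x, hx⟩ := hG.lat₁ _ hg
    refine ⟨(-x.2, x.1), ?_⟩
    rw [e1]
    have h1 : -g.2 = lat w (w * τ) x := hx
    have h2 : g.2 = -lat w (w * τ) x := by rw [← h1, neg_neg]
    rw [h2, e3]
  · intro g hg g' hg'
    have h1 := hG.sub _ hg _ hg'
    have h2 : ((-g.2, g.1) - (-g'.2, g'.1) : ℂ × ℂ) = (-(g - g').2, (g - g').1) := by
      apply Prod.ext
      · simp only [Prod.fst_sub, Prod.snd_sub]
        ring
      · simp only [Prod.fst_sub, Prod.snd_sub]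
    rw [h2] at h1
    exact h1
  · have h1 := hG.diag
    have h2 : ((w, w * τ) : ℂ × ℂ) = (-(w * τ * (-1 / τ)), w * τ) := by rw [hm, neg_neg]
    rw [h2] at h1
    exact h1
  · intro x y
    have h1 := hG.big (y.2, -y.1) (-x.2, x.1)
    have h2 : (((N : ℂ) * lat w (w * τ) (y.2, -y.1), (N : ℂ) * lat w (w * τ) (-x.2, x.1)) : ℂ × ℂ) =
        (-((N : ℂ) * lat (w * τ) (w * τ * (-1 / τ)) y), (N : ℂ) * lat (w * τ) (w * τ * (-1 / τ)) x) := by
      rw [e1, e1, ← mul_neg, e3, neg_neg]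
    rw [h2] at h1
    exact h1
  · obtain ⟨H, hcard, hmem, hinj⟩ := hG.cnt
    have hj : Function.Injective (fun z : ℂ × ℂ => (z.2, -z.1)) := by
      intro z z' hz
      have h1 := congrArg Prod.fst hz
      have h2 := congrArg Prod.snd hz
      simp only at h1 h2
      exact Prod.ext (neg_injective h2) h1
    refine ⟨H.image (fun z : ℂ × ℂ => (z.2, -z.1)), ?_, ?_, ?_⟩
    · rw [Finset.card_image_of_injective _ hj, hcard]
    · intro g hg
      obtain ⟨z, hz, rfl⟩ := Finset.mem_image.1 hg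
      have h1 := hmem z hz
      have h2 : (-(-z.1), z.2) = z := by rw [neg_neg]
      change (-(-z.1), z.2) ∈ Gm
      rw [h2]
      exact h1
    · intro g hg g' hg' hE
      obtain ⟨z, hz, rfl⟩ := Finset.mem_image.1 hg
      obtain ⟨z', hz', rfl⟩ := Finset.mem_image.1 hg'
      obtain ⟨⟨x, hx⟩, ⟨y, hy⟩⟩ := hE
      have h1 : z = z' := by
        apply hinj z hz z' hz'
        refine ⟨⟨(y.2, -y.1), ?_⟩, ⟨(-x.2, x.1), ?_⟩⟩
        · have h3 : -z.1 - -z'.1 = N * lat (w * τ) (w * τ * (-1 / τ)) y := hy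
          rw [e1] at h3
          have h4 : lat w (w * τ) (y.2, -y.1) = -lat w (w * τ) (-y.2, y.1) := by
            rw [e3]
            simp
          rw [h4, mul_neg, ← h3]
          ring
        · have h3 : z.2 - z'.2 = N * lat (w * τ) (w * τ * (-1 / τ)) x := hx
          rw [e1] at h3
          exact h3
      rw [h1]

/-- function data -/
structure FD (w τ : ℂ) (N : ℕ) (Gm Gn : Set (ℂ × ℂ)) (f : ℂ × ℂ → ℂ) (L₁ L₂ E : ℕ) :
    Prop where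
  add : ∀ g ∈ Gm, ∀ z, f (z + g) = f z
  dense : Dense Gn
  slice : ∀ t, Go w τ t → ∀ z, ∀ᶠ y in 𝓝[≠] z, (t, y) ∈ Gn
  mero : ∀ t z, MeromorphicAt (fun y => f (t, y)) z
  line : ∀ (l μ : ℂ) (k : ℕ) (A : Set ℂ), ¬ A.Countable →
    (∀ t ∈ A, ((k : ℤ) : WithTop ℤ) ≤ meromorphicOrderAt (fun y => f (t, y)) (l * t + μ)) →
    (∀ t, Go w τ t → ((k : ℤ) : WithTop ℤ) ≤
      meromorphicOrderAt (fun y => f (t, y)) (l * t + μ) + ((2 * L₂ + E : ℕ) : ℤ)) ∧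
    (l ≠ 0 → ∀ t, Go w τ (l * t + μ) → ((k : ℤ) : WithTop ℤ) ≤
      meromorphicOrderAt (fun r => f (r, l * t + μ)) t + ((2 * L₁ + E : ℕ) : ℤ))

/-- the polynomials `G`, `R`, `α` -/
structure GX (w τ : ℂ) (N : ℕ) (Gn : Set (ℂ × ℂ)) (f : ℂ × ℂ → ℂ) (L₁ L₂ E : ℕ)
    (G R : ℂ[X][Y]) (α : ℂ[X]) : Prop where
  dXG : dX G ≤ 4 * N ^ 2 * L₁ + E
  dYG : dY G ≤ 4 * N ^ 2 * L₂ + E
  R0 : R ≠ 0
  dXR : dX R ≤ E
  dYR : dY R ≤ E
  α0 : α ≠ 0
  αord : ∀ z, OffN w τ N z → meromorphicOrderAt (fun y => α.eval (xx w τ N y)) z ≤ 2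
  eq : ∀ z ∈ Gn, (z.1, -z.2) ∈ Gn →
    R.evalEval (xx w τ N z.1) (xx w τ N z.2) ≠ 0 ∧ α.eval (xx w τ N z.1) ≠ 0 ∧
      α.eval (xx w τ N z.2) ≠ 0 ∧
      G.evalEval (xx w τ N z.1) (xx w τ N z.2) =
        R.evalEval (xx w τ N z.1) (xx w τ N z.2) *
          α.eval (xx w τ N z.1) ^ (2 * (L₁ - 1)) * α.eval (xx w τ N z.2) ^ (2 * (L₂ - 1)) *
          (f z * f (z.1, -z.2))
  bd : ∀ z : ℂ × ℂ, OffN w τ N z.1 → OffN w τ N z.2 →
    (fun y : ℂ × ℂ => G.evalEval (xx w τ N y.1) (xx w τ N y.2)) =O[𝓝[Gn] z] f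

theorem GX.rot (h : ZD w τ c₁ c₂ N a b) {Gn : Set (ℂ × ℂ)} {f f' : ℂ × ℂ → ℂ} {L₁ L₂ E : ℕ}
    {G R : ℂ[X][Y]} {α : ℂ[X]} (g : GX w τ N Gn f L₁ L₂ E G R α) (hf : ∀ z, f (-z) = f z)
    (hGn : ∀ z, -z ∈ Gn ↔ z ∈ Gn) (hf' : ∀ z, f' z = f (-z.2, z.1)) :
    GX (w * τ) (-1 / τ) N (rotS Gn) f' L₂ L₁ E (Bivariate.swap G) (Bivariate.swap R) α := by
  have hxr : xx (w * τ) (-1 / τ) N = xx w τ N := funext fun z => xx_rot h z
  refine ⟨?_, ?_, ?_, ?_, ?_, g.α0, ?_, ?_, ?_⟩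
  · rw [AbDef_swap_dX]
    exact g.dYG
  · rw [AbDef_swap_dY]
    exact g.dXG
  · intro h0
    apply g.R0
    rw [← Bivariate.swap_swap_apply R, h0, map_zero]
  · rw [AbDef_swap_dX]
    exact g.dYR
  · rw [AbDef_swap_dY]
    exact g.dXR
  · intro z hz
    rw [hxr]
    exact g.αord z ((offN_rot h z).1 hz)
  · intro z hz hz'
    have hg1 : (-z.2, z.1) ∈ Gn := hz
    have hg2 : (-z.2, -z.1) ∈ Gn := by
      have h1 : (-(-z.2), z.1) ∈ Gn := hz'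
      rw [← hGn] at h1
      simpa using h1
    obtain ⟨e1, e2, e3, e4⟩ := g.eq (-z.2, z.1) hg1 hg2
    dsimp only at e1 e2 e3 e4
    rw [xx_neg h] at e1 e2 e4
    rw [hxr, AbDef_swap_eval, AbDef_swap_eval, hf', hf']
    refine ⟨e1, e3, e2, ?_⟩
    have hF : f (-(z.1, -z.2).2, (z.1, -z.2).1) = f (-z.2, -z.1) := by
      rw [← hf]
      congr 1
      simp
    rw [hF, e4]
    ring
  · intro z hz1 hz2
    have ho1 : OffN w τ N (-z.2) := (offN_neg h).2 ((offN_rot h _).1 hz2)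
    have ho2 : OffN w τ N z.1 := (offN_rot h _).1 hz1
    have hb := g.bd (-z.2, z.1) ho1 ho2
    have ht : Tendsto (fun y : ℂ × ℂ => (-y.2, y.1)) (𝓝[rotS Gn] z) (𝓝[Gn] (-z.2, z.1)) := by
      rw [tendsto_nhdsWithin_iff]
      constructor
      · have : Continuous (fun y : ℂ × ℂ => (-y.2, y.1)) := by fun_prop
        exact (this.tendsto z).mono_left nhdsWithin_le_nhds
      · filter_upwards [self_mem_nhdsWithin] with y hy
        exact hy
    have hb2 := hb.comp_tendsto ht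
    refine (hb2.congr ?_ ?_)
    · intro y
      rw [hxr, AbDef_swap_eval]
      simp only [Function.comp_apply]
      rw [xx_neg h]
    · intro y
      rw [hf']
      rfl

/-- the group `{P h₂ - Q h₁ | h ∈ Gm}` is `ℤ (P w τ - Q w) + g Λ` -/
def Sl (w τ : ℂ) (Gm : Set (ℂ × ℂ)) (P Q : ℤ) (g : ℕ) : Prop :=
  ∀ z : ℂ, (∃ q ∈ Gm, z = P * q.2 - Q * q.1) ↔
    ∃ (k : ℤ) (y : ℤ × ℤ), z = k * (P * (w * τ) - Q * w) + g * lat w (w * τ) y

end Pool.Agent.LGO.F3
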