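import Mathlib
import Pool.Agent.LGO.F3.AbDef

/-!
# LGO/F3 (zero estimate, abstract): the order along an arc of a multiple factor of `G` (model: `sign` in `F/ZSg.lean`)

Exactly `sign` with `R(xx t, xx y)^(K-1)` replaced by `R(xx t, xx y)` of degree `≤ E` in `xx y` (order `≤ 2 E`): the sum of the two orders is
`≥ e - 2 E - 4 L₂ ≥ e / 2`.
-/

namespace Pool.Agent.LGO.F3

open Polynomial Pool.Agent.EllSch Pool.Agent.LGO.Mul Pool.Agent.LGO.F Filter Topology Asymptotics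
open scoped Polynomial.Bivariate

variable {w τ c₁ c₂ : ℂ} {N : ℕ} {a b : ℤ}

/-- the zeros of a nonzero polynomial in `xx` -/
private theorem AbSg_poly_countable (h : ZD w τ c₁ c₂ N a b) {r : ℂ[X]} (hr : r ≠ 0) :
    {t | OffN w τ N t ∧ r.eval (xx w τ N t) = 0}.Countable := by
  refine ((r.roots.toFinset.finite_toSet.countable).biUnion
    (t := fun c _ => {t | OffN w τ N t ∧ xx w τ N t = c})
    fun c _ => xx_fiber_countable h c).mono ?_
  rintro t ⟨ht, ht0⟩
  simp only [Set.mem_iUnion]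
  refine ⟨xx w τ N t, ?_, ht, rfl⟩
  rw [Finset.mem_coe, Multiset.mem_toFinset, mem_roots hr]
  exact ht0

private theorem AbSg_an (h : ZD w τ c₁ c₂ N a b) (r : ℂ[X]) {z : ℂ} (hz : OffN w τ N z) :
    AnalyticAt ℂ (fun y => r.eval (xx w τ N y)) z := by
  exact (xx_an h hz).aeval_polynomial r

/-- the order of a polynomial in `xx` -/
private theorem AbSg_order (h : ZD w τ c₁ c₂ N a b) {z : ℂ} (hz : OffN w τ N z) (n : ℕ) :
    ∀ r : ℂ[X], r ≠ 0 → r.natDegree = n →
      meromorphicOrderAt (fun y => r.eval (xx w τ N y)) z ≤ ((2 * n : ℕ) : ℤ) := by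
  induction n with
  | zero =>
    intro r hr hn
    obtain ⟨c, rfl⟩ := natDegree_eq_zero.1 hn
    have hc : c ≠ 0 := by
      rintro rfl
      exact hr (map_zero _)
    simp only [eval_C]
    classical
    rw [meromorphicOrderAt_const, if_neg hc]
    simp
  | succ n ih =>
    intro r hr hn
    obtain ⟨c, hc⟩ := IsAlgClosed.exists_root r (by
      intro h0
      have h5 : r.natDegree = 0 := natDegree_eq_of_degree_eq_some h0
      omega)
    obtain ⟨q, rfl⟩ := dvd_iff_isRoot.2 hc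
    have hq : q ≠ 0 := right_ne_zero_of_mul hr
    have hqn : q.natDegree = n := by
      rw [natDegree_mul (X_sub_C_ne_zero c) hq, natDegree_X_sub_C] at hn
      omega
    have h1 := ih q hq hqn
    have h2 : (fun y => ((X - C c) * q).eval (xx w τ N y)) =
        fun y => (xx w τ N y - c) * q.eval (xx w τ N y) := by
      funext y
      rw [eval_mul, eval_sub, eval_X, eval_C]
    have h4 : MeromorphicAt (fun y => xx w τ N y - c) z :=
      ((xx_an h hz).fun_sub analyticAt_const).meromorphicAt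
    rw [h2, fun_meromorphicOrderAt_mul h4 (AbSg_an h q hz).meromorphicAt]
    have h3 := xx_order h hz c
    calc meromorphicOrderAt (fun y => xx w τ N y - c) z +
          meromorphicOrderAt (fun y => q.eval (xx w τ N y)) z
        ≤ (2 : WithTop ℤ) + ((2 * n : ℕ) : ℤ) := add_le_add h3 h1
      _ = ((2 * (n + 1) : ℕ) : ℤ) := by
        have h6 : ((2 * (n + 1) : ℕ) : ℤ) = 2 + ((2 * n : ℕ) : ℤ) := by
          push_cast
          ring
        rw [h6, WithTop.coe_add]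
        rfl

private theorem AbSg_ev (P : ℂ[X][Y]) (x y : ℂ) :
    P.evalEval x y = (P.map (evalRingHom x)).eval y := by
  rw [map_evalRingHom_eval]

/-- the exceptional set -/
private theorem AbSg_bad (h : ZD w τ c₁ c₂ N a b) {R : ℂ[X][Y]} (hR : R ≠ 0) {α : ℂ[X]}
    (hα : α ≠ 0) : ∃ B : Set ℂ, B.Countable ∧ ∀ t, OffN w τ N t → t ∉ B →
      Go w τ t ∧ α.eval (xx w τ N t) ≠ 0 ∧ R.map (evalRingHom (xx w τ N t)) ≠ 0 := by
  have hk : R.leadingCoeff ≠ 0 := leadingCoeff_ne_zero.2 hR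
  refine ⟨{t | ¬ Go w τ t} ∪ ({t | OffN w τ N t ∧ α.eval (xx w τ N t) = 0} ∪
    {t | OffN w τ N t ∧ R.leadingCoeff.eval (xx w τ N t) = 0}),
    (go_countable h).union ((AbSg_poly_countable h hα).union (AbSg_poly_countable h hk)), ?_⟩
  intro t ht htB
  rw [Set.mem_union, Set.mem_union, not_or, not_or] at htB
  obtain ⟨h1, h2, h3⟩ := htB
  refine ⟨not_not.1 h1, fun h4 => h2 ⟨ht, h4⟩, fun h4 => h3 ⟨ht, ?_⟩⟩
  have h5 := congrArg (fun Q : ℂ[X] => Q.coeff R.natDegree) h4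
  simp only [coeff_map, coeff_zero, coe_evalRingHom] at h5
  exact h5

/-- the arithmetic -/
private theorem AbSg_arith {e A B : ℕ} (he : 2 * (A + B) ≤ e) {x y u v : WithTop ℤ}
    (hu : u ≤ (A : ℤ)) (hv : v ≤ (B : ℤ)) (h : ((e : ℤ) : WithTop ℤ) ≤ u + v + (x + y)) :
    (((e / 4 : ℕ) : ℤ) : WithTop ℤ) ≤ x ∨ (((e / 4 : ℕ) : ℤ) : WithTop ℤ) ≤ y := by
  by_contra hcon
  push Not at hcon
  obtain ⟨h1, h2⟩ := hcon
  have hx : x ≠ ⊤ := ne_top_of_lt h1
  have hy : y ≠ ⊤ := ne_top_of_lt h2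
  have hu' : u ≠ ⊤ := ne_top_of_le_ne_top (WithTop.coe_ne_top) hu
  have hv' : v ≠ ⊤ := ne_top_of_le_ne_top (WithTop.coe_ne_top) hv
  lift x to ℤ using hx
  lift y to ℤ using hy
  lift u to ℤ using hu'
  lift v to ℤ using hv'
  rw [WithTop.coe_lt_coe] at h1 h2
  rw [WithTop.coe_le_coe] at hu hv
  have h3 : (e : ℤ) ≤ u + v + (x + y) := by exact_mod_cast h
  have h4 : ((e / 4 : ℕ) : ℤ) * 4 ≤ e := by
    have := Nat.div_mul_le_self e 4
    exact_mod_cast this
  have h5 : (2 : ℤ) * (A + B) ≤ e := by exact_mod_cast he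
  omega

/-- one point of the arc -/
private theorem AbSg_point (h : ZD w τ c₁ c₂ N a b) {Gm Gn : Set (ℂ × ℂ)} {f : ℂ × ℂ → ℂ}
    {L₁ L₂ E : ℕ} {G R : ℂ[X][Y]} {α : ℂ[X]} (s : FD w τ N Gm Gn f L₁ L₂ E)
    (g : GX w τ N Gn f L₁ L₂ E G R α)
    {q : ℂ[X][Y]} {e : ℕ} (hq : q ^ e ∣ G) (he : 4 * E + 8 * L₂ ≤ e) {t y₀ : ℂ}
    (hy : OffN w τ N y₀) (h0 : q.evalEval (xx w τ N t) (xx w τ N y₀) = 0) (hgo : Go w τ t)
    (hα : α.eval (xx w τ N t) ≠ 0) (hR : R.map (evalRingHom (xx w τ N t)) ≠ 0) :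
    (((e / 4 : ℕ) : ℤ) : WithTop ℤ) ≤
        meromorphicOrderAt (fun y => f (t, y)) y₀ ∨
      (((e / 4 : ℕ) : ℤ) : WithTop ℤ) ≤
        meromorphicOrderAt (fun y => f (t, y)) (-y₀) := by
  -- `FF(t, -y)`
  have hneg : meromorphicOrderAt (fun y => f (t, -y)) y₀ =
      meromorphicOrderAt (fun y => f (t, y)) (-y₀) := by
    have h1 : AnalyticAt ℂ (fun y : ℂ => -y) y₀ := analyticAt_id.neg
    have h2 : deriv (fun y : ℂ => -y) y₀ ≠ 0 := by
      rw [deriv_neg]
      norm_num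
    exact meromorphicOrderAt_comp_of_deriv_ne_zero
      (f := fun y => f (t, y)) h1 h2
  rw [← hneg]
  have hm1 : MeromorphicAt (fun y => f (t, y)) y₀ :=
    s.mero t y₀
  have hm2 : MeromorphicAt (fun y => f (t, -y)) y₀ :=
    MeromorphicAt.comp_analyticAt (f := fun y => f (t, y))
      (g := fun y : ℂ => -y) (s.mero t (-y₀)) analyticAt_id.neg
  have han : ∀ P : ℂ[X][Y], AnalyticAt ℂ (fun y => P.evalEval (xx w τ N t) (xx w τ N y)) y₀ := by
    intro P
    have h1 : (fun y => P.evalEval (xx w τ N t) (xx w τ N y)) =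
        fun y => (P.map (evalRingHom (xx w τ N t))).eval (xx w τ N y) :=
      funext fun y => AbSg_ev P _ _
    rw [h1]
    exact AbSg_an h _ hy
  -- the order of `Φ`
  have hΦ : ((e : ℤ) : WithTop ℤ) ≤
      meromorphicOrderAt (fun y => G.evalEval (xx w τ N t) (xx w τ N y)) y₀ := by
    obtain ⟨G', rfl⟩ := hq
    have h1 : (fun y => (q ^ e * G').evalEval (xx w τ N t) (xx w τ N y)) =
        fun y => (q.evalEval (xx w τ N t) (xx w τ N y)) ^ e *
          G'.evalEval (xx w τ N t) (xx w τ N y) := by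
      funext y
      rw [evalEval_mul, evalEval_pow]
    rw [h1, fun_meromorphicOrderAt_mul ((han q).meromorphicAt.fun_pow e) (han G').meromorphicAt,
      fun_meromorphicOrderAt_pow (han q).meromorphicAt]
    have h2 : (1 : WithTop ℤ) ≤
        meromorphicOrderAt (fun y => q.evalEval (xx w τ N t) (xx w τ N y)) y₀ := by
      rw [(han q).meromorphicOrderAt_eq]
      have h3 : analyticOrderAt (fun y => q.evalEval (xx w τ N t) (xx w τ N y)) y₀ ≠ 0 :=
        (han q).analyticOrderAt_ne_zero.2 h0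
      have h4 : (1 : ℕ∞) ≤ analyticOrderAt (fun y => q.evalEval (xx w τ N t) (xx w τ N y)) y₀ :=
        Order.one_le_iff_ne_zero.2 h3
      cases h5 : analyticOrderAt (fun y => q.evalEval (xx w τ N t) (xx w τ N y)) y₀ with
      | top => simp
      | coe m =>
        rw [h5] at h4
        have h6 : 1 ≤ m := by exact_mod_cast h4
        simp only [ENat.map_natCast]
        exact_mod_cast h6
    have h3 : (0 : WithTop ℤ) ≤
        meromorphicOrderAt (fun y => G'.evalEval (xx w τ N t) (xx w τ N y)) y₀ :=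
      (han G').meromorphicOrderAt_nonneg
    have h4 : ((e : ℤ) : WithTop ℤ) ≤
        (e : WithTop ℤ) * meromorphicOrderAt (fun y => q.evalEval (xx w τ N t) (xx w τ N y)) y₀ := by
      cases h5 : meromorphicOrderAt (fun y => q.evalEval (xx w τ N t) (xx w τ N y)) y₀ with
      | top =>
        rcases Nat.eq_zero_or_pos e with rfl | hpos
        · simp
        · have h6 : (e : WithTop ℤ) * ⊤ = ⊤ := by
            rw [WithTop.mul_top]
            exact_mod_cast hpos.ne'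
          rw [h6]
          exact le_top
      | coe m =>
        rw [h5] at h2
        have h6 : (1 : ℤ) ≤ m := by exact_mod_cast h2
        have h7 : (e : ℤ) ≤ e * m := le_mul_of_one_le_right (by positivity) h6
        exact_mod_cast h7
    calc ((e : ℤ) : WithTop ℤ) = (e : ℤ) + 0 := by rw [add_zero]
      _ ≤ _ := add_le_add h4 h3
  -- the equation
  have heq : (fun y => G.evalEval (xx w τ N t) (xx w τ N y)) =ᶠ[𝓝[≠] y₀]
      fun y => (R.evalEval (xx w τ N t) (xx w τ N y)) *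
        ((α.eval (xx w τ N t) ^ (2 * (L₁ - 1))) * (α.eval (xx w τ N y) ^ (2 * (L₂ - 1)))) *
        (f (t, y) * f (t, -y)) := by
    have h1 := s.slice t hgo y₀
    have h2 : ∀ᶠ y in 𝓝[≠] y₀, (t, -y) ∈ Gn := by
      have h3 : Tendsto (fun y : ℂ => -y) (𝓝[≠] y₀) (𝓝[≠] (-y₀)) := by
        rw [tendsto_nhdsWithin_iff]
        constructor
        · exact (continuous_neg.tendsto y₀).mono_left nhdsWithin_le_nhds
        · filter_upwards [self_mem_nhdsWithin] with y hy hy'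
          exact hy (neg_injective hy')
      exact h3.eventually (s.slice t hgo (-y₀))
    filter_upwards [h1, h2] with y h3 h4
    have h5 := (g.eq (t, y) h3 h4).2.2.2
    simp only at h5
    rw [h5]
    ring
  rw [meromorphicOrderAt_congr heq] at hΦ
  have hmR : MeromorphicAt (fun y => R.evalEval (xx w τ N t) (xx w τ N y)) y₀ :=
    (han R).meromorphicAt
  have hmα : MeromorphicAt (fun y => α.eval (xx w τ N y)) y₀ := (AbSg_an h α hy).meromorphicAt
  have hmc : MeromorphicAt (fun _ : ℂ => α.eval (xx w τ N t) ^ (2 * (L₁ - 1))) y₀ :=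
    MeromorphicAt.const _ _
  rw [fun_meromorphicOrderAt_mul (hmR.fun_mul (hmc.fun_mul (hmα.fun_pow _)))
    (hm1.fun_mul hm2), fun_meromorphicOrderAt_mul hmR (hmc.fun_mul (hmα.fun_pow _)),
    fun_meromorphicOrderAt_mul hmc (hmα.fun_pow _), fun_meromorphicOrderAt_mul hm1 hm2,
    fun_meromorphicOrderAt_pow hmα] at hΦ
  have hc0 : meromorphicOrderAt (fun _ : ℂ => α.eval (xx w τ N t) ^ (2 * (L₁ - 1))) y₀ = 0 := by
    classical
    rw [meromorphicOrderAt_const, if_neg (pow_ne_zero _ hα)]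
  rw [hc0, zero_add] at hΦ
  -- bounds
  have hRo : meromorphicOrderAt (fun y => R.evalEval (xx w τ N t) (xx w τ N y)) y₀ ≤
      ((2 * E : ℕ) : ℤ) := by
    have h1 : (fun y => R.evalEval (xx w τ N t) (xx w τ N y)) =
        fun y => (R.map (evalRingHom (xx w τ N t))).eval (xx w τ N y) :=
      funext fun y => AbSg_ev R _ _
    rw [h1]
    refine (AbSg_order h hy _ _ hR rfl).trans ?_
    have h2 : (R.map (evalRingHom (xx w τ N t))).natDegree ≤ E :=
      natDegree_map_le.trans g.dYR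
    have h3 : 2 * (R.map (evalRingHom (xx w τ N t))).natDegree ≤ 2 * E := by omega
    exact_mod_cast h3
  have hpow : ∀ (n m : ℕ) (x : WithTop ℤ), x ≤ ((m : ℕ) : ℤ) →
      (n : WithTop ℤ) * x ≤ ((n * m : ℕ) : ℤ) := by
    intro n m x hx
    have hx' : x ≠ ⊤ := ne_top_of_le_ne_top (WithTop.coe_ne_top) hx
    lift x to ℤ using hx'
    rw [WithTop.coe_le_coe] at hx
    have h1 : (n : ℤ) * x ≤ n * m := mul_le_mul_of_nonneg_left hx (by positivity)
    exact_mod_cast h1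
  have hα1 := hpow (2 * (L₂ - 1)) 2 _ (by
    have := g.αord y₀ hy
    exact_mod_cast this)
  refine AbSg_arith ?_ hRo hα1 hΦ
  omega

theorem sign' (h : ZD w τ c₁ c₂ N a b) {Gm Gn : Set (ℂ × ℂ)} {f : ℂ × ℂ → ℂ} {L₁ L₂ E : ℕ}
    {G R : ℂ[X][Y]} {α : ℂ[X]} (s : FD w τ N Gm Gn f L₁ L₂ E)
    (g : GX w τ N Gn f L₁ L₂ E G R α)
    {q : ℂ[X][Y]} {U : Set ℂ} {ψ : ℂ → ℂ} (hA : Arc w τ N q U ψ) {e : ℕ} (hq : q ^ e ∣ G)
    (he : 4 * E + 8 * L₂ ≤ e) :
    ∃ σ : ℂ, (σ = 1 ∨ σ = -1) ∧ ∃ A ⊆ U, ¬ A.Countable ∧ ∀ t ∈ A,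
      (((e / 4 : ℕ) : ℤ) : WithTop ℤ) ≤
        meromorphicOrderAt (fun y => f (t, y)) (σ * ψ t) := by
  obtain ⟨B, hB, hBt⟩ := AbSg_bad h g.R0 g.α0
  have hU : ¬ U.Countable := by
    intro hc
    obtain ⟨x, hx1, hx2⟩ := (hc.dense_compl ℂ).inter_open_nonempty U hA.op hA.ne
    exact hx2 hx1
  by_contra hcon
  push Not at hcon
  have key : ∀ σ : ℂ, (σ = 1 ∨ σ = -1) → {t ∈ U | (((e / 4 : ℕ) : ℤ) : WithTop ℤ) ≤
      meromorphicOrderAt (fun y => f (t, y)) (σ * ψ t)}.Countable := by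
    intro σ hσ
    by_contra hnc
    obtain ⟨t, ht, hlt⟩ := hcon σ hσ _ (Set.sep_subset _ _) hnc
    exact absurd ht.2 (not_le.2 hlt)
  apply hU
  refine (hB.union ((key 1 (Or.inl rfl)).union (key (-1) (Or.inr rfl)))).mono ?_
  intro t ht
  by_cases htB : t ∈ B
  · exact Or.inl htB
  · right
    obtain ⟨h1, h2⟩ := hA.off t ht
    obtain ⟨h3, h4, h5⟩ := hBt t h1 htB
    rcases AbSg_point h s g hq he h2 (hA.zero t ht) h3 h4 h5 with h6 | h6
    · left
      refine ⟨ht, ?_⟩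
      rw [one_mul]
      exact h6
    · right
      refine ⟨ht, ?_⟩
      rw [neg_one_mul]
      exact h6

end Pool.Agent.LGO.F3
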