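import Mathlib
import Pool.Agent.LGO.F3.AbDef

/-!
# LGO/F3 (zero estimate, abstract): the translates of the arc (model: `order_G`, `translate` in `F/ZTr.lean`)

Exactly the proofs in `F/ZTr.lean`, with `FF_add` replaced by `FD.add`, `gen_slice` by `FD.slice`, `mero_FF` by `FD.mero`, `GD.bd` by `GX.bd`; `Gam` elements are in
`Λ²` by `PGp.lat₁`, `PGp.lat₂`.
-/

namespace Pool.Agent.LGO.F3

open Polynomial Pool.Agent.EllSch Pool.Agent.LGO.Mul Pool.Agent.LGO.F Filter Topology Asymptotics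
open scoped Polynomial.Bivariate

variable {w τ c₁ c₂ : ℂ} {N : ℕ} {a b : ℤ}

/-- orders and `O` -/
private theorem AbTr_order_of_isBigO {f g : ℂ → ℂ} {x : ℂ} (hf : MeromorphicAt f x)
    (hg : MeromorphicAt g x) (h : f =O[𝓝[≠] x] g) :
    meromorphicOrderAt g x ≤ meromorphicOrderAt f x := by
  by_contra hlt
  push Not at hlt
  have hft : meromorphicOrderAt f x ≠ ⊤ := ne_top_of_lt hlt
  have hne : ∀ᶠ y in 𝓝[≠] x, f y ≠ 0 :=
    (meromorphicOrderAt_ne_top_iff_eventually_ne_zero hf).1 hft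
  have hord : 0 < meromorphicOrderAt (g * f⁻¹) x := by
    rw [meromorphicOrderAt_mul hg hf.inv, meromorphicOrderAt_inv]
    cases h1 : meromorphicOrderAt f x with
    | top => exact absurd h1 hft
    | coe n =>
      rw [h1] at hlt
      cases h2 : meromorphicOrderAt g x with
      | top =>
        exact WithTop.coe_lt_top _
      | coe m =>
        rw [h2] at hlt
        have h3 : n < m := by exact_mod_cast hlt
        have h4 : (0 : ℤ) < m + -n := by omega
        exact_mod_cast h4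
  have ht := tendsto_zero_of_meromorphicOrderAt_pos hord
  obtain ⟨C, hC⟩ := h.bound
  have hC' : ∀ᶠ y in 𝓝[≠] x, ‖(g * f⁻¹) y‖ * |C| ≥ 1 := by
    filter_upwards [hC, hne] with y h1 h2
    have h3 : ‖f y‖ ≤ |C| * ‖g y‖ :=
      h1.trans (mul_le_mul_of_nonneg_right (le_abs_self C) (norm_nonneg _))
    have h4 : 0 < ‖f y‖ := norm_pos_iff.2 h2
    rw [Pi.mul_apply, Pi.inv_apply, norm_mul, norm_inv, ge_iff_le]
    calc (1 : ℝ) = ‖f y‖ * ‖f y‖⁻¹ := (mul_inv_cancel₀ h4.ne').symm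
      _ ≤ (|C| * ‖g y‖) * ‖f y‖⁻¹ := mul_le_mul_of_nonneg_right h3 (by positivity)
      _ = ‖g y‖ * ‖f y‖⁻¹ * |C| := by ring
  have ht2 : Tendsto (fun y => ‖(g * f⁻¹) y‖ * |C|) (𝓝[≠] x) (𝓝 (‖(0 : ℂ)‖ * |C|)) :=
    (ht.norm).mul_const _
  rw [norm_zero, zero_mul] at ht2
  have := ge_of_tendsto ht2 hC'
  linarith

/-- a set without accumulation points in it is countable -/
private theorem AbTr_discrete {S : Set ℂ} (h : ∀ x ∈ S, ∀ᶠ y in 𝓝[≠] x, y ∉ S) :
    S.Countable := by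
  have hd : DiscreteTopology S := by
    rw [discreteTopology_subtype_iff]
    intro x hx
    rw [inf_principal_eq_bot]
    exact h x hx
  exact (HereditarilyLindelofSpace.isLindelof S).countable hd

/-- the fibres of a nonconstant analytic function -/
private theorem AbTr_fiber {U : Set ℂ} (hU' : IsPreconnected U) {ψ : ℂ → ℂ}
    (hψ : AnalyticOnNhd ℂ ψ U) (hnc : ∀ c, ∃ t ∈ U, ψ t ≠ c) (c : ℂ) :
    {t ∈ U | ψ t = c}.Countable := by
  refine AbTr_discrete ?_
  rintro x ⟨hxU, hx⟩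
  have h1 : AnalyticAt ℂ (fun t => ψ t - c) x := (hψ x hxU).sub analyticAt_const
  rcases h1.eventually_eq_zero_or_eventually_ne_zero with h2 | h2
  · exfalso
    obtain ⟨t, ht, htc⟩ := hnc c
    have h3 : AnalyticOnNhd ℂ (fun t => ψ t - c) U := fun y hy => (hψ y hy).sub analyticAt_const
    have h4 := h3.eqOn_zero_of_preconnected_of_eventuallyEq_zero hU' hxU h2
    exact htc (sub_eq_zero.1 (h4 ht))
  · filter_upwards [h2] with y hy hy'
    exact hy (sub_eq_zero.2 hy'.2)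

private theorem AbTr_preimage {U : Set ℂ} (hU' : IsPreconnected U) {ψ : ℂ → ℂ}
    (hψ : AnalyticOnNhd ℂ ψ U) (hnc : ∀ c, ∃ t ∈ U, ψ t ≠ c) {B : Set ℂ} (hB : B.Countable) :
    {t ∈ U | ψ t ∈ B}.Countable := by
  refine (hB.biUnion (t := fun c _ => {t ∈ U | ψ t = c}) fun c _ =>
    AbTr_fiber hU' hψ hnc c).mono ?_
  rintro t ⟨ht, htB⟩
  simp only [Set.mem_iUnion]
  exact ⟨ψ t, htB, ht, rfl⟩

private theorem AbTr_shift {B : Set ℂ} (hB : B.Countable) (c : ℂ) : {t : ℂ | t + c ∈ B}.Countable :=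
  hB.preimage (add_left_injective c)

private theorem AbTr_off_countable : {t : ℂ | ¬ OffN w τ N t}.Countable := by
  refine (Set.countable_range fun x : ℤ × ℤ => lat ((N : ℂ) * w) (N * (w * τ)) x).mono ?_
  intro t ht
  obtain ⟨x, hx⟩ := (Basic.not_off_iff _ _ t).1 ht
  exact ⟨x, hx.symm⟩

/-- the zeros of a nonzero polynomial in `xx` -/
private theorem AbTr_poly_countable (h : ZD w τ c₁ c₂ N a b) {r : ℂ[X]} (hr : r ≠ 0) :
    {t | OffN w τ N t ∧ r.eval (xx w τ N t) = 0}.Countable := by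
  refine ((r.roots.toFinset.finite_toSet.countable).biUnion
    (t := fun c _ => {t | OffN w τ N t ∧ xx w τ N t = c})
    fun c _ => xx_fiber_countable h c).mono ?_
  rintro t ⟨ht, ht0⟩
  simp only [Set.mem_iUnion]
  refine ⟨xx w τ N t, ?_, ht, rfl⟩
  rw [Finset.mem_coe, Multiset.mem_toFinset, mem_roots hr]
  exact ht0

private theorem AbTr_iu_mero {a b : ℂ} (h : Ind a b) (z : ℂ) : MeromorphicAt (iu a b) z := by
  by_cases hz : Off a b z
  · exact (analyticOnNhd_wp h z hz).meromorphicAt.inv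
  · obtain ⟨x, rfl⟩ := (Basic.not_off_iff a b z).1 hz
    have h1 : AnalyticAt ℂ (fun u : ℂ => iu a b (u - lat a b x)) (lat a b x) := by
      refine AnalyticAt.fun_comp (f := fun u : ℂ => u - lat a b x) (g := iu a b) ?_ (by fun_prop)
      rw [sub_self]
      exact analyticAt_iu_zero h
    have h2 : (fun u : ℂ => iu a b (u - lat a b x)) = iu a b := by
      funext u
      have h3 := iu_add_lat h (u - lat a b x) x
      rw [sub_add_cancel] at h3
      exact h3.symm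
    rw [h2] at h1
    exact h1.meromorphicAt

private theorem AbTr_xx_mero (h : ZD w τ c₁ c₂ N a b) (z : ℂ) : MeromorphicAt (xx w τ N) z := by
  have h1 := (AbTr_iu_mero h.indN z).inv
  have h2 : (iu (N * w) (N * (w * τ)))⁻¹ = xx w τ N := by
    funext y
    rw [Pi.inv_apply, iu, inv_inv]
    rfl
  rwa [h2] at h1

/-- polynomials in meromorphic functions are meromorphic -/
private theorem AbTr_poly_mero (P : ℂ[X][Y]) {F G : ℂ → ℂ} {z : ℂ} (hF : MeromorphicAt F z)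
    (hG : MeromorphicAt G z) : MeromorphicAt (fun z => P.evalEval (F z) (G z)) z := by
  induction P using Polynomial.induction_on' with
  | add p q hp hq =>
    simp only [evalEval_add]
    exact hp.fun_add hq
  | monomial n a =>
    have e1 : ∀ (r : ℂ[X]) (x y : ℂ), (monomial n r : ℂ[X][Y]).evalEval x y = r.eval x * y ^ n := by
      intro r x y
      rw [← C_mul_X_pow_eq_monomial, evalEval_mul, evalEval_pow, evalEval_X, evalEval_C]
    induction a using Polynomial.induction_on' with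
    | add p q hp hq =>
      simp only [map_add, evalEval_add]
      exact hp.fun_add hq
    | monomial m r =>
      simp only [e1, eval_monomial]
      exact ((MeromorphicAt.const r z).fun_mul (hF.fun_pow m)).fun_mul (hG.fun_pow n)

private theorem AbTr_ev (P : ℂ[X][Y]) (x y : ℂ) :
    P.evalEval x y = (P.map (evalRingHom x)).eval y := by
  rw [map_evalRingHom_eval]

private theorem AbTr_an (h : ZD w τ c₁ c₂ N a b) (P : ℂ[X][Y]) (x : ℂ) {z : ℂ}
    (hz : OffN w τ N z) : AnalyticAt ℂ (fun y => P.evalEval x (xx w τ N y)) z := by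
  have h1 : (fun y => P.evalEval x (xx w τ N y)) =
      fun y => (P.map (evalRingHom x)).eval (xx w τ N y) := funext fun y => AbTr_ev P _ _
  rw [h1]
  exact (xx_an h hz).aeval_polynomial _

private theorem AbTr_not_dvd_pY {P : ℂ[X][Y]} (h : 0 < dY P) : ¬ P ∣ pY P := by
  rintro ⟨R, hR⟩
  have h0 : pY P ≠ 0 := by
    intro h1
    have h2 : P.natDegree = 0 := derivative_eq_zero.1 h1
    unfold dY at h
    omega
  have h2 : dY (pY P) < dY P := by
    unfold dY pY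
    exact natDegree_derivative_lt (by unfold dY at h; omega)
  rw [hR] at h0 h2
  rw [dY_mul (left_ne_zero_of_mul h0) (right_ne_zero_of_mul h0)] at h2
  omega

theorem order_G' (h : ZD w τ c₁ c₂ N a b) {Gm Gn : Set (ℂ × ℂ)} {f : ℂ × ℂ → ℂ}
    {L₁ L₂ E : ℕ} {G R : ℂ[X][Y]} {α : ℂ[X]} (hG : PGp w τ N Gm)
    (s : FD w τ N Gm Gn f L₁ L₂ E) (g : GX w τ N Gn f L₁ L₂ E G R α)
    {t y : ℂ} {k : ℤ} (ht : Go w τ t)
    (hk : ((k : ℤ) : WithTop ℤ) ≤ meromorphicOrderAt (fun y => f (t, y)) y)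
    {q : ℂ × ℂ} (hq : q ∈ Gm) (h1 : OffN w τ N (t + q.1)) (h2 : OffN w τ N (y + q.2)) :
    ((k : ℤ) : WithTop ℤ) ≤ meromorphicOrderAt
      (fun v => G.evalEval (xx w τ N (t + q.1)) (xx w τ N v)) (y + q.2) := by
  have hgo : Go w τ (t + q.1) := by
    obtain ⟨x, hx⟩ := hG.lat₁ q hq
    rw [hx]
    exact (Go.add h x).2 ht
  -- the order of the translate
  have e1 : (fun v => f (t + q.1, v)) =
      fun v => f (t, v - q.2) := by
    funext v
    have h3 := s.add q hq (t, v - q.2)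
    have h4 : (t, v - q.2) + q = (t + q.1, v) :=
      Prod.ext rfl (sub_add_cancel v q.2)
    rw [h4] at h3
    exact h3
  have e2 : meromorphicOrderAt (fun v => f (t, v - q.2)) (y + q.2) =
      meromorphicOrderAt (fun y => f (t, y)) y := by
    have h3 := meromorphicOrderAt_comp_sub_const_eq_meromorphicOrderAt (x := y + q.2) (c := q.2)
      (f := fun y => f (t, y))
    rw [add_sub_cancel_right] at h3
    exact h3
  have hO : (fun v => G.evalEval (xx w τ N (t + q.1)) (xx w τ N v)) =O[𝓝[≠] (y + q.2)]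
      (fun v => f (t + q.1, v)) := by
    have hb := g.bd (t + q.1, y + q.2) h1 h2
    have ht2 : Tendsto (fun v : ℂ => (t + q.1, v)) (𝓝[≠] (y + q.2))
        (𝓝[Gn] (t + q.1, y + q.2)) := by
      rw [tendsto_nhdsWithin_iff]
      constructor
      · have : Continuous fun v : ℂ => (t + q.1, v) := by fun_prop
        exact (this.tendsto _).mono_left nhdsWithin_le_nhds
      · exact s.slice (t + q.1) hgo (y + q.2)
    have h3 := hb.comp_tendsto ht2
    simp only [Function.comp_def] at h3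
    exact h3
  have hO2 := AbTr_order_of_isBigO (AbTr_an h G (xx w τ N (t + q.1)) h2).meromorphicAt
    (s.mero (t + q.1) (y + q.2)) hO
  rw [e1, e2] at hO2
  exact hk.trans hO2

/-- one good point: the multiplicity -/
private theorem AbTr_mult (h : ZD w τ c₁ c₂ N a b) {f H : ℂ[X][Y]} {m k : ℕ} {x₁ v₀ : ℂ}
    (hv : OffN w τ N v₀) (hH : H.evalEval x₁ (xx w τ N v₀) ≠ 0)
    (hf : f.evalEval x₁ (xx w τ N v₀) = 0) (hf' : (pY f).evalEval x₁ (xx w τ N v₀) ≠ 0)
    (hk : ((k : ℤ) : WithTop ℤ) ≤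
      meromorphicOrderAt (fun v => (f ^ m * H).evalEval x₁ (xx w τ N v)) v₀) : k ≤ 2 * m := by
  have h1 : (fun v => (f ^ m * H).evalEval x₁ (xx w τ N v)) =
      fun v => (f.evalEval x₁ (xx w τ N v)) ^ m * H.evalEval x₁ (xx w τ N v) := by
    funext v
    rw [evalEval_mul, evalEval_pow]
  rw [h1, fun_meromorphicOrderAt_mul ((AbTr_an h f x₁ hv).meromorphicAt.fun_pow m)
    (AbTr_an h H x₁ hv).meromorphicAt,
    fun_meromorphicOrderAt_pow (AbTr_an h f x₁ hv).meromorphicAt] at hk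
  have h0 : ∀ {F : ℂ → ℂ}, AnalyticAt ℂ F v₀ → F v₀ ≠ 0 → meromorphicOrderAt F v₀ = 0 := by
    intro F hF hF0
    rw [hF.meromorphicOrderAt_eq, hF.analyticOrderAt_eq_zero.2 hF0]
    rfl
  rw [h0 (AbTr_an h H x₁ hv) hH, add_zero] at hk
  -- the factor
  have hroot : (f.map (evalRingHom x₁)).IsRoot (xx w τ N v₀) := by
    rw [IsRoot, ← AbTr_ev]
    exact hf
  obtain ⟨r, hr⟩ := dvd_iff_isRoot.2 hroot
  have hr0 : r.eval (xx w τ N v₀) ≠ 0 := by
    intro h2
    apply hf'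
    have h3 : (pY f).evalEval x₁ (xx w τ N v₀) =
        (derivative (f.map (evalRingHom x₁))).eval (xx w τ N v₀) := by
      rw [AbTr_ev, pY, derivative_map]
    rw [h3, hr, derivative_mul, eval_add, eval_mul, eval_mul, h2, eval_sub, eval_X, eval_C,
      sub_self]
    ring
  have h2 : (fun v => f.evalEval x₁ (xx w τ N v)) =
      fun v => (xx w τ N v - xx w τ N v₀) * r.eval (xx w τ N v) := by
    funext v
    rw [AbTr_ev, hr, eval_mul, eval_sub, eval_X, eval_C]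
  have h4 : MeromorphicAt (fun v => xx w τ N v - xx w τ N v₀) v₀ :=
    ((xx_an h hv).fun_sub analyticAt_const).meromorphicAt
  have h5 : AnalyticAt ℂ (fun v => r.eval (xx w τ N v)) v₀ := (xx_an h hv).aeval_polynomial r
  have h6 : meromorphicOrderAt (fun v => f.evalEval x₁ (xx w τ N v)) v₀ ≤ 2 := by
    rw [h2, fun_meromorphicOrderAt_mul h4 h5.meromorphicAt, h0 h5 hr0, add_zero]
    exact xx_order h hv _
  have h7 : meromorphicOrderAt (fun v => f.evalEval x₁ (xx w τ N v)) v₀ ≠ ⊤ := by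
    intro h8
    rw [h8] at h6
    exact absurd h6 (by decide)
  generalize meromorphicOrderAt (fun v => f.evalEval x₁ (xx w τ N v)) v₀ = o at hk h6 h7
  lift o to ℤ using h7
  have h8 : o ≤ 2 := WithTop.coe_le_coe.1 h6
  have h9 : (k : ℤ) ≤ m * o := by exact_mod_cast hk
  have h10 : (m : ℤ) * o ≤ m * 2 := mul_le_mul_of_nonneg_left h8 (by positivity)
  omega

/-- the common zeros of two polynomials without common factor -/
private theorem AbTr_elim {f H : ℂ[X][Y]} (hf : Irreducible f) (hd : 0 < dY f) (hH : ¬ f ∣ H) :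
    ∃ r : ℂ[X], r ≠ 0 ∧ ∀ x y : ℂ, f.evalEval x y = 0 → H.evalEval x y = 0 → r.eval x = 0 := by
  obtain ⟨A, B, r, hr, he, -⟩ := elim hf hd hH (dX f) (dX H) (natDegree_coeff_le f)
    (natDegree_coeff_le H)
  refine ⟨r, hr, fun x y h1 h2 => ?_⟩
  have h3 := congrArg (fun P : ℂ[X][Y] => P.evalEval x y) he
  simp only [evalEval_add, evalEval_mul, evalEval_C, h1, h2, mul_zero, add_zero] at h3
  exact h3.symm

/-- the identity theorem -/
private theorem AbTr_ident (h : ZD w τ c₁ c₂ N a b) {U : Set ℂ}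
    (hU' : IsPreconnected U) {φ : ℂ → ℂ} (hφ : AnalyticOnNhd ℂ φ U) {c : ℂ} {f : ℂ[X][Y]}
    {A : Set ℂ} (hAU : A ⊆ U) (hA : ¬ A.Countable)
    (h0 : ∀ t ∈ A, f.evalEval (xx w τ N (t + c)) (xx w τ N (φ t)) = 0) :
    ∀ t ∈ U, OffN w τ N (t + c) → OffN w τ N (φ t) →
      f.evalEval (xx w τ N (t + c)) (xx w τ N (φ t)) = 0 := by
  set F : ℂ → ℂ := fun t => f.evalEval (xx w τ N (t + c)) (xx w τ N (φ t)) with hF
  have hm : MeromorphicOn F U := by
    intro t ht
    refine AbTr_poly_mero f ?_ ?_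
    · exact MeromorphicAt.comp_analyticAt (f := xx w τ N) (g := fun t => t + c)
        (AbTr_xx_mero h _) (by fun_prop)
    · exact MeromorphicAt.comp_analyticAt (f := xx w τ N) (g := φ) (AbTr_xx_mero h _) (hφ t ht)
  have htop : ∀ t ∈ U, meromorphicOrderAt F t = ⊤ := by
    by_contra hcon
    push Not at hcon
    obtain ⟨t₀, ht₀, hne⟩ := hcon
    apply hA
    have h1 : {t ∈ U | F t = 0}.Countable := by
      refine AbTr_discrete ?_
      rintro x ⟨hx, -⟩
      have h2 := hm.meromorphicOrderAt_ne_top_of_isPreconnected hU' ht₀ hx hne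
      have h3 := (meromorphicOrderAt_ne_top_iff_eventually_ne_zero (hm x hx)).1 h2
      filter_upwards [h3] with y hy hy'
      exact hy hy'.2
    refine h1.mono fun t ht => ?_
    exact ⟨hAU ht, h0 t ht⟩
  intro t ht h1 h2
  have h3 := meromorphicOrderAt_eq_top_iff.1 (htop t ht)
  have h4 : ContinuousAt F t := by
    have h5 : AnalyticAt ℂ F t := by
      refine analyticAt_eval f ?_ ?_
      · exact AnalyticAt.fun_comp (f := fun t => t + c) (g := xx w τ N) (xx_an h h1) (by fun_prop)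
      · exact AnalyticAt.fun_comp (f := φ) (g := xx w τ N) (xx_an h h2) (hφ t ht)
    exact h5.continuousAt
  have h5 : Tendsto F (𝓝[≠] t) (𝓝 0) := by
    refine (tendsto_const_nhds (x := (0 : ℂ))).congr' ?_
    filter_upwards [h3] with y hy
    exact hy.symm
  exact tendsto_nhds_unique (h4.tendsto.mono_left nhdsWithin_le_nhds) h5

theorem translate' (h : ZD w τ c₁ c₂ N a b) {Gm Gn : Set (ℂ × ℂ)} {f : ℂ × ℂ → ℂ}
    {L₁ L₂ E : ℕ} {G R : ℂ[X][Y]} {α : ℂ[X]} (hG : PGp w τ N Gm)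
    (s : FD w τ N Gm Gn f L₁ L₂ E) (g : GX w τ N Gn f L₁ L₂ E G R α)
    (hG0 : G ≠ 0) {U : Set ℂ} (hU : IsOpen U) (hU' : IsPreconnected U) {ψ : ℂ → ℂ}
    (hψ : DifferentiableOn ℂ ψ U) (hnc : ∀ c, ∃ t ∈ U, ψ t ≠ c) {σ : ℂ}
    (hσ : σ = 1 ∨ σ = -1)
    {A : Set ℂ} (hAU : A ⊆ U) (hA : ¬ A.Countable) {k : ℕ} (hk0 : 1 ≤ k)
    (hk : ∀ t ∈ A, ((k : ℤ) : WithTop ℤ) ≤
      meromorphicOrderAt (fun y => f (t, y)) (σ * ψ t))
    {q : ℂ × ℂ} (hq : q ∈ Gm) :
    ∃ (p : ℂ[X][Y]) (m : ℕ), Irreducible p ∧ k ≤ 2 * m ∧ p ^ m ∣ G ∧ 0 < dX p ∧ 0 < dY p ∧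
      ∀ t ∈ U, OffN w τ N (t + q.1) → OffN w τ N (σ * ψ t + q.2) →
        p.evalEval (xx w τ N (t + q.1)) (xx w τ N (σ * ψ t + q.2)) = 0 := by
  have hs0 : σ ≠ 0 := by
    rcases hσ with rfl | rfl
    · exact one_ne_zero
    · exact neg_ne_zero.2 one_ne_zero
  set φ : ℂ → ℂ := fun t => σ * ψ t + q.2 with hφd
  have hψa : AnalyticOnNhd ℂ ψ U := hψ.analyticOnNhd hU
  have hφ : AnalyticOnNhd ℂ φ U := fun t ht =>
    (analyticAt_const.mul (hψa t ht)).add analyticAt_const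
  have hφnc : ∀ c, ∃ t ∈ U, φ t ≠ c := by
    intro c
    obtain ⟨t, ht, htc⟩ := hnc ((c - q.2) / σ)
    refine ⟨t, ht, fun h1 => htc ?_⟩
    rw [eq_div_iff hs0, ← h1, hφd]
    ring
  -- the exceptional set
  have hcb : ∀ {B : Set ℂ}, B.Countable → {t ∈ U | φ t ∈ B}.Countable := fun hB =>
    AbTr_preimage hU' hφ hφnc hB
  obtain ⟨A₁, hA₁A, hA₁, hA₁p⟩ : ∃ A₁ ⊆ A, ¬ A₁.Countable ∧ ∀ t ∈ A₁, OffN w τ N (t + q.1) ∧
      OffN w τ N (φ t) ∧ Go w τ t := by
    set B : Set ℂ := {t : ℂ | t + q.1 ∈ {t : ℂ | ¬ OffN w τ N t}} ∪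
      ({t ∈ U | φ t ∈ {t : ℂ | ¬ OffN w τ N t}} ∪ {t | ¬ Go w τ t}) with hBd
    have hB : B.Countable := (AbTr_shift AbTr_off_countable _).union
      ((hcb AbTr_off_countable).union (go_countable h))
    refine ⟨A \ B, Set.sdiff_subset, fun hc => hA ?_, ?_⟩
    · refine (hc.union hB).mono fun t ht => ?_
      by_cases htB : t ∈ B
      · exact Or.inr htB
      · exact Or.inl ⟨ht, htB⟩
    · rintro t ⟨ht, htB⟩
      rw [hBd, Set.mem_union, Set.mem_union, not_or, not_or] at htB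
      obtain ⟨h1, h2, h3⟩ := htB
      refine ⟨not_not.1 h1, ?_, not_not.1 h3⟩
      by_contra h4
      exact h2 ⟨hAU ht, h4⟩
  have hord : ∀ t ∈ A₁, ((k : ℤ) : WithTop ℤ) ≤ meromorphicOrderAt
      (fun v => G.evalEval (xx w τ N (t + q.1)) (xx w τ N v)) (φ t) := by
    intro t ht
    obtain ⟨h1, h2, h3⟩ := hA₁p t ht
    exact order_G' h hG s g h3 (hk t (hA₁A ht)) hq h1 h2
  have hzero : ∀ t ∈ A₁, G.evalEval (xx w τ N (t + q.1)) (xx w τ N (φ t)) = 0 := by
    intro t ht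
    have h1 := hord t ht
    have h2 := AbTr_an h G (xx w τ N (t + q.1)) (hA₁p t ht).2.1
    by_contra h3
    rw [h2.meromorphicOrderAt_eq, h2.analyticOrderAt_eq_zero.2 h3] at h1
    have h4 : ((k : ℤ) : WithTop ℤ) ≤ ((0 : ℤ) : WithTop ℤ) := h1
    rw [WithTop.coe_le_coe] at h4
    omega
  -- the factor
  obtain ⟨S, hSi, hSG⟩ := WfDvdMonoid.exists_factors G hG0
  obtain ⟨P1, hfS, hfA⟩ : ∃ P1 ∈ S, ¬ {t ∈ A₁ |
      P1.evalEval (xx w τ N (t + q.1)) (xx w τ N (φ t)) = 0}.Countable := by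
    by_contra hcon
    push Not at hcon
    apply hA₁
    classical
    refine ((S.toFinset.finite_toSet.countable).biUnion (t := fun P1 _ => {t ∈ A₁ |
      P1.evalEval (xx w τ N (t + q.1)) (xx w τ N (φ t)) = 0}) fun P1 hf =>
      hcon P1 (by simpa using hf)).mono ?_
    intro t ht
    simp only [Set.mem_iUnion]
    have h1 : (S.prod).evalEval (xx w τ N (t + q.1)) (xx w τ N (φ t)) = 0 := by
      obtain ⟨u, hu⟩ := hSG.symm
      rw [← hu, evalEval_mul, hzero t ht, zero_mul]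
    have h2 : ∀ T : Multiset ℂ[X][Y], (T.prod).evalEval (xx w τ N (t + q.1)) (xx w τ N (φ t)) = 0 →
        ∃ P1 ∈ T, P1.evalEval (xx w τ N (t + q.1)) (xx w τ N (φ t)) = 0 := by
      intro T
      induction T using Multiset.induction_on with
      | empty =>
        intro h3
        rw [Multiset.prod_zero, evalEval_one] at h3
        exact absurd h3 one_ne_zero
      | cons x T ih =>
        intro h3
        rw [Multiset.prod_cons, evalEval_mul, mul_eq_zero] at h3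
        rcases h3 with h3 | h3
        · exact ⟨x, Multiset.mem_cons_self x T, h3⟩
        · obtain ⟨P1, hf, hf0⟩ := ih h3
          exact ⟨P1, Multiset.mem_cons_of_mem hf, hf0⟩
    obtain ⟨P1, hf, hf0⟩ := h2 S h1
    exact ⟨P1, by simpa using hf, ht, hf0⟩
  have hfi : Irreducible P1 := hSi P1 hfS
  have hfG : P1 ∣ G := (Multiset.dvd_prod hfS).trans hSG.dvd
  -- multiplicity
  obtain ⟨H, hGH, hfH⟩ : ∃ H, G = P1 ^ (multiplicity P1 G) * H ∧ ¬ P1 ∣ H :=
    (FiniteMultiplicity.of_not_isUnit hfi.not_isUnit hG0).exists_eq_pow_mul_and_not_dvd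
  set m := multiplicity P1 G with hm
  set A₂ : Set ℂ := {t ∈ A₁ | P1.evalEval (xx w τ N (t + q.1)) (xx w τ N (φ t)) = 0} with hA₂
  -- nonzero polynomials in one variable
  have hX : ∀ r : ℂ[X], r ≠ 0 → {t | OffN w τ N (t + q.1) ∧ r.eval (xx w τ N (t + q.1)) = 0}.Countable :=
    fun r hr => AbTr_shift (AbTr_poly_countable h hr) q.1
  have hY : ∀ r : ℂ[X], r ≠ 0 → {t ∈ U | OffN w τ N (φ t) ∧ r.eval (xx w τ N (φ t)) = 0}.Countable :=
    fun r hr => hcb (AbTr_poly_countable h hr)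
  have hdY : 0 < dY P1 := by
    rw [Nat.pos_iff_ne_zero]
    intro h1
    obtain ⟨r, rfl⟩ := eq_C_of_dY_eq_zero h1
    have hr : r ≠ 0 := by
      rintro rfl
      exact hfi.ne_zero (map_zero _)
    refine hfA ((hX r hr).mono ?_)
    rintro t ⟨ht, ht0⟩
    rw [evalEval_C] at ht0
    exact ⟨(hA₁p t ht).1, ht0⟩
  have hdX : 0 < dX P1 := by
    rw [Nat.pos_iff_ne_zero]
    intro h1
    obtain ⟨r, rfl⟩ := eq_map_of_dX_eq_zero h1
    have hr : r ≠ 0 := by
      rintro rfl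
      exact hfi.ne_zero (Polynomial.map_zero _)
    refine hfA ((hY r hr).mono ?_)
    rintro t ⟨ht, ht0⟩
    rw [evalEval_map_C] at ht0
    exact ⟨hAU (hA₁A ht), (hA₁p t ht).2.1, ht0⟩
  obtain ⟨r₁, hr₁, hr₁'⟩ := AbTr_elim hfi hdY hfH
  obtain ⟨r₂, hr₂, hr₂'⟩ := AbTr_elim hfi hdY (AbTr_not_dvd_pY hdY)
  obtain ⟨t, ht, htH, htf⟩ : ∃ t ∈ A₂, H.evalEval (xx w τ N (t + q.1)) (xx w τ N (φ t)) ≠ 0 ∧
      (pY P1).evalEval (xx w τ N (t + q.1)) (xx w τ N (φ t)) ≠ 0 := by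
    by_contra hcon
    push Not at hcon
    refine hfA (((hX r₁ hr₁).union (hX r₂ hr₂)).mono ?_)
    intro t ht
    by_cases h1 : H.evalEval (xx w τ N (t + q.1)) (xx w τ N (φ t)) = 0
    · exact Or.inl ⟨(hA₁p t ht.1).1, hr₁' _ _ ht.2 h1⟩
    · exact Or.inr ⟨(hA₁p t ht.1).1, hr₂' _ _ ht.2 (hcon t ht h1)⟩
  refine ⟨P1, m, hfi, ?_, ⟨H, hGH⟩, hdX, hdY, ?_⟩
  · refine AbTr_mult h (hA₁p t ht.1).2.1 htH ht.2 htf ?_
    rw [← hGH]
    exact hord t ht.1
  · exact AbTr_ident h hU' hφ (A := A₂) (fun t ht => hAU (hA₁A ht.1)) hfA fun t ht => ht.2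

end Pool.Agent.LGO.F3
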