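import Mathlib
import Pool.Agent.LGO.F3.AbTr
import Pool.Agent.LGO.F3.AbSg
import Pool.Agent.LGO.F.ZLn

/-!
# LGO/F3 (zero estimate, abstract): the arc is a straight line (model: `line` in `F/ZLn.lean`)

Exactly `line` (with `exists_sqf`, `QF_dX_le`, `finite_slopes`, `slope`, `card_image`, which are general), `sign'`, `translate'`; `PGp.cnt` replaces `gam_count`;
`dX G ≤ 4 N² L₁ + E ≤ 20 N² L₁` because `E ≤ L₁`.
-/

namespace Pool.Agent.LGO.F3

open Polynomial Pool.Agent.EllSch Pool.Agent.LGO.Mul Pool.Agent.LGO.F Filter Topology Asymptotics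
open scoped Polynomial.Bivariate

variable {w τ c₁ c₂ : ℂ} {N : ℕ} {a b : ℤ}

private theorem AbLn_dX_dvd {P Q : ℂ[X][Y]} (h : P ∣ Q) (hQ : Q ≠ 0) : dX P ≤ dX Q := by
  obtain ⟨R, rfl⟩ := h
  rw [dX_mul (left_ne_zero_of_mul hQ) (right_ne_zero_of_mul hQ)]
  omega

private theorem AbLn_dY_dvd {P Q : ℂ[X][Y]} (h : P ∣ Q) (hQ : Q ≠ 0) : dY P ≤ dY Q := by
  obtain ⟨R, rfl⟩ := h
  rw [dY_mul (left_ne_zero_of_mul hQ) (right_ne_zero_of_mul hQ)]
  omega

/-- the conditions on `t` -/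
private def AbLnGood (w τ : ℂ) (N : ℕ) (σ : ℂ) (ψ : ℂ → ℂ) (H : Finset (ℂ × ℂ)) (t : ℂ) : Prop :=
  ∀ g ∈ H, OffN w τ N (t + g.1) ∧ OffN w τ N (σ * ψ t + g.2)

private theorem AbLn_good_ev (h : ZD w τ c₁ c₂ N a b) {q : ℂ[X][Y]} {U : Set ℂ} {ψ : ℂ → ℂ}
    (hA : Arc w τ N q U ψ) (hnc : ∀ c, ∃ t ∈ U, ψ t ≠ c) {σ : ℂ} (hσ : σ ≠ 0)
    (H : Finset (ℂ × ℂ)) {t₀ : ℂ} (ht₀ : t₀ ∈ U) : ∀ᶠ t in 𝓝[≠] t₀, AbLnGood w τ N σ ψ H t := by
  have han : AnalyticOnNhd ℂ ψ U := hA.dif.analyticOnNhd hA.op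
  have hne : ∀ᶠ t in 𝓝[≠] t₀, ψ t ≠ ψ t₀ := by
    rcases (han t₀ ht₀).eventually_eq_or_eventually_ne (analyticAt_const (v := ψ t₀)) with h1 | h1
    · exfalso
      obtain ⟨t, ht, htne⟩ := hnc (ψ t₀)
      exact htne (han.eqOn_of_preconnected_of_eventuallyEq (fun _ _ => analyticAt_const) hA.pre ht₀ h1 ht)
    · exact h1
  have hcont : Tendsto ψ (𝓝[≠] t₀) (𝓝 (ψ t₀)) :=
    ((han t₀ ht₀).continuousAt.tendsto).mono_left nhdsWithin_le_nhds
  have hev : ∀ g ∈ H, ∀ᶠ t in 𝓝[≠] t₀, OffN w τ N (t + g.1) ∧ OffN w τ N (σ * ψ t + g.2) := by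
    intro g _
    have t1 : Tendsto (fun t : ℂ => t + g.1) (𝓝[≠] t₀) (𝓝[≠] (t₀ + g.1)) := by
      rw [tendsto_nhdsWithin_iff]
      constructor
      · exact ((continuous_id.add continuous_const).tendsto t₀).mono_left nhdsWithin_le_nhds
      · filter_upwards [self_mem_nhdsWithin] with u hu he
        exact hu (add_right_cancel he)
    have t2 : Tendsto (fun t : ℂ => σ * ψ t + g.2) (𝓝[≠] t₀) (𝓝[≠] (σ * ψ t₀ + g.2)) := by
      rw [tendsto_nhdsWithin_iff]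
      constructor
      · exact (hcont.const_mul σ).add_const _
      · filter_upwards [hne] with u hu he
        exact hu (mul_left_cancel₀ hσ (add_right_cancel he))
    exact (t1.eventually (Basic.eventually_off h.indN _)).and
      (t2.eventually (Basic.eventually_off h.indN _))
  exact (Filter.eventually_all_finset H).2 hev

private theorem AbLn_off_open (h : ZD w τ c₁ c₂ N a b) {f : ℂ → ℂ} {t : ℂ} (hf : ContinuousAt f t)
    (ht : OffN w τ N (f t)) : ∀ᶠ r in 𝓝 t, OffN w τ N (f r) :=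
  hf.eventually ((isOpen_off h.indN).mem_nhds ht)

theorem line' (h : ZD w τ c₁ c₂ N a b) {Gm Gn : Set (ℂ × ℂ)} {f : ℂ × ℂ → ℂ} {L₁ L₂ E : ℕ}
    {G R : ℂ[X][Y]} {α : ℂ[X]} (hG : PGp w τ N Gm) (s : FD w τ N Gm Gn f L₁ L₂ E)
    (g : GX w τ N Gn f L₁ L₂ E G R α) (hE₁ : E ≤ L₁) (hE₂ : E ≤ L₂) (hG0 : G ≠ 0)
    {q : ℂ[X][Y]} (hq : Irreducible q)
    (h1 : 0 < dX q) (h2 : 0 < dY q) {U : Set ℂ} {ψ : ℂ → ℂ} (hA : Arc w τ N q U ψ) {e : ℕ}
    (hqe : q ^ e ∣ G) (he : 4 * E + 8 * L₂ ≤ e) (he1 : 16 ≤ e) :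
    e ^ 2 ≤ 10 ^ 7 * N * L₁ * L₂ ∨ ∃ l μ : ℂ, l ≠ 0 ∧ ∀ t ∈ U, ψ t = l * t + μ := by
  classical
  have hN1 := h.N1
  have hnc : ∀ c, ∃ t ∈ U, ψ t ≠ c := branch_not_const h hq h1 hA
  set k : ℕ := e / 4 with hk
  set m : ℕ := (k + 1) / 2 with hm
  have hm1 : 1 ≤ m := by omega
  have hem : e ≤ 10 * m := by omega
  obtain ⟨σ, hσ, A, hAU, hAc, hAo⟩ := sign' h s g hA hqe he
  have hσ0 : σ ≠ 0 := by rcases hσ with rfl | rfl <;> norm_num
  have hσ2 : σ ^ 2 = 1 := by rcases hσ with rfl | rfl <;> norm_num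
  obtain ⟨S, hS0, hSX, hSY, hSf, hSs⟩ := exists_sqf hG0 hm1
  obtain ⟨H, hHc, hHg, hHi⟩ := hG.cnt
  -- `S` vanishes at all the translates
  have hSz : ∀ v ∈ H, ∀ t ∈ U, OffN w τ N (t + v.1) → OffN w τ N (σ * ψ t + v.2) →
      S.evalEval (xx w τ N (t + v.1)) (xx w τ N (σ * ψ t + v.2)) = 0 := by
    intro v hv t ht o1 o2
    obtain ⟨f, m', hf, hkm, hfm, hfX, hfY, hfz⟩ := translate' h hG s g hG0 hA.op hA.pre hA.dif hnc hσ hAU hAc
      (k := k) (by omega) hAo (hHg v hv)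
    have hfS : f ∣ S := hSf f hf hfX hfY ((pow_dvd_pow f (by omega)).trans hfm)
    obtain ⟨T, hT⟩ := hfS
    rw [hT, evalEval_mul, hfz t ht o1 o2, zero_mul]
  have han : AnalyticOnNhd ℂ ψ U := hA.dif.analyticOnNhd hA.op
  set F : ℂ[X] := 4 * X ^ 3 - C (G2 (N * w) (N * (w * τ))) * X - C (G3 (N * w) (N * (w * τ))) with hF
  have hF3 : F.natDegree ≤ 3 := by
    rw [hF]
    compute_degree
  have hF0 : F ≠ 0 := by
    intro h0
    have := congrArg (fun P : ℂ[X] => P.coeff 3) h0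
    simp only [hF, coeff_sub, coeff_zero] at this
    rw [coeff_C_mul, coeff_X, coeff_C] at this
    norm_num at this
  have hQz : ∀ v ∈ H, ∀ t ∈ U, OffN w τ N (t + v.1) → OffN w τ N (σ * ψ t + v.2) →
      (QF F (deriv ψ t ^ 2) S).evalEval (xx w τ N (t + v.1)) (xx w τ N (σ * ψ t + v.2)) = 0 := by
    intro v hv t ht o1 o2
    have hd : HasDerivAt ψ (deriv ψ t) t := (han t ht).differentiableAt.hasDerivAt
    have d1 : HasDerivAt (fun r : ℂ => r + v.1) 1 t := (hasDerivAt_id t).add_const _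
    have d2 : HasDerivAt (fun r : ℂ => σ * ψ r + v.2) (σ * deriv ψ t) t :=
      (hd.const_mul σ).add_const _
    have hz : ∀ᶠ r in 𝓝 t, S.evalEval (xx w τ N (r + v.1)) (xx w τ N (σ * ψ r + v.2)) = 0 := by
      filter_upwards [hA.op.mem_nhds ht, AbLn_off_open h d1.continuousAt o1,
        AbLn_off_open h d2.continuousAt o2] with r r1 r2 r3
      exact hSz v hv r r1 r2 r3
    have := slope h S d1 d2 o1 o2 (by norm_num) hz
    rwa [mul_pow, hσ2, one_mul] at this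
  by_cases hcase : ∃ t ∈ U, AbLnGood w τ N σ ψ H t ∧ IsRelPrime S (QF F (deriv ψ t ^ 2) S)
  · -- Bezout
    left
    obtain ⟨t, ht, hgood, hrel⟩ := hcase
    set Q := QF F (deriv ψ t ^ 2) S with hQ
    have hH0 : H.Nonempty := by
      rw [← Finset.card_pos, hHc]
      exact pow_pos hN1 3
    obtain ⟨v₀, hv₀⟩ := hH0
    have hSnu : ¬ IsUnit S := by
      intro hu
      obtain ⟨T, hT⟩ := hu.exists_right_inv
      have e1 := hSz v₀ hv₀ t ht (hgood v₀ hv₀).1 (hgood v₀ hv₀).2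
      have e2 := congrArg (fun P : ℂ[X][Y] => P.evalEval (xx w τ N (t + v₀.1)) (xx w τ N (σ * ψ t + v₀.2))) hT
      simp only [evalEval_mul, e1, zero_mul] at e2
      rw [show (1 : ℂ[X][Y]) = C 1 from rfl, evalEval_C, eval_one] at e2
      exact zero_ne_one e2
    have hQ0 : Q ≠ 0 := by
      intro h0
      rw [h0, isRelPrime_zero_right] at hrel
      exact hSnu hrel
    -- the points
    set H' : Finset (ℂ × ℂ) := H.image fun v => (t + v.1, σ * ψ t + v.2) with hH'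
    have hinj : Set.InjOn (fun v : ℂ × ℂ => (t + v.1, σ * ψ t + v.2)) H := by
      intro v _ v' _ hvv
      simp only [Prod.mk.injEq, add_right_inj] at hvv
      exact Prod.ext hvv.1 hvv.2
    have hH'c : H'.card = N ^ 3 := by
      rw [hH', Finset.card_image_of_injOn hinj, hHc]
    have hci := card_image h H' (by
      intro v hv
      rw [hH', Finset.mem_image] at hv
      obtain ⟨v', hv', rfl⟩ := hv
      exact hgood v' hv') (by
      intro v hv v' hv' hE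
      rw [hH', Finset.mem_image] at hv hv'
      obtain ⟨u, hu, rfl⟩ := hv
      obtain ⟨u', hu', rfl⟩ := hv'
      have : u = u' := by
        refine hHi u hu u' hu' ⟨?_, ?_⟩
        · obtain ⟨x, hx⟩ := hE.1
          exact ⟨x, by rw [← hx]; ring⟩
        · obtain ⟨x, hx⟩ := hE.2
          exact ⟨x, by rw [← hx]; ring⟩
      rw [this])
    set Z : Finset (ℂ × ℂ) := H'.image fun v => (xx w τ N v.1, xx w τ N v.2) with hZ
    rw [hH'c] at hci
    have hZp : ∀ z ∈ Z, S.evalEval z.1 z.2 = 0 ∧ Q.evalEval z.1 z.2 = 0 := by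
      intro z hz
      rw [hZ, Finset.mem_image] at hz
      obtain ⟨v, hv, rfl⟩ := hz
      rw [hH', Finset.mem_image] at hv
      obtain ⟨u, hu, rfl⟩ := hv
      exact ⟨hSz u hu t ht (hgood u hu).1 (hgood u hu).2, hQz u hu t ht (hgood u hu).1 (hgood u hu).2⟩
    have hvan : ∀ P : ℂ[X][Y], ∀ z : ℂ × ℂ, P.evalEval z.1 z.2 = 0 → Van 1 z.1 z.2 P := by
      intro P z hz i j hij
      have hi : i = 0 := by omega
      have hj : j = 0 := by omega
      subst hi hj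
      rw [cf_zero_zero, hz]
    have hbz := bezout hS0 hQ0 hrel 1 1 Z (fun z hz => hvan S z (hZp z hz).1)
      (fun z hz => hvan Q z (hZp z hz).2)
    obtain ⟨hQX, hQY⟩ := QF_dX_le hF3 (deriv ψ t ^ 2) S
    rw [← hQ] at hQX hQY
    obtain ⟨f, hf, hfS⟩ := WfDvdMonoid.exists_irreducible_factor hSnu hS0
    obtain ⟨f1, f2, -, -⟩ := hSs f hf hfS
    have hX1 : 1 ≤ dX S := f1.trans_le (AbLn_dX_dvd hfS hS0)
    have hY1 : 1 ≤ dY S := f2.trans_le (AbLn_dY_dvd hfS hS0)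
    have hN3 : N ^ 3 ≤ 40 * (dX S * dY S) := by
      have b1 : dX S * dY Q ≤ dX S * (5 * dY S) := Nat.mul_le_mul_left _ (by omega)
      have b2 : dY S * dX Q ≤ dY S * (5 * dX S) := Nat.mul_le_mul_left _ (by omega)
      have b3 : dX S * (5 * dY S) = 5 * (dX S * dY S) := by ring
      have b4 : dY S * (5 * dX S) = 5 * (dX S * dY S) := by ring
      rw [mul_one, mul_one] at hbz
      omega
    have hN2 : 1 ≤ N ^ 2 := Nat.one_le_pow _ _ hN1
    have gX : m * dX S ≤ 20 * N ^ 2 * L₁ := by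
      have c1 : E ≤ 16 * N ^ 2 * L₁ := by
        calc E ≤ 1 * L₁ := by omega
          _ ≤ 16 * N ^ 2 * L₁ := Nat.mul_le_mul_right _ (by omega)
      calc m * dX S ≤ dX G := hSX
        _ ≤ 4 * N ^ 2 * L₁ + E := g.dXG
        _ ≤ 4 * N ^ 2 * L₁ + 16 * N ^ 2 * L₁ := by omega
        _ = 20 * N ^ 2 * L₁ := by ring
    have gY : m * dY S ≤ 20 * N ^ 2 * L₂ := by
      have c1 : E ≤ 16 * N ^ 2 * L₂ := by
        calc E ≤ 1 * L₂ := by omega
          _ ≤ 16 * N ^ 2 * L₂ := Nat.mul_le_mul_right _ (by omega)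
      calc m * dY S ≤ dY G := hSY
        _ ≤ 4 * N ^ 2 * L₂ + E := g.dYG
        _ ≤ 4 * N ^ 2 * L₂ + 16 * N ^ 2 * L₂ := by omega
        _ = 20 * N ^ 2 * L₂ := by ring
    have key : m ^ 2 * N ^ 3 ≤ (16000 * N * L₁ * L₂) * N ^ 3 := by
      calc m ^ 2 * N ^ 3 ≤ m ^ 2 * (40 * (dX S * dY S)) := Nat.mul_le_mul_left _ hN3
        _ = 40 * ((m * dX S) * (m * dY S)) := by ring
        _ ≤ 40 * ((20 * N ^ 2 * L₁) * (20 * N ^ 2 * L₂)) := by gcongr
        _ = (16000 * N * L₁ * L₂) * N ^ 3 := by ring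
    have key2 : m ^ 2 ≤ 16000 * N * L₁ * L₂ := Nat.le_of_mul_le_mul_right key (pow_pos hN1 3)
    calc e ^ 2 ≤ (10 * m) ^ 2 := Nat.pow_le_pow_left hem 2
      _ = 100 * m ^ 2 := by ring
      _ ≤ 100 * (16000 * N * L₁ * L₂) := Nat.mul_le_mul_left _ key2
      _ = 1600000 * (N * L₁ * L₂) := by ring
      _ ≤ 10 ^ 7 * (N * L₁ * L₂) := Nat.mul_le_mul_right _ (by norm_num)
      _ = 10 ^ 7 * N * L₁ * L₂ := by ring
  · -- a straight line
    right
    push Not at hcase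
    have hfin := finite_slopes hF0 hS0 hSs
    set D₀ : Set ℂ := {z : ℂ | ¬ IsRelPrime S (QF F (z ^ 2) S)} with hD
    have hDf : D₀.Finite := by
      have : D₀ = (fun z : ℂ => z ^ 2) ⁻¹' {s : ℂ | ¬ IsRelPrime S (QF F s S)} := rfl
      rw [this]
      refine Set.Finite.preimage' hfin ?_
      intro s _
      have : ((fun z : ℂ => z ^ 2) ⁻¹' {s}) ⊆ {z : ℂ | (X ^ 2 - C s : ℂ[X]).IsRoot z} := by
        intro z hz
        rw [Set.mem_preimage, Set.mem_singleton_iff] at hz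
        rw [Set.mem_ofPred_eq, IsRoot.def, eval_sub, eval_pow, eval_X, eval_C, hz, sub_self]
      refine Set.Finite.subset ?_ this
      exact Polynomial.finite_setOfPred_isRoot (X_pow_sub_C_ne_zero (by norm_num) s)
    have hdcont : ContinuousOn (deriv ψ) U := han.deriv.continuousOn
    have hmem : ∀ t ∈ U, deriv ψ t ∈ D₀ := by
      intro t₀ ht₀
      have hev := AbLn_good_ev h hA hnc hσ0 H ht₀
      have hU : ∀ᶠ t in 𝓝[≠] t₀, t ∈ U := nhdsWithin_le_nhds (hA.op.mem_nhds ht₀)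
      have hc : Tendsto (deriv ψ) (𝓝[≠] t₀) (𝓝 (deriv ψ t₀)) :=
        (hdcont.continuousAt (hA.op.mem_nhds ht₀)).tendsto.mono_left nhdsWithin_le_nhds
      refine hDf.isClosed.mem_of_tendsto hc ?_
      filter_upwards [hev, hU] with t g1 g2
      exact hcase t g2 g1
    obtain ⟨t₀, ht₀⟩ := hA.ne
    have hconst : ∀ t ∈ U, deriv ψ t = deriv ψ t₀ := by
      intro t ht
      have hpre : IsPreconnected (deriv ψ '' U) := hA.pre.image _ hdcont
      have hsub : deriv ψ '' U ⊆ D₀ := by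
        rintro _ ⟨u, hu, rfl⟩
        exact hmem u hu
      have hss : (deriv ψ '' U).Subsingleton :=
        (hDf.subset hsub).countable.isTotallyDisconnected _ (le_refl _) hpre
      exact hss ⟨t, ht, rfl⟩ ⟨t₀, ht₀, rfl⟩
    set l : ℂ := deriv ψ t₀ with hl
    have hlin : ∀ t ∈ U, ψ t - l * t = ψ t₀ - l * t₀ := by
      intro t ht
      have hdd : DifferentiableOn ℂ (fun t => ψ t - l * t) U :=
        hA.dif.sub (differentiableOn_id.const_mul l)
      refine hA.op.is_const_of_deriv_eq_zero hA.pre hdd ?_ ht ht₀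
      intro u hu
      have k1 : HasDerivAt ψ (deriv ψ u) u := (han u hu).differentiableAt.hasDerivAt
      have k2 : HasDerivAt (fun t => ψ t - l * t) (deriv ψ u - l * 1) u :=
        k1.sub ((hasDerivAt_id u).const_mul l)
      rw [k2.deriv, hconst u hu, mul_one, sub_self]
      rfl
    refine ⟨l, ψ t₀ - l * t₀, ?_, fun t ht => by linear_combination hlin t ht⟩
    intro hl0
    obtain ⟨t, ht, hne⟩ := hnc (ψ t₀)
    apply hne
    have := hlin t ht
    rw [hl0] at this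
    linear_combination this

end Pool.Agent.LGO.F3
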