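import Mathlib
import Pool.Agent.LGO.F3.AbDef

/-!
# LGO/F3 (zero estimate, abstract): the points (model: `good_count`, `exists_pts` in `F/ZPts.lean`)

`good_count'`: from `PGp.cnt`: remove the elements with `2 g₁ ∈ N Λ` or `2 g₂ ∈ N Λ` (each at most `4 N²` classes); the proof of `good_count` uses only that the elements are
in `Λ²` and different modulo `(N Λ)²`.  `exists_pts'`: exactly `exists_pts` (`FD.add`, `FD.dense`, `GX.bd`, `card_image`).
-/

namespace Pool.Agent.LGO.F3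

open Polynomial Pool.Agent.EllSch Pool.Agent.LGO.Mul Pool.Agent.LGO.F Filter Topology Asymptotics
open scoped Polynomial.Bivariate

variable {w τ c₁ c₂ : ℂ} {N : ℕ} {a b : ℤ}

/-- few elements have a half period as first or second coordinate -/
private theorem AbPts_bad (h : ZD w τ c₁ c₂ N a b) (H : Finset (ℂ × ℂ))
    (P Q : ℂ × ℂ → ℂ) (hQ : ∀ g ∈ H, ∃ x, Q g = lat w (w * τ) x)
    (hi : ∀ g ∈ H, ∀ g' ∈ H, (∃ x : ℤ × ℤ, P g - P g' = N * lat w (w * τ) x) →
      (∃ x : ℤ × ℤ, Q g - Q g' = N * lat w (w * τ) x) → g = g')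
    (h2 : ∀ g ∈ H, ¬ OffN w τ N (2 * P g)) : H.card ≤ 4 * N ^ 2 := by
  classical
  have : NeZero N := ⟨by have := h.N1; omega⟩
  have k1 : ∀ g ∈ H, ∃ x : ℤ × ℤ, 2 * P g = N * lat w (w * τ) x := by
    intro g hg
    have := h2 g hg
    unfold OffN Off at this
    push Not at this
    obtain ⟨x, hx⟩ := this
    exact ⟨x, by rw [hx, lat_smul]⟩
  choose! p hp using k1
  choose! q hq using hQ
  have hcard : Fintype.card ((ZMod 2 × ZMod 2) × (ZMod N × ZMod N)) = 4 * N ^ 2 := by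
    simp only [Fintype.card_prod, ZMod.card]
    ring
  rw [← hcard, ← Finset.card_univ]
  apply Finset.card_le_card_of_injOn
    (fun g => ((((p g).1 : ZMod 2), ((p g).2 : ZMod 2)), (((q g).1 : ZMod N), ((q g).2 : ZMod N))))
  · intro g _
    exact Finset.mem_coe.2 (Finset.mem_univ _)
  · intro g hg g' hg' hgg
    simp only [Prod.mk.injEq] at hgg
    obtain ⟨⟨f1, f2⟩, ⟨f3, f4⟩⟩ := hgg
    rw [ZMod.intCast_eq_intCast_iff_dvd_sub] at f1 f2 f3 f4
    obtain ⟨d1, hd1⟩ := f1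
    obtain ⟨d2, hd2⟩ := f2
    obtain ⟨d3, hd3⟩ := f3
    obtain ⟨d4, hd4⟩ := f4
    apply hi g hg g' hg'
    · refine ⟨(-d1, -d2), ?_⟩
      have e1 := hp g hg
      have e2 := hp g' hg'
      have e3 : lat w (w * τ) (p g) - lat w (w * τ) (p g') = 2 * lat w (w * τ) (-d1, -d2) := by
        rw [← lat_sub]
        have e4 : p g - p g' = (2 * -d1, 2 * -d2) := by
          apply Prod.ext
          · simp only [Prod.fst_sub]
            push_cast at hd1
            linarith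
          · simp only [Prod.snd_sub]
            push_cast at hd2
            linarith
        rw [e4]
        unfold lat
        push_cast
        ring
      have e5 : (2 : ℂ) * (P g - P g') = 2 * (N * lat w (w * τ) (-d1, -d2)) := by
        linear_combination e1 - e2 + N * e3
      exact mul_left_cancel₀ two_ne_zero e5
    · refine ⟨(-d3, -d4), ?_⟩
      rw [hq g hg, hq g' hg', ← lat_sub]
      have e4 : q g - q g' = (N * -d3, N * -d4) := by
        apply Prod.ext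
        · simp only [Prod.fst_sub]
          linarith
        · simp only [Prod.snd_sub]
          linarith
      rw [e4]
      unfold lat
      push_cast
      ring

theorem good_count' (h : ZD w τ c₁ c₂ N a b) (hN : 16 ≤ N) {Gm : Set (ℂ × ℂ)}
    (hG : PGp w τ N Gm) : ∃ H : Finset (ℂ × ℂ),
    N ^ 3 ≤ 2 * H.card ∧ (∀ g ∈ H, g ∈ Gm ∧ OffN w τ N (2 * g.1) ∧
      OffN w τ N (2 * g.2)) ∧ ∀ g ∈ H, ∀ g' ∈ H, EqN w τ N g g' → g = g' := by
  classical
  have hG0 := hG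
  obtain ⟨H, hc, hG, hi⟩ := hG.cnt
  set B₁ := H.filter fun g => ¬ OffN w τ N (2 * g.1) with hB₁
  set B₂ := H.filter fun g => ¬ OffN w τ N (2 * g.2) with hB₂
  have b₁ : B₁.card ≤ 4 * N ^ 2 := by
    apply AbPts_bad h B₁ (fun g => g.1) (fun g => g.2)
    · intro g hg
      exact hG0.lat₂ g (hG g (Finset.mem_filter.1 hg).1)
    · intro g hg g' hg' e1 e2
      exact hi g (Finset.mem_filter.1 hg).1 g' (Finset.mem_filter.1 hg').1 ⟨e1, e2⟩
    · intro g hg
      exact (Finset.mem_filter.1 hg).2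
  have b₂ : B₂.card ≤ 4 * N ^ 2 := by
    apply AbPts_bad h B₂ (fun g => g.2) (fun g => g.1)
    · intro g hg
      exact hG0.lat₁ g (hG g (Finset.mem_filter.1 hg).1)
    · intro g hg g' hg' e1 e2
      exact hi g (Finset.mem_filter.1 hg).1 g' (Finset.mem_filter.1 hg').1 ⟨e2, e1⟩
    · intro g hg
      exact (Finset.mem_filter.1 hg).2
  refine ⟨H.filter fun g => OffN w τ N (2 * g.1) ∧ OffN w τ N (2 * g.2), ?_, ?_, ?_⟩
  · have h1 : H ⊆ (H.filter fun g => OffN w τ N (2 * g.1) ∧ OffN w τ N (2 * g.2)) ∪ (B₁ ∪ B₂) := by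
      intro g hg
      rw [Finset.mem_union, Finset.mem_union, hB₁, hB₂, Finset.mem_filter, Finset.mem_filter,
        Finset.mem_filter]
      tauto
    have h2 := Finset.card_le_card h1
    have h3 := Finset.card_union_le (H.filter fun g => OffN w τ N (2 * g.1) ∧ OffN w τ N (2 * g.2)) (B₁ ∪ B₂)
    have h4 := Finset.card_union_le B₁ B₂
    have h5 : 16 * N ^ 2 ≤ N ^ 3 := by
      rw [pow_succ N 2, mul_comm]
      exact Nat.mul_le_mul_left _ hN
    omega
  · intro g hg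
    rw [Finset.mem_filter] at hg
    exact ⟨hG g hg.1, hg.2⟩
  · intro g hg g' hg'
    exact hi g (Finset.mem_filter.1 hg).1 g' (Finset.mem_filter.1 hg').1

/-- an estimate on a dense set near a point of continuity extends -/
private theorem AbPts_ext {S : Set (ℂ × ℂ)} (hS : Dense S) {F : ℂ × ℂ → ℂ} {z : ℂ × ℂ} {T : ℕ}
    (hF : ∀ᶠ y in 𝓝 z, ContinuousAt F y) (h : F =O[𝓝[S] z] fun y => ‖y - z‖ ^ T) :
    F =O[𝓝 z] fun y => ‖y - z‖ ^ T := by
  obtain ⟨C, hC⟩ := h.bound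
  rw [eventually_nhdsWithin_iff] at hC
  obtain ⟨U, hU, hUo, hzU⟩ := eventually_nhds_iff.1 (hF.and hC)
  refine IsBigO.of_bound C ?_
  filter_upwards [hUo.mem_nhds hzU] with y hy
  have h1 : (𝓝[U ∩ S] y).NeBot := by
    rw [← mem_closure_iff_nhdsWithin_neBot]
    exact (hS.open_subset_closure_inter hUo) hy
  have h2 : Tendsto (fun x => ‖F x‖) (𝓝[U ∩ S] y) (𝓝 ‖F y‖) :=
    ((hU y hy).1.norm).tendsto.mono_left nhdsWithin_le_nhds
  have h3 : Tendsto (fun x : ℂ × ℂ => C * ‖(‖x - z‖ ^ T : ℝ)‖) (𝓝[U ∩ S] y) (𝓝 (C * ‖(‖y - z‖ ^ T : ℝ)‖)) := by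
    have : Continuous fun x : ℂ × ℂ => C * ‖(‖x - z‖ ^ T : ℝ)‖ := by fun_prop
    exact (this.tendsto y).mono_left nhdsWithin_le_nhds
  refine le_of_tendsto_of_tendsto h2 h3 ?_
  filter_upwards [self_mem_nhdsWithin] with x hx
  exact (hU x hx.1).2 hx.2

theorem exists_pts' (h : ZD w τ c₁ c₂ N a b) (hN : 16 ≤ N) {Gm Gn : Set (ℂ × ℂ)}
    {f : ℂ × ℂ → ℂ} {L₁ L₂ E T : ℕ} {G R : ℂ[X][Y]} {α : ℂ[X]}
    (hG : PGp w τ N Gm) (s : FD w τ N Gm Gn f L₁ L₂ E) (g : GX w τ N Gn f L₁ L₂ E G R α)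
    (hT : f =O[𝓝 0] fun z => ‖z‖ ^ T) :
    ∃ Z : Finset (ℂ × ℂ), N ^ 3 ≤ 8 * Z.card ∧ ∀ q ∈ Z, Van T q.1 q.2 G := by
  obtain ⟨H, hc, hG, hi⟩ := good_count' h hN hG
  have hoff : ∀ t : ℂ, OffN w τ N (2 * t) → OffN w τ N t := by
    intro t ht x hx
    refine ht (2 * x.1, 2 * x.2) ?_
    rw [hx]
    unfold lat
    push_cast
    ring
  have h1 : ∀ g ∈ H, OffN w τ N g.1 ∧ OffN w τ N g.2 := fun g hg =>
    ⟨hoff _ (hG g hg).2.1, hoff _ (hG g hg).2.2⟩
  have h2 := card_image h H h1 hi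
  refine ⟨H.image fun g => (xx w τ N g.1, xx w τ N g.2), by omega, ?_⟩
  intro q hq
  rw [Finset.mem_image] at hq
  obtain ⟨z, hz, rfl⟩ := hq
  obtain ⟨hg, o1, o2⟩ := hG z hz
  obtain ⟨k1, k2⟩ := h1 z hz
  change Van T (xx w τ N z.1) (xx w τ N z.2) G
  have s1 := (xx_deriv h k1).1
  have s2 := (xx_deriv h k2).1
  have s3 := xx_deriv_ne h o1
  have s4 := xx_deriv_ne h o2
  have s6 : ∀ᶠ y in 𝓝 z, ContinuousAt (fun y : ℂ × ℂ => G.evalEval (xx w τ N y.1) (xx w τ N y.2)) y := by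
    have c1 : ∀ᶠ y : ℂ × ℂ in 𝓝 z, OffN w τ N y.1 :=
      (continuous_fst.tendsto z).eventually ((isOpen_off h.indN).mem_nhds k1)
    have c2 : ∀ᶠ y : ℂ × ℂ in 𝓝 z, OffN w τ N y.2 :=
      (continuous_snd.tendsto z).eventually ((isOpen_off h.indN).mem_nhds k2)
    filter_upwards [c1, c2] with y y1 y2
    have d1 : ContinuousAt (fun y : ℂ × ℂ => xx w τ N y.1) y :=
      ContinuousAt.comp (f := Prod.fst) (g := xx w τ N) (xx_an h y1).continuousAt continuousAt_fst
    have d2 : ContinuousAt (fun y : ℂ × ℂ => xx w τ N y.2) y :=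
      ContinuousAt.comp (f := Prod.snd) (g := xx w τ N) (xx_an h y2).continuousAt continuousAt_snd
    have d3 : Continuous fun q : ℂ × ℂ => G.evalEval q.1 q.2 := by
      have : (fun q : ℂ × ℂ => G.evalEval q.1 q.2) = fun q : ℂ × ℂ =>
          ∑ i ∈ Finset.range (dX G + 1), ∑ j ∈ Finset.range (dY G + 1),
            cf G 0 0 i j * (q.1 - 0) ^ i * (q.2 - 0) ^ j := by
        funext q
        exact eval_sum_cf G 0 0 q.1 q.2 _ _ le_rfl le_rfl
      rw [this]
      fun_prop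
    have d4 : ContinuousAt (fun y : ℂ × ℂ => (xx w τ N y.1, xx w τ N y.2)) y := d1.prodMk d2
    exact ContinuousAt.comp (f := fun y : ℂ × ℂ => (xx w τ N y.1, xx w τ N y.2))
      (g := fun q : ℂ × ℂ => G.evalEval q.1 q.2) d3.continuousAt d4
  have s7 : (fun y : ℂ × ℂ => G.evalEval (xx w τ N y.1) (xx w τ N y.2))
      =O[𝓝[Gn] z] fun y => ‖y - z‖ ^ T := by
    refine (g.bd z k1 k2).trans ?_
    have e1 : Tendsto (fun y : ℂ × ℂ => y - z) (𝓝 z) (𝓝 0) := by
      have : Continuous fun y : ℂ × ℂ => y - z := by fun_prop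
      have h3 := this.tendsto z
      rwa [sub_self] at h3
    have e2 := hT.comp_tendsto e1
    have e3 : f =O[𝓝 z] fun y => ‖y - z‖ ^ T := by
      refine IsBigO.congr' e2 ?_ ?_
      · filter_upwards with y
        have := s.add z hg (y - z)
        rw [sub_add_cancel] at this
        exact this.symm
      · filter_upwards with y
        rfl
    exact e3.mono nhdsWithin_le_nhds
  exact van_comp (z := z) s1 s2 s3 s4 (AbPts_ext s.dense s6 s7)

end Pool.Agent.LGO.F3
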