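import Mathlib
import Pool.Agent.LGO.F3.AbDef
import Pool.Agent.LGO.F.ZCt

/-!
# LGO/F3 (zero estimate, abstract): the slice groups

PROOFS.  `exists_g`: `Ψ = {P h₂ - Q h₁ | h ∈ Gm}` is a subgroup of `Λ` (`PGp.sub`), contains `v' = P w τ - Q w` (`diag`) and `P N κ`, `Q N κ`, so `N Λ` (`IsCoprime P Q`,
`big` with one of the two entries `0`).  `v'` is primitive: `P r + Q s = 1`, `κ' = r w + s w τ`: `v', κ'` is a basis of `Λ` (see the proof of `slice_count` in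
`F/ZCt.lean`).  The set of the `m ∈ ℤ` with `m κ' ∈ Ψ + ℤ v' = Ψ` is a subgroup of `ℤ` which contains `N`, so it is `g ℤ` with `g ∣ N`, `1 ≤ g`, and
`Ψ = ℤ v' + g ℤ κ' = ℤ v' + g Λ`.
`slice_count'`: exactly `slice_count` in `F/ZCt.lean` with this `g` (the elements `x v' + g y κ'`, `0 ≤ x < |P| N`, `0 ≤ y < |P| N / g`, are in `Ψ`; choose periods `h ∈ Gm`).
`Sl.rot`: `q' ∈ rotS Gm` iff `q = (- q'₂, q'₁) ∈ Gm`, and `Q q'₂ - (- P) q'₁ = P q₂ - Q q₁`; `Q (w τ (- 1 / τ)) - (- P) (w τ) = P (w τ) - Q w`.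
-/

namespace Pool.Agent.LGO.F3

open Pool.Agent.EllSch Pool.Agent.LGO.Mul Pool.Agent.LGO.F

variable {w τ c₁ c₂ : ℂ} {N : ℕ} {a b : ℤ}

private theorem AbSl_zero {P : ℤ} {M : ℤ} {x y z : ℤ} (hx0 : 0 ≤ x) (hy0 : 0 ≤ y)
    (hx : x < |P| * M) (hy : y < |P| * M) (h : x - y = P * M * z) : x = y := by
  have hM : 0 ≤ |P| * M := (hx0.trans_lt hx).le
  have h1 : |P| * M ∣ x - y := by
    rcases abs_choice P with hP | hP
    · rw [hP]
      exact ⟨z, h⟩
    · rw [hP]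
      exact ⟨-z, by rw [h]; ring⟩
  have h2 : |x - y| < |P| * M := by
    rw [abs_lt]
    constructor
    · omega
    · omega
  have h3 := Int.eq_zero_of_abs_lt_dvd h1 h2
  omega

theorem exists_g (h : ZD w τ c₁ c₂ N a b) {Gm : Set (ℂ × ℂ)} (hG : PGp w τ N Gm) {P Q : ℤ}
    (hPQ : IsCoprime P Q) : ∃ g : ℕ, 1 ≤ g ∧ g ∣ N ∧ Sl w τ Gm P Q g := by
  obtain ⟨r, s, hrs⟩ := hPQ
  have hrsC : (r : ℂ) * P + s * Q = 1 := by exact_mod_cast hrs
  -- the group `Ψ`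
  set Ψ : AddSubgroup ℂ := AddSubgroup.ofSub {z : ℂ | ∃ q ∈ Gm, z = P * q.2 - Q * q.1}
    ⟨_, ⟨_, hG.diag, rfl⟩⟩ (by
      rintro z ⟨q, hq, rfl⟩ z' ⟨q', hq', rfl⟩
      refine ⟨q - q', hG.sub q hq q' hq', ?_⟩
      simp only [Prod.snd_sub, Prod.fst_sub]
      ring) with hΨ
  have hmem : ∀ z : ℂ, z ∈ Ψ ↔ ∃ q ∈ Gm, z = P * q.2 - Q * q.1 := fun z => Iff.rfl
  have hv : (P : ℂ) * (w * τ) - Q * w ∈ Ψ := (hmem _).2 ⟨_, hG.diag, rfl⟩
  have hNx : ∀ x : ℤ × ℤ, (N : ℂ) * lat w (w * τ) x ∈ Ψ := by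
    intro x
    refine (hmem _).2 ⟨_, hG.big (-(s * x.1), -(s * x.2)) (r * x.1, r * x.2), ?_⟩
    simp only [lat]
    push_cast
    linear_combination (-(N : ℂ) * (x.1 * w + x.2 * (w * τ))) * hrsC
  -- the subgroup of the integers `m` with `m κ' ∈ Ψ`
  set κ : ℂ := lat w (w * τ) (r, s) with hκ
  set S : AddSubgroup ℤ := Ψ.comap ((zmultiplesHom ℂ) κ) with hS
  have hSmem : ∀ m : ℤ, m ∈ S ↔ (m : ℂ) * κ ∈ Ψ := by
    intro m
    rw [hS, AddSubgroup.mem_comap, zmultiplesHom_apply, zsmul_eq_mul]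
  obtain ⟨n, hn⟩ : ∃ n : ℕ, ∀ m : ℤ, m ∈ S ↔ (n : ℤ) ∣ m := by
    obtain ⟨g, hg⟩ := Int.subgroup_cyclic S
    refine ⟨g.natAbs, fun m => ?_⟩
    rw [Int.natAbs_dvd, hg, AddSubgroup.mem_closure_singleton]
    constructor
    · rintro ⟨k, rfl⟩
      exact ⟨k, by rw [smul_eq_mul, mul_comm]⟩
    · rintro ⟨k, rfl⟩
      exact ⟨k, by rw [smul_eq_mul, mul_comm]⟩
  have hnN : n ∣ N := by
    rw [← Int.natCast_dvd_natCast, ← hn, hSmem]
    have := hNx (r, s)
    rwa [Int.cast_natCast]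
  have hz : ∀ (k : ℤ) (z : ℂ), z ∈ Ψ → (k : ℂ) * z ∈ Ψ := by
    intro k z hz
    rw [← zsmul_eq_mul]
    exact Ψ.zsmul_mem hz k
  have hnκ : (n : ℂ) * κ ∈ Ψ := by
    have h2 := (hSmem _).1 ((hn (n : ℤ)).2 (dvd_refl _))
    rwa [Int.cast_natCast] at h2
  refine ⟨n, Nat.pos_of_dvd_of_pos hnN h.N1, hnN, ?_⟩
  · intro z
    constructor
    · rintro ⟨q, hq, hzq⟩
      have hzΨ : z ∈ Ψ := (hmem z).2 ⟨q, hq, hzq⟩
      obtain ⟨x, hx⟩ := hG.lat₁ q hq
      obtain ⟨y, hy⟩ := hG.lat₂ q hq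
      -- coordinates of `z`
      set u : ℤ := P * y.1 - Q * x.1 with hu
      set v : ℤ := P * y.2 - Q * x.2 with hv'
      have hzl : z = lat w (w * τ) (u, v) := by
        rw [hzq, hx, hy, hu, hv']
        simp only [lat]
        push_cast
        ring
      have e1 : z = ((r * v - s * u : ℤ) : ℂ) * (P * (w * τ) - Q * w) +
          ((P * u + Q * v : ℤ) : ℂ) * κ := by
        rw [hzl, hκ]
        simp only [lat]
        push_cast
        linear_combination (-((u : ℂ) * w + v * (w * τ))) * hrsC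
      have h2 : ((P * u + Q * v : ℤ) : ℂ) * κ ∈ Ψ := by
        have h3 := Ψ.sub_mem hzΨ (hz (r * v - s * u) _ hv)
        have h4 : z - ((r * v - s * u : ℤ) : ℂ) * (P * (w * τ) - Q * w) =
            ((P * u + Q * v : ℤ) : ℂ) * κ := by
          rw [e1]
          ring
        rwa [h4] at h3
      have h5 : (n : ℤ) ∣ P * u + Q * v := (hn _).1 ((hSmem _).2 h2)
      obtain ⟨t, ht⟩ := h5
      refine ⟨r * v - s * u, (t * r, t * s), ?_⟩
      rw [e1, ht, hκ]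
      simp only [lat]
      push_cast
      ring
    · rintro ⟨k, y, rfl⟩
      rw [← hmem]
      have e1 : (n : ℂ) * lat w (w * τ) y =
          ((n * (r * y.2 - s * y.1) : ℤ) : ℂ) * (P * (w * τ) - Q * w) +
          ((P * y.1 + Q * y.2 : ℤ) : ℂ) * ((n : ℂ) * κ) := by
        rw [hκ]
        simp only [lat]
        push_cast
        linear_combination (-(n : ℂ) * (y.1 * w + y.2 * (w * τ))) * hrsC
      rw [e1]
      exact Ψ.add_mem (hz _ _ hv) (Ψ.add_mem (hz _ _ hv) (hz _ _ hnκ))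

private theorem AbSl_im (h : ZD w τ c₁ c₂ N a b) : τ ≠ 0 := by
  intro h0
  have := h.im
  rw [h0] at this
  simp at this

theorem Sl.rot (h : ZD w τ c₁ c₂ N a b) {Gm : Set (ℂ × ℂ)} {P Q : ℤ} {g : ℕ}
    (hs : Sl w τ Gm P Q g) : Sl (w * τ) (-1 / τ) (rotS Gm) Q (-P) g := by
  have hτ := AbSl_im h
  have hwt : w * τ * (-1 / τ) = -w := by field_simp
  intro z
  rw [hwt]
  constructor
  · rintro ⟨q, hq, hz⟩
    obtain ⟨k, y, hky⟩ := (hs z).1 ⟨(-q.2, q.1), hq, by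
      rw [hz]
      push_cast
      ring⟩
    refine ⟨k, (y.2, -y.1), ?_⟩
    rw [hky]
    simp only [lat]
    push_cast
    ring
  · rintro ⟨k, y, hky⟩
    obtain ⟨q, hq, hz⟩ := (hs z).2 ⟨k, (-y.2, y.1), by
      rw [hky]
      simp only [lat]
      push_cast
      ring⟩
    refine ⟨(q.2, -q.1), ?_, ?_⟩
    · show (- -q.1, q.2) ∈ Gm
      rwa [neg_neg]
    · rw [hz]
      push_cast
      ring

theorem slice_count' (h : ZD w τ c₁ c₂ N a b) {Gm : Set (ℂ × ℂ)} {P Q : ℤ}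
    (hPQ : IsCoprime P Q) (hP : P ≠ 0) {g : ℕ} (hg1 : 1 ≤ g) (hgN : g ∣ N)
    (hs : Sl w τ Gm P Q g) :
    ∃ H : Finset (ℂ × ℂ), (∀ q ∈ H, q ∈ Gm) ∧
      P ^ 2 * N ^ 2 ≤ (g : ℤ) * H.card ∧
      ∀ q ∈ H, ∀ r ∈ H, (∃ x : ℤ × ℤ,
        (P * q.2 - Q * q.1) - (P * r.2 - Q * r.1) = P * (N * lat w (w * τ) x)) → q = r := by
  classical
  obtain ⟨r, s, hrs⟩ := hPQ
  obtain ⟨m, hN'⟩ := hgN
  have hN1 : (0 : ℤ) < N := by
    have := h.N1
    omega
  have hg0 : (0 : ℤ) < g := by omega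
  have hNm : (N : ℤ) = g * m := by exact_mod_cast hN'
  have hPabs : (0 : ℤ) < |P| := abs_pos.2 hP
  have hrsC : (r : ℂ) * P + s * Q = 1 := by exact_mod_cast hrs
  have hex : ∀ t : ℕ × ℕ, ∃ q ∈ Gm,
      lat w (w * τ) (-(Q * t.1) + g * t.2 * r, P * t.1 + g * t.2 * s) = P * q.2 - Q * q.1 := by
    intro t
    refine (hs _).2 ⟨t.1, (t.2 * r, t.2 * s), ?_⟩
    simp only [lat]
    push_cast
    ring
  choose F hFm hF2' using hex
  have hF2 : ∀ t, (P : ℂ) * (F t).2 - Q * (F t).1 =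
      lat w (w * τ) (-(Q * t.1) + g * t.2 * r, P * t.1 + g * t.2 * s) := fun t => (hF2' t).symm
  have hkey : ∀ t ∈ Finset.range (P.natAbs * N) ×ˢ Finset.range (P.natAbs * m),
      ∀ u ∈ Finset.range (P.natAbs * N) ×ˢ Finset.range (P.natAbs * m),
      (∃ x : ℤ × ℤ, ((P : ℂ) * (F t).2 - Q * (F t).1) - (P * (F u).2 - Q * (F u).1) =
        P * (N * lat w (w * τ) x)) → t = u := by
    intro t ht u hu
    rintro ⟨x, hx⟩
    rw [Finset.mem_product, Finset.mem_range, Finset.mem_range] at ht hu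
    have e1 : (P : ℂ) * (N * lat w (w * τ) x) = lat w (w * τ) (P * N * x.1, P * N * x.2) := by
      simp only [lat]
      push_cast
      ring
    rw [hF2, hF2, ← lat_sub, e1] at hx
    have h2 := lat_injective h.ind1 hx
    have h3 := congrArg Prod.fst h2
    have h4 := congrArg Prod.snd h2
    simp only [Prod.fst_sub, Prod.snd_sub] at h3 h4
    have h5 : (t.1 : ℤ) - u.1 = P * N * (r * x.2 - s * x.1) := by
      linear_combination r * h4 - s * h3 - ((t.1 : ℤ) - u.1) * hrs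
    have h6 : (g : ℤ) * t.2 - g * u.2 = P * N * (P * x.1 + Q * x.2) := by
      linear_combination P * h3 + Q * h4 - ((g : ℤ) * t.2 - g * u.2) * hrs
    have t1 : (t.1 : ℤ) < |P| * N := by
      rw [← Int.natCast_natAbs]
      exact_mod_cast ht.1
    have u1 : (u.1 : ℤ) < |P| * N := by
      rw [← Int.natCast_natAbs]
      exact_mod_cast hu.1
    have t2 : (g : ℤ) * t.2 < |P| * N := by
      have h7 : (t.2 : ℤ) < |P| * m := by
        rw [← Int.natCast_natAbs]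
        exact_mod_cast ht.2
      calc (g : ℤ) * t.2 < g * (|P| * m) := mul_lt_mul_of_pos_left h7 hg0
        _ = |P| * N := by rw [hNm]; ring
    have u2 : (g : ℤ) * u.2 < |P| * N := by
      have h7 : (u.2 : ℤ) < |P| * m := by
        rw [← Int.natCast_natAbs]
        exact_mod_cast hu.2
      calc (g : ℤ) * u.2 < g * (|P| * m) := mul_lt_mul_of_pos_left h7 hg0
        _ = |P| * N := by rw [hNm]; ring
    have h8 := AbSl_zero (by positivity) (by positivity) t1 u1 h5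
    have h9 := AbSl_zero (by positivity) (by positivity) t2 u2 h6
    have h10 := mul_left_cancel₀ hg0.ne' h9
    ext
    · exact_mod_cast h8
    · exact_mod_cast h10
  have hinj : Set.InjOn F (Finset.range (P.natAbs * N) ×ˢ Finset.range (P.natAbs * m) :
      Finset (ℕ × ℕ)) := by
    intro t ht u hu htu
    refine hkey t (by exact_mod_cast ht) u (by exact_mod_cast hu) ⟨0, ?_⟩
    rw [htu, sub_self, lat_zero, mul_zero, mul_zero]
  refine ⟨(Finset.range (P.natAbs * N) ×ˢ Finset.range (P.natAbs * m)).image F, ?_, ?_, ?_⟩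
  · intro q hq
    obtain ⟨t, -, rfl⟩ := Finset.mem_image.1 hq
    exact hFm t
  · rw [Finset.card_image_of_injOn hinj, Finset.card_product, Finset.card_range, Finset.card_range]
    push_cast
    have e2 : P ^ 2 = |P| * |P| := by rw [← sq, sq_abs]
    apply le_of_eq
    calc P ^ 2 * (N : ℤ) ^ 2 = |P| * |P| * N * N := by rw [e2]; ring
      _ = |P| * |P| * N * (g * m) := by rw [← hNm]
      _ = _ := by ring
  · intro q hq q' hq' hx
    obtain ⟨t, ht, rfl⟩ := Finset.mem_image.1 hq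
    obtain ⟨u, hu, rfl⟩ := Finset.mem_image.1 hq'
    rw [hkey t ht u hu hx]

end Pool.Agent.LGO.F3
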