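import Mathlib
import Pool.Agent.LGO.F3.AbTr
import Pool.Agent.LGO.F3.AbSl
import Pool.Agent.LGO.F.ZSc

/-!
# LGO/F3 (zero estimate, abstract): zeros of `G` on a slice (model: `slice` in `F/ZSc.lean`)

Exactly `slice` with `slice_count'` and `order_G'`.
-/

namespace Pool.Agent.LGO.F3

open Polynomial Pool.Agent.EllSch Pool.Agent.LGO.Mul Pool.Agent.LGO.F Filter Topology Asymptotics
open scoped Polynomial.Bivariate

variable {w τ c₁ c₂ : ℂ} {N : ℕ} {a b : ℤ}

private theorem AbSc_lat (N : ℕ) (w τ : ℂ) (x : ℤ × ℤ) :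
    lat (N * w) (N * (w * τ)) x = N * lat w (w * τ) x := by
  unfold lat
  ring

/-- a good point of the first coordinate -/
private theorem AbSc_point (h : ZD w τ c₁ c₂ N a b) {G : ℂ[X][Y]} (hG : G ≠ 0) :
    ∃ c, Go w τ c ∧ G.map (evalRingHom (xx w τ N c)) ≠ 0 := by
  classical
  have hlc : G.leadingCoeff ≠ 0 := leadingCoeff_ne_zero.2 hG
  set B : Set ℂ := {t | ¬ Go w τ t} ∪
    ⋃ x ∈ G.leadingCoeff.roots.toFinset, {t | OffN w τ N t ∧ xx w τ N t = x} with hB
  have hBc : B.Countable := by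
    refine (go_countable h).union ?_
    refine Set.Countable.biUnion (Finset.countable_toSet _) fun x _ => xx_fiber_countable h x
  have hne : B ≠ Set.univ := by
    intro h0
    rw [h0] at hBc
    exact not_countable_complex hBc
  obtain ⟨c, hc⟩ := (Set.ne_univ_iff_exists_notMem _).1 hne
  have hGo : Go w τ c := by
    by_contra h1
    exact hc (Or.inl h1)
  refine ⟨c, hGo, fun h0 => hc (Or.inr ?_)⟩
  have h1 := congrArg (fun p : ℂ[X] => p.coeff G.natDegree) h0
  simp only [coeff_map, coeff_zero, coe_evalRingHom, coeff_natDegree] at h1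
  refine Set.mem_biUnion (x := xx w τ N c) ?_ ⟨offN_of_off h hGo.1, rfl⟩
  rw [Finset.mem_coe, Multiset.mem_toFinset, mem_roots hlc]
  exact h1

/-- the order at a point is at most twice the multiplicity -/
private theorem AbSc_order (h : ZD w τ c₁ c₂ N a b) {F : ℂ[X]} (hF : F ≠ 0) {y : ℂ}
    (hy : OffN w τ N y) {k : ℕ}
    (hk : ((k : ℤ) : WithTop ℤ) ≤ meromorphicOrderAt (fun v => F.eval (xx w τ N v)) y) :
    k ≤ 2 * F.rootMultiplicity (xx w τ N y) := by
  obtain ⟨S, hS, hSn⟩ := exists_eq_pow_rootMultiplicity_mul_and_not_dvd F hF (xx w τ N y)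
  set m := F.rootMultiplicity (xx w τ N y) with hm
  have hSy : S.eval (xx w τ N y) ≠ 0 := fun h0 => hSn (dvd_iff_isRoot.2 h0)
  have hx := xx_an h hy
  have h1 : AnalyticAt ℂ (fun v => xx w τ N v - xx w τ N y) y := hx.sub analyticAt_const
  have h2 : AnalyticAt ℂ (fun v => S.eval (xx w τ N v)) y := by
    have := AnalyticAt.aeval_polynomial hx S
    simpa only [coe_aeval_eq_eval] using this
  have h3 : (fun v => F.eval (xx w τ N v)) =
      (fun v => xx w τ N v - xx w τ N y) ^ m * (fun v => S.eval (xx w τ N v)) := by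
    funext v
    conv_lhs => rw [hS]
    simp only [eval_mul, eval_pow, eval_sub, eval_X, eval_C, Pi.mul_apply, Pi.pow_apply]
  have h4 : meromorphicOrderAt (fun v => S.eval (xx w τ N v)) y = 0 := by
    rw [h2.meromorphicOrderAt_eq, (h2.analyticOrderAt_eq_zero).2 hSy]
    rfl
  have h5 := xx_order h hy (xx w τ N y)
  rw [h3, meromorphicOrderAt_mul (h1.meromorphicAt.pow m) h2.meromorphicAt, h4, add_zero,
    meromorphicOrderAt_pow h1.meromorphicAt] at hk
  obtain ⟨i, hi⟩ : ∃ i : ℤ, meromorphicOrderAt (fun v => xx w τ N v - xx w τ N y) y = i := by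
    have : meromorphicOrderAt (fun v => xx w τ N v - xx w τ N y) y ≠ ⊤ := by
      intro h0
      rw [h0] at h5
      exact absurd h5 (by decide)
    exact ⟨_, (WithTop.coe_untop _ this).symm⟩
  rw [hi] at h5 hk
  have h5' : ((i : ℤ) : WithTop ℤ) ≤ ((2 : ℤ) : WithTop ℤ) := h5
  have h6 : i ≤ 2 := WithTop.coe_le_coe.1 h5'
  have h7 : (k : ℤ) ≤ m * i := by exact_mod_cast hk
  have h8 : (m : ℤ) * i ≤ m * 2 := mul_le_mul_of_nonneg_left h6 (Int.natCast_nonneg m)
  have h9 : (k : ℤ) ≤ m * 2 := h7.trans h8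
  omega

theorem slice' (h : ZD w τ c₁ c₂ N a b) (hN : 16 ≤ N) {Gm Gn : Set (ℂ × ℂ)}
    {f : ℂ × ℂ → ℂ} {L₁ L₂ E : ℕ} {G R : ℂ[X][Y]} {α : ℂ[X]} (hG : PGp w τ N Gm)
    (s : FD w τ N Gm Gn f L₁ L₂ E) (g : GX w τ N Gn f L₁ L₂ E G R α)
    (hG0 : G ≠ 0) {P Q : ℤ} (hPQ : IsCoprime P Q) (hP : P ≠ 0) {d : ℕ} (hd1 : 1 ≤ d)
    (hdN : d ∣ N) (hs : Sl w τ Gm P Q d) {l μ : ℂ} (hl : l * P = Q) {k : ℕ}
    (hk : ∀ t, Go w τ t → ((k : ℤ) : WithTop ℤ) ≤
      meromorphicOrderAt (fun y => f (t, y)) (l * t + μ)) :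
    (k : ℤ) * (P ^ 2 * N ^ 2) ≤ 8 * (d : ℤ) * dY G := by
  classical
  obtain ⟨H, hHG, hHc, hHi⟩ := slice_count' h hPQ hP hd1 hdN hs
  obtain ⟨c, hc, hGc⟩ := AbSc_point h hG0
  have hPc : (P : ℂ) ≠ 0 := Int.cast_ne_zero.2 hP
  set F : ℂ[X] := G.map (evalRingHom (xx w τ N c)) with hF
  set y : ℂ × ℂ → ℂ := fun q => l * (c - q.1) + μ + q.2 with hy
  -- the points are different modulo `N Λ`
  have hdiff : ∀ q ∈ H, ∀ r ∈ H, (∃ x : ℤ × ℤ, y q - y r = N * lat w (w * τ) x) → q = r := by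
    rintro q hq r hr ⟨x, hx⟩
    refine hHi q hq r hr ⟨x, ?_⟩
    rw [← hx, hy, ← hl]
    ring
  -- the points off `N Λ`
  set H' := H.filter (fun q => OffN w τ N (y q)) with hH'
  have hH'c : H.card ≤ H'.card + 1 := by
    have h1 : (H.filter (fun q => ¬ OffN w τ N (y q))).card ≤ 1 := by
      rw [Finset.card_le_one]
      intro q hq r hr
      obtain ⟨hq1, hq2⟩ := Finset.mem_filter.1 hq
      obtain ⟨hr1, hr2⟩ := Finset.mem_filter.1 hr
      unfold OffN Off at hq2 hr2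
      push Not at hq2 hr2
      obtain ⟨x, hx⟩ := hq2
      obtain ⟨x', hx'⟩ := hr2
      refine hdiff q hq1 r hr1 ⟨x - x', ?_⟩
      rw [hx, hx', AbSc_lat, AbSc_lat, lat_sub]
      ring
    have h2 := Finset.card_filter_add_card_filter_not (s := H) (fun q => OffN w τ N (y q))
    rw [← hH'] at h2
    omega
  -- the zeros
  set Z := H'.image (fun q => xx w τ N (y q)) with hZ
  have hZc : H'.card ≤ 2 * Z.card := by
    refine Finset.card_le_mul_card_image _ 2 fun z hz => ?_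
    by_contra hcon
    rw [not_le] at hcon
    obtain ⟨q, hq, r, hr, s₀, hs₀, hqr, hqs, hrs⟩ := Finset.two_lt_card.1 hcon
    obtain ⟨hq0, hq2⟩ := Finset.mem_filter.1 hq
    obtain ⟨hr0, hr2⟩ := Finset.mem_filter.1 hr
    obtain ⟨hs0, hs2⟩ := Finset.mem_filter.1 hs₀
    obtain ⟨hq1, hqo⟩ := Finset.mem_filter.1 hq0
    obtain ⟨hr1, hro⟩ := Finset.mem_filter.1 hr0
    obtain ⟨hs1, hso⟩ := Finset.mem_filter.1 hs0
    have e1 := xx_eq h hqo hro (hq2.trans hr2.symm)
    have e2 := xx_eq h hqo hso (hq2.trans hs2.symm)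
    rcases e1 with e1 | ⟨x, hx⟩
    · exact hqr (hdiff q hq1 r hr1 e1)
    · rcases e2 with e2 | ⟨x', hx'⟩
      · exact hqs (hdiff q hq1 s₀ hs1 e2)
      · refine hrs (hdiff r hr1 s₀ hs1 ⟨x - x', ?_⟩)
        rw [lat_sub, mul_sub, ← hx, ← hx']
        ring
  -- the multiplicities
  have hmult : ∀ z ∈ Z, k ≤ 2 * F.rootMultiplicity z := by
    intro z hz
    obtain ⟨q, hq, rfl⟩ := Finset.mem_image.1 hz
    obtain ⟨hq1, hqo⟩ := Finset.mem_filter.1 hq
    have hgam := hHG q hq1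
    obtain ⟨x, hx⟩ := hG.lat₁ q hgam
    have hgo : Go w τ (c - q.1) := by
      rw [← Go.add h x, ← hx, sub_add_cancel]
      exact hc
    have h1 := order_G' h hG s g hgo (hk _ hgo) (hHG q hq1)
      (by rw [sub_add_cancel]; exact offN_of_off h hc.1) hqo
    rw [sub_add_cancel] at h1
    refine AbSc_order h hGc hqo ?_
    refine h1.trans (le_of_eq ?_)
    congr 1
    funext v
    rw [hF, map_evalRingHom_eval]
  have hsum : ∑ z ∈ Z, F.rootMultiplicity z ≤ dY G := by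
    have h1 : ∑ z ∈ Z, F.rootMultiplicity z ≤ ∑ z ∈ Z ∪ F.roots.toFinset, F.roots.count z := by
      simp_rw [count_roots]
      exact Finset.sum_le_sum_of_subset Finset.subset_union_left
    rw [Multiset.sum_count_eq_card (fun a ha => Finset.mem_union_right _ (Multiset.mem_toFinset.2 ha))]
      at h1
    refine h1.trans ((card_roots' F).trans ?_)
    exact natDegree_map_le
  have hkZ : k * Z.card ≤ 2 * dY G := by
    calc k * Z.card = ∑ z ∈ Z, k := by rw [Finset.sum_const, smul_eq_mul, mul_comm]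
      _ ≤ ∑ z ∈ Z, 2 * F.rootMultiplicity z := Finset.sum_le_sum hmult
      _ = 2 * ∑ z ∈ Z, F.rootMultiplicity z := by rw [Finset.mul_sum]
      _ ≤ 2 * dY G := Nat.mul_le_mul_left _ hsum
  -- the size of `H`
  have hg1 : (d : ℤ) ≤ N := by
    exact_mod_cast Nat.le_of_dvd (by omega) hdN
  have hP2 : (1 : ℤ) ≤ P ^ 2 := by
    have := sq_pos_of_ne_zero hP
    omega
  have hN0 : (16 : ℤ) ≤ N := by exact_mod_cast hN
  have hHN : (N : ℤ) ≤ H.card := by
    have h1 : (N : ℤ) * N ≤ N * H.card := by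
      calc (N : ℤ) * N = 1 * N ^ 2 := by ring
        _ ≤ P ^ 2 * N ^ 2 := mul_le_mul_of_nonneg_right hP2 (by positivity)
        _ ≤ (d : ℤ) * H.card := hHc
        _ ≤ N * H.card := mul_le_mul_of_nonneg_right hg1 (by positivity)
    exact le_of_mul_le_mul_left h1 (by omega)
  have hH4 : H.card ≤ 4 * Z.card := by omega
  have h8 : (k : ℤ) * H.card ≤ 8 * dY G := by
    have h1 : k * H.card ≤ 8 * dY G := by
      calc k * H.card ≤ k * (4 * Z.card) := Nat.mul_le_mul_left _ hH4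
        _ = 4 * (k * Z.card) := by ring
        _ ≤ 4 * (2 * dY G) := Nat.mul_le_mul_left _ hkZ
        _ = 8 * dY G := by ring
    exact_mod_cast h1
  calc (k : ℤ) * (P ^ 2 * N ^ 2) ≤ k * ((d : ℤ) * H.card) :=
        mul_le_mul_of_nonneg_left hHc (by positivity)
    _ = (d : ℤ) * (k * H.card) := by ring
    _ ≤ (d : ℤ) * (8 * dY G) := mul_le_mul_of_nonneg_left h8 (by positivity)
    _ = 8 * (d : ℤ) * dY G := by ring

end Pool.Agent.LGO.F3
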