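import Mathlib
import Pool.Agent.LGO.F3.AbPts
import Pool.Agent.LGO.F3.AbLn
import Pool.Agent.LGO.F3.AbSc
import Pool.Agent.LGO.F.ZSl
import Pool.Agent.LGO.F.Der

/-!
# LGO/F3 (zero estimate, abstract): the zero estimate for abstract function data (model: `F/ZFin.lean`)

Exactly `caseA'`, `horiz`, `obliq`, `zest` of `F/ZFin.lean`: `exists_pts'`, `sign'`, `line'`, `slice'`, `FD.line` (in place of `line_FF`), `slope_rat`, `const_branch`, `exists_branch`,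
`caseA`.  The rotated data are the hypotheses `s'`, `g'` (with `PGp.rot`, `Sl.rot`; `hf'` replaces `FF_rot`).  For a slope `l' P = Q'` take `g` from `exists_g` for `(P, Q')`; the
second inequality is `slice'` for the rotated data and `(Q', - P)` with the SAME `g` (`Sl.rot`).  For the horizontal case `P = 1`, `Q = 0`; for `dY q = 0` the rotated horizontal case,
`P = 0`, `Q = 1`: `Sl w τ Gm 0 1 g` with its rotation `Sl (w τ) (- 1 / τ) (rotS Gm) 1 0 g`.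
Errors: `FD.line` loses `2 L + E ≤ 3 L`.
-/

namespace Pool.Agent.LGO.F3

open Polynomial Pool.Agent.EllSch Pool.Agent.LGO.Mul Pool.Agent.LGO.F Filter Topology Asymptotics
open scoped Polynomial.Bivariate

variable {w τ c₁ c₂ : ℂ} {N : ℕ} {a b : ℤ} {Gm Gn Gn' : Set (ℂ × ℂ)} {f f' : ℂ × ℂ → ℂ}
  {L₁ L₂ E T : ℕ} {G R : ℂ[X][Y]} {α : ℂ[X]}

private theorem AbFin_dX (hN : 16 ≤ N) (hE : E ≤ L₁) (g : GX w τ N Gn f L₁ L₂ E G R α) :
    dX G ≤ 20 * (N ^ 2 * L₁) := by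
  have h1 := g.dXG
  have h2 : 1 * L₁ ≤ N ^ 2 * L₁ := Nat.mul_le_mul_right _ (Nat.one_le_pow _ _ (by omega))
  have h3 : 4 * N ^ 2 * L₁ = 4 * (N ^ 2 * L₁) := by ring
  omega

private theorem AbFin_dY (hN : 16 ≤ N) (hE : E ≤ L₂) (g : GX w τ N Gn f L₁ L₂ E G R α) :
    dY G ≤ 20 * (N ^ 2 * L₂) := by
  have h1 := g.dYG
  have h2 : 1 * L₂ ≤ N ^ 2 * L₂ := Nat.mul_le_mul_right _ (Nat.one_le_pow _ _ (by omega))
  have h3 : 4 * N ^ 2 * L₂ = 4 * (N ^ 2 * L₂) := by ring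
  omega

private theorem AbFin_caseA (h : ZD w τ c₁ c₂ N a b) (hN : 16 ≤ N) (hE₁ : E ≤ L₁) (hE₂ : E ≤ L₂)
    (hG : PGp w τ N Gm) (s : FD w τ N Gm Gn f L₁ L₂ E) (g : GX w τ N Gn f L₁ L₂ E G R α)
    (hG0 : G ≠ 0) (hT : f =O[𝓝 0] fun z => ‖z‖ ^ T)
    (hq : ∀ q : ℂ[X][Y], Irreducible q → ¬ q ^ (T / 2 + 1) ∣ G) :
    T ^ 2 ≤ 12800 * N * L₁ * L₂ := by
  obtain ⟨Z, hZ1, hZ2⟩ := exists_pts' h hN hG s g hT
  have h1 := caseA hG0 (T / 2) T hq Z hZ2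
  have hX := AbFin_dX hN hE₁ g
  have hY := AbFin_dY hN hE₂ g
  have h2 : dX G * dY G ≤ 20 * (N ^ 2 * L₁) * (20 * (N ^ 2 * L₂)) := Nat.mul_le_mul hX hY
  have h3 : T * T ≤ 2 * (T * (T - T / 2)) := by
    have : T ≤ 2 * (T - T / 2) := by omega
    calc T * T ≤ T * (2 * (T - T / 2)) := Nat.mul_le_mul_left _ this
      _ = 2 * (T * (T - T / 2)) := by ring
  have h4 : N ^ 3 * (T * (T - T / 2)) ≤ 8 * (Z.card * (T * (T - T / 2))) := by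
    calc N ^ 3 * (T * (T - T / 2)) ≤ (8 * Z.card) * (T * (T - T / 2)) :=
          Nat.mul_le_mul_right _ hZ1
      _ = _ := by ring
  have h5 : N ^ 3 * (T * T) ≤ N ^ 3 * (12800 * N * L₁ * L₂) := by
    calc N ^ 3 * (T * T) ≤ N ^ 3 * (2 * (T * (T - T / 2))) := Nat.mul_le_mul_left _ h3
      _ = 2 * (N ^ 3 * (T * (T - T / 2))) := by ring
      _ ≤ 2 * (8 * (2 * (20 * (N ^ 2 * L₁) * (20 * (N ^ 2 * L₂))))) := by omega
      _ = N ^ 3 * (12800 * N * L₁ * L₂) := by ring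
  have h6 := Nat.le_of_mul_le_mul_left h5 (pow_pos (by omega) 3)
  rw [sq]
  exact h6

private theorem AbFin_le_of_add {x : WithTop ℤ} {k m k' : ℕ}
    (h : ((k : ℤ) : WithTop ℤ) ≤ x + ((m : ℤ) : WithTop ℤ)) (hk : k' + m ≤ k) :
    ((k' : ℤ) : WithTop ℤ) ≤ x := by
  induction x with
  | top => exact le_top
  | coe x =>
    rw [← WithTop.coe_add, WithTop.coe_le_coe] at h
    rw [WithTop.coe_le_coe]
    omega

/-- the arithmetic of a slice -/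
private theorem AbFin_arith {k T L g D : ℕ} {P : ℤ} (hN : 16 ≤ N)
    (h : (k : ℤ) * (P ^ 2 * N ^ 2) ≤ 8 * (g : ℤ) * D) (hD : D ≤ 20 * (N ^ 2 * L))
    (hT : T ≤ 20 * k) : (T : ℤ) * P ^ 2 ≤ 10 ^ 4 * (g : ℤ) * L := by
  have hN2 : (0 : ℤ) < (N : ℤ) ^ 2 := by positivity
  have hD' : (D : ℤ) ≤ 20 * ((N : ℤ) ^ 2 * L) := by exact_mod_cast hD
  have hT' : (T : ℤ) ≤ 20 * k := by exact_mod_cast hT
  have h1 : (k : ℤ) * P ^ 2 * (N : ℤ) ^ 2 ≤ 160 * (g : ℤ) * L * (N : ℤ) ^ 2 := by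
    calc (k : ℤ) * P ^ 2 * (N : ℤ) ^ 2 = (k : ℤ) * (P ^ 2 * N ^ 2) := by ring
      _ ≤ 8 * (g : ℤ) * D := h
      _ ≤ 8 * (g : ℤ) * (20 * ((N : ℤ) ^ 2 * L)) := by gcongr
      _ = _ := by ring
  have h2 : (k : ℤ) * P ^ 2 ≤ 160 * (g : ℤ) * L := le_of_mul_le_mul_right h1 hN2
  have h3 : (0 : ℤ) ≤ (g : ℤ) * L := by positivity
  calc (T : ℤ) * P ^ 2 ≤ (20 * k) * P ^ 2 := by gcongr
    _ = 20 * (k * P ^ 2) := by ring
    _ ≤ 20 * (160 * (g : ℤ) * L) := by gcongr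
    _ ≤ 10 ^ 4 * (g : ℤ) * L := by nlinarith

private theorem AbFin_horiz (h : ZD w τ c₁ c₂ N a b) (hN : 16 ≤ N) (hE : 1 ≤ E) (hE₂ : E ≤ L₂)
    (hG : PGp w τ N Gm) (s : FD w τ N Gm Gn f L₁ L₂ E) (g : GX w τ N Gn f L₁ L₂ E G R α)
    (hG0 : G ≠ 0) (hT : 2000 * (L₁ + L₂) ≤ T) {d : ℕ} (hd1 : 1 ≤ d) (hdN : d ∣ N)
    (hs : Sl w τ Gm 1 0 d)
    {q : ℂ[X][Y]} (hq : Irreducible q) (hq0 : dX q = 0) (hqG : q ^ (T / 2) ∣ G) :
    (T : ℤ) ≤ 10 ^ 4 * (d : ℤ) * L₂ := by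
  obtain ⟨U, c, hA⟩ := const_branch h hq hq0
  obtain ⟨σ, hσ, A, hAU, hAc, hk⟩ := sign' h s g hA hqG (by omega)
  have h1 := (s.line 0 (σ * c) _ A hAc (fun t ht => by
    rw [zero_mul, zero_add]; exact hk t ht)).1
  have h2 := slice' h hN hG s g hG0 (P := 1) (Q := 0) isCoprime_one_left one_ne_zero hd1 hdN hs
    (l := 0) (μ := σ * c) (by simp) (k := T / 2 / 4 - (2 * L₂ + E)) (fun t ht => by
      refine AbFin_le_of_add (h1 t ht) ?_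
      omega)
  have h3 := AbFin_arith hN (T := T) (L := L₂) h2 (AbFin_dY hN hE₂ g) (by omega)
  rw [one_pow, mul_one] at h3
  exact h3

private theorem AbFin_go (h : ZD w τ c₁ c₂ N a b) (z : ℂ) (hz : Go (w * τ) (-1 / τ) z) :
    Go w τ z := by
  have h0 : τ ≠ 0 := by
    intro h0
    have := h.im
    rw [h0] at this
    simp at this
  have hm : w * τ * (-1 / τ) = -w := by field_simp
  have h1 : w * τ = ((0 : ℤ) : ℂ) * w + ((1 : ℤ) : ℂ) * (w * τ) := by push_cast; ring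
  have h2 : w * τ * (-1 / τ) = ((-1 : ℤ) : ℂ) * w + ((0 : ℤ) : ℂ) * (w * τ) := by
    rw [hm]; push_cast; ring
  have h3 := wp_change (a := w) (b := w * τ) (p := 0) (q := 1) (r := -1) (s := 0) (by norm_num) z
  have h4 := off_change (a := w) (b := w * τ) (p := 0) (q := 1) (r := -1) (s := 0) (by norm_num) z
  rw [← h1, ← h2] at h3 h4
  unfold Go at hz ⊢
  rw [h3, h4] at hz
  exact hz

private theorem AbFin_swap_dX (P : ℂ[X][Y]) : dX (Bivariate.swap P) = dY P := by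
  unfold dX dY
  rw [Bivariate.swap_swap_apply]

private theorem AbFin_swap_dY (P : ℂ[X][Y]) : dY (Bivariate.swap P) = dX P := rfl

private theorem AbFin_swap_ne {G : ℂ[X][Y]} (hG : G ≠ 0) : Bivariate.swap G ≠ 0 := by
  intro h0
  apply hG
  rw [← Bivariate.swap_swap_apply G, h0, map_zero]

private theorem AbFin_swap_irr {q : ℂ[X][Y]} (hq : Irreducible q) :
    Irreducible (Bivariate.swap q) :=
  (MulEquiv.irreducible_iff (Bivariate.swap (R := ℂ))).2 hq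

private theorem AbFin_swap_dvd {q G : ℂ[X][Y]} {n : ℕ} (h : q ^ n ∣ G) :
    Bivariate.swap q ^ n ∣ Bivariate.swap G := by
  obtain ⟨c, rfl⟩ := h
  refine ⟨Bivariate.swap c, ?_⟩
  rw [map_mul (Bivariate.swap (R := ℂ)), map_pow (Bivariate.swap (R := ℂ))]

private theorem AbFin_obliq (h : ZD w τ c₁ c₂ N a b) (hN : 16 ≤ N) (hE : 1 ≤ E) (hE₁ : E ≤ L₁)
    (hE₂ : E ≤ L₂) (hG : PGp w τ N Gm) (s : FD w τ N Gm Gn f L₁ L₂ E)
    (g : GX w τ N Gn f L₁ L₂ E G R α)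
    (s' : FD (w * τ) (-1 / τ) N (rotS Gm) Gn' f' L₂ L₁ E)
    (g' : GX (w * τ) (-1 / τ) N Gn' f' L₂ L₁ E (Bivariate.swap G) (Bivariate.swap R) α)
    (hf' : ∀ z, f' z = f (-z.2, z.1)) (hG0 : G ≠ 0) (hT : 2000 * (L₁ + L₂) ≤ T)
    {q : ℂ[X][Y]} (hq : Irreducible q) (h1 : 0 < dX q) (h2 : 0 < dY q) (hqG : q ^ (T / 2) ∣ G) :
    T ^ 2 ≤ 10 ^ 8 * N * L₁ * L₂ ∨ ∃ (P Q : ℤ) (d : ℕ), IsCoprime P Q ∧ 1 ≤ d ∧ d ∣ N ∧
      Sl w τ Gm P Q d ∧ (T : ℤ) * P ^ 2 ≤ 10 ^ 4 * (d : ℤ) * L₂ ∧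
      (T : ℤ) * Q ^ 2 ≤ 10 ^ 4 * (d : ℤ) * L₁ := by
  obtain ⟨U, ψ, hA⟩ := exists_branch h hq h1 h2
  rcases line' h hG s g hE₁ hE₂ hG0 hq h1 h2 hA hqG (by omega) (by omega) with h3 | ⟨l, μ, hl, hψ⟩
  · left
    have h4 : T ≤ 3 * (T / 2) := by omega
    calc T ^ 2 ≤ (3 * (T / 2)) ^ 2 := Nat.pow_le_pow_left h4 2
      _ = 9 * (T / 2) ^ 2 := by ring
      _ ≤ 9 * (10 ^ 7 * N * L₁ * L₂) := Nat.mul_le_mul_left _ h3
      _ = 9 * 10 ^ 7 * (N * L₁ * L₂) := by ring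
      _ ≤ 10 ^ 8 * (N * L₁ * L₂) := Nat.mul_le_mul_right _ (by norm_num)
      _ = _ := by ring
  · right
    obtain ⟨P, Q, hPQ, hP, hQ, hlPQ⟩ := slope_rat h hq.ne_zero hA hl hψ
    obtain ⟨σ, hσ, A, hAU, hAc, hk⟩ := sign' h s g hA hqG (by omega)
    obtain ⟨Q', hPQ', hQ', hlQ'⟩ : ∃ Q' : ℤ, IsCoprime P Q' ∧ Q' ≠ 0 ∧ σ * l * P = Q' := by
      rcases hσ with rfl | rfl
      · exact ⟨Q, hPQ, hQ, by rw [one_mul]; exact hlPQ⟩
      · refine ⟨-Q, hPQ.neg_right, neg_ne_zero.2 hQ, ?_⟩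
        push_cast
        linear_combination -hlPQ
    have hs0 : σ ≠ 0 := by
      rcases hσ with rfl | rfl
      · exact one_ne_zero
      · exact neg_ne_zero.2 one_ne_zero
    have hl' : σ * l ≠ 0 := mul_ne_zero hs0 hl
    obtain ⟨d, hd1, hdN, hsl⟩ := exists_g h hG hPQ'
    obtain ⟨h4, h5⟩ := s.line (σ * l) (σ * μ) _ A hAc (fun t ht => by
      have e : σ * l * t + σ * μ = σ * ψ t := by rw [hψ t (hAU ht)]; ring
      rw [e]; exact hk t ht)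
    have h6 := slice' h hN hG s g hG0 hPQ' hP hd1 hdN hsl (l := σ * l) (μ := σ * μ) hlQ'
      (k := T / 2 / 4 - (2 * L₂ + E)) (fun t ht => by
        refine AbFin_le_of_add (h4 t ht) ?_
        omega)
    have h7 := AbFin_arith hN (T := T) (L := L₂) h6 (AbFin_dY hN hE₂ g) (by omega)
    refine ⟨P, Q', d, hPQ', hd1, hdN, hsl, h7, ?_⟩
    have hswap : Bivariate.swap G ≠ 0 := AbFin_swap_ne hG0
    have hQc : (Q' : ℂ) ≠ 0 := Int.cast_ne_zero.2 hQ'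
    have h8 := slice' h.rot hN (PGp.rot h hG) s' g' hswap (P := Q') (Q := -P)
      hPQ'.symm.neg_right hQ' hd1 hdN (Sl.rot h hsl)
      (l := -1 / (σ * l)) (μ := σ * μ / (σ * l))
      (by rw [← hlQ']; push_cast; field_simp)
      (k := T / 2 / 4 - (2 * L₁ + E)) (fun t' ht' => by
        have ht := AbFin_go h t' ht'
        set t₀ : ℂ := (t' - σ * μ) / (σ * l) with ht₀
        have e1 : σ * l * t₀ + σ * μ = t' := by rw [ht₀]; field_simp; ring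
        have h9 := h5 hl' t₀ (by rw [e1]; exact ht)
        rw [e1] at h9
        have e2 : (fun y => f' (t', y)) = (fun r => f (r, t')) ∘ fun y => -y := by
          funext y
          exact hf' (t', y)
        have e3 : -1 / (σ * l) * t' + σ * μ / (σ * l) = -t₀ := by rw [ht₀]; field_simp; ring
        rw [e2, e3, meromorphicOrderAt_comp_of_deriv_ne_zero (by fun_prop)
          (by rw [deriv_neg']; exact neg_ne_zero.2 one_ne_zero), neg_neg]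
        refine AbFin_le_of_add h9 ?_
        omega)
    rw [AbFin_swap_dY] at h8
    exact AbFin_arith hN (T := T) (L := L₁) h8 (AbFin_dX hN hE₁ g) (by omega)

/-- **the zero estimate for abstract function data** -/
theorem zest_ab : ∃ C : ℕ, 1 ≤ C ∧ ∀ (w τ c₁ c₂ : ℂ) (N : ℕ) (a b : ℤ), ZD w τ c₁ c₂ N a b →
    16 ≤ N → ∀ (Gm Gn Gn' : Set (ℂ × ℂ)) (f f' : ℂ × ℂ → ℂ) (L₁ L₂ E T : ℕ)
      (G R : ℂ[X][Y]) (α : ℂ[X]),
    PGp w τ N Gm → FD w τ N Gm Gn f L₁ L₂ E → GX w τ N Gn f L₁ L₂ E G R α → G ≠ 0 →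
    FD (w * τ) (-1 / τ) N (rotS Gm) Gn' f' L₂ L₁ E →
    GX (w * τ) (-1 / τ) N Gn' f' L₂ L₁ E (Bivariate.swap G) (Bivariate.swap R) α →
    (∀ z, f' z = f (-z.2, z.1)) → 1 ≤ E → E ≤ L₁ → E ≤ L₂ →
    (f =O[𝓝 0] fun z => ‖z‖ ^ T) →
    T ^ 2 ≤ C * N * L₁ * L₂ ∨ T ≤ C * (L₁ + L₂) ∨ ∃ (P Q : ℤ) (g : ℕ), IsCoprime P Q ∧
      1 ≤ g ∧ g ∣ N ∧ Sl w τ Gm P Q g ∧
      (T : ℤ) * P ^ 2 ≤ C * (g : ℤ) * L₂ ∧ (T : ℤ) * Q ^ 2 ≤ C * (g : ℤ) * L₁ := by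
  obtain ⟨C, hC⟩ : ∃ C : ℕ, C = 10 ^ 8 := ⟨_, rfl⟩
  have hC1 : 10 ^ 4 ≤ C := by rw [hC]; norm_num
  refine ⟨C, by omega, ?_⟩
  intro w τ c₁ c₂ N a b h hN Gm Gn Gn' f f' L₁ L₂ E T G R α hG s g hG0 s' g' hf' hE hE₁ hE₂ hT
  by_cases hTL : T ≤ C * (L₁ + L₂)
  · exact Or.inr (Or.inl hTL)
  have hTL' : 10 ^ 4 * (L₁ + L₂) ≤ C * (L₁ + L₂) := Nat.mul_le_mul_right _ hC1
  have hT2 : 2000 * (L₁ + L₂) ≤ T := by omega
  have hT2' : 2000 * (L₂ + L₁) ≤ T := by omega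
  have up : ∀ (x L : ℕ), 10 ^ 4 * (x : ℤ) * (L : ℤ) ≤ (C : ℤ) * x * L := by
    intro x L
    have h1 : 10 ^ 4 * (x * L) ≤ C * (x * L) := Nat.mul_le_mul_right _ hC1
    have h2 : 10 ^ 4 * x * L ≤ C * x * L := by
      rw [mul_assoc, mul_assoc]
      exact h1
    exact_mod_cast h2
  by_cases hq : ∀ q : ℂ[X][Y], Irreducible q → ¬ q ^ (T / 2 + 1) ∣ G
  · left
    refine (AbFin_caseA h hN hE₁ hE₂ hG s g hG0 hT hq).trans ?_
    have : 12800 * (N * L₁ * L₂) ≤ C * (N * L₁ * L₂) := Nat.mul_le_mul_right _ (by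
      rw [hC]; norm_num)
    calc 12800 * N * L₁ * L₂ = 12800 * (N * L₁ * L₂) := by ring
      _ ≤ C * (N * L₁ * L₂) := this
      _ = _ := by ring
  push Not at hq
  obtain ⟨q, hq, hqG⟩ := hq
  have hqG' : q ^ (T / 2) ∣ G := (pow_dvd_pow q (Nat.le_succ _)).trans hqG
  rcases Nat.eq_zero_or_pos (dX q) with h1 | h1
  · right; right
    obtain ⟨d, hd1, hdN, hsl⟩ := exists_g h hG (P := 1) (Q := 0) isCoprime_one_left
    have h3 := AbFin_horiz h hN hE hE₂ hG s g hG0 hT2 hd1 hdN hsl hq h1 hqG'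
    refine ⟨1, 0, d, isCoprime_one_left, hd1, hdN, hsl, ?_, ?_⟩
    · rw [one_pow, mul_one]
      exact h3.trans (up _ L₂)
    · rw [zero_pow two_ne_zero, mul_zero]
      positivity
  rcases Nat.eq_zero_or_pos (dY q) with h2 | h2
  · right; right
    obtain ⟨d, hd1, hdN, hsl⟩ := exists_g h hG (P := 0) (Q := 1) isCoprime_one_right
    have hslr : Sl (w * τ) (-1 / τ) (rotS Gm) 1 0 d := by
      have := Sl.rot h hsl
      rwa [neg_zero] at this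
    have hswap : Bivariate.swap G ≠ 0 := AbFin_swap_ne hG0
    have hqs : Irreducible (Bivariate.swap q) := AbFin_swap_irr hq
    have hdv : Bivariate.swap q ^ (T / 2) ∣ Bivariate.swap G := AbFin_swap_dvd hqG'
    have h3 := AbFin_horiz h.rot hN hE hE₁ (PGp.rot h hG) s' g' hswap hT2' hd1 hdN hslr hqs
      (by rw [AbFin_swap_dX]; exact h2) hdv
    refine ⟨0, 1, d, isCoprime_one_right, hd1, hdN, hsl, ?_, ?_⟩
    · rw [zero_pow two_ne_zero, mul_zero]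
      positivity
    · rw [one_pow, mul_one]
      exact h3.trans (up _ L₁)
  rcases AbFin_obliq h hN hE hE₁ hE₂ hG s g s' g' hf' hG0 hT2 hq h1 h2 hqG' with
    h3 | ⟨P, Q, d, hPQ, hd1, hdN, hsl, h3, h4⟩
  · left
    rw [hC]
    exact h3
  · right; right
    exact ⟨P, Q, d, hPQ, hd1, hdN, hsl, h3.trans (up _ _), h4.trans (up _ _)⟩

end Pool.Agent.LGO.F3
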