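import Pool.Agent.LGO.E3.Maj
import Pool.Agent.LGO.E3.Hur
import Pool.Agent.LGO.E3.FrmMap

/-!
# LGO/F3 (note 3121): the direction series with a fourth factor

PROOFS.  Copies of `E3/FrmMap.lean` (`map_dirS`, `natDegree_dirS`), `E3/Hur.lean` (`dirS_int`), `E3/Maj.lean` (`dirS_bd`) with one more factor.
-/

namespace Pool.Agent.LGO.F3

open Polynomial Pool.Agent.Schn Pool.Agent.LGO.E3

/-- `U₁(t)^a U₂(X t)^b U₃((l₁ + l₂ X) t)^c U₄((k₁ + k₂ X) t)^d` -/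
noncomputable def dirS4 {R : Type*} [CommRing R] (U₁ U₂ U₃ U₄ : PowerSeries R) (l₁ l₂ k₁ k₂ : R)
    (a b c d : ℕ) : PowerSeries R[X] :=
  dirS U₁ U₂ U₃ l₁ l₂ a b c *
    (PowerSeries.rescale (C k₁ + C k₂ * X) (PowerSeries.map (C : R →+* R[X]) U₄)) ^ d

theorem natDegree_dirS4 {R : Type*} [CommRing R] (U₁ U₂ U₃ U₄ : PowerSeries R)
    (l₁ l₂ k₁ k₂ : R) (a b c d k : ℕ) :
    (PowerSeries.coeff k (dirS4 U₁ U₂ U₃ U₄ l₁ l₂ k₁ k₂ a b c d)).natDegree ≤ k := by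
  have h : FrmMap_Gr (dirS4 U₁ U₂ U₃ U₄ l₁ l₂ k₁ k₂ a b c d) := by
    unfold dirS4
    refine FrmMap_Gr.mul (fun k => natDegree_dirS U₁ U₂ U₃ l₁ l₂ a b c k)
      ((FrmMap_Gr.resc _ ?_ U₄).pow d)
    refine natDegree_add_le_of_degree_le ?_ ?_
    · rw [natDegree_C]; exact Nat.zero_le _
    · exact (natDegree_C_mul_le _ _).trans natDegree_X_le
  exact h k

theorem map_dirS4 {R S : Type*} [CommRing R] [CommRing S] (f : R →+* S)
    (U₁ U₂ U₃ U₄ : PowerSeries R) (l₁ l₂ k₁ k₂ : R) (a b c d k : ℕ) :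
    (PowerSeries.coeff k (dirS4 U₁ U₂ U₃ U₄ l₁ l₂ k₁ k₂ a b c d)).map f =
      PowerSeries.coeff k (dirS4 (PowerSeries.map f U₁) (PowerSeries.map f U₂)
        (PowerSeries.map f U₃) (PowerSeries.map f U₄) (f l₁) (f l₂) (f k₁) (f k₂) a b c d) := by
  have h0 : PowerSeries.map (Polynomial.mapRingHom f) (dirS U₁ U₂ U₃ l₁ l₂ a b c) =
      dirS (PowerSeries.map f U₁) (PowerSeries.map f U₂) (PowerSeries.map f U₃) (f l₁) (f l₂)
        a b c := by
    ext1 k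
    rw [PowerSeries.coeff_map, coe_mapRingHom]
    exact map_dirS f U₁ U₂ U₃ l₁ l₂ a b c k
  have h : PowerSeries.map (Polynomial.mapRingHom f) (dirS4 U₁ U₂ U₃ U₄ l₁ l₂ k₁ k₂ a b c d) =
      dirS4 (PowerSeries.map f U₁) (PowerSeries.map f U₂) (PowerSeries.map f U₃)
        (PowerSeries.map f U₄) (f l₁) (f l₂) (f k₁) (f k₂) a b c d := by
    unfold dirS4
    rw [map_mul, map_pow, h0, FrmMap_map_rescale, FrmMap_map_C]
    simp
  rw [← h, PowerSeries.coeff_map, coe_mapRingHom]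

section Hur_aux

variable {K : IntermediateField ℚ ℂ}

/-- all coefficients are integral -/
private def Hur_P (f : K[X]) : Prop := ∀ i, IsIntegral ℤ (f.coeff i)

private theorem Hur_P_mul {f g : K[X]} (hf : Hur_P f) (hg : Hur_P g) : Hur_P (f * g) := by
  intro i
  rw [Polynomial.coeff_mul]
  exact IsIntegral.sum _ fun x _ => (hf _).mul (hg _)

private theorem Hur_P_add {f g : K[X]} (hf : Hur_P f) (hg : Hur_P g) : Hur_P (f + g) := by
  intro i
  rw [Polynomial.coeff_add]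
  exact (hf _).add (hg _)

private theorem Hur_P_C {x : K} (hx : IsIntegral ℤ x) : Hur_P (C x) := by
  intro i
  rw [Polynomial.coeff_C]
  split_ifs
  · exact hx
  · exact isIntegral_zero

private theorem Hur_P_X : Hur_P (X : K[X]) := by
  intro i
  rw [Polynomial.coeff_X]
  split_ifs
  · exact isIntegral_one
  · exact isIntegral_zero

private theorem Hur_nat (n : ℕ) : IsIntegral ℤ (n : K) := by
  have h := isIntegral_algebraMap (R := ℤ) (A := K) (x := (n : ℤ))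
  simpa using h

private theorem Hur_P_nat (n : ℕ) : Hur_P (n : K[X]) := by
  rw [← Polynomial.C_eq_natCast]
  exact Hur_P_C (Hur_nat n)

private theorem Hur_P_pow {f : K[X]} (hf : Hur_P f) (n : ℕ) : Hur_P (f ^ n) := by
  induction n with
  | zero =>
    rw [pow_zero]
    have := Hur_P_nat (K := K) 1
    rwa [Nat.cast_one] at this
  | succ n ih =>
    rw [pow_succ]
    exact Hur_P_mul ih hf

private theorem Hur_P_sum {ι : Type*} (s : Finset ι) {f : ι → K[X]} (hf : ∀ i ∈ s, Hur_P (f i)) :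
    Hur_P (∑ i ∈ s, f i) := by
  intro j
  rw [Polynomial.finsetSum_coeff]
  exact IsIntegral.sum _ fun x hx => hf x hx j

/-- Hurwitz integral power series over `K[X]` -/
private def Hur_H (f : PowerSeries K[X]) : Prop :=
  ∀ n : ℕ, Hur_P ((n.factorial : K[X]) * PowerSeries.coeff n f)

private theorem Hur_H_mul {f g : PowerSeries K[X]} (hf : Hur_H f) (hg : Hur_H g) :
    Hur_H (f * g) := by
  intro n
  rw [PowerSeries.coeff_mul, Finset.mul_sum]
  refine Hur_P_sum _ fun p hp => ?_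
  rw [Finset.HasAntidiagonal.mem_antidiagonal] at hp
  have h : ((n.choose p.1 : ℕ) : K[X]) * (p.1.factorial : K[X]) * (p.2.factorial : K[X])
      = (n.factorial : K[X]) := by
    rw [← hp]
    have h2 := Nat.choose_mul_factorial_mul_factorial (Nat.le_add_right p.1 p.2)
    rw [Nat.add_sub_cancel_left] at h2
    exact_mod_cast congrArg (Nat.cast (R := K[X])) h2
  have e : (n.factorial : K[X]) * (PowerSeries.coeff p.1 f * PowerSeries.coeff p.2 g) =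
      ((n.choose p.1 : ℕ) : K[X]) * (((p.1.factorial : K[X]) * PowerSeries.coeff p.1 f) *
        ((p.2.factorial : K[X]) * PowerSeries.coeff p.2 g)) := by
    rw [← h]
    ring
  rw [e]
  exact Hur_P_mul (Hur_P_nat _) (Hur_P_mul (hf _) (hg _))

private theorem Hur_H_pow {f : PowerSeries K[X]} (hf : Hur_H f) (a : ℕ) : Hur_H (f ^ a) := by
  induction a with
  | zero =>
    intro n
    rw [pow_zero, PowerSeries.coeff_one]
    split_ifs with h
    · rw [mul_one]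
      exact Hur_P_nat _
    · rw [mul_zero]
      have := Hur_P_nat (K := K) 0
      rwa [Nat.cast_zero] at this
  | succ a ih =>
    rw [pow_succ]
    exact Hur_H_mul ih hf

private theorem Hur_H_resc {ν : ℕ} {A : ℝ} {U : PowerSeries K} (h : Ar ν A U) {r : K[X]}
    (hr : Hur_P r) :
    Hur_H (PowerSeries.rescale (r * (ν : K[X])) (PowerSeries.map (C : K →+* K[X]) U)) := by
  intro n
  rw [PowerSeries.coeff_rescale, PowerSeries.coeff_map, mul_pow]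
  have e : (n.factorial : K[X]) * (r ^ n * (ν : K[X]) ^ n * C (PowerSeries.coeff n U)) =
      r ^ n * C ((n.factorial : K) * (ν : K) ^ n * PowerSeries.coeff n U) := by
    rw [C_mul, C_mul, C_pow, ← Polynomial.C_eq_natCast, ← Polynomial.C_eq_natCast]
    ring
  rw [e]
  exact Hur_P_mul (Hur_P_pow hr n) (Hur_P_C (h.int n))

private theorem Hur_dir {ν : ℕ} {A : ℝ} {U₁ U₂ U₃ : PowerSeries K}
    (h₁ : Ar ν A U₁) (h₂ : Ar ν A U₂) (h₃ : Ar ν A U₃) {l₁ l₂ : K}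
    (hl₁ : IsIntegral ℤ ((ν : K) * l₁)) (hl₂ : IsIntegral ℤ ((ν : K) * l₂)) (a b c : ℕ) :
    Hur_H (PowerSeries.rescale ((ν : K[X]) * (ν : K[X])) (dirS U₁ U₂ U₃ l₁ l₂ a b c)) := by
  intro k i
  rw [PowerSeries.coeff_rescale]
  have h := dirS_int h₁ h₂ h₃ hl₁ hl₂ a b c k i
  have e : (k.factorial : K[X]) * (((ν : K[X]) * (ν : K[X])) ^ k *
      PowerSeries.coeff k (dirS U₁ U₂ U₃ l₁ l₂ a b c)) =
      C ((k.factorial : K) * (ν : K) ^ (2 * k)) *
        PowerSeries.coeff k (dirS U₁ U₂ U₃ l₁ l₂ a b c) := by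
    rw [C_mul, C_pow, Polynomial.C_eq_natCast, Polynomial.C_eq_natCast, ← sq, ← pow_mul, mul_assoc]
  rw [e, Polynomial.coeff_C_mul]
  exact h

private theorem Hur_dir4 {ν : ℕ} {A : ℝ} {U₁ U₂ U₃ U₄ : PowerSeries K}
    (h₁ : Ar ν A U₁) (h₂ : Ar ν A U₂) (h₃ : Ar ν A U₃) (h₄ : Ar ν A U₄) {l₁ l₂ k₁ k₂ : K}
    (hl₁ : IsIntegral ℤ ((ν : K) * l₁)) (hl₂ : IsIntegral ℤ ((ν : K) * l₂))
    (hk₁ : IsIntegral ℤ ((ν : K) * k₁)) (hk₂ : IsIntegral ℤ ((ν : K) * k₂)) (a b c d : ℕ) :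
    Hur_H (PowerSeries.rescale ((ν : K[X]) * (ν : K[X]))
      (dirS4 U₁ U₂ U₃ U₄ l₁ l₂ k₁ k₂ a b c d)) := by
  unfold dirS4
  rw [map_mul, map_pow, PowerSeries.rescale_rescale]
  have r3 : Hur_P (C ((ν : K) * k₁) + C ((ν : K) * k₂) * X) :=
    Hur_P_add (Hur_P_C hk₁) (Hur_P_mul (Hur_P_C hk₂) Hur_P_X)
  have e3 : (C k₁ + C k₂ * X) * ((ν : K[X]) * (ν : K[X])) =
      (C ((ν : K) * k₁) + C ((ν : K) * k₂) * X) * (ν : K[X]) := by
    rw [C_mul, C_mul, Polynomial.C_eq_natCast]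
    ring
  rw [e3]
  exact Hur_H_mul (Hur_dir h₁ h₂ h₃ hl₁ hl₂ a b c) (Hur_H_pow (Hur_H_resc h₄ r3) d)

end Hur_aux

theorem dirS4_int {K : IntermediateField ℚ ℂ} {ν : ℕ} {A : ℝ} {U₁ U₂ U₃ U₄ : PowerSeries K}
    (h₁ : Ar ν A U₁) (h₂ : Ar ν A U₂) (h₃ : Ar ν A U₃) (h₄ : Ar ν A U₄) {l₁ l₂ k₁ k₂ : K}
    (hl₁ : IsIntegral ℤ ((ν : K) * l₁)) (hl₂ : IsIntegral ℤ ((ν : K) * l₂))
    (hk₁ : IsIntegral ℤ ((ν : K) * k₁)) (hk₂ : IsIntegral ℤ ((ν : K) * k₂))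
    (a b c d k i : ℕ) :
    IsIntegral ℤ ((k.factorial : K) * (ν : K) ^ (2 * k) *
      (PowerSeries.coeff k (dirS4 U₁ U₂ U₃ U₄ l₁ l₂ k₁ k₂ a b c d)).coeff i) := by
  have h := Hur_dir4 h₁ h₂ h₃ h₄ hl₁ hl₂ hk₁ hk₂ a b c d k i
  rw [PowerSeries.coeff_rescale] at h
  have e : (k.factorial : K[X]) * (((ν : K[X]) * (ν : K[X])) ^ k *
      PowerSeries.coeff k (dirS4 U₁ U₂ U₃ U₄ l₁ l₂ k₁ k₂ a b c d)) =
      C ((k.factorial : K) * (ν : K) ^ (2 * k)) *
        PowerSeries.coeff k (dirS4 U₁ U₂ U₃ U₄ l₁ l₂ k₁ k₂ a b c d) := by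
    rw [C_mul, C_pow, Polynomial.C_eq_natCast, Polynomial.C_eq_natCast, ← sq, ← pow_mul, mul_assoc]
  rw [e, Polynomial.coeff_C_mul] at h
  exact h

/-- the sum of the norms of the coefficients -/
private noncomputable def Maj_N (q : ℂ[X]) : ℝ := ∑ i ∈ q.support, ‖q.coeff i‖

private lemma Maj_N_eq (q : ℂ[X]) (s : Finset ℕ) (h : q.support ⊆ s) :
    Maj_N q = ∑ i ∈ s, ‖q.coeff i‖ := by
  rw [Maj_N]
  refine Finset.sum_subset h fun i _ hi => ?_
  rw [notMem_support_iff.1 hi, norm_zero]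

private lemma Maj_N_nonneg (q : ℂ[X]) : 0 ≤ Maj_N q :=
  Finset.sum_nonneg fun _ _ => norm_nonneg _

private lemma Maj_coeff_le (q : ℂ[X]) (i : ℕ) : ‖q.coeff i‖ ≤ Maj_N q := by
  by_cases hi : i ∈ q.support
  · exact Finset.single_le_sum (f := fun i => ‖q.coeff i‖) (fun _ _ => norm_nonneg _) hi
  · rw [notMem_support_iff.1 hi, norm_zero]
    exact Maj_N_nonneg q

private lemma Maj_N_zero : Maj_N 0 = 0 := by
  rw [Maj_N, support_zero, Finset.sum_empty]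

private lemma Maj_N_add (p q : ℂ[X]) : Maj_N (p + q) ≤ Maj_N p + Maj_N q := by
  classical
  rw [Maj_N_eq (p + q) (p.support ∪ q.support) support_add,
    Maj_N_eq p (p.support ∪ q.support) Finset.subset_union_left,
    Maj_N_eq q (p.support ∪ q.support) Finset.subset_union_right, ← Finset.sum_add_distrib]
  refine Finset.sum_le_sum fun i _ => ?_
  rw [coeff_add]
  exact norm_add_le _ _

private lemma Maj_N_sum {ι : Type*} (s : Finset ι) (f : ι → ℂ[X]) :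
    Maj_N (∑ i ∈ s, f i) ≤ ∑ i ∈ s, Maj_N (f i) := by
  classical
  induction s using Finset.induction_on with
  | empty => rw [Finset.sum_empty, Finset.sum_empty, Maj_N_zero]
  | insert a s ha ih =>
    rw [Finset.sum_insert ha, Finset.sum_insert ha]
    exact (Maj_N_add _ _).trans (add_le_add le_rfl ih)

private lemma Maj_N_monomial (n : ℕ) (a : ℂ) : Maj_N (monomial n a) ≤ ‖a‖ := by
  classical
  rw [Maj_N_eq _ {n} (support_monomial_subset n a), Finset.sum_singleton, coeff_monomial,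
    if_pos rfl]

private lemma Maj_N_C (a : ℂ) : Maj_N (C a) ≤ ‖a‖ := by
  rw [← monomial_zero_left]
  exact Maj_N_monomial 0 a

private lemma Maj_N_one : Maj_N 1 ≤ 1 := by
  have h := Maj_N_C 1
  rwa [C_1, norm_one] at h

private lemma Maj_N_X : Maj_N X ≤ 1 := by
  have h := Maj_N_monomial 1 1
  rwa [monomial_one_one_eq_X, norm_one] at h

private lemma Maj_N_mul (p q : ℂ[X]) : Maj_N (p * q) ≤ Maj_N p * Maj_N q := by
  rw [mul_eq_sum_sum]
  refine (Maj_N_sum _ _).trans ?_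
  rw [Maj_N, Finset.sum_mul]
  refine Finset.sum_le_sum fun i _ => ?_
  rw [Polynomial.sum]
  refine (Maj_N_sum _ _).trans ?_
  rw [Maj_N, Finset.mul_sum]
  refine Finset.sum_le_sum fun j _ => ?_
  refine (Maj_N_monomial _ _).trans ?_
  rw [norm_mul]

private lemma Maj_N_pow {q : ℂ[X]} {B : ℝ} (h : Maj_N q ≤ B) (n : ℕ) : Maj_N (q ^ n) ≤ B ^ n := by
  have hB : 0 ≤ B := (Maj_N_nonneg q).trans h
  induction n with
  | zero =>
    rw [pow_zero, pow_zero]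
    exact Maj_N_one
  | succ n ih =>
    rw [pow_succ, pow_succ]
    exact (Maj_N_mul _ _).trans (mul_le_mul ih h (Maj_N_nonneg q) (pow_nonneg hB n))

private def MajP (r : ℝ) (f : PowerSeries ℂ[X]) (M : ℝ) : Prop :=
  ∀ n : ℕ, ∑ i ∈ Finset.range n, Maj_N (PowerSeries.coeff i f) * r ^ i ≤ M

private lemma Maj_mul {r : ℝ} (hr : 0 ≤ r) {f g : PowerSeries ℂ[X]} {M M' : ℝ} (hf : MajP r f M)
    (hg : MajP r g M') : MajP r (f * g) (M * M') := by
  classical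
  intro m
  set F : ℕ → ℝ := fun i => Maj_N (PowerSeries.coeff i f) * r ^ i with hF
  set G : ℕ → ℝ := fun i => Maj_N (PowerSeries.coeff i g) * r ^ i with hG
  have hF0 : ∀ i, 0 ≤ F i := fun i => mul_nonneg (Maj_N_nonneg _) (pow_nonneg hr _)
  have hG0 : ∀ i, 0 ≤ G i := fun i => mul_nonneg (Maj_N_nonneg _) (pow_nonneg hr _)
  have h1 : ∀ n, Maj_N (PowerSeries.coeff n (f * g)) * r ^ n ≤
      ∑ p ∈ Finset.HasAntidiagonal.antidiagonal n, F p.1 * G p.2 := by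
    intro n
    rw [PowerSeries.coeff_mul]
    calc Maj_N (∑ p ∈ Finset.HasAntidiagonal.antidiagonal n,
          PowerSeries.coeff p.1 f * PowerSeries.coeff p.2 g) * r ^ n
        ≤ (∑ p ∈ Finset.HasAntidiagonal.antidiagonal n,
            Maj_N (PowerSeries.coeff p.1 f) * Maj_N (PowerSeries.coeff p.2 g)) * r ^ n := by
          refine mul_le_mul_of_nonneg_right ?_ (pow_nonneg hr _)
          exact (Maj_N_sum _ _).trans (Finset.sum_le_sum fun p _ => Maj_N_mul _ _)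
      _ = ∑ p ∈ Finset.HasAntidiagonal.antidiagonal n, F p.1 * G p.2 := by
          rw [Finset.sum_mul]
          refine Finset.sum_congr rfl fun p hp => ?_
          have hp' : p.1 + p.2 = n := Finset.HasAntidiagonal.mem_antidiagonal.1 hp
          rw [← hp', pow_add]
          simp only [hF, hG]
          ring
  have h2 : ∑ n ∈ Finset.range m, ∑ p ∈ Finset.HasAntidiagonal.antidiagonal n, F p.1 * G p.2 ≤
      ∑ p ∈ Finset.range m ×ˢ Finset.range m, F p.1 * G p.2 := by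
    rw [← Finset.sum_sigma (Finset.range m) (fun n => Finset.HasAntidiagonal.antidiagonal n)
      (fun x => F x.2.1 * G x.2.2)]
    have hinj : Set.InjOn (fun x : (Σ _ : ℕ, ℕ × ℕ) => x.2)
        ((Finset.range m).sigma fun n => Finset.HasAntidiagonal.antidiagonal n :
          Finset (Σ _ : ℕ, ℕ × ℕ)) := by
      rintro ⟨n, p⟩ hx ⟨n', p'⟩ hx' h
      simp only [Finset.coe_sigma, Set.mem_sigma_iff, Finset.mem_coe,
        Finset.HasAntidiagonal.mem_antidiagonal] at hx hx' h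
      subst h
      have : n = n' := by rw [← hx.2, ← hx'.2]
      subst this
      rfl
    rw [← Finset.sum_image (f := fun p : ℕ × ℕ => F p.1 * G p.2) hinj]
    refine Finset.sum_le_sum_of_subset_of_nonneg ?_ ?_
    · intro p hp
      obtain ⟨⟨n, q⟩, hx, rfl⟩ := Finset.mem_image.1 hp
      simp only [Finset.mem_sigma, Finset.mem_range, Finset.HasAntidiagonal.mem_antidiagonal] at hx
      simp only [Finset.mem_product, Finset.mem_range]
      omega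
    · intro p _ _
      exact mul_nonneg (hF0 _) (hG0 _)
  have h3 : ∑ p ∈ Finset.range m ×ˢ Finset.range m, F p.1 * G p.2 =
      (∑ i ∈ Finset.range m, F i) * ∑ j ∈ Finset.range m, G j := by
    rw [Finset.sum_product, Finset.sum_mul_sum]
  calc ∑ n ∈ Finset.range m, Maj_N (PowerSeries.coeff n (f * g)) * r ^ n
      ≤ ∑ n ∈ Finset.range m, ∑ p ∈ Finset.HasAntidiagonal.antidiagonal n, F p.1 * G p.2 :=
        Finset.sum_le_sum fun n _ => h1 n
    _ ≤ (∑ i ∈ Finset.range m, F i) * ∑ j ∈ Finset.range m, G j := h2.trans h3.le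
    _ ≤ M * M' := by
        have hM : 0 ≤ M := le_trans (Finset.sum_nonneg fun i _ => hF0 i) (hf m)
        exact mul_le_mul (hf m) (hg m) (Finset.sum_nonneg fun i _ => hG0 i) hM

private lemma Maj_one {r : ℝ} : MajP r 1 1 := by
  intro m
  have h : ∀ i, Maj_N (PowerSeries.coeff i (1 : PowerSeries ℂ[X])) * r ^ i =
      if i = 0 then Maj_N 1 else 0 := by
    intro i
    rw [PowerSeries.coeff_one]
    split_ifs with hi
    · rw [hi, pow_zero, mul_one]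
    · rw [Maj_N_zero, zero_mul]
  rw [Finset.sum_congr rfl fun i _ => h i, Finset.sum_ite_eq']
  split_ifs
  · exact Maj_N_one
  · exact zero_le_one

private lemma Maj_pow {r : ℝ} (hr : 0 ≤ r) {f : PowerSeries ℂ[X]} (hf : MajP r f 1) (k : ℕ) :
    MajP r (f ^ k) 1 := by
  induction k with
  | zero =>
    rw [pow_zero]
    exact Maj_one
  | succ k ih =>
    have h := Maj_mul hr ih hf
    rwa [mul_one, ← pow_succ] at h

private lemma Maj_geom (x : ℝ) (hx0 : 0 ≤ x) (hx : x ≤ 1 / 2) (m : ℕ) :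
    ∑ i ∈ Finset.range m, (if i = 0 then 0 else x ^ i) ≤ 1 := by
  have h : ∀ m : ℕ, ∑ i ∈ Finset.range (m + 1), (if i = 0 then 0 else x ^ i) ≤ 1 - (1 / 2) ^ m := by
    intro m
    induction m with
    | zero => simp
    | succ m ih =>
      rw [Finset.sum_range_succ, if_neg (Nat.succ_ne_zero m)]
      have h1 : x ^ (m + 1) ≤ (1 / 2) ^ (m + 1) := pow_le_pow_left₀ hx0 hx _
      have h2 : (1 / 2 : ℝ) ^ m = 2 * (1 / 2) ^ (m + 1) := by
        rw [pow_succ]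
        ring
      linarith
  rcases m with _ | m
  · simp
  · refine (h m).trans ?_
    have : (0 : ℝ) ≤ (1 / 2) ^ m := by positivity
    linarith

private lemma Maj_resc {r A B : ℝ} (hr : 0 ≤ r) (hA : 0 ≤ A) (hB : 0 ≤ B)
    (hx : B * A * r ≤ 1 / 2) {w : ℂ[X]} (hw : Maj_N w ≤ B) {V : PowerSeries ℂ}
    (h0 : PowerSeries.coeff 0 V = 0) (hV : ∀ n, ‖PowerSeries.coeff n V‖ ≤ A ^ n) :
    MajP r (PowerSeries.rescale w (PowerSeries.map (C : ℂ →+* ℂ[X]) V)) 1 := by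
  intro m
  refine (Finset.sum_le_sum fun i _ => ?_).trans (Maj_geom (B * A * r) (by positivity) hx m)
  rw [PowerSeries.coeff_rescale, PowerSeries.coeff_map]
  split_ifs with hi
  · rw [hi, h0, map_zero, mul_zero, Maj_N_zero, zero_mul]
  · rw [mul_pow]
    refine mul_le_mul_of_nonneg_right ?_ (pow_nonneg hr _)
    rw [mul_pow]
    exact (Maj_N_mul _ _).trans (mul_le_mul (Maj_N_pow hw i) ((Maj_N_C _).trans (hV i))
      (Maj_N_nonneg _) (pow_nonneg hB _))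

private lemma Maj_dirS4 {A : ℝ} (hA : 1 ≤ A) {V₁ V₂ V₃ V₄ : PowerSeries ℂ}
    (h₁ : PowerSeries.coeff 0 V₁ = 0) (h₂ : PowerSeries.coeff 0 V₂ = 0)
    (h₃ : PowerSeries.coeff 0 V₃ = 0) (h₄ : PowerSeries.coeff 0 V₄ = 0)
    (b₁ : ∀ n, ‖PowerSeries.coeff n V₁‖ ≤ A ^ n)
    (b₂ : ∀ n, ‖PowerSeries.coeff n V₂‖ ≤ A ^ n) (b₃ : ∀ n, ‖PowerSeries.coeff n V₃‖ ≤ A ^ n)
    (b₄ : ∀ n, ‖PowerSeries.coeff n V₄‖ ≤ A ^ n)
    {m₁ m₂ n₁ n₂ : ℂ} (hm₁ : ‖m₁‖ ≤ A) (hm₂ : ‖m₂‖ ≤ A) (hn₁ : ‖n₁‖ ≤ A) (hn₂ : ‖n₂‖ ≤ A)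
    (a b c d k i : ℕ) :
    ‖(PowerSeries.coeff k (dirS4 V₁ V₂ V₃ V₄ m₁ m₂ n₁ n₂ a b c d)).coeff i‖ ≤
      (4 * A ^ 2) ^ k := by
  have hA0 : 0 < A := by linarith
  set r : ℝ := 1 / (4 * A ^ 2) with hr
  have hr0 : 0 < r := by positivity
  have e1 : A * r = 1 / (4 * A) := by
    rw [hr]
    field_simp
  have e2 : 1 / (4 * A) ≤ 1 / 2 := by
    apply one_div_le_one_div_of_le <;> linarith
  have hx1 : 1 * A * r ≤ 1 / 2 := by
    rw [one_mul, e1]
    exact e2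
  have hx2 : (2 * A) * A * r ≤ 1 / 2 := by
    have : (2 * A) * A * r = 1 / 2 := by
      rw [hr]
      field_simp
      norm_num
    exact this.le
  have c1 : MajP r (PowerSeries.map (C : ℂ →+* ℂ[X]) V₁) 1 := by
    have h := Maj_resc hr0.le hA0.le zero_le_one hx1 Maj_N_one h₁ b₁
    rwa [PowerSeries.rescale_one, RingHom.id_apply] at h
  have c2 := Maj_resc hr0.le hA0.le zero_le_one hx1 Maj_N_X h₂ b₂
  have hw : ∀ m₁ m₂ : ℂ, ‖m₁‖ ≤ A → ‖m₂‖ ≤ A → Maj_N (C m₁ + C m₂ * X) ≤ 2 * A := by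
    intro m₁ m₂ hm₁ hm₂
    have h1 := Maj_N_add (C m₁) (C m₂ * X)
    have h2 : Maj_N (C m₂ * X) ≤ A * 1 :=
      (Maj_N_mul _ _).trans (mul_le_mul ((Maj_N_C _).trans hm₂) Maj_N_X (Maj_N_nonneg _) hA0.le)
    have h3 : Maj_N (C m₁) ≤ A := (Maj_N_C _).trans hm₁
    linarith
  have c3 := Maj_resc hr0.le hA0.le (by positivity) hx2 (hw m₁ m₂ hm₁ hm₂) h₃ b₃
  have c4 := Maj_resc hr0.le hA0.le (by positivity) hx2 (hw n₁ n₂ hn₁ hn₂) h₄ b₄
  have hmain : MajP r (dirS4 V₁ V₂ V₃ V₄ m₁ m₂ n₁ n₂ a b c d) 1 := by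
    have h := Maj_mul hr0.le (Maj_mul hr0.le (Maj_mul hr0.le (Maj_pow hr0.le c1 a)
      (Maj_pow hr0.le c2 b)) (Maj_pow hr0.le c3 c)) (Maj_pow hr0.le c4 d)
    rw [mul_one, mul_one, mul_one] at h
    exact h
  have h4 : Maj_N (PowerSeries.coeff k (dirS4 V₁ V₂ V₃ V₄ m₁ m₂ n₁ n₂ a b c d)) * r ^ k ≤ 1 := by
    refine le_trans ?_ (hmain (k + 1))
    exact Finset.single_le_sum
      (f := fun i => Maj_N (PowerSeries.coeff i (dirS4 V₁ V₂ V₃ V₄ m₁ m₂ n₁ n₂ a b c d)) * r ^ i)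
      (fun j _ => mul_nonneg (Maj_N_nonneg _) (pow_nonneg hr0.le _))
      (Finset.mem_range.2 (Nat.lt_succ_self k))
  have h5 : (4 * A ^ 2) ^ k * r ^ k = 1 := by
    rw [← mul_pow, hr, mul_one_div_cancel (by positivity), one_pow]
  have h6 : Maj_N (PowerSeries.coeff k (dirS4 V₁ V₂ V₃ V₄ m₁ m₂ n₁ n₂ a b c d)) ≤
      (4 * A ^ 2) ^ k := by
    rw [← h5] at h4
    exact le_of_mul_le_mul_right h4 (pow_pos hr0 k)
  exact (Maj_coeff_le _ i).trans h6

theorem dirS4_bd {K : IntermediateField ℚ ℂ} {ν : ℕ} {A : ℝ} (hA : 1 ≤ A)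
    {U₁ U₂ U₃ U₄ : PowerSeries K} (h₁ : Ar ν A U₁) (h₂ : Ar ν A U₂) (h₃ : Ar ν A U₃)
    (h₄ : Ar ν A U₄) {l₁ l₂ k₁ k₂ : K} (σ : K →+* ℂ) (hl₁ : ‖σ l₁‖ ≤ A) (hl₂ : ‖σ l₂‖ ≤ A)
    (hk₁ : ‖σ k₁‖ ≤ A) (hk₂ : ‖σ k₂‖ ≤ A) (a b c d k i : ℕ) :
    ‖σ ((PowerSeries.coeff k (dirS4 U₁ U₂ U₃ U₄ l₁ l₂ k₁ k₂ a b c d)).coeff i)‖ ≤
      (4 * A ^ 2) ^ k := by
  rw [← coeff_map, map_dirS4]
  refine Maj_dirS4 hA ?_ ?_ ?_ ?_ ?_ ?_ ?_ ?_ hl₁ hl₂ hk₁ hk₂ a b c d k i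
  · rw [PowerSeries.coeff_map, h₁.z0, map_zero]
  · rw [PowerSeries.coeff_map, h₂.z0, map_zero]
  · rw [PowerSeries.coeff_map, h₃.z0, map_zero]
  · rw [PowerSeries.coeff_map, h₄.z0, map_zero]
  · intro n
    rw [PowerSeries.coeff_map]
    exact h₁.bd σ n
  · intro n
    rw [PowerSeries.coeff_map]
    exact h₂.bd σ n
  · intro n
    rw [PowerSeries.coeff_map]
    exact h₃.bd σ n
  · intro n
    rw [PowerSeries.coeff_map]
    exact h₄.bd σ n

end Pool.Agent.LGO.F3
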