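import Pool.Agent.LGO.F3.EDef
import Pool.Agent.LGO.F.PAd

/-!
# LGO/F3, engine P3: the analytic data

PROOF.  `mkAD` (`F/PAd.lean`) twice, for `h.h` (`w', τ', μ, N, a, b`) and for `h.h'` (`w'', τ'', μ', N', a', b'`): `ad` is the first, and
`loc₄, gr₄, w₄, hk₂, rel'` are the fields `loc₃, gr₃, w₃, hl₂, rel` of the second.
-/

namespace Pool.Agent.LGO.F3

open Pool.Agent.EllSch Pool.Agent.LGO.Bs Pool.Agent.LGO.E3 Pool.Agent.LGO.F Pool.Agent.LGO.F.PE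

theorem mkAD4 : ∃ c : ℝ, 1 ≤ c ∧ ∀ (w τ w' τ' μ w'' τ'' μ' : ℂ) (N N' d n I : ℕ)
    (a b a' b' : ℤ) (G : ℝ), w' ≠ 0 → w'' ≠ 0 → Red τ → Red τ' → Red τ'' → μ ≠ 0 → μ' ≠ 0 →
    ZD2 w τ (w' / μ) (w' / μ * τ') (w'' / μ') (w'' / μ' * τ'') N N' d n I a b a' b' → 0 ≤ G →
    (Real.exp (-G) ≤ ‖w‖ ∧ ‖w‖ ≤ Real.exp G) → (Real.exp (-G) ≤ ‖w * τ‖ ∧ ‖w * τ‖ ≤ Real.exp G) →
    (Real.exp (-G) ≤ ‖μ * (a * w + b * (w * τ))‖ ∧ ‖μ * (a * w + b * (w * τ))‖ ≤ Real.exp G) →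
    (Real.exp (-G) ≤ ‖μ' * (a' * w + b' * (w * τ))‖ ∧
      ‖μ' * (a' * w + b' * (w * τ))‖ ≤ Real.exp G) →
    ‖w'‖ ≤ Real.exp G → ‖μ * b‖ ≤ Real.exp G → ‖w''‖ ≤ Real.exp G → ‖μ' * b'‖ ≤ Real.exp G →
    ∃ s₁ e₁ s₂ e₂ s₃ e₃ s₄ e₄ : ℂ → ℂ, AD4 c (2 * G) N N' w τ (μ * (a * w + b * (w * τ)))
      (μ' * (a' * w + b' * (w * τ))) (μ * a) (μ * b) (μ' * a') (μ' * b')
      (us (3 / 2 * G2 w (w * τ)) (2 * G3 w (w * τ)))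
      (us (3 / 2 * G2 w' (w' * τ')) (2 * G3 w' (w' * τ')))
      (us (3 / 2 * G2 w'' (w'' * τ'')) (2 * G3 w'' (w'' * τ''))) s₁ e₁ s₂ e₂ s₃ e₃ s₄ e₄ := by
  obtain ⟨c, hc, hAD⟩ := mkAD
  refine ⟨c, hc, ?_⟩
  intro w τ w' τ' μ w'' τ'' μ' N N' d n I a b a' b' G hw' hw'' hτ hτ' hτ'' hμ hμ' hZ hG h1 h2 h3 h4
    b1 b2 b3 b4
  obtain ⟨s₁, e₁, s₂, e₂, s₃, e₃, A⟩ :=
    hAD w τ w' τ' μ N a b G hw' hτ hτ' hμ hZ.h hG h1 h2 h3 b1 b2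
  obtain ⟨u₁, v₁, u₂, v₂, s₄, e₄, B⟩ :=
    hAD w τ w'' τ'' μ' N' a' b' G hw'' hτ hτ'' hμ' hZ.h' hG h1 h2 h4 b3 b4
  exact ⟨s₁, e₁, s₂, e₂, s₃, e₃, s₄, e₄, A, B.loc₃, B.gr₃, B.w₃, B.hl₂, B.rel⟩

end Pool.Agent.LGO.F3
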