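import Pool.Agent.LGO.F3.EDef
import Pool.Agent.LGO.F.PArith

/-!
# LGO/F3, engine P3: the arithmetic data

PROOF.  Copy of `F/PArith.lean`: `exists_sqrt_ext` (LGO/H/SkewBd) twice, `K ⊆ K' ⊆ K''`, `μ ∈ K'`, `μ' ∈ K''`,
`finrank K'' ≤ 4 finrank K`; `Bd.sk_sqrt`, `Bd.sk_ext`; `Base_series` over `K''` for the three lattices: `V₁, ν₁`, `V₃, ν₃`, `V₄, ν₄`,
`ν_i ≤ exp (3 B)`; denominators `m`, `m'` of `μ`, `μ'`, `≤ exp B`; `ν = ν₁ ν₃ ν₄ m m' ≤ exp (11 B)`.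
-/

namespace Pool.Agent.LGO.F3

open Pool.Agent.EllSch Pool.Agent.LGO.Bs Pool.Agent.LGO.E3 Pool.Agent.LGO.F Pool.Agent.LGO.F.PE

private theorem EArith_int {K : IntermediateField ℚ ℂ} [FiniteDimensional ℚ K] {μ : ℂ}
    (hμ : μ ∈ K) (ν m n : ℕ) (hν : ν = m * n) (h : IsIntegral ℤ ((n : ℂ) * μ)) (a : ℤ) :
    IsIntegral ℤ ((ν : K) * ((⟨μ, hμ⟩ : K) * (a : K))) := by
  refine (isIntegral_algebraMap_iff (A := K) (B := ℂ) (algebraMap K ℂ).injective).1 ?_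
  have e : algebraMap K ℂ ((ν : K) * ((⟨μ, hμ⟩ : K) * (a : K))) =
      ((m * a : ℤ) : ℂ) * ((n : ℂ) * μ) := by
    rw [map_mul, map_mul, map_natCast, map_intCast, hν]
    have : algebraMap K ℂ ⟨μ, hμ⟩ = μ := rfl
    rw [this]
    push_cast
    ring
  rw [e]
  exact (isIntegral_intCast (m * a)).mul h

private theorem EArith_bd {K : IntermediateField ℚ ℂ} {B : ℝ} (hB : 1 ≤ B) {μ : ℂ} (hμ : μ ∈ K)
    (h : Bd K B μ) {a : ℤ} (ha : |(a : ℝ)| ≤ Real.exp B) (σ : K →+* ℂ) :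
    ‖σ ((⟨μ, hμ⟩ : K) * (a : K))‖ ≤ Real.exp (11 * B) := by
  rw [map_mul, map_intCast, norm_mul, Complex.norm_intCast]
  calc ‖σ ⟨μ, hμ⟩‖ * |(a : ℝ)| ≤ Real.exp B * Real.exp B :=
        mul_le_mul (h.house σ) ha (abs_nonneg _) (Real.exp_pos _).le
    _ = Real.exp (B + B) := (Real.exp_add _ _).symm
    _ ≤ Real.exp (11 * B) := Real.exp_le_exp.2 (by linarith)

theorem mkAR4 (K : IntermediateField ℚ ℂ) [FiniteDimensional ℚ K] {B : ℝ} (hB : 1 ≤ B)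
    {w τ w' τ' μ w'' τ'' μ' : ℂ} (hI : Ind w (w * τ)) (hI' : Ind w' (w' * τ'))
    (hI'' : Ind w'' (w'' * τ''))
    (h2 : Bd K B (G2 w (w * τ))) (h3 : Bd K B (G3 w (w * τ)))
    (h2' : Bd K B (G2 w' (w' * τ'))) (h3' : Bd K B (G3 w' (w' * τ')))
    (h2'' : Bd K B (G2 w'' (w'' * τ''))) (h3'' : Bd K B (G3 w'' (w'' * τ'')))
    (hμ : Bd K B (μ ^ 2)) (hμ' : Bd K B (μ' ^ 2))
    {a b a' b' : ℤ} (ha : |(a : ℝ)| ≤ Real.exp B) (hb : |(b : ℝ)| ≤ Real.exp B)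
    (ha' : |(a' : ℝ)| ≤ Real.exp B) (hb' : |(b' : ℝ)| ≤ Real.exp B) :
    ∃ (K' : IntermediateField ℚ ℂ) (ν : ℕ) (V₁ V₃ V₄ : PowerSeries K') (m₁ m₂ n₁ n₂ : K'),
      FiniteDimensional ℚ K' ∧ Module.finrank ℚ K' ≤ 4 * Module.finrank ℚ K ∧
      AR4 K' (11 * B) (us (3 / 2 * G2 w (w * τ)) (2 * G3 w (w * τ)))
        (us (3 / 2 * G2 w' (w' * τ')) (2 * G3 w' (w' * τ')))
        (us (3 / 2 * G2 w'' (w'' * τ'')) (2 * G3 w'' (w'' * τ''))) (μ * a) (μ * b)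
        (μ' * a') (μ' * b') ν V₁ V₃ V₄ m₁ m₂ n₁ n₂ := by
  obtain ⟨K₁, hKK, hμK, hfd, hfr⟩ := exists_sqrt_ext K hμ.mem
  obtain ⟨K', hKK', hμK', hfd', hfr'⟩ := exists_sqrt_ext K₁ (hμ'.sk_ext hKK).mem
  have hle : K ≤ K' := hKK.trans hKK'
  have hμK2 : μ ∈ K' := hKK' hμK
  have bμ : Bd K' B μ := Bd.sk_sqrt hle (by linarith) hμK2 hμ
  have bμ' : Bd K' B μ' := Bd.sk_sqrt hle (by linarith) hμK' hμ'
  obtain ⟨V₁, ν₁, p1, q1, ar1, map1⟩ := Base_series (K := K') hB hI (h2.sk_ext hle) (h3.sk_ext hle)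
  obtain ⟨V₃, ν₃, p3, q3, ar3, map3⟩ :=
    Base_series (K := K') hB hI' (h2'.sk_ext hle) (h3'.sk_ext hle)
  obtain ⟨V₄, ν₄, p4, q4, ar4, map4⟩ :=
    Base_series (K := K') hB hI'' (h2''.sk_ext hle) (h3''.sk_ext hle)
  obtain ⟨n, hn, hnB, hint⟩ := bμ.den
  obtain ⟨n', hn', hnB', hint'⟩ := bμ'.den
  have hexp : Real.exp B ≤ Real.exp (11 * B) := Real.exp_le_exp.2 (by linarith)
  refine ⟨K', ν₁ * ν₃ * ν₄ * n * n', V₁, V₃, V₄, (⟨μ, hμK2⟩ : K') * (a : K'),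
    (⟨μ, hμK2⟩ : K') * (b : K'), (⟨μ', hμK'⟩ : K') * (a' : K'), (⟨μ', hμK'⟩ : K') * (b' : K'),
    hfd', by omega, ?_⟩
  refine ⟨⟨Nat.mul_pos (Nat.mul_pos (Nat.mul_pos (Nat.mul_pos p1 p3) p4) hn) hn', ?_, ?_, ?_,
    map1, map3, ?_, ?_,
    EArith_int hμK2 _ (ν₁ * ν₃ * ν₄ * n') n (by ring) hint a,
    EArith_int hμK2 _ (ν₁ * ν₃ * ν₄ * n') n (by ring) hint b, EArith_bd hB hμK2 bμ ha,
    EArith_bd hB hμK2 bμ hb⟩, ?_, map4, ?_, ?_,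
    EArith_int hμK' _ (ν₁ * ν₃ * ν₄ * n) n' rfl hint' a',
    EArith_int hμK' _ (ν₁ * ν₃ * ν₄ * n) n' rfl hint' b', EArith_bd hB hμK' bμ' ha',
    EArith_bd hB hμK' bμ' hb'⟩
  · push_cast
    calc (ν₁ : ℝ) * ν₃ * ν₄ * n * n' ≤ Real.exp (3 * B) * Real.exp (3 * B) * Real.exp (3 * B) *
          Real.exp B * Real.exp B := by gcongr
      _ = Real.exp (3 * B + 3 * B + 3 * B + B + B) := by
          rw [← Real.exp_add, ← Real.exp_add, ← Real.exp_add, ← Real.exp_add]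
      _ ≤ Real.exp (11 * B) := Real.exp_le_exp.2 (by linarith)
  · have e : ν₁ * ν₃ * ν₄ * n * n' = ν₁ * (ν₃ * ν₄ * n * n') := by ring
    rw [e]
    exact ar1.mono (Real.exp_pos _).le _ hexp
  · have e : ν₁ * ν₃ * ν₄ * n * n' = ν₃ * (ν₁ * ν₄ * n * n') := by ring
    rw [e]
    exact ar3.mono (Real.exp_pos _).le _ hexp
  · push_cast
    rfl
  · push_cast
    rfl
  · have e : ν₁ * ν₃ * ν₄ * n * n' = ν₄ * (ν₁ * ν₃ * n * n') := by ring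
    rw [e]
    exact ar4.mono (Real.exp_pos _).le _ hexp
  · push_cast
    rfl
  · push_cast
    rfl

end Pool.Agent.LGO.F3
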