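import Pool.Agent.LGO.F3.EDef

/-!
# LGO/F3, engine P3: upper bound for `Fc4` (copy of `F/PBnd.lean`)
-/

namespace Pool.Agent.LGO.F3

open Pool.Agent.LGO.E3 Pool.Agent.LGO.F.PE

variable {L₁ L₂ L₃ L₄ : ℕ}

private lemma bnd_pw {x y : ℂ} {X : ℝ} (hX : 0 ≤ X) (hx : ‖x‖ ≤ Real.exp X)
    (hy : ‖y‖ ≤ Real.exp X) {a L : ℕ} (ha : a < L) :
    ‖x ^ a * y ^ (L - 1 - a)‖ ≤ Real.exp (L * X) := by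
  rw [norm_mul, norm_pow, norm_pow]
  calc ‖x‖ ^ a * ‖y‖ ^ (L - 1 - a) ≤ Real.exp X ^ a * Real.exp X ^ (L - 1 - a) := by gcongr
    _ = Real.exp X ^ (L - 1) := by rw [← pow_add]; congr 1; omega
    _ = Real.exp (((L - 1 : ℕ) : ℝ) * X) := by rw [Real.exp_nat_mul]
    _ ≤ Real.exp (L * X) := by
      apply Real.exp_le_exp.2
      apply mul_le_mul_of_nonneg_right _ hX
      exact_mod_cast Nat.sub_le L 1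

theorem bndc4 {s₁ e₁ s₂ e₂ s₃ e₃ s₄ e₄ : ℂ → ℂ} {E₁ E₂ E₃ E₄ : ℝ → ℝ} (h₁ : Grf E₁ s₁ e₁)
    (h₂ : Grf E₂ s₂ e₂) (h₃ : Grf E₃ s₃ e₃) (h₄ : Grf E₄ s₄ e₄) (κ κ' : ℂ)
    (p : Ix4 L₁ L₂ L₃ L₄ → ℂ) (S : ℕ) (hS : 1 ≤ S)
    (h₁0 : 0 ≤ E₁ (9 * S)) (h₂0 : 0 ≤ E₂ (9 * S)) (h₃0 : 0 ≤ E₃ (9 * S))
    (h₄0 : 0 ≤ E₄ (9 * S)) {ρ : ℝ} (hρ : 1 ≤ ρ) (hκρ : ‖κ‖ ≤ ρ) (hκρ' : ‖κ'‖ ≤ ρ)
    (z v : ℂ) (hz : ‖z‖ ≤ 8 * S) (hv : ‖v‖ ≤ 1 / ρ) :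
    ‖Fc4 s₁ e₁ s₂ e₂ s₃ e₃ s₄ e₄ κ κ' p (z, v)‖ ≤
      (∑ q, ‖p q‖) * Real.exp (L₁ * E₁ (9 * S) + L₂ * E₂ (9 * S) + L₃ * E₃ (9 * S) +
        L₄ * E₄ (9 * S)) := by
  have hS' : (1 : ℝ) ≤ S := by exact_mod_cast hS
  have hρ0 : 0 < ρ := by linarith
  have hv1 : ‖v‖ ≤ 1 := hv.trans (by rw [div_le_one hρ0]; exact hρ)
  have hκv : ∀ κ : ℂ, ‖κ‖ ≤ ρ → ‖κ * v‖ ≤ 1 := by
    intro κ hκ
    rw [norm_mul]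
    calc ‖κ‖ * ‖v‖ ≤ ρ * (1 / ρ) := mul_le_mul hκ hv (norm_nonneg _) hρ0.le
      _ = 1 := by field_simp
  have hz1 : ‖z‖ ≤ 9 * S := by linarith
  have hz2 : ‖z + v‖ ≤ 9 * S := (norm_add_le _ _).trans (by linarith)
  have hz3 : ‖z + κ * v‖ ≤ 9 * S := (norm_add_le _ _).trans (by linarith [hκv κ hκρ])
  have hz4 : ‖z + κ' * v‖ ≤ 9 * S := (norm_add_le _ _).trans (by linarith [hκv κ' hκρ'])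
  have g1 := h₁ (9 * S) z (by linarith) hz1
  have g2 := h₂ (9 * S) (z + v) (by linarith) hz2
  have g3 := h₃ (9 * S) (z + κ * v) (by linarith) hz3
  have g4 := h₄ (9 * S) (z + κ' * v) (by linarith) hz4
  rw [Fc4, Finset.sum_mul]
  refine (norm_sum_le _ _).trans (Finset.sum_le_sum fun q _ => ?_)
  rw [norm_mul, norm_mul, norm_mul, norm_mul]
  have a1 := bnd_pw h₁0 g1.1 g1.2 q.1.2
  have a2 := bnd_pw h₂0 g2.1 g2.2 q.2.1.2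
  have a3 := bnd_pw h₃0 g3.1 g3.2 q.2.2.1.2
  have a4 := bnd_pw h₄0 g4.1 g4.2 q.2.2.2.2
  calc _ ≤ ‖p q‖ * Real.exp (L₁ * E₁ (9 * S)) * Real.exp (L₂ * E₂ (9 * S)) *
        Real.exp (L₃ * E₃ (9 * S)) * Real.exp (L₄ * E₄ (9 * S)) := by gcongr
    _ = _ := by
      rw [mul_assoc, mul_assoc, mul_assoc, ← Real.exp_add, ← Real.exp_add, ← Real.exp_add]
      congr 2
      ring

end Pool.Agent.LGO.F3
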