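import Mathlib

/-!
# LGO/F3, engine P3: the final inequality

PROOF.  Copy of `F/PNum.lean` (`pnum`): there `t = N⁵ θ` and the term `3 t θ G`; here `t = 64 N⁵ θ` and `4 t θ G`
(`log T ≤ C₁ + 6 log N + θ + 8`; change the constants).
-/

namespace Pool.Agent.LGO.F3

/-- The inequality after taking logarithms and dividing by `W`. -/
private theorem ENum_log (c : ℝ) (G V D ρ t W T θ : ℝ) (hW : 0 < W)
    (h : Real.exp (-(2 * D * (W * (Real.log W + T * Real.log T + T * (Real.log 4 + 4 * V))))) ≤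
      Real.exp (W * (3 * c * t * θ ^ 2 + Real.log W + 4 * t * θ * G + (4 * G + 1) * T) -
        1 / (16 * c * t) * (W ^ 3 / (3 * (T + 1) ^ 2) - (T + 1) * W / 2)) *
        Real.exp (W * (2 * Real.log (T + 1) + T * Real.log (2 * (1 + ρ))))) :
    1 / (16 * c * t) * (W ^ 2 / (3 * (T + 1) ^ 2) - (T + 1) / 2) ≤
      (3 * c * t * θ ^ 2 + Real.log W + 4 * t * θ * G + (4 * G + 1) * T) +
        (2 * Real.log (T + 1) + T * Real.log (2 * (1 + ρ))) +
        2 * D * (Real.log W + T * Real.log T + T * (Real.log 4 + 4 * V)) := by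
  rw [← Real.exp_add, Real.exp_le_exp] at h
  have e1 : W ^ 3 / (3 * (T + 1) ^ 2) - (T + 1) * W / 2 =
      W * (W ^ 2 / (3 * (T + 1) ^ 2) - (T + 1) / 2) := by ring
  rw [e1] at h
  have h2 : W * (1 / (16 * c * t) * (W ^ 2 / (3 * (T + 1) ^ 2) - (T + 1) / 2)) ≤
      W * ((3 * c * t * θ ^ 2 + Real.log W + 4 * t * θ * G + (4 * G + 1) * T) +
        (2 * Real.log (T + 1) + T * Real.log (2 * (1 + ρ))) +
        2 * D * (Real.log W + T * Real.log T + T * (Real.log 4 + 4 * V))) := by
    nlinarith [h]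
  exact le_of_mul_le_mul_left h2 hW

private theorem ENum_end (K B r n : ℝ) (hK : 1 ≤ K) (hB : 1 ≤ B) (h1 : r ^ 2 ≤ 4 * n)
    (h2 : n ≤ K * (B ^ 2 + r * B)) : r ≤ (4 * K + 1) * B := by
  by_contra hcon
  push Not at hcon
  have hB0 : 0 < B := by linarith
  have h3 : (4 * K + 1) * B * r < r * r := by
    have hr0 : 0 < r := lt_of_le_of_lt (by positivity) hcon
    exact mul_lt_mul_of_pos_right hcon hr0
  have h4 : (4 * K + 1) * B * B < r * B := mul_lt_mul_of_pos_right hcon hB0
  nlinarith [h1, h2, h3, h4, mul_pos hB0 hB0]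

theorem pnum4 (c : ℝ) (hc : 1 ≤ c) (C₁ : ℕ) (hC₁ : 1 ≤ C₁) : ∃ C : ℝ, 1 ≤ C ∧
    ∀ (N θ r : ℕ) (G V D ρ t W T : ℝ), 1 ≤ N → 1 ≤ θ → N ≤ r ^ 2 → r ^ 2 ≤ 4 * N → 0 ≤ G → 0 ≤ V →
    1 ≤ D → 0 ≤ ρ → ρ ≤ 2 * θ → t = 64 * N ^ 5 * θ → W = t ^ 2 * N → T = C₁ * t * r →
    Real.exp (-(2 * D * (W * (Real.log W + T * Real.log T + T * (Real.log 4 + 4 * V))))) ≤
      Real.exp (W * (3 * c * t * θ ^ 2 + Real.log W + 4 * t * θ * G + (4 * G + 1) * T) -
        1 / (16 * c * t) * (W ^ 3 / (3 * (T + 1) ^ 2) - (T + 1) * W / 2)) *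
        Real.exp (W * (2 * Real.log (T + 1) + T * Real.log (2 * (1 + ρ)))) →
    (r : ℝ) ≤ C * (G + D * (V + 1 + Real.log N + θ)) := by
  have hC₁' : (1 : ℝ) ≤ (C₁ : ℝ) := by exact_mod_cast hC₁
  set k : ℝ := (C₁ : ℝ) with hk
  have hc0 : 0 < c := by linarith
  have hk0 : 0 < k := by linarith
  set K : ℝ := 768 * c * k ^ 2 * (3 * c + 13 + 2 * k ^ 2 + 57 * k) with hKdef
  have hK1 : 1 ≤ K := by
    have a1 : 1 ≤ k ^ 2 := by nlinarith
    have a2 : 1 ≤ c * k ^ 2 := by nlinarith
    have a3 : 1 ≤ 3 * c + 13 + 2 * k ^ 2 + 57 * k := by nlinarith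
    have a4 : 1 ≤ (c * k ^ 2) * (3 * c + 13 + 2 * k ^ 2 + 57 * k) := by nlinarith
    rw [hKdef]
    nlinarith
  refine ⟨4 * K + 1, by linarith, ?_⟩
  intro N θ r G V D ρ t W T hN hθ hNr hrN hG hV hD hρ hρθ ht hW hT h
  have hn1 : (1 : ℝ) ≤ (N : ℝ) := by exact_mod_cast hN
  have hth1 : (1 : ℝ) ≤ (θ : ℝ) := by exact_mod_cast hθ
  have hr1 : 1 ≤ r := by
    by_contra h0
    have : r = 0 := by omega
    subst this
    simp at hNr
    omega
  have hr1' : (1 : ℝ) ≤ (r : ℝ) := by exact_mod_cast hr1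
  have hNr' : (N : ℝ) ≤ (r : ℝ) ^ 2 := by exact_mod_cast hNr
  have hrN' : (r : ℝ) ^ 2 ≤ 4 * (N : ℝ) := by exact_mod_cast hrN
  set n : ℝ := (N : ℝ) with hndef
  set th : ℝ := (θ : ℝ) with hthdef
  set s : ℝ := (r : ℝ) with hsdef
  have hn5 : n ≤ n ^ 5 := by
    calc n = n ^ 1 := (pow_one n).symm
      _ ≤ n ^ 5 := pow_le_pow_right₀ hn1 (by norm_num)
  have hnt : n ≤ t := by
    rw [ht]
    have h64 : n ^ 5 ≤ 64 * n ^ 5 := by linarith
    have h65 : 64 * n ^ 5 ≤ 64 * n ^ 5 * th := le_mul_of_one_le_right (by positivity) hth1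
    linarith
  have ht1 : 1 ≤ t := le_trans hn1 hnt
  have ht0 : 0 < t := by linarith
  have hn0 : 0 < n := by linarith
  have hth0 : 0 < th := by linarith
  have hs0 : 0 < s := by linarith
  have hW0 : 0 < W := by rw [hW]; positivity
  have hT1 : 1 ≤ T := by
    rw [hT]
    have : 1 ≤ k * t := by nlinarith
    nlinarith
  have hT0 : 0 < T := by linarith
  have hlog := ENum_log c G V D ρ t W T th hW0 h
  -- lower bound of the left side
  have hT2 : (T + 1) ^ 2 ≤ 16 * k ^ 2 * t ^ 2 * n := by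
    have b1 : (T + 1) ^ 2 ≤ (2 * T) ^ 2 := by
      apply pow_le_pow_left₀ (by linarith)
      linarith
    have b2 : (2 * T) ^ 2 = 4 * k ^ 2 * t ^ 2 * s ^ 2 := by rw [hT]; ring
    have b3 : 4 * k ^ 2 * t ^ 2 * s ^ 2 ≤ 4 * k ^ 2 * t ^ 2 * (4 * n) := by
      apply mul_le_mul_of_nonneg_left hrN' (by positivity)
    calc (T + 1) ^ 2 ≤ (2 * T) ^ 2 := b1
      _ = 4 * k ^ 2 * t ^ 2 * s ^ 2 := b2
      _ ≤ 4 * k ^ 2 * t ^ 2 * (4 * n) := b3
      _ = 16 * k ^ 2 * t ^ 2 * n := by ring
  have hlow1 : t ^ 2 * n / (48 * k ^ 2) ≤ W ^ 2 / (3 * (T + 1) ^ 2) := by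
    rw [div_le_div_iff₀ (by positivity) (by positivity)]
    have b4 : W ^ 2 = t ^ 4 * n ^ 2 := by rw [hW]; ring
    rw [b4]
    have b5 : t ^ 2 * n * (3 * (T + 1) ^ 2) ≤ t ^ 2 * n * (3 * (16 * k ^ 2 * t ^ 2 * n)) := by
      apply mul_le_mul_of_nonneg_left _ (by positivity)
      linarith
    calc t ^ 2 * n * (3 * (T + 1) ^ 2) ≤ t ^ 2 * n * (3 * (16 * k ^ 2 * t ^ 2 * n)) := b5
      _ = t ^ 4 * n ^ 2 * (48 * k ^ 2) := by ring
  have hlow : t * (n / (768 * c * k ^ 2)) - k * s ≤
      1 / (16 * c * t) * (W ^ 2 / (3 * (T + 1) ^ 2) - (T + 1) / 2) := by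
    have b6 : 1 / (16 * c * t) * (t ^ 2 * n / (48 * k ^ 2)) = t * (n / (768 * c * k ^ 2)) := by
      field_simp
      ring
    have b7 : 1 / (16 * c * t) * ((T + 1) / 2) ≤ k * s := by
      have b8 : (T + 1) / 2 ≤ T := by linarith
      have b9 : 1 / (16 * c * t) * ((T + 1) / 2) ≤ 1 / (16 * c * t) * T := by
        apply mul_le_mul_of_nonneg_left b8 (by positivity)
      have b10 : 1 / (16 * c * t) * T = k * s / (16 * c) := by
        rw [hT]
        field_simp
      have b11 : k * s / (16 * c) ≤ k * s := by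
        apply div_le_self (by positivity)
        linarith
      linarith
    have b12 : 1 / (16 * c * t) * (t ^ 2 * n / (48 * k ^ 2)) ≤
        1 / (16 * c * t) * (W ^ 2 / (3 * (T + 1) ^ 2)) := by
      apply mul_le_mul_of_nonneg_left hlow1 (by positivity)
    have b13 : 1 / (16 * c * t) * (W ^ 2 / (3 * (T + 1) ^ 2) - (T + 1) / 2) =
        1 / (16 * c * t) * (W ^ 2 / (3 * (T + 1) ^ 2)) - 1 / (16 * c * t) * ((T + 1) / 2) := by ring
    rw [b13]
    linarith
  -- logarithms
  have hlogn0 : 0 ≤ Real.log n := Real.log_nonneg hn1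
  have hlogt0 : 0 ≤ Real.log t := Real.log_nonneg ht1
  have hlogn : Real.log n ≤ t := by
    have := Real.log_le_sub_one_of_pos hn0
    linarith
  have hlogt : Real.log t ≤ t := by
    have := Real.log_le_sub_one_of_pos ht0
    linarith
  have hlogW : Real.log W ≤ 3 * t := by
    rw [hW, Real.log_mul (by positivity) (by positivity), Real.log_pow]
    push_cast
    linarith
  have hlogT1 : Real.log (T + 1) ≤ T := by
    have := Real.log_le_sub_one_of_pos (show (0 : ℝ) < T + 1 by linarith)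
    linarith
  have hlogρ : Real.log (2 * (1 + ρ)) ≤ 5 * th := by
    have := Real.log_le_sub_one_of_pos (show (0 : ℝ) < 2 * (1 + ρ) by linarith)
    linarith
  have hlogs : Real.log s ≤ 3 + Real.log n := by
    have c1 : Real.log (s ^ 2) ≤ Real.log (4 * n) := Real.log_le_log (by positivity) hrN'
    rw [Real.log_pow, Real.log_mul (by norm_num) (by positivity)] at c1
    push_cast at c1
    have c2 : Real.log 4 ≤ 3 := by
      have := Real.log_le_sub_one_of_pos (show (0 : ℝ) < 4 by norm_num)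
      linarith
    have c3 : 0 ≤ Real.log s := Real.log_nonneg hr1'
    linarith
  have hlogT : Real.log T ≤ k + 6 * Real.log n + th + 8 := by
    rw [hT, Real.log_mul (by positivity) (by positivity), Real.log_mul (by positivity) (by positivity), ht,
      Real.log_mul (by positivity) (by positivity), Real.log_mul (by positivity) (by positivity),
      Real.log_pow]
    push_cast
    have c6 : Real.log 64 ≤ 5 := by
      have e : (64 : ℝ) = 2 ^ 6 := by norm_num
      rw [e, Real.log_pow]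
      have := Real.log_two_lt_d9
      push_cast
      linarith
    have c4 : Real.log k ≤ k := by
      have := Real.log_le_sub_one_of_pos hk0
      linarith
    have c5 : Real.log th ≤ th := by
      have := Real.log_le_sub_one_of_pos hth0
      linarith
    linarith
  have hlog4 : Real.log 4 ≤ 3 := by
    have := Real.log_le_sub_one_of_pos (show (0 : ℝ) < 4 by norm_num)
    linarith
  -- the number B
  set B : ℝ := G + D * (V + 1 + Real.log n + th) with hBdef
  have hD0 : 0 ≤ D := by linarith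
  have hDV : 0 ≤ D * V := by positivity
  have hDn : 0 ≤ D * Real.log n := by positivity
  have hDth : 0 ≤ D * th := by positivity
  have hBexp : B = G + D * V + D + D * Real.log n + D * th := by rw [hBdef]; ring
  have hGB : G ≤ B := by rw [hBexp]; linarith
  have hDB : D ≤ B := by rw [hBexp]; linarith
  have hDVB : D * V ≤ B := by rw [hBexp]; linarith
  have hDnB : D * Real.log n ≤ B := by rw [hBexp]; linarith
  have hDthB : D * th ≤ B := by rw [hBexp]; linarith
  have hthB : th ≤ B := by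
    have : th ≤ D * th := le_mul_of_one_le_left hth0.le hD
    exact this.trans hDthB
  have hB1 : 1 ≤ B := le_trans hth1 hthB
  have hB0 : 0 < B := by linarith
  have hBB : B ≤ B ^ 2 := by
    rw [pow_two]
    exact le_mul_of_one_le_left hB0.le hB1
  have h1BB : 1 ≤ B ^ 2 := hB1.trans hBB
  -- upper bounds of the terms on the right side
  have u1 : 3 * c * t * th ^ 2 ≤ t * (3 * c * B ^ 2) := by
    have : th ^ 2 ≤ B ^ 2 := pow_le_pow_left₀ hth0.le hthB 2
    calc 3 * c * t * th ^ 2 ≤ 3 * c * t * B ^ 2 := by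
          apply mul_le_mul_of_nonneg_left this (by positivity)
      _ = t * (3 * c * B ^ 2) := by ring
  have u2 : Real.log W ≤ t * (3 * B ^ 2) := by
    calc Real.log W ≤ 3 * t := hlogW
      _ = t * 3 := by ring
      _ ≤ t * (3 * B ^ 2) := by
          apply mul_le_mul_of_nonneg_left _ ht0.le
          linarith
  have u3 : 4 * t * th * G ≤ t * (4 * B ^ 2) := by
    have : th * G ≤ B * B := mul_le_mul hthB hGB hG hB0.le
    calc 4 * t * th * G = 4 * t * (th * G) := by ring
      _ ≤ 4 * t * (B * B) := by apply mul_le_mul_of_nonneg_left this (by positivity)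
      _ = t * (4 * B ^ 2) := by ring
  have hks0 : 0 < k * s := by positivity
  have hTt : T = t * (k * s) := by rw [hT]; ring
  have u4 : (4 * G + 1) * T ≤ t * (5 * (k * s) * B) := by
    have : 4 * G + 1 ≤ 5 * B := by linarith
    calc (4 * G + 1) * T ≤ 5 * B * T := by apply mul_le_mul_of_nonneg_right this hT0.le
      _ = t * (5 * (k * s) * B) := by rw [hTt]; ring
  have u5 : 2 * Real.log (T + 1) ≤ t * (2 * (k * s) * B) := by
    calc 2 * Real.log (T + 1) ≤ 2 * T := by linarith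
      _ = t * (2 * (k * s)) := by rw [hTt]; ring
      _ ≤ t * (2 * (k * s) * B) := by
          apply mul_le_mul_of_nonneg_left _ ht0.le
          exact le_mul_of_one_le_right (by positivity) hB1
  have u6 : T * Real.log (2 * (1 + ρ)) ≤ t * (5 * (k * s) * B) := by
    calc T * Real.log (2 * (1 + ρ)) ≤ T * (5 * th) := by apply mul_le_mul_of_nonneg_left hlogρ hT0.le
      _ ≤ T * (5 * B) := by
          apply mul_le_mul_of_nonneg_left _ hT0.le
          linarith
      _ = t * (5 * (k * s) * B) := by rw [hTt]; ring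
  have u7 : 2 * D * Real.log W ≤ t * (6 * B ^ 2) := by
    calc 2 * D * Real.log W ≤ 2 * D * (3 * t) := by
          apply mul_le_mul_of_nonneg_left hlogW (by positivity)
      _ = t * (6 * D) := by ring
      _ ≤ t * (6 * B ^ 2) := by
          apply mul_le_mul_of_nonneg_left _ ht0.le
          linarith
  have u8 : 2 * D * (T * Real.log T) ≤ t * ((k * s) * (2 * k + 30) * B) := by
    have d1 : D * Real.log T ≤ (k + 15) * B := by
      calc D * Real.log T ≤ D * (k + 6 * Real.log n + th + 8) := by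
            apply mul_le_mul_of_nonneg_left hlogT hD0
        _ = k * D + 6 * (D * Real.log n) + D * th + 8 * D := by ring
        _ ≤ k * B + 6 * B + B + 8 * B := by
            have : k * D ≤ k * B := mul_le_mul_of_nonneg_left hDB hk0.le
            linarith
        _ = (k + 15) * B := by ring
    calc 2 * D * (T * Real.log T) = 2 * T * (D * Real.log T) := by ring
      _ ≤ 2 * T * ((k + 15) * B) := by apply mul_le_mul_of_nonneg_left d1 (by positivity)
      _ = t * ((k * s) * (2 * k + 30) * B) := by rw [hTt]; ring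
  have u9 : 2 * D * (T * (Real.log 4 + 4 * V)) ≤ t * (14 * (k * s) * B) := by
    have d2 : D * (Real.log 4 + 4 * V) ≤ 7 * B := by
      calc D * (Real.log 4 + 4 * V) ≤ D * (3 + 4 * V) := by
            apply mul_le_mul_of_nonneg_left _ hD0
            linarith
        _ = 3 * D + 4 * (D * V) := by ring
        _ ≤ 3 * B + 4 * B := by linarith
        _ = 7 * B := by ring
    calc 2 * D * (T * (Real.log 4 + 4 * V)) = 2 * T * (D * (Real.log 4 + 4 * V)) := by ring
      _ ≤ 2 * T * (7 * B) := by apply mul_le_mul_of_nonneg_left d2 (by positivity)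
      _ = t * (14 * (k * s) * B) := by rw [hTt]; ring
  have u0 : k * s ≤ t * ((k * s) * B) := by
    have g1 : k * s ≤ (k * s) * B := le_mul_of_one_le_right hks0.le hB1
    have g2 : (k * s) * B ≤ t * ((k * s) * B) := le_mul_of_one_le_left (mul_pos hks0 hB0).le ht1
    exact g1.trans g2
  have hsum : t * (n / (768 * c * k ^ 2)) ≤
      t * ((3 * c + 13) * B ^ 2 + (2 * k ^ 2 + 57 * k) * (s * B)) := by
    have hexp : 2 * D * (Real.log W + T * Real.log T + T * (Real.log 4 + 4 * V)) =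
        2 * D * Real.log W + 2 * D * (T * Real.log T) + 2 * D * (T * (Real.log 4 + 4 * V)) := by ring
    rw [hexp] at hlog
    have htot : t * ((3 * c + 13) * B ^ 2 + (2 * k ^ 2 + 57 * k) * (s * B)) =
        t * (3 * c * B ^ 2) + t * (3 * B ^ 2) + t * (4 * B ^ 2) + t * (5 * (k * s) * B) +
          t * (2 * (k * s) * B) + t * (5 * (k * s) * B) + t * (6 * B ^ 2) +
          t * ((k * s) * (2 * k + 30) * B) + t * (14 * (k * s) * B) + t * ((k * s) * B) := by ring
    rw [htot]
    linarith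
  have hsum2 : n / (768 * c * k ^ 2) ≤ (3 * c + 13) * B ^ 2 + (2 * k ^ 2 + 57 * k) * (s * B) :=
    le_of_mul_le_mul_left hsum ht0
  have hsum3 : n ≤ K * (B ^ 2 + s * B) := by
    rw [div_le_iff₀ (by positivity)] at hsum2
    have hsB : 0 ≤ s * B := by positivity
    have e1 : (3 * c + 13) * B ^ 2 + (2 * k ^ 2 + 57 * k) * (s * B) ≤
        (3 * c + 13 + 2 * k ^ 2 + 57 * k) * (B ^ 2 + s * B) := by
      have e2 : 0 ≤ (2 * k ^ 2 + 57 * k) * B ^ 2 := by positivity
      have e3 : 0 ≤ (3 * c + 13) * (s * B) := by positivity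
      have e4 : (3 * c + 13 + 2 * k ^ 2 + 57 * k) * (B ^ 2 + s * B) =
          (3 * c + 13) * B ^ 2 + (2 * k ^ 2 + 57 * k) * (s * B) +
            ((2 * k ^ 2 + 57 * k) * B ^ 2 + (3 * c + 13) * (s * B)) := by ring
      rw [e4]
      exact le_add_of_nonneg_right (add_nonneg e2 e3)
    calc n ≤ ((3 * c + 13) * B ^ 2 + (2 * k ^ 2 + 57 * k) * (s * B)) * (768 * c * k ^ 2) := hsum2
      _ ≤ ((3 * c + 13 + 2 * k ^ 2 + 57 * k) * (B ^ 2 + s * B)) * (768 * c * k ^ 2) := by
          apply mul_le_mul_of_nonneg_right e1 (by positivity)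
      _ = K * (B ^ 2 + s * B) := by rw [hKdef]; ring
  exact ENum_end K B s n hK1 hB1 hrN' hsum3

end Pool.Agent.LGO.F3
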