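import Pool.Agent.LGO.F3.EInj
import Pool.Agent.LGO.F3.ELiou
import Pool.Agent.LGO.F3.ENum
import Pool.Agent.LGO.F.PLMain
import Pool.Agent.LGO.F.PCore

/-!
# LGO/F3, engine P3: the core of the proof (copy of `F/PCore.lean`)
-/

namespace Pool.Agent.LGO.F3

open Pool.Agent.Schn Pool.Agent.LGO.E3 Pool.Agent.EllSch Pool.Agent.LGO.Bs Pool.Agent.LGO.F
  Pool.Agent.LGO.F.PE

theorem ZD2.sz {w τ c₁ c₂ d₁ d₂ : ℂ} {N N' d n I : ℕ} {a b a' b' : ℤ}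
    (h : ZD2 w τ c₁ c₂ d₁ d₂ N N' d n I a b a' b') : 1 ≤ n ∧ Sz N N' n I := by
  have hN := h.h.N1
  have hN' := h.h'.N1
  have hn : 1 ≤ n := by
    rcases Nat.eq_zero_or_pos n with h0 | h0
    · rw [h.eN, h0, mul_zero] at hN'
      omega
    · exact h0
  have hdN : d ≤ N := Nat.le_of_dvd hN h.dN
  have e := h.eI
  have hI : 1 ≤ I := by rw [e]; exact Nat.mul_pos hN hn
  have h1 : N ≤ I := by rw [e]; exact Nat.le_mul_of_pos_right _ hn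
  have h2 : n ≤ I := by rw [e]; exact Nat.le_mul_of_pos_left _ hN
  refine ⟨hn, hI, e, h1, h2, ?_, ?_⟩
  · rw [sq]
    exact Nat.mul_le_mul h1 h1
  · calc n * N' = n * (d * n) := by rw [h.eN]
      _ ≤ n * (N * n) := Nat.mul_le_mul_left _ (Nat.mul_le_mul_right _ hdN)
      _ = n * I := by rw [e]
      _ ≤ I * I := Nat.mul_le_mul_right _ h2
      _ = I ^ 2 := (sq I).symm

theorem pcore4 {Cz : ℕ} (hCz : 1 ≤ Cz) (hz : ZEst2 Cz) {c : ℝ} (hc : 1 ≤ c) : ∃ C : ℝ, 1 ≤ C ∧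
    ∀ (K : IntermediateField ℚ ℂ) [FiniteDimensional ℚ K]
      (w τ c₁ c₂ d₁ d₂ μ μ' e₁ e₂ f₁ f₂ : ℂ) (N N' d n I : ℕ)
      (a b a' b' : ℤ) (G V D Y : ℝ) (s₁ r₁ s₂ r₂ s₃ r₃ s₄ r₄ : ℂ → ℂ) (ν : ℕ)
      (V₁ V₃ V₄ : PowerSeries K)
      (m₁ m₂ n₁ n₂ : K), ZD2 w τ c₁ c₂ d₁ d₂ N N' d n I a b a' b' → Red τ → μ ≠ 0 → μ' ≠ 0 →
      e₁ = μ * c₁ → e₂ = μ * c₂ → f₁ = μ' * d₁ → f₂ = μ' * d₂ → 0 ≤ G →
      0 ≤ V → 1 ≤ D → (Module.finrank ℚ K : ℝ) ≤ D → 0 ≤ Y →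
      AD4 c G N N' w τ (μ * (a * w + b * (w * τ))) (μ' * (a' * w + b' * (w * τ))) (μ * a) (μ * b)
        (μ' * a') (μ' * b')
        (us (3 / 2 * G2 w (w * τ)) (2 * G3 w (w * τ))) (us (3 / 2 * G2 e₁ e₂) (2 * G3 e₁ e₂))
        (us (3 / 2 * G2 f₁ f₂) (2 * G3 f₁ f₂)) s₁ r₁ s₂ r₂ s₃ r₃ s₄ r₄ →
      AR4 K V (us (3 / 2 * G2 w (w * τ)) (2 * G3 w (w * τ)))
        (us (3 / 2 * G2 e₁ e₂) (2 * G3 e₁ e₂)) (us (3 / 2 * G2 f₁ f₂) (2 * G3 f₁ f₂))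
        (μ * a) (μ * b) (μ' * a') (μ' * b') ν V₁ V₃ V₄ m₁ m₂ n₁ n₂ →
      (∀ (P Q : ℤ) (g : ℕ), IsCoprime P Q → 1 ≤ g → g ∣ I →
        (∀ r1 s1 r2 s2 : ℤ, (N : ℤ) ∣ a * (a * s1 + b * s2) - b * (a * r1 + b * r2) →
          (N' : ℤ) ∣ a' * (a' * s1 + b' * s2) - b' * (a' * r1 + b' * r2) →
          (g : ℤ) ∣ Q * (P * s2 - Q * s1) + P * (P * r2 - Q * r1)) →
        (g : ℝ) ≤ Y * (P ^ 2 * τ.im + Q ^ 2 / τ.im)) →
      √I ≤ C * (G + D * (V + 1 + Real.log I + τ.im) + Y) := by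
  obtain ⟨C, hC, hnum⟩ := pnum4 (540 * c) (by linarith) Cz hCz
  refine ⟨3 * C + 6, by linarith, ?_⟩
  intro K _ w τ c₁ c₂ d₁ d₂ μ μ' e₁ e₂ f₁ f₂ N N' d n I a b a' b' G V D Y s₁ r₁ s₂ r₂ s₃ r₃ s₄ r₄
    ν V₁ V₃ V₄ m₁ m₂ n₁ n₂ hZ hred hμ hμ' he₁ he₂ hf₁ hf₂
    hG hV hD hfin hY0 hAD hAR hY
  have hi : 0 < τ.im := hZ.h.im
  obtain ⟨hn1, hSz⟩ := hZ.sz
  have him : √3 / 2 ≤ τ.im := hred.half_le
  have h3 : (1.7 : ℝ) ≤ √3 := by
    rw [show (1.7 : ℝ) = √(1.7 ^ 2) by rw [Real.sqrt_sq (by norm_num)]]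
    exact Real.sqrt_le_sqrt (by norm_num)
  have hI := hSz.I1
  have hI1 : (1 : ℝ) ≤ I := by exact_mod_cast hI
  have hlogI : 0 ≤ Real.log I := Real.log_nonneg hI1
  obtain ⟨θ, hθdef⟩ : ∃ θ : ℕ, θ = ⌈τ.im⌉₊ := ⟨_, rfl⟩
  have hτθ : τ.im ≤ θ := by rw [hθdef]; exact Nat.le_ceil _
  have hθτ' : (θ : ℝ) < τ.im + 1 := by rw [hθdef]; exact Nat.ceil_lt_add_one hi.le
  have hθ : 1 ≤ θ := by
    have : (0 : ℝ) < θ := hi.trans_le hτθ
    exact_mod_cast this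
  have hθτ : (θ : ℝ) ≤ 3 * τ.im := by linarith
  have hθ1 : (1 : ℝ) ≤ θ := by exact_mod_cast hθ
  obtain ⟨r, hrdef⟩ : ∃ r : ℕ, r = Nat.sqrt I + 1 := ⟨_, rfl⟩
  have hr : I ≤ r ^ 2 := by
    rw [hrdef, sq]
    exact (Nat.lt_succ_sqrt I).le
  have hr4 : r ^ 2 ≤ 4 * I := by
    have h1 : 1 ≤ Nat.sqrt I := by rw [Nat.le_sqrt]; omega
    have h2 : Nat.sqrt I * Nat.sqrt I ≤ I := Nat.sqrt_le I
    rw [hrdef]
    nlinarith
  have hsr : √I ≤ r := by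
    rw [Real.sqrt_le_left (by positivity)]
    exact_mod_cast hr
  have hB0 : 0 ≤ D * (V + 1 + Real.log I + τ.im) := by positivity
  have hDim : τ.im ≤ D * (V + 1 + Real.log I + τ.im) := by
    have h5 : V + 1 + Real.log I + τ.im ≤ D * (V + 1 + Real.log I + τ.im) :=
      le_mul_of_one_le_left (by positivity) hD
    linarith
  by_cases h16 : 16 ≤ I
  swap
  · have h5 : √I ≤ 4 := by
      rw [show (4 : ℝ) = √(4 ^ 2) by rw [Real.sqrt_sq (by norm_num)]]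
      apply Real.sqrt_le_sqrt
      have : (I : ℝ) ≤ 16 := by exact_mod_cast (by omega : I ≤ 16)
      linarith
    have h6 : 1 ≤ G + D * (V + 1 + Real.log I + τ.im) + Y := by
      have h7 : 1 ≤ D * (V + 1 + Real.log I + τ.im) :=
        one_le_mul_of_one_le_of_one_le hD (by linarith)
      linarith
    nlinarith
  by_cases h1 : 2 * θ ≤ r
  swap
  · push Not at h1
    have h2 : (r : ℝ) ≤ 2 * θ := by exact_mod_cast h1.le
    nlinarith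
  by_cases h2 : 4 * Y ≤ r
  swap
  · push Not at h2
    nlinarith
  -- the main case
  set t : ℝ := 64 * (I : ℝ) ^ 5 * θ with ht
  set W : ℝ := t ^ 2 * I with hW
  obtain ⟨T, hT⟩ : ∃ T : ℕ, T = Cz * (64 * I ^ 5 * θ) * r := ⟨_, rfl⟩
  have hTr : (T : ℝ) = Cz * t * r := by rw [hT, ht]; push_cast; ring
  have hI5 : (1 : ℝ) ≤ (I : ℝ) ^ 5 := one_le_pow₀ hI1
  have ht1 : 1 ≤ t := one_le_mul_of_one_le_of_one_le (by linarith) hθ1
  have hW1 : 1 ≤ W := one_le_mul_of_one_le_of_one_le (one_le_pow₀ ht1) hI1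
  have hcard : ((Fintype.card (Ix4 (64 * I ^ 5 * θ ^ 2) (64 * I ^ 5) N n) : ℕ) : ℝ) = W := by
    rw [Fintype.card_prod, Fintype.card_prod, Fintype.card_prod, Fintype.card_fin,
      Fintype.card_fin, Fintype.card_fin, Fintype.card_fin, hW, ht, ← hSz.eI]
    push_cast
    ring
  have hLLL : (((64 * I ^ 5 * θ ^ 2) * (64 * I ^ 5) * N * n : ℕ) : ℝ) = W := by
    rw [hW, ht, mul_assoc, ← hSz.eI]
    push_cast
    ring
  have hρ : ‖τ‖ ≤ 2 * θ := by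
    have h5 : ‖τ‖ ≤ |τ.re| + |τ.im| := Complex.norm_le_abs_re_add_abs_im τ
    have h6 := hred.re_le
    rw [abs_of_pos hi] at h5
    linarith
  have hYb : 1 ≤ (2 * (1 + ‖τ‖)) ^ T := by
    apply one_le_pow₀
    have := norm_nonneg τ
    linarith
  obtain ⟨col, -, hcol, hdet, hup⟩ := PL.pl_main T
    (cc4 (us (3 / 2 * G2 w (w * τ)) (2 * G3 w (w * τ)))
      (us (3 / 2 * G2 w (w * τ)) (2 * G3 w (w * τ))) (us (3 / 2 * G2 e₁ e₂) (2 * G3 e₁ e₂))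
      (us (3 / 2 * G2 f₁ f₂) (2 * G3 f₁ f₂))
      (μ * a) (μ * b) (μ' * a') (μ' * b') (64 * I ^ 5 * θ ^ 2) (64 * I ^ 5) N n)
    (fun p hp => inj4 hCz hz hZ hn1 h16 hμ hμ' he₁ he₂ hf₁ hf₂ hθ hτθ hθτ hY0 hY hr h1 h2 hT p hp)
    (fun _ j i => Bb τ j i)
    (3 * (540 * c) * t * θ ^ 2 + Real.log W + 4 * t * θ * G + (4 * G + 1) * T)
    (1 / (16 * (540 * c) * t)) ((2 * (1 + ‖τ‖)) ^ T) (by positivity) hYb
    (fun m hm j hj i _ => norm_Bb_le (hj.trans hm) i)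
    (fun m hm p hp h0 => row4 hAD hc hG hSz hθ hi hτθ hθτ hm p hp h0 ht hW)
  have hlow := liou4 hfin hV hAR T col (fun q => (hcol q).2) hdet
  rw [hLLL] at hlow
  have hfinal := hlow.trans hup
  rw [hcard] at hfinal
  have hT1 : (0 : ℝ) < (T : ℝ) + 1 := by positivity
  have hb1 : (0 : ℝ) < 2 * (1 + ‖τ‖) := by have := norm_nonneg τ; linarith
  have hpw : (((T : ℝ) + 1) ^ 2 * (2 * (1 + ‖τ‖)) ^ T) ^
      (Fintype.card (Ix4 (64 * I ^ 5 * θ ^ 2) (64 * I ^ 5) N n)) =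
      Real.exp (W * (2 * Real.log ((T : ℝ) + 1) + T * Real.log (2 * (1 + ‖τ‖)))) := by
    rw [← hcard, Real.exp_nat_mul]
    congr 1
    rw [Real.exp_add, ← Real.log_rpow hT1, Real.exp_log (by positivity), ← Real.log_rpow hb1,
      Real.exp_log (by positivity), Real.rpow_natCast]
    norm_num
  rw [hpw] at hfinal
  have hfinal2 : Real.exp (-(2 * D * (W * (Real.log W + (T : ℝ) * Real.log T +
      (T : ℝ) * (Real.log 4 + 4 * V))))) ≤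
      Real.exp (W * (3 * (540 * c) * t * θ ^ 2 + Real.log W + 4 * t * θ * G + (4 * G + 1) * T) -
        1 / (16 * (540 * c) * t) * (W ^ 3 / (3 * ((T : ℝ) + 1) ^ 2) - ((T : ℝ) + 1) * W / 2)) *
        Real.exp (W * (2 * Real.log ((T : ℝ) + 1) + T * Real.log (2 * (1 + ‖τ‖)))) := hfinal
  have hres := hnum I θ r G V D ‖τ‖ t W T hI hθ hr hr4 hG hV hD (norm_nonneg τ) hρ ht hW hTr hfinal2
  refine hsr.trans (hres.trans ?_)
  have h7 : G + D * (V + 1 + Real.log I + θ) ≤ 3 * (G + D * (V + 1 + Real.log I + τ.im)) := by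
    have h8 : D * (V + 1 + Real.log I + θ) ≤ D * (3 * (V + 1 + Real.log I + τ.im)) := by
      apply mul_le_mul_of_nonneg_left _ (by linarith)
      linarith
    linarith
  have h9 : 0 ≤ G + D * (V + 1 + Real.log I + τ.im) := by linarith
  calc C * (G + D * (V + 1 + Real.log I + θ)) ≤
        C * (3 * (G + D * (V + 1 + Real.log I + τ.im))) :=
        mul_le_mul_of_nonneg_left h7 (by linarith)
    _ = 3 * C * (G + D * (V + 1 + Real.log I + τ.im)) := by ring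
    _ ≤ (3 * C + 6) * (G + D * (V + 1 + Real.log I + τ.im) + Y) := by
      apply mul_le_mul _ _ h9 (by linarith)
      · linarith
      · linarith

end Pool.Agent.LGO.F3
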