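import Mathlib
import Pool.Agent.LGO.F.ZGen

/-!
# LGO/F3 (note 3121, engine P3, zero estimate with two functions `y`): definitions

`Λ = ℤ w + ℤ w τ`, `Λ_v = ℤ c₁ + ℤ c₂ = ℤ v + N Λ`, `Λ_v' = ℤ d₁ + ℤ d₂ = ℤ v' + N' Λ`, `v = a w + b w τ`, `v' = a' w + b' w τ`, `d = gcd(N, N', a b' - b a')`,
`N' = d n`, `I = N n` (the index in `Λ²` of the periods `Gam2`).
`f(z₁, z₂) = FF2 = ∑ p_ijkl u(z₁)^i u(z₂)^j y(a z₁ + b z₂)^k y'(a' z₁ + b' z₂)^l`.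

PROOFS.  `FF2_add`, `FF2_neg`, `FF2_rot`: as in `F/ZDef.lean` (`FF2` is `∑_l FF(p_··l) y'^l`, and `iu_add_lat`, `iu_neg`).  `gen2_*`: from `gen_open`, `gen_dense`, `gen_slice`, `gen_add`,
`gen_rot` for the two data (intersection of two open dense sets).  `mero_FF2`, `an_FF2`: sums and products of `mero_FF`, `an_FF` (`y'(a' z₁ + b' z₂)^l` is the function `FF` of the
second data with `L₁ = L₂ = 1`, `K = l + 1`, or directly from the facts about `iu`).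
`ZD2.rot`: `ZD.rot` for both; `b (- a') - (- a) b' = a b' - b a'`: the same number.
-/

namespace Pool.Agent.LGO.F3

open Pool.Agent.EllSch Pool.Agent.LGO.Mul Pool.Agent.LGO.F Filter Topology Asymptotics

/-- the data of the zero estimate with two functions `y` -/
structure ZD2 (w τ c₁ c₂ d₁ d₂ : ℂ) (N N' d n I : ℕ) (a b a' b' : ℤ) : Prop where
  h : ZD w τ c₁ c₂ N a b
  h' : ZD w τ d₁ d₂ N' a' b'
  eN : N' = d * n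
  eI : I = N * n
  dN : d ∣ N
  dd : (d : ℤ) ∣ a * b' - b * a'
  mx : ∀ m : ℕ, m ∣ N → m ∣ N' → (m : ℤ) ∣ a * b' - b * a' → m ∣ d

/-- the function `f` -/
noncomputable def FF2 (w τ c₁ c₂ d₁ d₂ : ℂ) (a b a' b' : ℤ) (L₁ L₂ K K' : ℕ)
    (p : ℕ → ℕ → ℕ → ℕ → ℂ) (z : ℂ × ℂ) : ℂ :=
  ∑ l ∈ Finset.range K', FF w τ c₁ c₂ a b L₁ L₂ K (fun i j k => p i j k l) z *
    iu d₁ d₂ (a' * z.1 + b' * z.2) ^ l

/-- the generic points -/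
def Gen2 (w τ c₁ c₂ d₁ d₂ : ℂ) (a b a' b' : ℤ) : Set (ℂ × ℂ) :=
  Gen w τ c₁ c₂ a b ∩ Gen w τ d₁ d₂ a' b'

/-- the periods -/
def Gam2 (w τ c₁ c₂ d₁ d₂ : ℂ) (a b a' b' : ℤ) : Set (ℂ × ℂ) :=
  {z | Gam w τ c₁ c₂ a b z ∧ Gam w τ d₁ d₂ a' b' z}

variable {w τ c₁ c₂ d₁ d₂ : ℂ} {N N' d n I : ℕ} {a b a' b' : ℤ}

theorem ZD2.rot (h : ZD2 w τ c₁ c₂ d₁ d₂ N N' d n I a b a' b') :
    ZD2 (w * τ) (-1 / τ) c₁ c₂ d₁ d₂ N N' d n I b (-a) b' (-a') := by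
  have e : b * (-a') - (-a) * b' = a * b' - b * a' := by ring
  refine ⟨h.h.rot, h.h'.rot, h.eN, h.eI, h.dN, ?_, ?_⟩
  · rw [e]
    exact h.dd
  · rw [e]
    exact h.mx

private theorem YDef_ne (h : ZD w τ c₁ c₂ N a b) : τ ≠ 0 := by
  intro h0
  have := h.im
  rw [h0] at this
  simp at this

private theorem YDef_rot_mul (h : ZD w τ c₁ c₂ N a b) : w * τ * (-1 / τ) = -w := by
  have h0 := YDef_ne h
  field_simp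

/-- the powers of the second function `y` -/
private theorem YDef_pow (w τ c₁ c₂ : ℂ) (a b : ℤ) (l : ℕ) (z : ℂ × ℂ) :
    iu c₁ c₂ (a * z.1 + b * z.2) ^ l =
      FF w τ c₁ c₂ a b 1 1 (l + 1) (fun _ _ k => if k = l then 1 else 0) z := by
  unfold FF
  rw [Finset.sum_range_one, Finset.sum_range_one,
    Finset.sum_eq_single_of_mem l (Finset.mem_range.2 (Nat.lt_succ_self l))]
  · simp
  · intro k _ hk
    simp [hk]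

private theorem YDef_go_neg (h : ZD w τ c₁ c₂ N a b) (t : ℂ) : Go w τ (-t) ↔ Go w τ t := by
  unfold Go
  rw [off_neg, wp_neg h.ind1]

private theorem YDef_gen_neg (h : ZD w τ c₁ c₂ N a b) (z : ℂ × ℂ) :
    -z ∈ Gen w τ c₁ c₂ a b ↔ z ∈ Gen w τ c₁ c₂ a b := by
  have e : (a : ℂ) * (-z).1 + b * (-z).2 = -(a * z.1 + b * z.2) := by
    rw [Prod.fst_neg, Prod.snd_neg]
    ring
  unfold Gen
  rw [Set.mem_ofPred_eq, Set.mem_ofPred_eq, e, Prod.fst_neg, Prod.snd_neg, YDef_go_neg h,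
    YDef_go_neg h, off_neg, wp_neg h.ind]

private theorem YDef_lat (h : ZD w τ c₁ c₂ N a b) (t : ℂ) :
    (∃ x, t = lat (w * τ) (w * τ * (-1 / τ)) x) ↔ ∃ x, t = lat w (w * τ) x := by
  rw [YDef_rot_mul h]
  constructor
  · rintro ⟨x, hx⟩
    refine ⟨(-x.2, x.1), ?_⟩
    rw [hx]
    unfold lat
    push_cast
    ring
  · rintro ⟨x, hx⟩
    refine ⟨(x.2, -x.1), ?_⟩
    rw [hx]
    unfold lat
    push_cast
    ring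

private theorem YDef_lat_neg (w w' : ℂ) (t : ℂ) :
    (∃ x, -t = lat w w' x) ↔ ∃ x, t = lat w w' x := by
  constructor
  · rintro ⟨x, hx⟩
    refine ⟨-x, ?_⟩
    rw [lat_neg, ← hx, neg_neg]
  · rintro ⟨x, hx⟩
    refine ⟨-x, ?_⟩
    rw [lat_neg, ← hx]

private theorem YDef_gam_rot (h : ZD w τ c₁ c₂ N a b) (z : ℂ × ℂ) :
    Gam (w * τ) (-1 / τ) c₁ c₂ b (-a) z ↔ Gam w τ c₁ c₂ a b (-z.2, z.1) := by
  have e : (b : ℂ) * z.1 + ((-a : ℤ) : ℂ) * z.2 = a * (-z.2) + b * z.1 := by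
    push_cast
    ring
  unfold Gam
  simp only
  rw [e, YDef_lat h, YDef_lat h, YDef_lat_neg]
  constructor
  · rintro ⟨h1, h2, h3⟩
    exact ⟨h2, h1, h3⟩
  · rintro ⟨h1, h2, h3⟩
    exact ⟨h2, h1, h3⟩

theorem FF2_add (h : ZD2 w τ c₁ c₂ d₁ d₂ N N' d n I a b a' b') (L₁ L₂ K K' : ℕ)
    (p : ℕ → ℕ → ℕ → ℕ → ℂ) {g : ℂ × ℂ} (hg : g ∈ Gam2 w τ c₁ c₂ d₁ d₂ a b a' b') (z : ℂ × ℂ) :
    FF2 w τ c₁ c₂ d₁ d₂ a b a' b' L₁ L₂ K K' p (z + g) =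
      FF2 w τ c₁ c₂ d₁ d₂ a b a' b' L₁ L₂ K K' p z := by
  obtain ⟨h1, h2⟩ := hg
  obtain ⟨-, -, ⟨t, ht⟩⟩ := h2
  have e : (a' : ℂ) * (z + g).1 + b' * (z + g).2 = (a' * z.1 + b' * z.2) + lat d₁ d₂ t := by
    rw [← ht, Prod.fst_add, Prod.snd_add]
    ring
  unfold FF2
  refine Finset.sum_congr rfl fun l _ => ?_
  rw [FF_add h.h _ _ _ _ z h1, e, iu_add_lat h.h'.ind]

theorem FF2_neg (h : ZD2 w τ c₁ c₂ d₁ d₂ N N' d n I a b a' b') (L₁ L₂ K K' : ℕ)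
    (p : ℕ → ℕ → ℕ → ℕ → ℂ) (z : ℂ × ℂ) :
    FF2 w τ c₁ c₂ d₁ d₂ a b a' b' L₁ L₂ K K' p (-z) =
      FF2 w τ c₁ c₂ d₁ d₂ a b a' b' L₁ L₂ K K' p z := by
  have e : (a' : ℂ) * (-z).1 + b' * (-z).2 = -(a' * z.1 + b' * z.2) := by
    rw [Prod.fst_neg, Prod.snd_neg]
    ring
  unfold FF2
  refine Finset.sum_congr rfl fun l _ => ?_
  rw [FF_neg h.h, e, iu_neg h.h'.ind]

/-- the symmetry `(z₁, z₂) ↦ (z₂, - z₁)` -/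
theorem FF2_rot (h : ZD2 w τ c₁ c₂ d₁ d₂ N N' d n I a b a' b') (L₁ L₂ K K' : ℕ)
    (p : ℕ → ℕ → ℕ → ℕ → ℂ) (z : ℂ × ℂ) :
    FF2 (w * τ) (-1 / τ) c₁ c₂ d₁ d₂ b (-a) b' (-a') L₂ L₁ K K' (fun j i k l => p i j k l) z =
      FF2 w τ c₁ c₂ d₁ d₂ a b a' b' L₁ L₂ K K' p (-z.2, z.1) := by
  have e : (b' : ℂ) * z.1 + ((-a' : ℤ) : ℂ) * z.2 = a' * (-z.2) + b' * z.1 := by
    push_cast
    ring
  unfold FF2
  refine Finset.sum_congr rfl fun l _ => ?_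
  rw [e]
  exact congrArg (fun u => u * iu d₁ d₂ (a' * (-z.2) + b' * z.1) ^ l)
    (FF_rot h.h L₁ L₂ K (fun i j k => p i j k l) z)

theorem gen2_open (h : ZD2 w τ c₁ c₂ d₁ d₂ N N' d n I a b a' b') :
    IsOpen (Gen2 w τ c₁ c₂ d₁ d₂ a b a' b') :=
  (gen_open h.h).inter (gen_open h.h')

theorem gen2_dense (h : ZD2 w τ c₁ c₂ d₁ d₂ N N' d n I a b a' b') :
    Dense (Gen2 w τ c₁ c₂ d₁ d₂ a b a' b') :=
  (gen_dense h.h).inter_of_isOpen_left (gen_dense h.h') (gen_open h.h)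

theorem gen2_slice (h : ZD2 w τ c₁ c₂ d₁ d₂ N N' d n I a b a' b') {t : ℂ} (ht : Go w τ t)
    (z : ℂ) : ∀ᶠ y in 𝓝[≠] z, (t, y) ∈ Gen2 w τ c₁ c₂ d₁ d₂ a b a' b' :=
  (gen_slice h.h ht z).and (gen_slice h.h' ht z)

theorem gen2_neg (h : ZD2 w τ c₁ c₂ d₁ d₂ N N' d n I a b a' b') (z : ℂ × ℂ) :
    -z ∈ Gen2 w τ c₁ c₂ d₁ d₂ a b a' b' ↔ z ∈ Gen2 w τ c₁ c₂ d₁ d₂ a b a' b' :=
  and_congr (YDef_gen_neg h.h z) (YDef_gen_neg h.h' z)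

theorem gen2_rot (h : ZD2 w τ c₁ c₂ d₁ d₂ N N' d n I a b a' b') (z : ℂ × ℂ) :
    z ∈ Gen2 (w * τ) (-1 / τ) c₁ c₂ d₁ d₂ b (-a) b' (-a') ↔
      (-z.2, z.1) ∈ Gen2 w τ c₁ c₂ d₁ d₂ a b a' b' :=
  and_congr (gen_rot h.h z) (gen_rot h.h' z)

theorem gam2_rot (h : ZD2 w τ c₁ c₂ d₁ d₂ N N' d n I a b a' b') (z : ℂ × ℂ) :
    z ∈ Gam2 (w * τ) (-1 / τ) c₁ c₂ d₁ d₂ b (-a) b' (-a') ↔
      (-z.2, z.1) ∈ Gam2 w τ c₁ c₂ d₁ d₂ a b a' b' :=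
  and_congr (YDef_gam_rot h.h z) (YDef_gam_rot h.h' z)

theorem an_FF2 (h : ZD2 w τ c₁ c₂ d₁ d₂ N N' d n I a b a' b') (L₁ L₂ K K' : ℕ)
    (p : ℕ → ℕ → ℕ → ℕ → ℂ) {z : ℂ × ℂ} (hz : z ∈ Gen2 w τ c₁ c₂ d₁ d₂ a b a' b') :
    AnalyticAt ℂ (FF2 w τ c₁ c₂ d₁ d₂ a b a' b' L₁ L₂ K K' p) z := by
  unfold FF2
  refine Finset.analyticAt_fun_sum _ fun l _ => ?_
  have h1 : AnalyticAt ℂ (fun z : ℂ × ℂ => iu d₁ d₂ (a' * z.1 + b' * z.2) ^ l) z := by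
    have e : (fun z : ℂ × ℂ => iu d₁ d₂ (a' * z.1 + b' * z.2) ^ l) =
        FF w τ d₁ d₂ a' b' 1 1 (l + 1) (fun _ _ k => if k = l then 1 else 0) := by
      funext z
      exact YDef_pow w τ d₁ d₂ a' b' l z
    rw [e]
    exact an_FF h.h' 1 1 (l + 1) _ hz.2
  exact (an_FF h.h L₁ L₂ K (fun i j k => p i j k l) hz.1).fun_mul h1

theorem mero_FF2 (h : ZD2 w τ c₁ c₂ d₁ d₂ N N' d n I a b a' b') (L₁ L₂ K K' : ℕ)
    (p : ℕ → ℕ → ℕ → ℕ → ℂ) (t z : ℂ) :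
    MeromorphicAt (fun y => FF2 w τ c₁ c₂ d₁ d₂ a b a' b' L₁ L₂ K K' p (t, y)) z := by
  unfold FF2
  refine MeromorphicAt.fun_sum fun l _ => ?_
  have h1 : MeromorphicAt (fun y : ℂ => iu d₁ d₂ (a' * (t, y).1 + b' * (t, y).2) ^ l) z := by
    have e : (fun y : ℂ => iu d₁ d₂ (a' * (t, y).1 + b' * (t, y).2) ^ l) = fun y =>
        FF w τ d₁ d₂ a' b' 1 1 (l + 1) (fun _ _ k => if k = l then 1 else 0) (t, y) := by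
      funext y
      exact YDef_pow w τ d₁ d₂ a' b' l (t, y)
    rw [e]
    exact mero_FF h.h' 1 1 (l + 1) _ t z
  exact (mero_FF h.h L₁ L₂ K (fun i j k => p i j k l) t z).fun_mul h1

end Pool.Agent.LGO.F3
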