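import Pool.Agent.LGO.F.PDefs
import Pool.Agent.LGO.F3.DirS
import Pool.Agent.LGO.F3.YDef
import Pool.Agent.LGO.F3.AbDef

/-!
# LGO/F3 (note 3121, engine P3, two functions `y`): definitions

Design (helper35): exactly `LGO/F/PDefs.lean` with a fourth factor.  `Λ = ℤ w + ℤ w τ`, `Λ_v = ℤ c₁ + ℤ c₂`, `Λ_v' = ℤ d₁ + ℤ d₂`;
`μ Λ_v`, `μ' Λ_v'` have models over the number field; `l₁ = μ a`, `l₂ = μ b`, `k₁ = μ' a'`, `k₂ = μ' b'`,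
`η = l₁ w + l₂ w τ`, `η' = k₁ w + k₂ w τ`.
Indices `q = (i, j, k, l)`, `i < L₁`, `j < L₂`, `k < L₃`, `l < L₄`.
Parameters: `θ = ⌈Im τ⌉`, `s = 64 I⁵`, `t = s θ`, `L₁ = s θ²`, `L₂ = s`, `L₃ = N`, `L₄ = n`, `W = t² I`, `T = C₁ t r`,
`r = Nat.sqrt I + 1`, `I = N n`.
-/

namespace Pool.Agent.LGO.F3

open Polynomial Pool.Agent.Schn Pool.Agent.LGO.E3 Pool.Agent.EllSch Pool.Agent.LGO.Mul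
  Pool.Agent.LGO.F Pool.Agent.LGO.F.PE Filter Topology Asymptotics

noncomputable section

/-- the indices -/
abbrev Ix4 (L₁ L₂ L₃ L₄ : ℕ) := Fin L₁ × Fin L₂ × Fin L₃ × Fin L₄

variable {L₁ L₂ L₃ L₄ : ℕ}

/-- the form of degree `m` -/
def fr4 (U₁ U₂ U₃ U₄ : PowerSeries ℂ) (l₁ l₂ k₁ k₂ : ℂ) (p : Ix4 L₁ L₂ L₃ L₄ → ℂ) (m : ℕ) :
    ℂ[X] :=
  ∑ q : Ix4 L₁ L₂ L₃ L₄, C (p q) *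
    PowerSeries.coeff m (dirS4 U₁ U₂ U₃ U₄ l₁ l₂ k₁ k₂ (q.1 : ℕ) (q.2.1 : ℕ) (q.2.2.1 : ℕ)
      (q.2.2.2 : ℕ))

/-- the coefficient of `X^i` of the form of degree `m` -/
def cc4 (U₁ U₂ U₃ U₄ : PowerSeries ℂ) (l₁ l₂ k₁ k₂ : ℂ) (L₁ L₂ L₃ L₄ : ℕ) (m i : ℕ) :
    (Ix4 L₁ L₂ L₃ L₄ → ℂ) →ₗ[ℂ] ℂ where
  toFun p := (fr4 U₁ U₂ U₃ U₄ l₁ l₂ k₁ k₂ p m).coeff i
  map_add' p q := by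
    simp only [fr4, Pi.add_apply, C_add, add_mul, Finset.sum_add_distrib, coeff_add]
  map_smul' a p := by
    simp only [fr4, Pi.smul_apply, smul_eq_mul, C_mul, mul_assoc, ← Finset.mul_sum,
      coeff_C_mul, RingHom.id_apply]

theorem cc4_apply (U₁ U₂ U₃ U₄ : PowerSeries ℂ) (l₁ l₂ k₁ k₂ : ℂ) (m i : ℕ)
    (p : Ix4 L₁ L₂ L₃ L₄ → ℂ) :
    cc4 U₁ U₂ U₃ U₄ l₁ l₂ k₁ k₂ L₁ L₂ L₃ L₄ m i p =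
      (fr4 U₁ U₂ U₃ U₄ l₁ l₂ k₁ k₂ p m).coeff i := rfl

/-- the entire function of two variables -/
def Fc4 (s₁ e₁ s₂ e₂ s₃ e₃ s₄ e₄ : ℂ → ℂ) (κ κ' : ℂ) (p : Ix4 L₁ L₂ L₃ L₄ → ℂ)
    (x : ℂ × ℂ) : ℂ :=
  ∑ q : Ix4 L₁ L₂ L₃ L₄,
    p q * (s₁ x.1 ^ (q.1 : ℕ) * e₁ x.1 ^ (L₁ - 1 - (q.1 : ℕ))) *
      (s₂ (x.1 + x.2) ^ (q.2.1 : ℕ) * e₂ (x.1 + x.2) ^ (L₂ - 1 - (q.2.1 : ℕ))) *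
      (s₃ (x.1 + κ * x.2) ^ (q.2.2.1 : ℕ) * e₃ (x.1 + κ * x.2) ^ (L₃ - 1 - (q.2.2.1 : ℕ))) *
      (s₄ (x.1 + κ' * x.2) ^ (q.2.2.2 : ℕ) * e₄ (x.1 + κ' * x.2) ^ (L₄ - 1 - (q.2.2.2 : ℕ)))

/-- the coefficients for the function `FF2` -/
def pz4 (μ μ' : ℂ) (p : Ix4 L₁ L₂ L₃ L₄ → ℂ) (i j k l : ℕ) : ℂ :=
  if h : i < L₁ ∧ j < L₂ ∧ k < L₃ ∧ l < L₄ then
    p (⟨i, h.1⟩, ⟨j, h.2.1⟩, ⟨k, h.2.2.1⟩, ⟨l, h.2.2.2⟩) * μ ^ (2 * k) * μ' ^ (2 * l) else 0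

/-- the zero estimate (proved in `YFin`) -/
def ZEst2 (C : ℕ) : Prop :=
  ∀ (w τ c₁ c₂ d₁ d₂ : ℂ) (N N' d n I : ℕ) (a b a' b' : ℤ),
    ZD2 w τ c₁ c₂ d₁ d₂ N N' d n I a b a' b' → 16 ≤ I →
    ∀ (L₁ L₂ K K' T : ℕ) (p : ℕ → ℕ → ℕ → ℕ → ℂ), 1 ≤ K → K ≤ N → 1 ≤ K' → K' ≤ n →
    64 * I ^ 5 ≤ L₁ → 64 * I ^ 5 ≤ L₂ →
    (∃ i < L₁, ∃ j < L₂, ∃ k < K, ∃ l < K', p i j k l ≠ 0) →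
    (FF2 w τ c₁ c₂ d₁ d₂ a b a' b' L₁ L₂ K K' p =O[𝓝 0] fun z => ‖z‖ ^ T) →
    T ^ 2 ≤ C * I * L₁ * L₂ ∨ T ≤ C * (L₁ + L₂) ∨ ∃ (P Q : ℤ) (g : ℕ), IsCoprime P Q ∧
      1 ≤ g ∧ g ∣ I ∧ Sl w τ (Gam2 w τ c₁ c₂ d₁ d₂ a b a' b') P Q g ∧
      (T : ℤ) * P ^ 2 ≤ C * (g : ℤ) * L₂ ∧ (T : ℤ) * Q ^ 2 ≤ C * (g : ℤ) * L₁

/-- analytic data: the directions `w`, `w τ`, `η = l₁ w + l₂ w τ`, `η' = k₁ w + k₂ w τ` -/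
structure AD4 (c G : ℝ) (N N' : ℕ) (w τ η η' l₁ l₂ k₁ k₂ : ℂ) (U₁ U₃ U₄ : PowerSeries ℂ)
    (s₁ e₁ s₂ e₂ s₃ e₃ s₄ e₄ : ℂ → ℂ) : Prop where
  ad : AD c G N w τ η l₁ l₂ U₁ U₃ s₁ e₁ s₂ e₂ s₃ e₃
  loc₄ : Loc η' U₄ s₄ e₄
  gr₄ : Grf (fun R => c * N' * τ.im * (R ^ 2 + R) + G) s₄ e₄
  w₄ : Real.exp (-G) ≤ ‖η'‖ ∧ ‖η'‖ ≤ Real.exp G
  hk₂ : ‖k₂‖ ≤ Real.exp G
  rel' : k₁ * w + k₂ * (w * τ) = η'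

/-- arithmetic data -/
structure AR4 (K : IntermediateField ℚ ℂ) (V : ℝ) (U₁ U₃ U₄ : PowerSeries ℂ)
    (l₁ l₂ k₁ k₂ : ℂ) (ν : ℕ) (V₁ V₃ V₄ : PowerSeries K) (m₁ m₂ n₁ n₂ : K) : Prop where
  ar : AR K V U₁ U₃ l₁ l₂ ν V₁ V₃ m₁ m₂
  ar₄ : Ar ν (Real.exp V) V₄
  map₄ : PowerSeries.map (algebraMap K ℂ) V₄ = U₄
  f₁ : (n₁ : ℂ) = k₁
  f₂ : (n₂ : ℂ) = k₂
  int₃ : IsIntegral ℤ ((ν : K) * n₁)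
  int₄ : IsIntegral ℤ ((ν : K) * n₂)
  bd₃ : ∀ σ : K →+* ℂ, ‖σ n₁‖ ≤ Real.exp V
  bd₄ : ∀ σ : K →+* ℂ, ‖σ n₂‖ ≤ Real.exp V

end

end Pool.Agent.LGO.F3
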