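import Pool.Agent.LGO.F.PDefs
import Pool.Agent.LGO.E3.FrmMap

/-!
# LGO/F3 (note 3121, engine P3 with two functions `Y`): definitions

As `F/PDefs.lean`, with a second function `U₄` in the direction `l₃ + l₄ X`.
Indices `q = (i, j, k, l)`, `i < L₁`, `j < L₂`, `k < L₃`, `l < L₄`; the form of degree `m` is the coefficient of `t^m` of
`∑_q p_q U₁(t)^i U₁(X t)^j U₃((l₁ + l₂ X) t)^k U₄((l₃ + l₄ X) t)^l`.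

Parameters: `θ = ⌈Im τ⌉`, `s = 64 I⁵`, `t = s θ`, `L₁ = s θ²`, `L₂ = s`, `L₃ = N`, `L₄ = n`, `I = N n`, `W = t² I`,
`T = C₁ t r`, `r = Nat.sqrt I + 1`.
-/

namespace Pool.Agent.LGO.F3.PE

open Polynomial Pool.Agent.Schn Pool.Agent.LGO.E3 Pool.Agent.LGO.F.PE

noncomputable section

/-- the indices -/
abbrev Ix4 (L₁ L₂ L₃ L₄ : ℕ) := Fin L₁ × Fin L₂ × Fin L₃ × Fin L₄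

variable {L₁ L₂ L₃ L₄ : ℕ}

/-- `U₁(t)^a U₂(X t)^b U₃((l₁ + l₂ X) t)^c U₄((l₃ + l₄ X) t)^d` -/
def dirT {R : Type*} [CommRing R] (U₁ U₂ U₃ U₄ : PowerSeries R) (l₁ l₂ l₃ l₄ : R) (a b c d : ℕ) :
    PowerSeries R[X] :=
  dirS U₁ U₂ U₃ l₁ l₂ a b c * dirS U₁ U₂ U₄ l₃ l₄ 0 0 d

/-- the form of degree `m` -/
def fr4 (U₁ U₂ U₃ U₄ : PowerSeries ℂ) (l₁ l₂ l₃ l₄ : ℂ) (p : Ix4 L₁ L₂ L₃ L₄ → ℂ) (m : ℕ) : ℂ[X] :=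
  ∑ q : Ix4 L₁ L₂ L₃ L₄, C (p q) *
    PowerSeries.coeff m (dirT U₁ U₂ U₃ U₄ l₁ l₂ l₃ l₄ (q.1 : ℕ) (q.2.1 : ℕ) (q.2.2.1 : ℕ)
      (q.2.2.2 : ℕ))

/-- the coefficient of `X^i` of the form of degree `m` -/
def cc4 (U₁ U₂ U₃ U₄ : PowerSeries ℂ) (l₁ l₂ l₃ l₄ : ℂ) (L₁ L₂ L₃ L₄ : ℕ) (m i : ℕ) :
    (Ix4 L₁ L₂ L₃ L₄ → ℂ) →ₗ[ℂ] ℂ where
  toFun p := (fr4 U₁ U₂ U₃ U₄ l₁ l₂ l₃ l₄ p m).coeff i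
  map_add' p q := by
    simp only [fr4, Pi.add_apply, C_add, add_mul, Finset.sum_add_distrib, coeff_add]
  map_smul' a p := by
    simp only [fr4, Pi.smul_apply, smul_eq_mul, C_mul, mul_assoc, ← Finset.mul_sum,
      coeff_C_mul, RingHom.id_apply]

theorem cc4_apply (U₁ U₂ U₃ U₄ : PowerSeries ℂ) (l₁ l₂ l₃ l₄ : ℂ) (m i : ℕ)
    (p : Ix4 L₁ L₂ L₃ L₄ → ℂ) :
    cc4 U₁ U₂ U₃ U₄ l₁ l₂ l₃ l₄ L₁ L₂ L₃ L₄ m i p =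
      (fr4 U₁ U₂ U₃ U₄ l₁ l₂ l₃ l₄ p m).coeff i := rfl

/-- the entire function of two variables -/
def Fc4 (s₁ e₁ s₂ e₂ s₃ e₃ s₄ e₄ : ℂ → ℂ) (κ κ' : ℂ) (p : Ix4 L₁ L₂ L₃ L₄ → ℂ) (x : ℂ × ℂ) : ℂ :=
  ∑ q : Ix4 L₁ L₂ L₃ L₄,
    p q * (s₁ x.1 ^ (q.1 : ℕ) * e₁ x.1 ^ (L₁ - 1 - (q.1 : ℕ))) *
      (s₂ (x.1 + x.2) ^ (q.2.1 : ℕ) * e₂ (x.1 + x.2) ^ (L₂ - 1 - (q.2.1 : ℕ))) *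
      (s₃ (x.1 + κ * x.2) ^ (q.2.2.1 : ℕ) * e₃ (x.1 + κ * x.2) ^ (L₃ - 1 - (q.2.2.1 : ℕ))) *
      (s₄ (x.1 + κ' * x.2) ^ (q.2.2.2 : ℕ) * e₄ (x.1 + κ' * x.2) ^ (L₄ - 1 - (q.2.2.2 : ℕ)))

/-- the coefficients for the function `FF2` -/
def pz4 (μ μ' : ℂ) (p : Ix4 L₁ L₂ L₃ L₄ → ℂ) (i j k l : ℕ) : ℂ :=
  if h : i < L₁ ∧ j < L₂ ∧ k < L₃ ∧ l < L₄ then
    p (⟨i, h.1⟩, ⟨j, h.2.1⟩, ⟨k, h.2.2.1⟩, ⟨l, h.2.2.2⟩) * μ ^ (2 * k) * μ' ^ (2 * l) else 0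

/-- analytic data: the directions `w`, `w τ`, `η = l₁ w + l₂ w τ`, `η' = l₃ w + l₄ w τ` -/
structure AD2 (c G : ℝ) (N N' : ℕ) (w τ η η' l₁ l₂ l₃ l₄ : ℂ) (U₁ U₃ U₄ : PowerSeries ℂ)
    (s₁ e₁ s₂ e₂ s₃ e₃ s₄ e₄ : ℂ → ℂ) : Prop where
  ad : AD c G N w τ η l₁ l₂ U₁ U₃ s₁ e₁ s₂ e₂ s₃ e₃
  loc₄ : Loc η' U₄ s₄ e₄
  gr₄ : Grf (fun R => c * N' * τ.im * (R ^ 2 + R) + G) s₄ e₄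
  w₄ : Real.exp (-G) ≤ ‖η'‖ ∧ ‖η'‖ ≤ Real.exp G
  hl₄ : ‖l₄‖ ≤ Real.exp G
  rel₄ : l₃ * w + l₄ * (w * τ) = η'

/-- arithmetic data -/
structure AR2 (K : IntermediateField ℚ ℂ) (V : ℝ) (U₁ U₃ U₄ : PowerSeries ℂ) (l₁ l₂ l₃ l₄ : ℂ)
    (ν : ℕ) (V₁ V₃ V₄ : PowerSeries K) (m₁ m₂ m₃ m₄ : K) : Prop where
  ar : AR K V U₁ U₃ l₁ l₂ ν V₁ V₃ m₁ m₂
  ar₄ : Ar ν (Real.exp V) V₄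
  map₄ : PowerSeries.map (algebraMap K ℂ) V₄ = U₄
  e₃ : (m₃ : ℂ) = l₃
  e₄ : (m₄ : ℂ) = l₄
  int₃ : IsIntegral ℤ ((ν : K) * m₃)
  int₄ : IsIntegral ℤ ((ν : K) * m₄)
  bd₃ : ∀ σ : K →+* ℂ, ‖σ m₃‖ ≤ Real.exp V
  bd₄ : ∀ σ : K →+* ℂ, ‖σ m₄‖ ≤ Real.exp V

end

theorem natDegree_dirT {R : Type*} [CommRing R] (U₁ U₂ U₃ U₄ : PowerSeries R) (l₁ l₂ l₃ l₄ : R)
    (a b c d k : ℕ) :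
    (PowerSeries.coeff k (dirT U₁ U₂ U₃ U₄ l₁ l₂ l₃ l₄ a b c d)).natDegree ≤ k := by
  have h1 : FrmMap_Gr (dirS U₁ U₂ U₃ l₁ l₂ a b c) := natDegree_dirS U₁ U₂ U₃ l₁ l₂ a b c
  have h2 : FrmMap_Gr (dirS U₁ U₂ U₄ l₃ l₄ 0 0 d) := natDegree_dirS U₁ U₂ U₄ l₃ l₄ 0 0 d
  exact h1.mul h2 k

theorem natDegree_fr4 {L₁ L₂ L₃ L₄ : ℕ} (U₁ U₂ U₃ U₄ : PowerSeries ℂ) (l₁ l₂ l₃ l₄ : ℂ)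
    (p : Ix4 L₁ L₂ L₃ L₄ → ℂ) (m : ℕ) : (fr4 U₁ U₂ U₃ U₄ l₁ l₂ l₃ l₄ p m).natDegree ≤ m := by
  refine natDegree_sum_le_of_forall_le _ _ fun q _ => ?_
  exact (natDegree_C_mul_le _ _).trans (natDegree_dirT U₁ U₂ U₃ U₄ l₁ l₂ l₃ l₄ _ _ _ _ m)

end Pool.Agent.LGO.F3.PE
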