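import Pool.Agent.LGO.F3.YDef
import Pool.Agent.LGO.F.PSet

/-!
# LGO/F3, engine P3: the models and the lattices

PROOF.  As `setup` in `F/PSet.lean`, with ONE `w` for the two isogenous curves: `exists_model` for `x` and `bas` give `w` for the given
`τ`; then, for a fixed `w`, the part of the proof of `setup` after this point gives `w', τ', μ, a₁, b₁` for `y` and `w'', τ'', μ', a₂, b₂`
for `z`  (make this part a lemma: for `w ≠ 0`, `IsJ τ N a b y`, `Cop N a b`, .. there are `w', τ', μ, a₁, b₁` with `ZD w τ (w' / μ) ..`).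
`ZD2`: `d = gcd(N, gcd(N', |a b' - a' b|))`, `N' = d n`, `I = N n`; `d` does not change if `a, b` are changed modulo `N` and `a', b'` modulo
`N'` (all modulo `d`), `dd`, `mx` are the properties of the gcd: `a₁ b₂ - b₁ a₂ ≡ a b' - b a'` modulo every common divisor of
`N` and `N'`.
-/

namespace Pool.Agent.LGO.F3

open UpperHalfPlane Pool.Agent.Hhelper14.ZP Pool.Agent.EllSch Pool.Agent.LGO.F Pool.Agent.LGO.F.PE

private theorem ESet_red (N : ℕ) (hN : 1 ≤ N) (a : ℤ) :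
    ∃ a' : ℤ, 1 ≤ a' ∧ a' ≤ N ∧ (N : ℤ) ∣ a' - a := by
  have hN' : (0 : ℤ) < N := by exact_mod_cast hN
  refine ⟨(a - 1) % N + 1, ?_, ?_, ?_⟩
  · have := Int.emod_nonneg (a - 1) hN'.ne'
    omega
  · have := Int.emod_lt_of_pos (a - 1) hN'
    omega
  · have := Int.emod_add_mul_ediv (a - 1) N
    exact ⟨-((a - 1) / N), by linarith⟩

/-- one isogenous curve -/
private theorem ESet_one {τ τ' : ℍ} {w w' y : ℂ} (hw : w ≠ 0) (hw' : w' ≠ 0)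
    (hred' : Red (τ' : ℂ)) (hj' : jInv τ' = y) (hcm : NonCM (τ : ℂ)) {N : ℕ} (hN : 1 ≤ N)
    {a b : ℤ} (hcop : Cop N a b) (hJ : IsJ τ N a b y) :
    ∃ (μ : ℂ) (a' b' : ℤ), μ ≠ 0 ∧ ZD w τ (w' / μ) (w' / μ * τ') N a' b' ∧
      (N : ℤ) ∣ a' - a ∧ (N : ℤ) ∣ b' - b := by
  obtain ⟨w₁, τ₁, hw₁, hj₁, hmem⟩ := hJ
  obtain ⟨w₂, hw₂, -, -, hmem₂⟩ := bas (τ := τ') (τ₀ := τ₁) (by rw [hj', hj₁]) hw₁
  obtain ⟨a', ha1, haN, s, hs⟩ := ESet_red N hN a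
  obtain ⟨b', hb1, hbN, t, ht⟩ := ESet_red N hN b
  have hμ : w' / (w' / (w * w₂)) = w * w₂ := by
    field_simp
  have hs' : (a' : ℂ) = a + N * s := by
    have : a' = a + N * s := by linarith
    rw [this]
    push_cast
    ring
  have ht' : (b' : ℂ) = b + N * t := by
    have : b' = b + N * t := by linarith
    rw [this]
    push_cast
    ring
  refine ⟨w' / (w * w₂), a', b', div_ne_zero hw' (mul_ne_zero hw hw₂), ?_, ⟨s, hs⟩, ⟨t, ht⟩⟩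
  rw [hμ]
  refine ⟨hw, τ.im_pos, hcm, hN, ?_, by omega, by omega, ?_, ?_, ?_, ?_⟩
  · exact MulMain.ind_w (mul_ne_zero hw hw₂) hred'
  · rw [abs_of_pos (by omega)]
    exact haN
  · rw [abs_of_pos (by omega)]
    exact hbN
  · intro e hea heb heN
    refine hcop e ?_ ?_ heN
    · have h1 : e ∣ a' - a := heN.trans ⟨s, hs⟩
      have h2 := dvd_sub hea h1
      rwa [sub_sub_cancel] at h2
    · have h1 : e ∣ b' - b := heN.trans ⟨t, ht⟩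
      have h2 := dvd_sub heb h1
      rwa [sub_sub_cancel] at h2
  · intro z
    constructor
    · rintro ⟨u, hu⟩
      obtain ⟨v, hv⟩ := (hmem₂ (lat w₂ (w₂ * τ') u)).1 ⟨u, rfl⟩
      obtain ⟨k, r, hr⟩ := (hmem _).1 ⟨v, rfl⟩
      refine ⟨k, (r.1 - k * s, r.2 - k * t), ?_⟩
      have h1 : z = w * lat w₂ (w₂ * τ') u := by
        rw [hu, lat, lat]
        ring
      rw [h1, hv, hr, lat, lat, hs', ht']
      push_cast
      ring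
    · rintro ⟨k, r, hr⟩
      obtain ⟨v, hv⟩ := (hmem (k * (a + b * τ) + N * lat 1 τ (r.1 + k * s, r.2 + k * t))).2
        ⟨k, _, rfl⟩
      obtain ⟨u, hu⟩ := (hmem₂ _).2 ⟨v, rfl⟩
      refine ⟨u, ?_⟩
      have h1 : lat (w * w₂) (w * w₂ * τ') u = w * lat w₂ (w₂ * τ') u := by
        rw [lat, lat]
        ring
      rw [h1, ← hu, ← hv, hr, lat, lat, hs', ht']
      push_cast
      ring

private theorem ESet_det {m a b a' b' a₁ b₁ a₂ b₂ : ℤ} (h1 : m ∣ a₁ - a) (h2 : m ∣ b₁ - b)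
    (h3 : m ∣ a₂ - a') (h4 : m ∣ b₂ - b') : m ∣ (a₁ * b₂ - b₁ * a₂) - (a * b' - a' * b) := by
  have e : (a₁ * b₂ - b₁ * a₂) - (a * b' - a' * b) =
      (a₁ - a) * b₂ + a * (b₂ - b') - (b₁ - b) * a₂ - b * (a₂ - a') := by ring
  rw [e]
  exact dvd_sub (dvd_sub (dvd_add (h1.mul_right _) (h4.mul_left _)) (h2.mul_right _))
    (h3.mul_left _)

theorem setup4 : ∃ C : ℝ, 1 ≤ C ∧ ∀ (K : IntermediateField ℚ ℂ) (x y z : ℂ) (h : ℝ) (τ : ℍ)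
    (N N' n : ℕ) (a b a' b' : ℤ), 1 ≤ h → Bd K h x → Bd K h y → Bd K h z → NonCM (τ : ℂ) →
    Red (τ : ℂ) → jInv τ = x → 1 ≤ N → Cop N a b → IsJ τ N a b y → 1 ≤ N' → Cop N' a' b' →
    IsJ τ N' a' b' z → N' = Nat.gcd N (Nat.gcd N' (a * b' - a' * b).natAbs) * n →
    ∃ (w w' τ' μ w'' τ'' μ' : ℂ) (a₁ b₁ a₂ b₂ : ℤ), w' ≠ 0 ∧ w'' ≠ 0 ∧ Red τ' ∧ Red τ'' ∧
      μ ≠ 0 ∧ μ' ≠ 0 ∧
      ZD2 w τ (w' / μ) (w' / μ * τ') (w'' / μ') (w'' / μ' * τ'') N N'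
        (Nat.gcd N (Nat.gcd N' (a * b' - a' * b).natAbs)) n (N * n) a₁ b₁ a₂ b₂ ∧
      (N : ℤ) ∣ a₁ - a ∧ (N : ℤ) ∣ b₁ - b ∧ (N' : ℤ) ∣ a₂ - a' ∧ (N' : ℤ) ∣ b₂ - b' ∧
      Bd K (C * h) (G2 w (w * τ)) ∧ Bd K (C * h) (G3 w (w * τ)) ∧
      Bd K (C * h) (G2 w' (w' * τ')) ∧ Bd K (C * h) (G3 w' (w' * τ')) ∧
      Bd K (C * h) (G2 w'' (w'' * τ'')) ∧ Bd K (C * h) (G3 w'' (w'' * τ'')) := by
  obtain ⟨C, hC, hmod⟩ := exists_model
  refine ⟨C, hC, ?_⟩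
  intro K x y z h τ N N' n a b a' b' hh hx hy hz hcm hred hj hN hcop hJ hN' hcop' hJ' hNn
  have nx : NCM x := by
    rw [← hj, ncm_jInv]
    exact hcm
  have ny : NCM y := NCM.of_isog hN (hJ.isog hN hcop) (by rw [hj]; exact nx)
  have nz : NCM z := NCM.of_isog hN' (hJ'.isog hN' hcop') (by rw [hj]; exact nx)
  obtain ⟨w₀, τ₀, hw₀, -, hj₀, b2, b3⟩ := hmod K h x hh hx nx.ne_zero nx.ne_1728
  obtain ⟨w', τ', hw', hred', hj', c2, c3⟩ := hmod K h y hh hy ny.ne_zero ny.ne_1728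
  obtain ⟨w'', τ'', hw'', hred'', hj'', d2, d3⟩ := hmod K h z hh hz nz.ne_zero nz.ne_1728
  obtain ⟨w, hw, e2, e3, -⟩ := bas (τ := τ) (τ₀ := τ₀) (by rw [hj, hj₀]) hw₀
  obtain ⟨μ, a₁, b₁, hμ, hZ, ha₁, hb₁⟩ := ESet_one hw hw' hred' hj' hcm hN hcop hJ
  obtain ⟨μ', a₂, b₂, hμ', hZ', ha₂, hb₂⟩ := ESet_one hw hw'' hred'' hj'' hcm hN' hcop' hJ'
  refine ⟨w, w', τ', μ, w'', τ'', μ', a₁, b₁, a₂, b₂, hw', hw'', hred', hred'', hμ, hμ',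
    ⟨hZ, hZ', hNn, rfl, Nat.gcd_dvd_left _ _, ?_, ?_⟩, ha₁, hb₁, ha₂, hb₂, ?_, ?_, c2, c3, d2, d3⟩
  · set d : ℕ := Nat.gcd N (Nat.gcd N' (a * b' - a' * b).natAbs) with hd
    have h1 : (d : ℤ) ∣ N := Int.natCast_dvd_natCast.2 (Nat.gcd_dvd_left _ _)
    have h2 : (d : ℤ) ∣ N' :=
      Int.natCast_dvd_natCast.2 ((Nat.gcd_dvd_right _ _).trans (Nat.gcd_dvd_left _ _))
    have h3 : (d : ℤ) ∣ a * b' - a' * b :=
      Int.natCast_dvd.2 ((Nat.gcd_dvd_right _ _).trans (Nat.gcd_dvd_right _ _))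
    have h4 := ESet_det (h1.trans ha₁) (h1.trans hb₁) (h2.trans ha₂) (h2.trans hb₂)
    have h5 := dvd_add h4 h3
    rwa [sub_add_cancel] at h5
  · intro m hm hm' hmd
    have h1 : (m : ℤ) ∣ N := Int.natCast_dvd_natCast.2 hm
    have h2 : (m : ℤ) ∣ N' := Int.natCast_dvd_natCast.2 hm'
    have h4 := ESet_det (h1.trans ha₁) (h1.trans hb₁) (h2.trans ha₂) (h2.trans hb₂)
    have h5 := dvd_sub hmd h4
    rw [sub_sub_cancel] at h5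
    exact Nat.dvd_gcd hm (Nat.dvd_gcd hm' (Int.natCast_dvd.1 h5))
  · rw [e2]
    exact b2
  · rw [e3]
    exact b3

end Pool.Agent.LGO.F3
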