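import Pool.Agent.LGO.F.JDef

/-!
# LGO/F3 (note 3121): the statement of the engine with two `Y` functions
-/

namespace Pool.Agent.LGO.F3

open UpperHalfPlane Pool.Agent.Hhelper14.ZP Pool.Agent.Hhelper14.ZPL Pool.Agent.EllSch
open Pool.Agent.LGO.F

/-- the statement of Engine P3: `x = j(τ)`, `y = j(N, (a, b))`, `z = j(N', (a', b'))`, `I = N n` the index -/
def EngP3 : Prop := ∃ C : ℝ, 1 ≤ C ∧
    ∀ (K : IntermediateField ℚ ℂ) [FiniteDimensional ℚ K] (x y z : ℂ) (h Y : ℝ) (τ : ℍ)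
      (N N' n : ℕ) (a b a' b' : ℤ), 1 ≤ h → Bd K h x → Bd K h y → Bd K h z → NonCM (τ : ℂ) →
      Red (τ : ℂ) → jInv τ = x → 1 ≤ N → Cop N a b → IsJ τ N a b y → 1 ≤ N' → Cop N' a' b' →
      IsJ τ N' a' b' z → N' = Nat.gcd N (Nat.gcd N' (a * b' - a' * b).natAbs) * n → 1 ≤ Y →
      (∀ (P Q : ℤ) (g : ℕ), IsCoprime P Q → 1 ≤ g → g ∣ N * n →
        (∀ r1 s1 r2 s2 : ℤ, (N : ℤ) ∣ a * (a * s1 + b * s2) - b * (a * r1 + b * r2) →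
          (N' : ℤ) ∣ a' * (a' * s1 + b' * s2) - b' * (a' * r1 + b' * r2) →
          (g : ℤ) ∣ Q * (P * s2 - Q * s1) + P * (P * r2 - Q * r1)) →
        (g : ℝ) ≤ Y * (P ^ 2 * τ.im + Q ^ 2 / τ.im)) →
      √((N * n : ℕ) : ℝ) ≤ C * ((Module.finrank ℚ K : ℝ) ^ 2 *
        (h + 1 + Real.log ((N * n : ℕ) : ℝ)) + Y)

end Pool.Agent.LGO.F3
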