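import Pool.Agent.LGO.F3.ECore
import Pool.Agent.LGO.F3.EAd
import Pool.Agent.LGO.F3.ESet
import Pool.Agent.LGO.F3.EArith
import Pool.Agent.LGO.F3.EndDef
import Pool.Agent.LGO.F.PSize

/-!
# LGO/F3, engine P3 (note 3121): the final statement, from the zero estimate (copy of `F/PEng.lean`)
-/

namespace Pool.Agent.LGO.F3

open UpperHalfPlane Pool.Agent.Hhelper14.ZP Pool.Agent.EllSch Pool.Agent.LGO.Bs Pool.Agent.LGO.F
  Pool.Agent.LGO.F.PE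

private theorem EEng_congr {N a b a₁ b₁ s1 s2 r1 r2 : ℤ} (ha : N ∣ a₁ - a) (hb : N ∣ b₁ - b)
    (h : N ∣ a * (a * s1 + b * s2) - b * (a * r1 + b * r2)) :
    N ∣ a₁ * (a₁ * s1 + b₁ * s2) - b₁ * (a₁ * r1 + b₁ * r2) := by
  have e : a₁ * (a₁ * s1 + b₁ * s2) - b₁ * (a₁ * r1 + b₁ * r2) =
      (a * (a * s1 + b * s2) - b * (a * r1 + b * r2)) +
        ((a₁ - a) * ((a₁ + a) * s1 + b₁ * (s2 - r1)) +
          (b₁ - b) * (a * (s2 - r1) - (b₁ + b) * r2)) := by ring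
  rw [e]
  exact dvd_add h (dvd_add (ha.mul_right _) (hb.mul_right _))

private theorem EEng_mono {G G' : ℝ} (h : G' ≤ G) {x : ℝ}
    (hx : Real.exp (-G') ≤ x ∧ x ≤ Real.exp G') : Real.exp (-G) ≤ x ∧ x ≤ Real.exp G :=
  ⟨(Real.exp_le_exp.2 (by linarith)).trans hx.1, hx.2.trans (Real.exp_le_exp.2 h)⟩

theorem engineP3 {Cz : ℕ} (hCz : 1 ≤ Cz) (hz : ZEst2 Cz) : EngP3 := by
  obtain ⟨c, hc, hAD⟩ := mkAD4
  obtain ⟨C₁, hC₁, hset⟩ := setup4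
  obtain ⟨C₂, hC₂, hsize⟩ := size
  obtain ⟨C₃, hC₃, hcore⟩ := pcore4 hCz hz hc
  have hC₀ : 0 ≤ C₁ * C₂ := by positivity
  refine ⟨C₃ * (100 * (C₁ * C₂)), by nlinarith [one_le_mul_of_one_le_of_one_le hC₁ hC₂], ?_⟩
  intro K _ x y z h Y τ N N' n a b a' b' hh hx hy hz' hcm hred hj hN hcop hJ hN' hcop' hJ' heN hY1
    hY
  obtain ⟨w, w', τ', μ, w'', τ'', μ', a₁, b₁, a₂, b₂, hw', hw'', hred', hred'', hμ, hμ', hZ, ha, hb,
    ha', hb', g2, g3, g2', g3', g2'', g3''⟩ :=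
    hset K x y z h τ N N' n a b a' b' hh hx hy hz' hcm hred hj hN hcop hJ hN' hcop' hJ' heN
  obtain ⟨hn1, hSz⟩ := hZ.sz
  obtain ⟨I, hIdef⟩ : ∃ I : ℕ, I = N * n := ⟨_, rfl⟩
  rw [← hIdef] at hZ hY hSz ⊢
  have hN'I : N' ≤ I := by
    have hdN : Nat.gcd N (Nat.gcd N' (a * b' - a' * b).natAbs) ≤ N := Nat.le_of_dvd hN hZ.dN
    calc N' = Nat.gcd N (Nat.gcd N' (a * b' - a' * b).natAbs) * n := heN
      _ ≤ N * n := Nat.mul_le_mul_right _ hdN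
      _ = I := hIdef.symm
  have hD1 : (1 : ℝ) ≤ (Module.finrank ℚ K : ℝ) := by
    exact_mod_cast Module.finrank_pos (R := ℚ) (M := K)
  set D : ℝ := (Module.finrank ℚ K : ℝ) with hD
  have hI1 : (1 : ℝ) ≤ I := by exact_mod_cast hSz.I1
  have hlog : 0 ≤ Real.log I := Real.log_nonneg hI1
  have hlN : ∀ m : ℕ, 1 ≤ m → m ≤ I → Real.log m ≤ Real.log I := fun m h1 h2 =>
    Real.log_le_log (by exact_mod_cast h1) (by exact_mod_cast h2)
  have hH : 1 ≤ C₁ * h := one_le_mul_of_one_le_of_one_le hC₁ hh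
  obtain ⟨G, hGdef⟩ : ∃ G : ℝ, G = C₂ * (D * (C₁ * h) + Real.log I) := ⟨_, rfl⟩
  have hGle : ∀ m : ℕ, 1 ≤ m → m ≤ I → C₂ * (D * (C₁ * h) + Real.log m) ≤ G := by
    intro m h1 h2
    rw [hGdef]
    have := hlN m h1 h2
    gcongr
  obtain ⟨hμ2, him, b1, b2, b3, b4, b5⟩ := hsize K D (C₁ * h) w τ w' τ' μ N a₁ b₁ hD1 hH le_rfl hw'
    hred hred' hμ hZ.h g2 g3 g2' g3' _ rfl
  obtain ⟨hμ2', -, -, -, b3', b4', b5'⟩ := hsize K D (C₁ * h) w τ w'' τ'' μ' N' a₂ b₂ hD1 hH le_rfl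
    hw'' hred hred'' hμ' hZ.h' g2 g3 g2'' g3'' _ rfl
  have k1 := hGle N hN hSz.nN
  have k2 := hGle N' hN' hN'I
  have hHG : C₁ * h ≤ G := by
    rw [hGdef]
    have e1 : C₁ * h ≤ D * (C₁ * h) := le_mul_of_one_le_left (by linarith) hD1
    have e2 : D * (C₁ * h) + Real.log I ≤ C₂ * (D * (C₁ * h) + Real.log I) :=
      le_mul_of_one_le_left (by positivity) hC₂
    linarith
  have hlG : Real.log I ≤ G := by
    rw [hGdef]
    have e2 : D * (C₁ * h) + Real.log I ≤ C₂ * (D * (C₁ * h) + Real.log I) :=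
      le_mul_of_one_le_left (by positivity) hC₂
    have : 0 ≤ D * (C₁ * h) := by positivity
    linarith
  have hG1 : 1 ≤ G := hH.trans hHG
  have hG0 : 0 ≤ G := by linarith
  obtain ⟨s₁, r₁, s₂, r₂, s₃, r₃, s₄, r₄, hA⟩ := hAD w τ w' τ' μ w'' τ'' μ' N N' _ n I a₁ b₁ a₂ b₂ G
    hw' hw'' hred hred' hred'' hμ hμ' hZ hG0 (EEng_mono k1 b1) (EEng_mono k1 b2) (EEng_mono k1 b3)
    (EEng_mono k2 b3') (b4.trans (Real.exp_le_exp.2 k1)) (b5.trans (Real.exp_le_exp.2 k1))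
    (b4'.trans (Real.exp_le_exp.2 k2)) (b5'.trans (Real.exp_le_exp.2 k2))
  have hIexp : (I : ℝ) ≤ Real.exp G := by
    calc (I : ℝ) = Real.exp (Real.log I) := (Real.exp_log (by linarith)).symm
      _ ≤ _ := Real.exp_le_exp.2 hlG
  have hab : ∀ (u : ℤ) (m : ℕ), |u| ≤ m → m ≤ I → |(u : ℝ)| ≤ Real.exp G := by
    intro u m h1 h2
    refine le_trans ?_ hIexp
    rw [← Int.cast_abs]
    have h3 : |u| ≤ (I : ℤ) := h1.trans (by exact_mod_cast h2)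
    exact_mod_cast h3
  obtain ⟨K', ν, V₁, V₃, V₄, m₁, m₂, n₁, n₂, hfd, hfin, hR⟩ := mkAR4 K hG1 hZ.h.ind1
    (MulMain.ind_w hw' hred') (MulMain.ind_w hw'' hred'')
    (g2.sk_mono hHG) (g3.sk_mono hHG) (g2'.sk_mono hHG) (g3'.sk_mono hHG) (g2''.sk_mono hHG)
    (g3''.sk_mono hHG) (hμ2.sk_mono k1) (hμ2'.sk_mono k2) (hab a₁ N hZ.h.aN hSz.nN)
    (hab b₁ N hZ.h.bN hSz.nN) (hab a₂ N' hZ.h'.aN hN'I) (hab b₂ N' hZ.h'.bN hN'I)
  have hfin' : (Module.finrank ℚ K' : ℝ) ≤ 4 * D := by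
    rw [hD]
    exact_mod_cast hfin
  have key := hcore K' w τ (w' / μ) (w' / μ * τ') (w'' / μ') (w'' / μ' * τ'') μ μ' w' (w' * τ')
    w'' (w'' * τ'') N N' _ n I a₁ b₁ a₂ b₂ (2 * G) (11 * G) (4 * D) Y
    s₁ r₁ s₂ r₂ s₃ r₃ s₄ r₄ ν V₁ V₃ V₄ m₁ m₂ n₁ n₂ hZ hred hμ hμ' (by field_simp) (by field_simp)
    (by field_simp) (by field_simp) (by linarith)
    (by linarith) (by linarith) hfin' (by linarith) hA hR (by
      intro P Q g hPQ hg hgI hS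
      exact hY P Q g hPQ hg hgI fun r1 s1 r2 s2 q1 q2 =>
        hS r1 s1 r2 s2 (EEng_congr ha hb q1) (EEng_congr ha' hb' q2))
  refine key.trans ?_
  rw [mul_assoc C₃ (100 * (C₁ * C₂))]
  apply mul_le_mul_of_nonneg_left _ (by linarith)
  -- numerics
  have him' : τ.im ≤ C₂ * (D * (C₁ * h)) := him
  have hCC : 1 ≤ C₁ * C₂ := one_le_mul_of_one_le_of_one_le hC₁ hC₂
  have hDD : D ≤ D ^ 2 := by nlinarith
  have hD2 : 1 ≤ D ^ 2 := one_le_pow₀ hD1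
  have q1 : G ≤ C₁ * C₂ * (D * (h + 1 + Real.log I)) := by
    rw [hGdef]
    have e1 : C₂ * (D * (C₁ * h) + Real.log I) = C₁ * C₂ * (D * h) + C₂ * Real.log I := by ring
    have e2 : C₂ * Real.log I ≤ C₁ * C₂ * (D * Real.log I) := by
      have e3 : Real.log I ≤ D * Real.log I := le_mul_of_one_le_left hlog hD1
      have e4 : C₂ ≤ C₁ * C₂ := le_mul_of_one_le_left (by linarith) hC₁
      exact mul_le_mul e4 e3 hlog hC₀
    have e5 : 0 ≤ C₁ * C₂ * D := by positivity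
    rw [e1]
    nlinarith
  have q2 : D * G ≤ C₁ * C₂ * (D ^ 2 * (h + 1 + Real.log I)) := by
    calc D * G ≤ D * (C₁ * C₂ * (D * (h + 1 + Real.log I))) :=
          mul_le_mul_of_nonneg_left q1 (by linarith)
      _ = _ := by ring
  have q3 : G ≤ D * G := le_mul_of_one_le_left hG0 hD1
  have q4 : D * (1 + Real.log I) ≤ C₁ * C₂ * (D ^ 2 * (h + 1 + Real.log I)) := by
    calc D * (1 + Real.log I) ≤ D ^ 2 * (h + 1 + Real.log I) := by
          apply mul_le_mul hDD _ (by linarith) (by positivity)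
          linarith
      _ ≤ _ := le_mul_of_one_le_left (by positivity) hCC
  have q5 : D * τ.im ≤ C₁ * C₂ * (D ^ 2 * (h + 1 + Real.log I)) := by
    calc D * τ.im ≤ D * (C₂ * (D * (C₁ * h))) := mul_le_mul_of_nonneg_left him' (by linarith)
      _ = C₁ * C₂ * (D ^ 2 * h) := by ring
      _ ≤ _ := by
        apply mul_le_mul_of_nonneg_left _ hC₀
        apply mul_le_mul_of_nonneg_left _ (by positivity)
        linarith
  have q6 : Y ≤ C₁ * C₂ * Y := le_mul_of_one_le_left (by linarith) hCC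
  have q7 : 0 ≤ C₁ * C₂ * (D ^ 2 * (h + 1 + Real.log I)) := by positivity
  have q8 : 0 ≤ C₁ * C₂ * Y := by positivity
  have q9 : 2 * G + 4 * D * (11 * G + 1 + Real.log I + τ.im) + Y =
      2 * G + 44 * (D * G) + 4 * (D * (1 + Real.log I)) + 4 * (D * τ.im) + Y := by ring
  have q10 : 100 * (C₁ * C₂) * (D ^ 2 * (h + 1 + Real.log I) + Y) =
      100 * (C₁ * C₂ * (D ^ 2 * (h + 1 + Real.log I))) + 100 * (C₁ * C₂ * Y) := by ring
  have q11 : 2 * G + 4 * D * (11 * G + 1 + Real.log I + (τ : ℂ).im) + Y ≤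
      100 * (C₁ * C₂) * (D ^ 2 * (h + 1 + Real.log I) + Y) := by
    have e : (τ : ℂ).im = τ.im := rfl
    rw [e, q9, q10]
    linarith
  exact q11

end Pool.Agent.LGO.F3
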