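import Mathlib
import Pool.Agent.LGO.A.MulBasic

/-!
# LGO/F3 (zero estimate, two `y`): the norm

`s² = Q(x, y)`, `θ = S + D s`, `θ' = S' + D' s`: `∑_(k < K, l < K') c_kl V^k θ^(K-1-k) V'^l θ'^(K'-1-l) = A + B s`, and the same with `s` replaced by `- s`.

PROOF.  Work with pairs `(A, B)` of polynomials, `(A, B) ↔ A + B s`, product `(A A' + B B' Q, A B' + A' B)`.  Weight: `(A, B)` has weight `≤ m` (in `X`) if `dX A ≤ m` and (`B = 0` or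
`dX B + 2 ≤ m`); with `dX Q ≤ 4` the weights add: `dX (B B' Q) ≤ (m - 2) + (m' - 2) + 4`.  `θ = (S, D)` has weight `≤ e₁`, `V = (V, 0)` too, `c_kl` weight `≤ D₁`; the sum has
weight `≤ D₁ + (K - 1) e₁ + (K' - 1) e₁`.  `G = A² - B² Q` has `dX G ≤ 2 (D₁ + (K - 1) e₁ + (K' - 1) e₁)`.  The same in `Y`.
-/

namespace Pool.Agent.LGO.F3

open Polynomial Pool.Agent.LGO.Mul
open scoped Polynomial.Bivariate

/-- the properties of a degree which we use -/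
private structure YNorm_Deg (f : ℂ[X][Y] → ℕ) : Prop where
  zero : f 0 = 0
  one : f 1 = 0
  neg : ∀ a, f (-a) ≤ f a
  add : ∀ a b, f (a + b) ≤ max (f a) (f b)
  mul : ∀ a b, f (a * b) ≤ f a + f b

/-- `a` is zero or has degree at most `n` -/
private def YNorm_Dg (f : ℂ[X][Y] → ℕ) (n : ℤ) (a : ℂ[X][Y]) : Prop := a = 0 ∨ (f a : ℤ) ≤ n

private theorem YNorm_dY : YNorm_Deg dY where
  zero := natDegree_zero
  one := natDegree_one
  neg a := (natDegree_neg a).le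
  add a b := natDegree_add_le a b
  mul _ _ := natDegree_mul_le

private theorem YNorm_dX : YNorm_Deg dX where
  zero := by unfold dX; rw [map_zero, natDegree_zero]
  one := by unfold dX; rw [map_one, natDegree_one]
  neg a := by unfold dX; rw [map_neg, natDegree_neg]
  add a b := by unfold dX; rw [map_add]; exact natDegree_add_le _ _
  mul a b := by unfold dX; rw [map_mul]; exact natDegree_mul_le

private theorem YNorm_Dg.add {f : ℂ[X][Y] → ℕ} (hf : YNorm_Deg f) {n : ℤ} {a b : ℂ[X][Y]}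
    (ha : YNorm_Dg f n a) (hb : YNorm_Dg f n b) : YNorm_Dg f n (a + b) := by
  rcases ha with rfl | ha
  · rwa [zero_add]
  rcases hb with rfl | hb
  · rw [add_zero]
    exact Or.inr ha
  right
  have h := hf.add a b
  have h' : (f (a + b) : ℤ) ≤ max (f a : ℤ) (f b : ℤ) := by exact_mod_cast h
  exact h'.trans (max_le ha hb)

private theorem YNorm_Dg.mul {f : ℂ[X][Y] → ℕ} (hf : YNorm_Deg f) {n m : ℤ} {a b : ℂ[X][Y]}
    (ha : YNorm_Dg f n a) (hb : YNorm_Dg f m b) : YNorm_Dg f (n + m) (a * b) := by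
  rcases ha with rfl | ha
  · left
    rw [zero_mul]
  rcases hb with rfl | hb
  · left
    rw [mul_zero]
  right
  have h := hf.mul a b
  have h' : (f (a * b) : ℤ) ≤ (f a : ℤ) + (f b : ℤ) := by exact_mod_cast h
  linarith

private theorem YNorm_Dg.neg {f : ℂ[X][Y] → ℕ} (hf : YNorm_Deg f) {n : ℤ} {a : ℂ[X][Y]}
    (ha : YNorm_Dg f n a) : YNorm_Dg f n (-a) := by
  rcases ha with rfl | ha
  · left
    rw [neg_zero]
  right
  have h := hf.neg a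
  have h' : (f (-a) : ℤ) ≤ (f a : ℤ) := by exact_mod_cast h
  linarith

private theorem YNorm_Dg.mono {f : ℂ[X][Y] → ℕ} {n m : ℤ} {a : ℂ[X][Y]}
    (ha : YNorm_Dg f n a) (h : n ≤ m) : YNorm_Dg f m a := by
  rcases ha with rfl | ha
  · exact Or.inl rfl
  · exact Or.inr (ha.trans h)

/-- the pair `p` (that is `p.1 + p.2 s`) has weight at most `n` -/
private def YNorm_W (f : ℂ[X][Y] → ℕ) (n : ℤ) (p : ℂ[X][Y] × ℂ[X][Y]) : Prop :=
  YNorm_Dg f n p.1 ∧ YNorm_Dg f (n - 2) p.2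

private theorem YNorm_W.mono {f : ℂ[X][Y] → ℕ} {n m : ℤ} {p : ℂ[X][Y] × ℂ[X][Y]}
    (hp : YNorm_W f n p) (h : n ≤ m) : YNorm_W f m p :=
  ⟨hp.1.mono h, hp.2.mono (by linarith)⟩

private theorem YNorm_W.add {f : ℂ[X][Y] → ℕ} (hf : YNorm_Deg f) {n : ℤ}
    {p q : ℂ[X][Y] × ℂ[X][Y]} (hp : YNorm_W f n p) (hq : YNorm_W f n q) :
    YNorm_W f n (p + q) :=
  ⟨hp.1.add hf hq.1, hp.2.add hf hq.2⟩

/-- product of pairs, `s² = Q` -/
private noncomputable def YNorm_m (Q : ℂ[X][Y]) (p q : ℂ[X][Y] × ℂ[X][Y]) :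
    ℂ[X][Y] × ℂ[X][Y] :=
  (p.1 * q.1 + p.2 * q.2 * Q, p.1 * q.2 + p.2 * q.1)

private theorem YNorm_W.mul {f : ℂ[X][Y] → ℕ} (hf : YNorm_Deg f) {Q : ℂ[X][Y]}
    (hQ : YNorm_Dg f 4 Q) {n m : ℤ} {p q : ℂ[X][Y] × ℂ[X][Y]} (hp : YNorm_W f n p)
    (hq : YNorm_W f m q) : YNorm_W f (n + m) (YNorm_m Q p q) := by
  obtain ⟨hp1, hp2⟩ := hp
  obtain ⟨hq1, hq2⟩ := hq
  refine ⟨?_, ?_⟩
  · show YNorm_Dg f (n + m) (p.1 * q.1 + p.2 * q.2 * Q)
    refine (hp1.mul hf hq1).add hf ((((hp2.mul hf hq2).mul hf hQ)).mono ?_)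
    linarith
  · show YNorm_Dg f (n + m - 2) (p.1 * q.2 + p.2 * q.1)
    refine ((hp1.mul hf hq2).mono ?_).add hf ((hp2.mul hf hq1).mono ?_)
    · linarith
    · linarith

/-- powers of pairs -/
private noncomputable def YNorm_p (Q : ℂ[X][Y]) (p : ℂ[X][Y] × ℂ[X][Y]) :
    ℕ → ℂ[X][Y] × ℂ[X][Y]
  | 0 => (1, 0)
  | m + 1 => YNorm_m Q (YNorm_p Q p m) p

private theorem YNorm_W.pow {f : ℂ[X][Y] → ℕ} (hf : YNorm_Deg f) {Q : ℂ[X][Y]}
    (hQ : YNorm_Dg f 4 Q) {n : ℤ} {p : ℂ[X][Y] × ℂ[X][Y]} (hp : YNorm_W f n p) (k : ℕ) :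
    YNorm_W f (k * n) (YNorm_p Q p k) := by
  induction k with
  | zero =>
    refine ⟨Or.inr ?_, Or.inl rfl⟩
    show ((f 1 : ℕ) : ℤ) ≤ _
    rw [hf.one]
    simp
  | succ k ih =>
    rw [YNorm_p]
    refine (ih.mul hf hQ hp).mono ?_
    push_cast
    linarith

/-- the value of a pair -/
private noncomputable def YNorm_e (p : ℂ[X][Y] × ℂ[X][Y]) (x y s : ℂ) : ℂ :=
  p.1.evalEval x y + p.2.evalEval x y * s

private theorem YNorm_e_add (p q : ℂ[X][Y] × ℂ[X][Y]) (x y s : ℂ) :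
    YNorm_e (p + q) x y s = YNorm_e p x y s + YNorm_e q x y s := by
  unfold YNorm_e
  rw [Prod.fst_add, Prod.snd_add, evalEval_add, evalEval_add]
  ring

private theorem YNorm_e_mul {Q : ℂ[X][Y]} (p q : ℂ[X][Y] × ℂ[X][Y]) {x y s : ℂ}
    (h : s ^ 2 = Q.evalEval x y) :
    YNorm_e (YNorm_m Q p q) x y s = YNorm_e p x y s * YNorm_e q x y s := by
  unfold YNorm_e YNorm_m
  simp only [evalEval_add, evalEval_mul]
  linear_combination -(p.2.evalEval x y * q.2.evalEval x y) * h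

private theorem YNorm_e_pow {Q : ℂ[X][Y]} (p : ℂ[X][Y] × ℂ[X][Y]) {x y s : ℂ}
    (h : s ^ 2 = Q.evalEval x y) (k : ℕ) :
    YNorm_e (YNorm_p Q p k) x y s = YNorm_e p x y s ^ k := by
  induction k with
  | zero =>
    unfold YNorm_e
    rw [YNorm_p]
    simp
  | succ k ih =>
    rw [YNorm_p, YNorm_e_mul _ _ h, ih, pow_succ]

private theorem YNorm_e_sum (s : Finset ℕ) (p : ℕ → ℂ[X][Y] × ℂ[X][Y]) (x y z : ℂ) :
    YNorm_e (∑ k ∈ s, p k) x y z = ∑ k ∈ s, YNorm_e (p k) x y z := by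
  classical
  induction s using Finset.induction_on with
  | empty =>
    unfold YNorm_e
    simp
  | insert k s hk ih =>
    rw [Finset.sum_insert hk, Finset.sum_insert hk, YNorm_e_add, ih]

private theorem YNorm_W.sum {f : ℂ[X][Y] → ℕ} (hf : YNorm_Deg f) {n : ℤ} (s : Finset ℕ)
    (p : ℕ → ℂ[X][Y] × ℂ[X][Y]) (hp : ∀ k ∈ s, YNorm_W f n (p k)) :
    YNorm_W f n (∑ k ∈ s, p k) := by
  classical
  induction s using Finset.induction_on with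
  | empty =>
    rw [Finset.sum_empty]
    exact ⟨Or.inl rfl, Or.inl rfl⟩
  | insert k s hk ih =>
    rw [Finset.sum_insert hk]
    exact (hp k (Finset.mem_insert_self _ _)).add hf
      (ih fun j hj => hp j (Finset.mem_insert_of_mem hj))

private theorem YNorm_scal {f : ℂ[X][Y] → ℕ} {n : ℤ} {a : ℂ[X][Y]} (h : (f a : ℤ) ≤ n) :
    YNorm_W f n (a, 0) :=
  ⟨Or.inr h, Or.inl rfl⟩

/-- one term of the sum -/
private noncomputable def YNorm_t (Q c V S D V' S' D' : ℂ[X][Y]) (k m l j : ℕ) :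
    ℂ[X][Y] × ℂ[X][Y] :=
  YNorm_m Q (YNorm_m Q (c, 0) (YNorm_m Q (YNorm_p Q (V, 0) k) (YNorm_p Q (S, D) m)))
    (YNorm_m Q (YNorm_p Q (V', 0) l) (YNorm_p Q (S', D') j))

private theorem YNorm_t_eval {Q : ℂ[X][Y]} (c V S D V' S' D' : ℂ[X][Y]) (k m l j : ℕ)
    {x y s : ℂ} (h : s ^ 2 = Q.evalEval x y) :
    YNorm_e (YNorm_t Q c V S D V' S' D' k m l j) x y s = c.evalEval x y *
      (V.evalEval x y ^ k * (S.evalEval x y + D.evalEval x y * s) ^ m) *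
      (V'.evalEval x y ^ l * (S'.evalEval x y + D'.evalEval x y * s) ^ j) := by
  unfold YNorm_t
  simp only [YNorm_e_mul _ _ h, YNorm_e_pow _ h]
  unfold YNorm_e
  simp

private theorem YNorm_t_W {f : ℂ[X][Y] → ℕ} (hf : YNorm_Deg f) {Q : ℂ[X][Y]} (hQ : f Q ≤ 4)
    {c V S D V' S' D' : ℂ[X][Y]} {D₁ e : ℕ} (hc : f c ≤ D₁) (hS : f S ≤ e) (hD : f D + 2 ≤ e)
    (hV : f V ≤ e) (hS' : f S' ≤ e) (hD' : f D' + 2 ≤ e) (hV' : f V' ≤ e) (k m l j : ℕ) :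
    YNorm_W f ((D₁ : ℤ) + (k * e + m * e) + (l * e + j * e))
      (YNorm_t Q c V S D V' S' D' k m l j) := by
  have hQ' : YNorm_Dg f 4 Q := Or.inr (by exact_mod_cast hQ)
  have h1 : YNorm_W f (D₁ : ℤ) (c, 0) := YNorm_scal (by exact_mod_cast hc)
  have h2 : YNorm_W f (e : ℤ) (V, 0) := YNorm_scal (by exact_mod_cast hV)
  have h3 : YNorm_W f (e : ℤ) (V', 0) := YNorm_scal (by exact_mod_cast hV')
  have h4 : YNorm_W f (e : ℤ) (S, D) :=
    ⟨Or.inr (by exact_mod_cast hS), Or.inr (by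
      have : ((f D : ℕ) : ℤ) + 2 ≤ e := by exact_mod_cast hD
      linarith)⟩
  have h5 : YNorm_W f (e : ℤ) (S', D') :=
    ⟨Or.inr (by exact_mod_cast hS'), Or.inr (by
      have : ((f D' : ℕ) : ℤ) + 2 ≤ e := by exact_mod_cast hD'
      linarith)⟩
  unfold YNorm_t
  exact (h1.mul hf hQ' ((h2.pow hf hQ' k).mul hf hQ' (h4.pow hf hQ' m))).mul hf hQ'
    ((h3.pow hf hQ' l).mul hf hQ' (h5.pow hf hQ' j))

private theorem YNorm_bound {f : ℂ[X][Y] → ℕ} (hf : YNorm_Deg f) {Q : ℂ[X][Y]} (hQ : f Q ≤ 4)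
    {K K' : ℕ} {c : ℕ → ℕ → ℂ[X][Y]} {V S D V' S' D' : ℂ[X][Y]}
    {D₁ e : ℕ} (hc : ∀ k < K, ∀ l < K', f (c k l) ≤ D₁) (hS : f S ≤ e) (hD : f D + 2 ≤ e)
    (hV : f V ≤ e) (hS' : f S' ≤ e) (hD' : f D' + 2 ≤ e) (hV' : f V' ≤ e) :
    YNorm_W f ((D₁ + (K - 1) * e + (K' - 1) * e : ℕ) : ℤ)
      (∑ k ∈ Finset.range K, ∑ l ∈ Finset.range K',
        YNorm_t Q (c k l) V S D V' S' D' k (K - 1 - k) l (K' - 1 - l)) := by
  refine YNorm_W.sum hf _ _ fun k hk => YNorm_W.sum hf _ _ fun l hl => ?_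
  have hk' : k < K := Finset.mem_range.1 hk
  have hl' : l < K' := Finset.mem_range.1 hl
  refine (YNorm_t_W hf hQ (hc k hk' l hl') hS hD hV hS' hD' hV' k (K - 1 - k) l
    (K' - 1 - l)).mono ?_
  have e1 : k + (K - 1 - k) = K - 1 := by omega
  have e2 : l + (K' - 1 - l) = K' - 1 := by omega
  have : D₁ + (k * e + (K - 1 - k) * e) + (l * e + (K' - 1 - l) * e) =
      D₁ + (K - 1) * e + (K' - 1) * e := by
    rw [← add_mul, ← add_mul, e1, e2]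
  rw [← this]
  push_cast
  exact le_rfl

private theorem YNorm_G {f : ℂ[X][Y] → ℕ} (hf : YNorm_Deg f) {Q : ℂ[X][Y]} (hQ : f Q ≤ 4)
    {n : ℕ} {p : ℂ[X][Y] × ℂ[X][Y]} (hp : YNorm_W f (n : ℤ) p) :
    f (p.1 * p.1 + -(p.2 * p.2 * Q)) ≤ 2 * n := by
  have hQ' : YNorm_Dg f 4 Q := Or.inr (by exact_mod_cast hQ)
  obtain ⟨h1, h2⟩ := hp
  have h : YNorm_Dg f ((n : ℤ) + n) (p.1 * p.1 + -(p.2 * p.2 * Q)) := by
    refine (h1.mul hf h1).add hf ((((h2.mul hf h2).mul hf hQ').neg hf).mono ?_)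
    linarith
  rcases h with h | h
  · rw [h, hf.zero]
    exact Nat.zero_le _
  · have : ((f (p.1 * p.1 + -(p.2 * p.2 * Q)) : ℕ) : ℤ) ≤ ((2 * n : ℕ) : ℤ) := by
      push_cast
      linarith
    exact_mod_cast this

theorem exists_norm2 (K K' : ℕ) (hK : 1 ≤ K) (hK' : 1 ≤ K') (c : ℕ → ℕ → ℂ[X][Y])
    (S D V S' D' V' Q : ℂ[X][Y]) (D₁ D₂ e₁ e₂ : ℕ)
    (hc₁ : ∀ k < K, ∀ l < K', dX (c k l) ≤ D₁) (hc₂ : ∀ k < K, ∀ l < K', dY (c k l) ≤ D₂)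
    (hS₁ : dX S ≤ e₁) (hS₂ : dY S ≤ e₂) (hD₁ : dX D + 2 ≤ e₁) (hD₂ : dY D + 2 ≤ e₂)
    (hV₁ : dX V ≤ e₁) (hV₂ : dY V ≤ e₂)
    (hS₁' : dX S' ≤ e₁) (hS₂' : dY S' ≤ e₂) (hD₁' : dX D' + 2 ≤ e₁) (hD₂' : dY D' + 2 ≤ e₂)
    (hV₁' : dX V' ≤ e₁) (hV₂' : dY V' ≤ e₂) (hQ₁ : dX Q ≤ 4) (hQ₂ : dY Q ≤ 4) :
    ∃ A B G : ℂ[X][Y], dX G ≤ 2 * (D₁ + (K - 1) * e₁ + (K' - 1) * e₁) ∧
      dY G ≤ 2 * (D₂ + (K - 1) * e₂ + (K' - 1) * e₂) ∧
      ∀ x y s : ℂ, s ^ 2 = Q.evalEval x y →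
        ∑ k ∈ Finset.range K, ∑ l ∈ Finset.range K', (c k l).evalEval x y *
            (V.evalEval x y ^ k * (S.evalEval x y + D.evalEval x y * s) ^ (K - 1 - k)) *
            (V'.evalEval x y ^ l * (S'.evalEval x y + D'.evalEval x y * s) ^ (K' - 1 - l)) =
          A.evalEval x y + B.evalEval x y * s ∧
        G.evalEval x y = (A.evalEval x y + B.evalEval x y * s) *
          (A.evalEval x y - B.evalEval x y * s) := by
  have _ := hK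
  have _ := hK'
  set p : ℂ[X][Y] × ℂ[X][Y] := ∑ k ∈ Finset.range K, ∑ l ∈ Finset.range K',
    YNorm_t Q (c k l) V S D V' S' D' k (K - 1 - k) l (K' - 1 - l) with hp
  refine ⟨p.1, p.2, p.1 * p.1 + -(p.2 * p.2 * Q), ?_, ?_, ?_⟩
  · exact YNorm_G YNorm_dX hQ₁
      (YNorm_bound YNorm_dX hQ₁ hc₁ hS₁ hD₁ hV₁ hS₁' hD₁' hV₁')
  · exact YNorm_G YNorm_dY hQ₂
      (YNorm_bound YNorm_dY hQ₂ hc₂ hS₂ hD₂ hV₂ hS₂' hD₂' hV₂')
  · intro x y s h
    refine ⟨?_, ?_⟩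
    · have h1 : YNorm_e p x y s = p.1.evalEval x y + p.2.evalEval x y * s := rfl
      rw [← h1, hp, YNorm_e_sum]
      refine Finset.sum_congr rfl fun k _ => ?_
      rw [YNorm_e_sum]
      refine Finset.sum_congr rfl fun l _ => ?_
      rw [YNorm_t_eval _ _ _ _ _ _ _ _ _ _ _ h]
    · simp only [evalEval_add, evalEval_mul, evalEval_neg]
      linear_combination (p.2.evalEval x y * p.2.evalEval x y) * h

end Pool.Agent.LGO.F3
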