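import Mathlib
import Pool.Agent.LGO.F.ZRat
import Pool.Agent.LGO.F.ZGa
import Pool.Agent.LGO.A.MulBasic

/-!
# LGO/F3 (zero estimate, two `y`): `W² ℘_v(a z₁ + b z₂) = S(x₁, x₂) + D(x₁, x₂) ℘'(z₁) ℘'(z₂)`

`x_i = ℘(z_i)`, `℘'(z_i) = wq (z_i)` for the lattice `M Λ` (`m₁ = M w`, `m₂ = M w τ`); `Λ_v = ℤ c₁ + ℤ c₂ ⊆ Λ` with `M Λ ⊆ Λ_v`.

PROOF of `exists_th`.  `exists_rat` with `β = a` and `β = b` (from `M Λ` to `Λ_v`; `a M Λ ⊆ Λ_v` because `M Λ ⊆ Λ_v`; `M |a| Λ_v ⊆ a M Λ` because `Λ_v ⊆ Λ`): `℘_v(a z) B₁(x) = A₁(x)`,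
degrees `≤ 2 (M |a|)² ≤ 2 M⁴`; `A₂, B₂` for `b`.  As in the proof of `exists_GD` (`F/ZG.lean`) with `A₁ = A₁(X)`, `A₂ = A₂(Y)`:
`W = A₁ B₂ - A₂ B₁`, `S₀ = (2 A₁ A₂ - (g2/2) B₁ B₂) (A₁ B₂ + A₂ B₁) - g3 B₁² B₂²`, `Π = (A₁ A₂ + (g2/4) B₁ B₂)² + g3 B₁ B₂ (A₁ B₂ + A₂ B₁)` (`theta` in `F/ZGa.lean`): with
`θ_± = W² ℘_v(a z₁ ± b z₂)`: `θ_+ + θ_- = S₀`, `θ_+ θ_- = Π W²`.  `S = S₀ / 2`,
`D = - (1 / (2 a b)) (A₁' B₁ - A₁ B₁')(X) (A₂' B₂ - A₂ B₂')(Y)`.  Claim `θ_+ - θ_- = 2 D q₁ q₂`, `q_i = ℘'(z_i)`: if `a z₁`, `b z₂` are off `Λ_v`: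
`℘(u + v) - ℘(u - v) = - ℘'(u) ℘'(v) / (℘(u) - ℘(v))²` (addition theorem `wp_add`), and `a ℘_v'(a z₁) B₁(x₁)² = (A₁' B₁ - A₁ B₁')(x₁) q₁` (derivative of `℘_v(a z) B₁(x) = A₁(x)`;
`hasDerivAt_wp`).  If `a z₁` or `b z₂` is in `Λ_v`: both sides are continuous at `z` (the left side is `S₀`-part: `θ_+ = W² ℘_v(a z₁ + b z₂)` is continuous at `z`, because
`a z₁ ± b z₂` are off `Λ_v`, `W` polynomial in `x₁, x₂`), and such points are limits of points with `a z₁`, `b z₂` off `Λ_v`.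
`R = Π W²`: at a point where `℘_v(a z₁ ± b z₂)` are not `0` it is `θ_+ θ_- ≠ 0` (`W ≠ 0` by `theta`).
Degrees: `dX W ≤ 2 M⁴`, `dX S ≤ 4 M⁴`, `dX D ≤ 4 M⁴ - 1`, `dX R ≤ 8 M⁴`.
-/

namespace Pool.Agent.LGO.F3

open Polynomial Pool.Agent.EllSch Pool.Agent.LGO.Mul Pool.Agent.LGO.F
open scoped Polynomial.Bivariate

open Filter Topology

private theorem YTh_lat_smul (c a b : ℂ) (w : ℤ × ℤ) :
    lat (c * a) (c * b) w = c * lat a b w := by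
  unfold lat
  ring

private theorem YTh_ind_smul {c a b : ℂ} (hc : c ≠ 0) (h : Ind a b) : Ind (c * a) (c * b) := by
  unfold Ind at *
  have h1 : (c * a).re * (c * b).im - (c * a).im * (c * b).re =
      Complex.normSq c * (a.re * b.im - a.im * b.re) := by
    simp only [Complex.mul_re, Complex.mul_im, Complex.normSq_apply]
    ring
  rw [h1]
  exact mul_ne_zero (fun h0 => hc (Complex.normSq_eq_zero.1 h0)) h

private theorem YTh_ev {a b : ℂ} (h : Ind a b) {f : ℂ → ℂ} {z : ℂ} (hf : ContinuousAt f z)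
    (hinj : ∀ y, y ≠ z → f y ≠ f z) : ∀ᶠ y in 𝓝[≠] z, Off a b (f y) := by
  have h1 : Tendsto f (𝓝[≠] z) (𝓝[≠] (f z)) :=
    tendsto_nhdsWithin_iff.2 ⟨hf.tendsto.mono_left nhdsWithin_le_nhds,
      eventually_mem_nhdsWithin.mono fun y hy => hinj y hy⟩
  exact h1.eventually (Basic.eventually_off h (f z))

private theorem YTh_open {a b : ℂ} (h : Ind a b) {z : ℂ} (hz : Off a b z) :
    ∀ᶠ y in 𝓝 z, Off a b y := by
  rw [← nhdsNE_sup_pure z, Filter.eventually_sup]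
  exact ⟨Basic.eventually_off h z, hz⟩

private theorem YTh_evc {a b : ℂ} (h : Ind a b) {f : ℂ → ℂ} {x : ℂ} (hf : ContinuousAt f x)
    (hz : Off a b (f x)) : ∀ᶠ y in 𝓝 x, Off a b (f y) :=
  hf.eventually (YTh_open h hz)

private theorem YTh_comp {g f : ℂ → ℂ} {x y : ℂ} (hg : ContinuousAt g y) (hf : ContinuousAt f x)
    (he : f x = y) : ContinuousAt (fun s => g (f s)) x := by
  subst he
  exact ContinuousAt.comp hg hf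

/-- the derivative of `℘_v(β z) B(x) = A(x)` -/
private theorem YTh_der {m₁ m₂ c₁ c₂ : ℂ} (hm : Ind m₁ m₂) (hc : Ind c₁ c₂) {β : ℂ}
    {A B : ℂ[X]}
    (h1 : ∀ z, Off m₁ m₂ z → Off c₁ c₂ (β * z) → B.eval (wp m₁ m₂ z) ≠ 0 ∧
      wp c₁ c₂ (β * z) * B.eval (wp m₁ m₂ z) = A.eval (wp m₁ m₂ z))
    {z : ℂ} (hz : Off m₁ m₂ z) (hz' : Off c₁ c₂ (β * z)) :
    β * wq c₁ c₂ (β * z) * B.eval (wp m₁ m₂ z) ^ 2 =
      (derivative A * B - A * derivative B).eval (wp m₁ m₂ z) * wq m₁ m₂ z := by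
  have hev : (fun y => wp c₁ c₂ (β * y) * B.eval (wp m₁ m₂ y)) =ᶠ[𝓝 z]
      fun y => A.eval (wp m₁ m₂ y) := by
    filter_upwards [YTh_open hm hz, YTh_evc hc (f := fun y => β * y)
      (continuousAt_const.mul continuousAt_id) hz'] with y hy hy'
    exact (h1 y hy hy').2
  have d1 : HasDerivAt (wp m₁ m₂) (wq m₁ m₂ z) z := hasDerivAt_wp hm hz
  have d2 : HasDerivAt (fun y => wp c₁ c₂ (β * y)) (wq c₁ c₂ (β * z) * (β * 1)) z :=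
    HasDerivAt.comp z (hasDerivAt_wp hc hz') ((hasDerivAt_id z).const_mul β)
  have d3 : HasDerivAt (fun y => B.eval (wp m₁ m₂ y))
      ((derivative B).eval (wp m₁ m₂ z) * wq m₁ m₂ z) z :=
    HasDerivAt.comp z (B.hasDerivAt _) d1
  have d4 : HasDerivAt (fun y => A.eval (wp m₁ m₂ y))
      ((derivative A).eval (wp m₁ m₂ z) * wq m₁ m₂ z) z :=
    HasDerivAt.comp z (A.hasDerivAt _) d1
  have e1 := ((d2.mul d3).congr_of_eventuallyEq hev.symm).unique d4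
  have e2 := (h1 z hz hz').2
  rw [eval_sub, eval_mul, eval_mul]
  linear_combination B.eval (wp m₁ m₂ z) * e1 -
    (derivative B).eval (wp m₁ m₂ z) * wq m₁ m₂ z * e2

/-- `℘(u + v) - ℘(u - v)` -/
private theorem YTh_sub {c₁ c₂ : ℂ} (h : Ind c₁ c₂) {u v : ℂ} (hu : Off c₁ c₂ u)
    (hv : Off c₁ c₂ v) (h1 : Off c₁ c₂ (u + v)) (h2 : Off c₁ c₂ (u - v)) :
    (wp c₁ c₂ u - wp c₁ c₂ v) ^ 2 * (wp c₁ c₂ (u + v) - wp c₁ c₂ (u - v)) =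
      -(wq c₁ c₂ u * wq c₁ c₂ v) := by
  have hne : wp c₁ c₂ u ≠ wp c₁ c₂ v := by
    intro he
    obtain ⟨x, hx⟩ := Hom.exists_of_wp_eq h hu hv h1 he
    exact h2 x (by rw [hx]; ring)
  have hne' : wp c₁ c₂ u - wp c₁ c₂ v ≠ 0 := sub_ne_zero.2 hne
  have e1 := wp_add h hu hv h1 hne
  have e2 := wp_add h hu (off_neg.2 hv) (by rw [← sub_eq_add_neg]; exact h2)
    (by rw [wp_neg h]; exact hne)
  rw [wp_neg h, wq_neg h, ← sub_eq_add_neg] at e2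
  rw [e1, e2]
  field_simp
  ring

section main

variable {m₁ m₂ c₁ c₂ α β : ℂ} {A₁ B₁ A₂ B₂ : ℂ[X]}

/-- the difference at a point with `α z₁`, `β z₂` off the lattice -/
private theorem YTh_diff0 (hm : Ind m₁ m₂) (hc : Ind c₁ c₂)
    (h1 : ∀ z, Off m₁ m₂ z → Off c₁ c₂ (α * z) → B₁.eval (wp m₁ m₂ z) ≠ 0 ∧
      wp c₁ c₂ (α * z) * B₁.eval (wp m₁ m₂ z) = A₁.eval (wp m₁ m₂ z))
    (h2 : ∀ z, Off m₁ m₂ z → Off c₁ c₂ (β * z) → B₂.eval (wp m₁ m₂ z) ≠ 0 ∧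
      wp c₁ c₂ (β * z) * B₂.eval (wp m₁ m₂ z) = A₂.eval (wp m₁ m₂ z))
    {z₁ z₂ : ℂ} (hz₁ : Off m₁ m₂ z₁) (hz₂ : Off m₁ m₂ z₂)
    (hp : Off c₁ c₂ (α * z₁ + β * z₂)) (hq : Off c₁ c₂ (α * z₁ - β * z₂))
    (hu : Off c₁ c₂ (α * z₁)) (hv : Off c₁ c₂ (β * z₂)) :
    α * β * (A₁.eval (wp m₁ m₂ z₁) * B₂.eval (wp m₁ m₂ z₂) -
        A₂.eval (wp m₁ m₂ z₂) * B₁.eval (wp m₁ m₂ z₁)) ^ 2 *
        (wp c₁ c₂ (α * z₁ + β * z₂) - wp c₁ c₂ (α * z₁ - β * z₂)) +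
      (derivative A₁ * B₁ - A₁ * derivative B₁).eval (wp m₁ m₂ z₁) *
        (derivative A₂ * B₂ - A₂ * derivative B₂).eval (wp m₁ m₂ z₂) *
        (wq m₁ m₂ z₁ * wq m₁ m₂ z₂) = 0 := by
  have e1 := YTh_der hm hc h1 hz₁ hu
  have e2 := YTh_der hm hc h2 hz₂ hv
  have e3 := YTh_sub hc hu hv hp hq
  have e4 := (h1 z₁ hz₁ hu).2
  have e5 := (h2 z₂ hz₂ hv).2
  generalize (derivative A₁ * B₁ - A₁ * derivative B₁).eval (wp m₁ m₂ z₁) = E₁ at *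
  generalize (derivative A₂ * B₂ - A₂ * derivative B₂).eval (wp m₁ m₂ z₂) = E₂ at *
  rw [← e4, ← e5]
  generalize B₁.eval (wp m₁ m₂ z₁) = b₁ at *
  generalize B₂.eval (wp m₁ m₂ z₂) = b₂ at *
  linear_combination α * β * b₁ ^ 2 * b₂ ^ 2 * e3 -
    (β * wq c₁ c₂ (β * z₂) * b₂ ^ 2) * e1 - E₁ * wq m₁ m₂ z₁ * e2

/-- the difference at all points -/
private theorem YTh_diff (hm : Ind m₁ m₂) (hc : Ind c₁ c₂) (hα : α ≠ 0) (hβ : β ≠ 0)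
    (h1 : ∀ z, Off m₁ m₂ z → Off c₁ c₂ (α * z) → B₁.eval (wp m₁ m₂ z) ≠ 0 ∧
      wp c₁ c₂ (α * z) * B₁.eval (wp m₁ m₂ z) = A₁.eval (wp m₁ m₂ z))
    (h2 : ∀ z, Off m₁ m₂ z → Off c₁ c₂ (β * z) → B₂.eval (wp m₁ m₂ z) ≠ 0 ∧
      wp c₁ c₂ (β * z) * B₂.eval (wp m₁ m₂ z) = A₂.eval (wp m₁ m₂ z))
    {z₁ z₂ : ℂ} (hz₁ : Off m₁ m₂ z₁) (hz₂ : Off m₁ m₂ z₂)
    (hp : Off c₁ c₂ (α * z₁ + β * z₂)) (hq : Off c₁ c₂ (α * z₁ - β * z₂)) :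
    α * β * (A₁.eval (wp m₁ m₂ z₁) * B₂.eval (wp m₁ m₂ z₂) -
        A₂.eval (wp m₁ m₂ z₂) * B₁.eval (wp m₁ m₂ z₁)) ^ 2 *
        (wp c₁ c₂ (α * z₁ + β * z₂) - wp c₁ c₂ (α * z₁ - β * z₂)) +
      (derivative A₁ * B₁ - A₁ * derivative B₁).eval (wp m₁ m₂ z₁) *
        (derivative A₂ * B₂ - A₂ * derivative B₂).eval (wp m₁ m₂ z₂) *
        (wq m₁ m₂ z₁ * wq m₁ m₂ z₂) = 0 := by
  let F : ℂ → ℂ := fun s =>
    α * β * (A₁.eval (wp m₁ m₂ (z₁ + s)) * B₂.eval (wp m₁ m₂ (z₂ + s)) -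
        A₂.eval (wp m₁ m₂ (z₂ + s)) * B₁.eval (wp m₁ m₂ (z₁ + s))) ^ 2 *
        (wp c₁ c₂ (α * (z₁ + s) + β * (z₂ + s)) - wp c₁ c₂ (α * (z₁ + s) - β * (z₂ + s))) +
      (derivative A₁ * B₁ - A₁ * derivative B₁).eval (wp m₁ m₂ (z₁ + s)) *
        (derivative A₂ * B₂ - A₂ * derivative B₂).eval (wp m₁ m₂ (z₂ + s)) *
        (wq m₁ m₂ (z₁ + s) * wq m₁ m₂ (z₂ + s))
  have f1 : ContinuousAt (fun s : ℂ => z₁ + s) 0 := continuousAt_const.add continuousAt_id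
  have f2 : ContinuousAt (fun s : ℂ => z₂ + s) 0 := continuousAt_const.add continuousAt_id
  have f3 : ContinuousAt (fun s : ℂ => α * (z₁ + s)) 0 := continuousAt_const.mul f1
  have f4 : ContinuousAt (fun s : ℂ => β * (z₂ + s)) 0 := continuousAt_const.mul f2
  have f5 := f3.add f4
  have f6 := f3.sub f4
  have p1 : ContinuousAt (fun s => wp m₁ m₂ (z₁ + s)) 0 :=
    YTh_comp (hasDerivAt_wp hm hz₁).continuousAt f1 (add_zero z₁)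
  have p2 : ContinuousAt (fun s => wp m₁ m₂ (z₂ + s)) 0 :=
    YTh_comp (hasDerivAt_wp hm hz₂).continuousAt f2 (add_zero z₂)
  have q1 : ContinuousAt (fun s => wq m₁ m₂ (z₁ + s)) 0 :=
    YTh_comp (hasDerivAt_wq hm hz₁).continuousAt f1 (add_zero z₁)
  have q2 : ContinuousAt (fun s => wq m₁ m₂ (z₂ + s)) 0 :=
    YTh_comp (hasDerivAt_wq hm hz₂).continuousAt f2 (add_zero z₂)
  have r1 : ContinuousAt (fun s => wp c₁ c₂ (α * (z₁ + s) + β * (z₂ + s))) 0 :=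
    YTh_comp (hasDerivAt_wp hc hp).continuousAt f5 (by
      show α * (z₁ + 0) + β * (z₂ + 0) = _
      rw [add_zero, add_zero])
  have r2 : ContinuousAt (fun s => wp c₁ c₂ (α * (z₁ + s) - β * (z₂ + s))) 0 :=
    YTh_comp (hasDerivAt_wp hc hq).continuousAt f6 (by
      show α * (z₁ + 0) - β * (z₂ + 0) = _
      rw [add_zero, add_zero])
  have ev : ∀ (P : ℂ[X]) {g : ℂ → ℂ}, ContinuousAt g 0 → ContinuousAt (fun s => P.eval (g s)) 0 :=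
    fun P g hg => YTh_comp (g := fun y => P.eval y) P.continuous.continuousAt hg rfl
  have hF : ContinuousAt F 0 :=
    ((continuousAt_const.mul ((((ev A₁ p1).mul (ev B₂ p2)).sub
      ((ev A₂ p2).mul (ev B₁ p1))).pow 2)).mul (r1.sub r2)).add
      (((ev _ p1).mul (ev _ p2)).mul (q1.mul q2))
  have hev : ∀ᶠ s in 𝓝[≠] (0 : ℂ), F s = 0 := by
    have o1 : ∀ᶠ s in 𝓝[≠] (0 : ℂ), Off m₁ m₂ (z₁ + s) :=
      (YTh_evc hm f1 (by show Off m₁ m₂ (z₁ + 0); rwa [add_zero])).filter_mono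
        nhdsWithin_le_nhds
    have o2 : ∀ᶠ s in 𝓝[≠] (0 : ℂ), Off m₁ m₂ (z₂ + s) :=
      (YTh_evc hm f2 (by show Off m₁ m₂ (z₂ + 0); rwa [add_zero])).filter_mono
        nhdsWithin_le_nhds
    have o3 : ∀ᶠ s in 𝓝[≠] (0 : ℂ), Off c₁ c₂ (α * (z₁ + s) + β * (z₂ + s)) :=
      (YTh_evc hc f5 (by
        show Off c₁ c₂ (α * (z₁ + 0) + β * (z₂ + 0))
        rwa [add_zero, add_zero])).filter_mono nhdsWithin_le_nhds
    have o4 : ∀ᶠ s in 𝓝[≠] (0 : ℂ), Off c₁ c₂ (α * (z₁ + s) - β * (z₂ + s)) :=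
      (YTh_evc hc f6 (by
        show Off c₁ c₂ (α * (z₁ + 0) - β * (z₂ + 0))
        rwa [add_zero, add_zero])).filter_mono nhdsWithin_le_nhds
    have o5 : ∀ᶠ s in 𝓝[≠] (0 : ℂ), Off c₁ c₂ (α * (z₁ + s)) :=
      YTh_ev hc f3 (fun y hy h0 => hy (add_left_cancel (mul_left_cancel₀ hα h0)))
    have o6 : ∀ᶠ s in 𝓝[≠] (0 : ℂ), Off c₁ c₂ (β * (z₂ + s)) :=
      YTh_ev hc f4 (fun y hy h0 => hy (add_left_cancel (mul_left_cancel₀ hβ h0)))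
    filter_upwards [o1, o2, o3, o4, o5, o6] with s k1 k2 k3 k4 k5 k6
    exact YTh_diff0 hm hc h1 h2 k1 k2 k3 k4 k5 k6
  have h0 : F 0 = 0 :=
    tendsto_nhds_unique (hF.tendsto.mono_left nhdsWithin_le_nhds)
      ((tendsto_const_nhds (x := (0 : ℂ))).congr' (hev.mono fun s hs => hs.symm))
  have h3 : F 0 = α * β * (A₁.eval (wp m₁ m₂ z₁) * B₂.eval (wp m₁ m₂ z₂) -
        A₂.eval (wp m₁ m₂ z₂) * B₁.eval (wp m₁ m₂ z₁)) ^ 2 *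
        (wp c₁ c₂ (α * z₁ + β * z₂) - wp c₁ c₂ (α * z₁ - β * z₂)) +
      (derivative A₁ * B₁ - A₁ * derivative B₁).eval (wp m₁ m₂ z₁) *
        (derivative A₂ * B₂ - A₂ * derivative B₂).eval (wp m₁ m₂ z₂) *
        (wq m₁ m₂ z₁ * wq m₁ m₂ z₂) := by
    show α * β * (A₁.eval (wp m₁ m₂ (z₁ + 0)) * B₂.eval (wp m₁ m₂ (z₂ + 0)) -
        A₂.eval (wp m₁ m₂ (z₂ + 0)) * B₁.eval (wp m₁ m₂ (z₁ + 0))) ^ 2 *
        (wp c₁ c₂ (α * (z₁ + 0) + β * (z₂ + 0)) - wp c₁ c₂ (α * (z₁ + 0) - β * (z₂ + 0))) +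
      (derivative A₁ * B₁ - A₁ * derivative B₁).eval (wp m₁ m₂ (z₁ + 0)) *
        (derivative A₂ * B₂ - A₂ * derivative B₂).eval (wp m₁ m₂ (z₂ + 0)) *
        (wq m₁ m₂ (z₁ + 0) * wq m₁ m₂ (z₂ + 0)) = _
    rw [add_zero, add_zero]
  rw [← h3]
  exact h0

end main

/-- the properties of a degree which we use -/
private structure YTh_Deg (f : ℂ[X][Y] → ℕ) : Prop where
  cst : ∀ c : ℂ, f (C (C c)) = 0
  add : ∀ a b, f (a + b) ≤ max (f a) (f b)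
  sub : ∀ a b, f (a - b) ≤ max (f a) (f b)
  mul : ∀ a b, f (a * b) ≤ f a + f b

private theorem YTh_dY : YTh_Deg dY where
  cst c := by unfold dY; exact natDegree_C _
  add a b := natDegree_add_le a b
  sub a b := natDegree_sub_le a b
  mul _ _ := natDegree_mul_le

private theorem YTh_dX : YTh_Deg dX where
  cst c := by unfold dX; rw [Bivariate.swap_C_C]; exact natDegree_C _
  add a b := by unfold dX; rw [map_add]; exact natDegree_add_le _ _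
  sub a b := by unfold dX; rw [map_sub]; exact natDegree_sub_le _ _
  mul a b := by unfold dX; rw [map_mul]; exact natDegree_mul_le

private theorem YTh_Deg.add' {f : ℂ[X][Y] → ℕ} (hf : YTh_Deg f) {a b : ℂ[X][Y]} {n : ℕ}
    (ha : f a ≤ n) (hb : f b ≤ n) : f (a + b) ≤ n := (hf.add a b).trans (max_le ha hb)

private theorem YTh_Deg.sub' {f : ℂ[X][Y] → ℕ} (hf : YTh_Deg f) {a b : ℂ[X][Y]} {n : ℕ}
    (ha : f a ≤ n) (hb : f b ≤ n) : f (a - b) ≤ n := (hf.sub a b).trans (max_le ha hb)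

private theorem YTh_Deg.mul' {f : ℂ[X][Y] → ℕ} (hf : YTh_Deg f) {a b : ℂ[X][Y]} {n m : ℕ}
    (ha : f a ≤ n) (hb : f b ≤ m) : f (a * b) ≤ n + m := (hf.mul a b).trans (by omega)

private theorem YTh_Deg.cmul {f : ℂ[X][Y] → ℕ} (hf : YTh_Deg f) (c : ℂ) {a : ℂ[X][Y]} {n : ℕ}
    (ha : f a ≤ n) : f (C (C c) * a) ≤ n := by
  have h1 := hf.mul' (hf.cst c).le ha
  rwa [zero_add] at h1

/-- `W` -/
private noncomputable def YTh_W (A₁ B₁ A₂ B₂ : ℂ[X][Y]) : ℂ[X][Y] := A₁ * B₂ - A₂ * B₁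

/-- `S₀` -/
private noncomputable def YTh_S (g2 g3 : ℂ) (A₁ B₁ A₂ B₂ : ℂ[X][Y]) : ℂ[X][Y] :=
  (C (C 2) * (A₁ * A₂) - C (C (g2 / 2)) * (B₁ * B₂)) * (A₁ * B₂ + A₂ * B₁) -
    C (C g3) * ((B₁ * B₂) * (B₁ * B₂))

/-- `Π` -/
private noncomputable def YTh_Pi (g2 g3 : ℂ) (A₁ B₁ A₂ B₂ : ℂ[X][Y]) : ℂ[X][Y] :=
  (A₁ * A₂ + C (C (g2 / 4)) * (B₁ * B₂)) * (A₁ * A₂ + C (C (g2 / 4)) * (B₁ * B₂)) +
    C (C g3) * ((B₁ * B₂) * (A₁ * B₂ + A₂ * B₁))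

private theorem YTh_W_deg {f : ℂ[X][Y] → ℕ} (hf : YTh_Deg f) {A₁ B₁ A₂ B₂ : ℂ[X][Y]} {m m' : ℕ}
    (hA₁ : f A₁ ≤ m) (hB₁ : f B₁ ≤ m) (hA₂ : f A₂ ≤ m') (hB₂ : f B₂ ≤ m') :
    f (YTh_W A₁ B₁ A₂ B₂) ≤ m + m' := by
  unfold YTh_W
  refine hf.sub' (hf.mul' hA₁ hB₂) ?_
  rw [add_comm]
  exact hf.mul' hA₂ hB₁

private theorem YTh_S_deg {f : ℂ[X][Y] → ℕ} (hf : YTh_Deg f) (g2 g3 : ℂ)
    {A₁ B₁ A₂ B₂ : ℂ[X][Y]} {m m' : ℕ} (hA₁ : f A₁ ≤ m) (hB₁ : f B₁ ≤ m) (hA₂ : f A₂ ≤ m')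
    (hB₂ : f B₂ ≤ m') : f (YTh_S g2 g3 A₁ B₁ A₂ B₂) ≤ (m + m') + (m + m') := by
  have hAA := hf.mul' hA₁ hA₂
  have hBB := hf.mul' hB₁ hB₂
  have hAB : f (A₁ * B₂ + A₂ * B₁) ≤ m + m' := by
    refine hf.add' (hf.mul' hA₁ hB₂) ?_
    rw [add_comm]
    exact hf.mul' hA₂ hB₁
  unfold YTh_S
  exact hf.sub' (hf.mul' (hf.sub' (hf.cmul _ hAA) (hf.cmul _ hBB)) hAB)
    (hf.cmul _ (hf.mul' hBB hBB))

private theorem YTh_Pi_deg {f : ℂ[X][Y] → ℕ} (hf : YTh_Deg f) (g2 g3 : ℂ)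
    {A₁ B₁ A₂ B₂ : ℂ[X][Y]} {m m' : ℕ} (hA₁ : f A₁ ≤ m) (hB₁ : f B₁ ≤ m) (hA₂ : f A₂ ≤ m')
    (hB₂ : f B₂ ≤ m') : f (YTh_Pi g2 g3 A₁ B₁ A₂ B₂) ≤ (m + m') + (m + m') := by
  have hAA := hf.mul' hA₁ hA₂
  have hBB := hf.mul' hB₁ hB₂
  have hAB : f (A₁ * B₂ + A₂ * B₁) ≤ m + m' := by
    refine hf.add' (hf.mul' hA₁ hB₂) ?_
    rw [add_comm]
    exact hf.mul' hA₂ hB₁
  unfold YTh_Pi
  have h1 := hf.add' hAA (hf.cmul (g2 / 4) hBB)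
  exact hf.add' (hf.mul' h1 h1) (hf.cmul _ (hf.mul' hBB hAB))

private theorem YTh_dX_C (A : ℂ[X]) : dX (C A) ≤ A.natDegree := by
  unfold dX
  rw [Bivariate.swap_C]
  exact natDegree_map_le

private theorem YTh_dX_map (A : ℂ[X]) : dX (A.map C) = 0 := by
  unfold dX
  rw [Bivariate.swap_map_C]
  exact natDegree_C _

private theorem YTh_dY_C (A : ℂ[X]) : dY (C A) = 0 := by
  unfold dY
  exact natDegree_C _

private theorem YTh_dY_map (A : ℂ[X]) : dY (A.map C) ≤ A.natDegree := by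
  unfold dY
  exact natDegree_map_le

private theorem YTh_wr {A B : ℂ[X]} {n : ℕ} (hA : A.natDegree ≤ n) (hB : B.natDegree ≤ n) :
    (derivative A * B - A * derivative B).natDegree ≤ n + n := by
  have h1 := natDegree_derivative_le A
  have h2 := natDegree_derivative_le B
  refine (natDegree_sub_le _ _).trans (max_le ?_ ?_)
  · exact natDegree_mul_le.trans (by omega)
  · exact natDegree_mul_le.trans (by omega)

private theorem YTh_natAbs {M : ℕ} {e : ℤ} (h : |e| ≤ M) : e.natAbs ≤ M := by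
  have h1 : ((e.natAbs : ℕ) : ℤ) ≤ M := by
    rw [Int.natCast_natAbs]
    exact h
  exact_mod_cast h1

private theorem YTh_deg4 {M : ℕ} {e : ℤ} (h : |e| ≤ M) : 2 * (M * e.natAbs) ^ 2 ≤ 2 * M ^ 4 := by
  have h1 := YTh_natAbs h
  have h2 : M * e.natAbs ≤ M * M := Nat.mul_le_mul_left _ h1
  have h3 : (M * e.natAbs) ^ 2 ≤ (M * M) ^ 2 := Nat.pow_le_pow_left h2 2
  have h4 : (M * M) ^ 2 = M ^ 4 := by ring
  omega

private theorem YTh_rat {w t c₁ c₂ : ℂ} {M : ℕ} {e : ℤ} (hM : 1 ≤ M) (hI : Ind w t)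
    (hc : Ind c₁ c₂) (he : e ≠ 0) (heM : |e| ≤ M)
    (h1 : ∀ y : ℤ × ℤ, ∃ x : ℤ × ℤ, lat c₁ c₂ y = lat w t x)
    (h2 : ∀ x : ℤ × ℤ, ∃ y : ℤ × ℤ, M * lat w t x = lat c₁ c₂ y) :
    ∃ A B : ℂ[X], IsCoprime A B ∧ A ≠ 0 ∧ B ≠ 0 ∧ A.natDegree ≤ 2 * M ^ 4 ∧
      B.natDegree ≤ 2 * M ^ 4 ∧
      (∀ z, Off (M * w) (M * t) z → Off c₁ c₂ ((e : ℂ) * z) →
        B.eval (wp (M * w) (M * t) z) ≠ 0 ∧
        wp c₁ c₂ ((e : ℂ) * z) * B.eval (wp (M * w) (M * t) z) =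
          A.eval (wp (M * w) (M * t) z)) ∧
      ∀ z, Off (M * w) (M * t) z → ¬ Off c₁ c₂ ((e : ℂ) * z) →
        B.eval (wp (M * w) (M * t) z) = 0 := by
  have hM0 : (M : ℂ) ≠ 0 := Nat.cast_ne_zero.2 (by omega)
  have he0 : (e : ℂ) ≠ 0 := Int.cast_ne_zero.2 he
  obtain ⟨A, B, hcop, hA0, hB0, hA, hB, k1, k2⟩ := exists_rat (YTh_ind_smul hM0 hI) hc he0
    (N := M * e.natAbs) (Nat.mul_pos (by omega) (Int.natAbs_pos.2 he)) (by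
      intro x
      obtain ⟨y, hy⟩ := h2 (e * x.1, e * x.2)
      refine ⟨y, ?_⟩
      rw [← hy]
      unfold lat
      push_cast
      ring) (by
      intro y
      obtain ⟨x, hx⟩ := h1 y
      rw [hx]
      rcases Int.natAbs_eq e with he' | he'
      · refine ⟨x, ?_⟩
        have he2 : (e : ℂ) = (e.natAbs : ℂ) := by
          conv_lhs => rw [he']
          rw [Int.cast_natCast]
        rw [he2]
        unfold lat
        push_cast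
        ring
      · refine ⟨(-x.1, -x.2), ?_⟩
        have he2 : (e : ℂ) = -(e.natAbs : ℂ) := by
          conv_lhs => rw [he']
          rw [Int.cast_neg, Int.cast_natCast]
        rw [he2]
        unfold lat
        push_cast
        ring)
  exact ⟨A, B, hcop, hA0, hB0, hA.trans (YTh_deg4 heM), hB.trans (YTh_deg4 heM), k1, k2⟩

/-- a point where everything is not zero -/
private theorem YTh_point {m₁ m₂ c₁ c₂ α β : ℂ} (hc : Ind c₁ c₂) (hα : α ≠ 0) (hβ : β ≠ 0) :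
    ∃ z₁ z₂ : ℂ, Off m₁ m₂ z₁ ∧ Off m₁ m₂ z₂ ∧ Off c₁ c₂ (α * z₁ + β * z₂) ∧
      Off c₁ c₂ (α * z₁ - β * z₂) ∧ wp c₁ c₂ (α * z₁ + β * z₂) ≠ 0 ∧
      wp c₁ c₂ (α * z₁ - β * z₂) ≠ 0 := by
  obtain ⟨y₀, hy₀⟩ := IsAlgClosed.exists_pow_nat_eq (4 * (1 : ℂ) ^ 3 - G2 c₁ c₂ * 1 - G3 c₁ c₂)
    (n := 2) (by norm_num)
  obtain ⟨s, hs, hs1, -⟩ := exists_wp_eq hc hy₀
  let T : Set ℂ := wp c₁ c₂ '' ((Set.range fun x => 2 * α * lat m₁ m₂ x - s) ∪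
    Set.range fun x => s - 2 * β * lat m₁ m₂ x) ∪ {0}
  have hT : T.Countable :=
    (((Set.countable_range _).union (Set.countable_range _)).image _).union
      (Set.countable_singleton _)
  obtain ⟨y, hy⟩ : ∃ y, y ∉ T := by
    by_contra hcon
    push Not at hcon
    exact not_countable_complex (hT.mono fun y _ => hcon y)
  have hy0 : y ≠ 0 := fun h0 => hy (Or.inr h0)
  obtain ⟨q, hq⟩ := IsAlgClosed.exists_pow_nat_eq (4 * y ^ 3 - G2 c₁ c₂ * y - G3 c₁ c₂)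
    (n := 2) (by norm_num)
  obtain ⟨e, he, he1, -⟩ := exists_wp_eq hc hq
  have a1 : α * ((s + e) / (2 * α)) + β * ((s - e) / (2 * β)) = s := by
    field_simp
    ring
  have a2 : α * ((s + e) / (2 * α)) - β * ((s - e) / (2 * β)) = e := by
    field_simp
    ring
  refine ⟨(s + e) / (2 * α), (s - e) / (2 * β), ?_, ?_, ?_, ?_, ?_, ?_⟩
  · intro x hx
    apply hy
    refine Or.inl ⟨e, Or.inl ⟨x, ?_⟩, he1⟩
    show 2 * α * lat m₁ m₂ x - s = e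
    rw [← hx]
    field_simp
    ring
  · intro x hx
    apply hy
    refine Or.inl ⟨e, Or.inr ⟨x, ?_⟩, he1⟩
    show s - 2 * β * lat m₁ m₂ x = e
    rw [← hx]
    field_simp
    ring
  · rw [a1]
    exact hs
  · rw [a2]
    exact he
  · rw [a1, hs1]
    exact one_ne_zero
  · rw [a2, he1]
    exact hy0

theorem exists_th {w t c₁ c₂ : ℂ} {M : ℕ} {a b : ℤ} (hM : 1 ≤ M) (hI : Ind w t)
    (hc : Ind c₁ c₂) (ha : a ≠ 0) (hb : b ≠ 0) (haM : |a| ≤ M) (hbM : |b| ≤ M)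
    (h1 : ∀ y : ℤ × ℤ, ∃ x : ℤ × ℤ, lat c₁ c₂ y = lat w t x)
    (h2 : ∀ x : ℤ × ℤ, ∃ y : ℤ × ℤ, M * lat w t x = lat c₁ c₂ y) :
    ∃ W S D R : ℂ[X][Y], R ≠ 0 ∧ dX W ≤ 2 * M ^ 4 ∧ dY W ≤ 2 * M ^ 4 ∧ dX S ≤ 4 * M ^ 4 ∧
      dY S ≤ 4 * M ^ 4 ∧ dX D ≤ 4 * M ^ 4 ∧ dY D ≤ 4 * M ^ 4 ∧ dX R ≤ 8 * M ^ 4 ∧
      dY R ≤ 8 * M ^ 4 ∧
      ∀ z₁ z₂ : ℂ, Off (M * w) (M * t) z₁ → Off (M * w) (M * t) z₂ →
        Off c₁ c₂ (a * z₁ + b * z₂) → Off c₁ c₂ (a * z₁ - b * z₂) →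
        W.evalEval (wp (M * w) (M * t) z₁) (wp (M * w) (M * t) z₂) ≠ 0 ∧
        W.evalEval (wp (M * w) (M * t) z₁) (wp (M * w) (M * t) z₂) ^ 2 *
            wp c₁ c₂ (a * z₁ + b * z₂) =
          S.evalEval (wp (M * w) (M * t) z₁) (wp (M * w) (M * t) z₂) +
            D.evalEval (wp (M * w) (M * t) z₁) (wp (M * w) (M * t) z₂) *
              (wq (M * w) (M * t) z₁ * wq (M * w) (M * t) z₂) ∧
        W.evalEval (wp (M * w) (M * t) z₁) (wp (M * w) (M * t) z₂) ^ 2 *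
            wp c₁ c₂ (a * z₁ - b * z₂) =
          S.evalEval (wp (M * w) (M * t) z₁) (wp (M * w) (M * t) z₂) -
            D.evalEval (wp (M * w) (M * t) z₁) (wp (M * w) (M * t) z₂) *
              (wq (M * w) (M * t) z₁ * wq (M * w) (M * t) z₂) ∧
        R.evalEval (wp (M * w) (M * t) z₁) (wp (M * w) (M * t) z₂) =
          (W.evalEval (wp (M * w) (M * t) z₁) (wp (M * w) (M * t) z₂) ^ 2 *
            wp c₁ c₂ (a * z₁ + b * z₂)) *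
          (W.evalEval (wp (M * w) (M * t) z₁) (wp (M * w) (M * t) z₂) ^ 2 *
            wp c₁ c₂ (a * z₁ - b * z₂)) := by
  have hM0 : (M : ℂ) ≠ 0 := Nat.cast_ne_zero.2 (by omega)
  have ha0 : (a : ℂ) ≠ 0 := Int.cast_ne_zero.2 ha
  have hb0 : (b : ℂ) ≠ 0 := Int.cast_ne_zero.2 hb
  have hm : Ind (M * w) (M * t) := YTh_ind_smul hM0 hI
  obtain ⟨A₁, B₁, hcop₁, -, -, dA₁, dB₁, k₁, k₁'⟩ := YTh_rat hM hI hc ha haM h1 h2
  obtain ⟨A₂, B₂, hcop₂, -, -, dA₂, dB₂, k₂, k₂'⟩ := YTh_rat hM hI hc hb hbM h1 h2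
  have hcop : ∀ {A B : ℂ[X]}, IsCoprime A B → ∀ x, B.eval x = 0 → A.eval x ≠ 0 := by
    rintro A B ⟨s, t, hst⟩ x hB hA
    have h3 := congrArg (eval x) hst
    rw [eval_add, eval_mul, eval_mul, hA, hB, mul_zero, mul_zero, add_zero, eval_one] at h3
    exact zero_ne_one h3
  set W : ℂ[X][Y] := YTh_W (C A₁) (C B₁) (A₂.map C) (B₂.map C) with hW
  set S₀ : ℂ[X][Y] := YTh_S (G2 c₁ c₂) (G3 c₁ c₂) (C A₁) (C B₁) (A₂.map C) (B₂.map C) with hS₀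
  set P : ℂ[X][Y] := YTh_Pi (G2 c₁ c₂) (G3 c₁ c₂) (C A₁) (C B₁) (A₂.map C) (B₂.map C) with hP
  set E₁ : ℂ[X] := derivative A₁ * B₁ - A₁ * derivative B₁ with hE₁
  set E₂ : ℂ[X] := derivative A₂ * B₂ - A₂ * derivative B₂ with hE₂
  set D : ℂ[X][Y] := C (C (-(1 / (2 * (a : ℂ) * b)))) * (C E₁ * E₂.map C) with hD
  have eW : ∀ x y, W.evalEval x y = A₁.eval x * B₂.eval y - A₂.eval y * B₁.eval x := by
    intro x y
    rw [hW, YTh_W]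
    simp only [evalEval_sub, evalEval_mul, evalEval_C, evalEval_map_C]
  have eS : ∀ x y, S₀.evalEval x y = (2 * A₁.eval x * A₂.eval y - G2 c₁ c₂ / 2 * B₁.eval x *
      B₂.eval y) * (A₁.eval x * B₂.eval y + A₂.eval y * B₁.eval x) -
        G3 c₁ c₂ * B₁.eval x ^ 2 * B₂.eval y ^ 2 := by
    intro x y
    rw [hS₀, YTh_S]
    simp only [evalEval_sub, evalEval_add, evalEval_mul, evalEval_C, evalEval_map_C, eval_C]
    ring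
  have eP : ∀ x y, P.evalEval x y = (A₁.eval x * A₂.eval y + G2 c₁ c₂ / 4 * B₁.eval x *
      B₂.eval y) ^ 2 + G3 c₁ c₂ * B₁.eval x * B₂.eval y *
        (A₁.eval x * B₂.eval y + A₂.eval y * B₁.eval x) := by
    intro x y
    rw [hP, YTh_Pi]
    simp only [evalEval_add, evalEval_mul, evalEval_C, evalEval_map_C, eval_C]
    ring
  have eD : ∀ x y, D.evalEval x y = -(1 / (2 * a * b)) * (E₁.eval x * E₂.eval y) := by
    intro x y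
    rw [hD]
    simp only [evalEval_mul, evalEval_C, evalEval_map_C, eval_C]
  have main : ∀ z₁ z₂ : ℂ, Off (M * w) (M * t) z₁ → Off (M * w) (M * t) z₂ →
        Off c₁ c₂ (a * z₁ + b * z₂) → Off c₁ c₂ (a * z₁ - b * z₂) →
        W.evalEval (wp (M * w) (M * t) z₁) (wp (M * w) (M * t) z₂) ≠ 0 ∧
        W.evalEval (wp (M * w) (M * t) z₁) (wp (M * w) (M * t) z₂) ^ 2 *
            wp c₁ c₂ (a * z₁ + b * z₂) =
          (C (C (1 / 2)) * S₀).evalEval (wp (M * w) (M * t) z₁) (wp (M * w) (M * t) z₂) +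
            D.evalEval (wp (M * w) (M * t) z₁) (wp (M * w) (M * t) z₂) *
              (wq (M * w) (M * t) z₁ * wq (M * w) (M * t) z₂) ∧
        W.evalEval (wp (M * w) (M * t) z₁) (wp (M * w) (M * t) z₂) ^ 2 *
            wp c₁ c₂ (a * z₁ - b * z₂) =
          (C (C (1 / 2)) * S₀).evalEval (wp (M * w) (M * t) z₁) (wp (M * w) (M * t) z₂) -
            D.evalEval (wp (M * w) (M * t) z₁) (wp (M * w) (M * t) z₂) *
              (wq (M * w) (M * t) z₁ * wq (M * w) (M * t) z₂) ∧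
        (P * (W * W)).evalEval (wp (M * w) (M * t) z₁) (wp (M * w) (M * t) z₂) =
          (W.evalEval (wp (M * w) (M * t) z₁) (wp (M * w) (M * t) z₂) ^ 2 *
            wp c₁ c₂ (a * z₁ + b * z₂)) *
          (W.evalEval (wp (M * w) (M * t) z₁) (wp (M * w) (M * t) z₂) ^ 2 *
            wp c₁ c₂ (a * z₁ - b * z₂)) := by
    intro z₁ z₂ hz₁ hz₂ hp hq
    obtain ⟨t1, t2, t3⟩ := theta hc hp hq (A₁ := A₁.eval (wp (M * w) (M * t) z₁))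
      (B₁ := B₁.eval (wp (M * w) (M * t) z₁)) (A₂ := A₂.eval (wp (M * w) (M * t) z₂))
      (B₂ := B₂.eval (wp (M * w) (M * t) z₂)) (k₁ z₁ hz₁)
      (fun h4 => ⟨k₁' z₁ hz₁ h4, hcop hcop₁ _ (k₁' z₁ hz₁ h4)⟩) (k₂ z₂ hz₂)
      (fun h4 => ⟨k₂' z₂ hz₂ h4, hcop hcop₂ _ (k₂' z₂ hz₂ h4)⟩)
    have t4 := YTh_diff hm hc ha0 hb0 k₁ k₂ hz₁ hz₂ hp hq
    rw [← hE₁, ← hE₂] at t4
    simp only [evalEval_mul, evalEval_C, eval_C, eW, eS, eP, eD]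
    refine ⟨t1, ?_, ?_, ?_⟩
    · rw [← t2]
      field_simp
      linear_combination t4
    · rw [← t2]
      field_simp
      linear_combination -t4
    · rw [t3]
      ring
  have hdeg : 2 * M ^ 4 + 0 + (2 * M ^ 4 + 0) ≤ 4 * M ^ 4 := by omega
  have hdeg' : 0 + 2 * M ^ 4 + (0 + 2 * M ^ 4) ≤ 4 * M ^ 4 := by omega
  have wX : dX W ≤ 2 * M ^ 4 + 0 := YTh_W_deg YTh_dX ((YTh_dX_C _).trans dA₁)
    ((YTh_dX_C _).trans dB₁) (YTh_dX_map _).le (YTh_dX_map _).le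
  have wY : dY W ≤ 0 + 2 * M ^ 4 := YTh_W_deg YTh_dY (YTh_dY_C _).le (YTh_dY_C _).le
    ((YTh_dY_map _).trans dA₂) ((YTh_dY_map _).trans dB₂)
  have sX := YTh_S_deg YTh_dX (G2 c₁ c₂) (G3 c₁ c₂) ((YTh_dX_C _).trans dA₁)
    ((YTh_dX_C _).trans dB₁) (YTh_dX_map A₂).le (YTh_dX_map B₂).le
  have sY := YTh_S_deg YTh_dY (G2 c₁ c₂) (G3 c₁ c₂) (YTh_dY_C A₁).le (YTh_dY_C B₁).le
    ((YTh_dY_map _).trans dA₂) ((YTh_dY_map _).trans dB₂)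
  have pX := YTh_Pi_deg YTh_dX (G2 c₁ c₂) (G3 c₁ c₂) ((YTh_dX_C _).trans dA₁)
    ((YTh_dX_C _).trans dB₁) (YTh_dX_map A₂).le (YTh_dX_map B₂).le
  have pY := YTh_Pi_deg YTh_dY (G2 c₁ c₂) (G3 c₁ c₂) (YTh_dY_C A₁).le (YTh_dY_C B₁).le
    ((YTh_dY_map _).trans dA₂) ((YTh_dY_map _).trans dB₂)
  have rX := YTh_dX.mul' pX (YTh_dX.mul' wX wX)
  have rY := YTh_dY.mul' pY (YTh_dY.mul' wY wY)
  refine ⟨W, C (C (1 / 2)) * S₀, D, P * (W * W), ?_, by omega, by omega,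
    (YTh_dX.cmul _ sX).trans (by omega), (YTh_dY.cmul _ sY).trans (by omega), ?_, ?_,
    rX.trans (by omega), rY.trans (by omega), main⟩
  · intro h0
    obtain ⟨z₁, z₂, o1, o2, o3, o4, n1, n2⟩ := YTh_point (m₁ := M * w) (m₂ := M * t) hc ha0 hb0
    obtain ⟨u1, -, -, u4⟩ := main z₁ z₂ o1 o2 o3 o4
    rw [h0, evalEval_zero] at u4
    exact mul_ne_zero (mul_ne_zero (pow_ne_zero 2 u1) n1) (mul_ne_zero (pow_ne_zero 2 u1) n2)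
      u4.symm
  · have h3 := YTh_dX.mul' ((YTh_dX_C E₁).trans (YTh_wr dA₁ dB₁)) (YTh_dX_map E₂).le
    exact (YTh_dX.cmul (-(1 / (2 * (a : ℂ) * b))) h3).trans (by omega)
  · have h3 := YTh_dY.mul' (YTh_dY_C E₁).le ((YTh_dY_map E₂).trans (YTh_wr dA₂ dB₂))
    exact (YTh_dY.cmul (-(1 / (2 * (a : ℂ) * b))) h3).trans (by omega)

end Pool.Agent.LGO.F3
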