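import Mathlib
import Pool.Agent.LGO.F3.AbDef
import Pool.Agent.LGO.F3.YDef
import Pool.Agent.LGO.F3.YNorm
import Pool.Agent.LGO.F3.YTh

/-!
# LGO/F3 (zero estimate, two `y`): the polynomial `G(x₁, x₂)`, `x_i = ℘_(IΛ)(z_i)` (model: `exists_GD` in `F/ZG.lean`)

PROOF.  `exists_rat` (`β = 1`, from `I Λ` to `Λ`: `℘_Λ(z) = α(x) / γ(x)`, degrees `≤ 2 I²`).  `exists_th` for `(c₁, c₂, a, b)` and for `(d₁, d₂, a', b')` with `M = I` (`I Λ ⊆ N Λ ⊆ Λ_v`,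
`I Λ ⊆ N' Λ ⊆ Λ_v'` because `N ∣ I`, `N' ∣ I` (`N' = d n`, `d ∣ N`); `|a| ≤ N ≤ I`): `W, S, D, R₀` and `W', S', D', R₀'`.  `Q = F(X) F(Y)`, `F = 4 X³ - G2 X - G3` (invariants of `I Λ`), `s = ℘'(z₁) ℘'(z₂)`,
`s² = Q(x₁, x₂)` (`ode`).  At `z` with `z, (z₁, - z₂) ∈ Gen2`: `θ_± = W² ℘_v(a z₁ ± b z₂) = S ± D s`, and `℘'(- z₂) = - ℘'(z₂)`, `x(- z₂) = x(z₂)`.  `c_kl = ∑_ij p_ijkl γ(X)^i α(X)^(L₁-1-i) γ(Y)^j α(Y)^(L₂-1-j)`.
`exists_norm2` with `V = W²`, `V' = W'²`, `D₁ = 2 I² (L₁ - 1)`, `e₁ = 4 I⁴ + 2`: `A + B s = θ_+^(K-1) θ'_+^(K'-1) α(x₁)^(L₁-1) α(x₂)^(L₂-1) f(z)` (with `y = 1/℘_v`, `W^(2k) θ^(K-1-k) = θ^(K-1) y^k`), and `A - B s` is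
the same for `(z₁, - z₂)`.  So `eq` with `R = R₀^(K-1) R₀'^(K'-1)`.
`bd`: near `z` (`z₁, z₂` off `I Λ`) `x₁, x₂, s` are bounded, so `A - B s`, `θ_+`, `θ'_+`, `α` are bounded and `G = (A + B s) (A - B s)`: the equation `A + B s = θ_+^(K-1) .. f(z)` holds at
the points of `Gen2` with `(z₁, - z₂) ∈ Gen2`, which are dense in `Gen2`, and both sides are continuous on `Gen2` (`an_FF2`; `θ_+ = S + D s` is continuous).
Degrees: `dX G ≤ 2 (2 I² (L₁ - 1) + (K - 1) (4 I⁴ + 2) + (K' - 1) (4 I⁴ + 2)) ≤ 4 I² L₁ + 24 I⁵`, `dX R ≤ 8 I⁴ (K - 1) + 8 I⁴ (K' - 1) ≤ 16 I⁵`.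
-/

namespace Pool.Agent.LGO.F3

open Polynomial Pool.Agent.EllSch Pool.Agent.LGO.Mul Pool.Agent.LGO.F Filter Topology Asymptotics
open scoped Polynomial.Bivariate

variable {w τ c₁ c₂ d₁ d₂ : ℂ} {N N' d n I : ℕ} {a b a' b' : ℤ}

/-- the properties of a degree which we use -/
private structure YG_Deg (f : ℂ[X][Y] → ℕ) : Prop where
  cst : ∀ c : ℂ, f (C (C c)) = 0
  add : ∀ a b, f (a + b) ≤ max (f a) (f b)
  sub : ∀ a b, f (a - b) ≤ max (f a) (f b)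
  mul : ∀ a b, f (a * b) ≤ f a + f b

private theorem YG_dY : YG_Deg dY where
  cst c := by unfold dY; exact natDegree_C _
  add a b := natDegree_add_le a b
  sub a b := natDegree_sub_le a b
  mul _ _ := natDegree_mul_le

private theorem YG_dX : YG_Deg dX where
  cst c := by unfold dX; rw [Bivariate.swap_C_C]; exact natDegree_C _
  add a b := by unfold dX; rw [map_add]; exact natDegree_add_le _ _
  sub a b := by unfold dX; rw [map_sub]; exact natDegree_sub_le _ _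
  mul a b := by unfold dX; rw [map_mul]; exact natDegree_mul_le

private theorem YG_Deg.add' {f : ℂ[X][Y] → ℕ} (hf : YG_Deg f) {a b : ℂ[X][Y]} {n : ℕ}
    (ha : f a ≤ n) (hb : f b ≤ n) : f (a + b) ≤ n := (hf.add a b).trans (max_le ha hb)

private theorem YG_Deg.sub' {f : ℂ[X][Y] → ℕ} (hf : YG_Deg f) {a b : ℂ[X][Y]} {n : ℕ}
    (ha : f a ≤ n) (hb : f b ≤ n) : f (a - b) ≤ n := (hf.sub a b).trans (max_le ha hb)

private theorem YG_Deg.mul' {f : ℂ[X][Y] → ℕ} (hf : YG_Deg f) {a b : ℂ[X][Y]} {n m : ℕ}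
    (ha : f a ≤ n) (hb : f b ≤ m) : f (a * b) ≤ n + m := (hf.mul a b).trans (by omega)

private theorem YG_Deg.cmul {f : ℂ[X][Y] → ℕ} (hf : YG_Deg f) (c : ℂ) {a : ℂ[X][Y]} {n : ℕ}
    (ha : f a ≤ n) : f (C (C c) * a) ≤ n := by
  have h1 := hf.mul' (hf.cst c).le ha
  rwa [zero_add] at h1

private theorem YG_Deg.one {f : ℂ[X][Y] → ℕ} (hf : YG_Deg f) : f 1 = 0 := by
  have h1 := hf.cst 1
  rwa [C_1, C_1] at h1

private theorem YG_Deg.zero {f : ℂ[X][Y] → ℕ} (hf : YG_Deg f) : f 0 = 0 := by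
  have h1 := hf.cst 0
  rwa [C_0, C_0] at h1

private theorem YG_Deg.pow {f : ℂ[X][Y] → ℕ} (hf : YG_Deg f) {a : ℂ[X][Y]} {n : ℕ}
    (ha : f a ≤ n) (k : ℕ) : f (a ^ k) ≤ k * n := by
  induction k with
  | zero => rw [pow_zero, hf.one]; exact Nat.zero_le _
  | succ k ih =>
    rw [pow_succ, Nat.succ_mul]
    exact hf.mul' ih ha

private theorem YG_Deg.sum {f : ℂ[X][Y] → ℕ} (hf : YG_Deg f) {s : Finset ℕ} {g : ℕ → ℂ[X][Y]}
    {n : ℕ} (h : ∀ i ∈ s, f (g i) ≤ n) : f (∑ i ∈ s, g i) ≤ n := by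
  induction s using Finset.induction_on with
  | empty => rw [Finset.sum_empty, hf.zero]; exact Nat.zero_le _
  | insert i s hi ih =>
    rw [Finset.sum_insert hi]
    exact hf.add' (h i (Finset.mem_insert_self i s))
      (ih fun j hj => h j (Finset.mem_insert_of_mem hj))

/-- the coefficients -/
private noncomputable def YG_c (γX αX γY αY : ℂ[X][Y]) (L₁ L₂ : ℕ) (p : ℕ → ℕ → ℕ → ℂ) (k : ℕ) :
    ℂ[X][Y] :=
  ∑ i ∈ Finset.range L₁, ∑ j ∈ Finset.range L₂,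
    C (C (p i j k)) * ((γX ^ i * αX ^ (L₁ - 1 - i)) * (γY ^ j * αY ^ (L₂ - 1 - j)))

private theorem YG_c_deg {f : ℂ[X][Y] → ℕ} (hf : YG_Deg f) {γX αX γY αY : ℂ[X][Y]} {n n' : ℕ}
    (h1 : f γX ≤ n) (h2 : f αX ≤ n) (h3 : f γY ≤ n') (h4 : f αY ≤ n') (L₁ L₂ : ℕ)
    (p : ℕ → ℕ → ℕ → ℂ) (k : ℕ) :
    f (YG_c γX αX γY αY L₁ L₂ p k) ≤ (L₁ - 1) * n + (L₂ - 1) * n' := by
  unfold YG_c
  refine hf.sum fun i hi => hf.sum fun j hj => hf.cmul _ ?_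
  rw [Finset.mem_range] at hi hj
  refine hf.mul' ?_ ?_
  · have e : i * n + (L₁ - 1 - i) * n = (L₁ - 1) * n := by
      rw [← Nat.add_mul]
      congr 1
      omega
    rw [← e]
    exact hf.mul' (hf.pow h1 i) (hf.pow h2 _)
  · have e : j * n' + (L₂ - 1 - j) * n' = (L₂ - 1) * n' := by
      rw [← Nat.add_mul]
      congr 1
      omega
    rw [← e]
    exact hf.mul' (hf.pow h3 j) (hf.pow h4 _)

private theorem YG_dX_C (A : ℂ[X]) : dX (C A) ≤ A.natDegree := by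
  unfold dX
  rw [Bivariate.swap_C]
  exact natDegree_map_le

private theorem YG_dX_map (A : ℂ[X]) : dX (A.map C) = 0 := by
  unfold dX
  rw [Bivariate.swap_map_C]
  exact natDegree_C _

private theorem YG_dY_C (A : ℂ[X]) : dY (C A) = 0 := by
  unfold dY
  exact natDegree_C _

private theorem YG_dY_map (A : ℂ[X]) : dY (A.map C) ≤ A.natDegree := by
  unfold dY
  exact natDegree_map_le

/-- the sum for one root -/
private theorem YG_sum {W σ : ℂ} (hσ : σ ≠ 0) {αx αy γx γy : ℂ} {u v : ℂ}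
    (hγx : γx = αx * u) (hγy : γy = αy * v) (L₁ L₂ K : ℕ) (p : ℕ → ℕ → ℕ → ℂ) :
    ∑ k ∈ Finset.range K, (∑ i ∈ Finset.range L₁, ∑ j ∈ Finset.range L₂,
      p i j k * ((γx ^ i * αx ^ (L₁ - 1 - i)) * (γy ^ j * αy ^ (L₂ - 1 - j)))) * (W ^ 2) ^ k *
        (W ^ 2 * σ) ^ (K - 1 - k) =
      (W ^ 2 * σ) ^ (K - 1) * αx ^ (L₁ - 1) * αy ^ (L₂ - 1) *
        ∑ i ∈ Finset.range L₁, ∑ j ∈ Finset.range L₂, ∑ k ∈ Finset.range K,
          p i j k * u ^ i * v ^ j * (σ⁻¹) ^ k := by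
  have e1 : ∑ i ∈ Finset.range L₁, ∑ j ∈ Finset.range L₂, ∑ k ∈ Finset.range K,
      p i j k * u ^ i * v ^ j * (σ⁻¹) ^ k = ∑ k ∈ Finset.range K, ∑ i ∈ Finset.range L₁,
        ∑ j ∈ Finset.range L₂, p i j k * u ^ i * v ^ j * (σ⁻¹) ^ k := by
    rw [Finset.sum_comm]
    have e2 : ∀ j ∈ Finset.range L₂, ∑ i ∈ Finset.range L₁, ∑ k ∈ Finset.range K,
        p i j k * u ^ i * v ^ j * (σ⁻¹) ^ k = ∑ k ∈ Finset.range K, ∑ i ∈ Finset.range L₁,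
          p i j k * u ^ i * v ^ j * (σ⁻¹) ^ k := fun j _ => Finset.sum_comm
    rw [Finset.sum_congr rfl e2, Finset.sum_comm]
    exact Finset.sum_congr rfl fun k _ => Finset.sum_comm
  rw [e1, Finset.mul_sum]
  refine Finset.sum_congr rfl fun k hk => ?_
  rw [Finset.mem_range] at hk
  have hθ : (W ^ 2 * σ) ^ (K - 1) = (W ^ 2 * σ) ^ (K - 1 - k) * (W ^ 2 * σ) ^ k := by
    rw [← pow_add]
    congr 1
    omega
  have hσk : (W ^ 2 * σ) ^ k * (σ⁻¹) ^ k = (W ^ 2) ^ k := by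
    rw [← mul_pow, mul_assoc, mul_inv_cancel₀ hσ, mul_one]
  rw [Finset.sum_mul, Finset.sum_mul, Finset.mul_sum]
  refine Finset.sum_congr rfl fun i hi => ?_
  rw [Finset.sum_mul, Finset.sum_mul, Finset.mul_sum]
  refine Finset.sum_congr rfl fun j hj => ?_
  rw [Finset.mem_range] at hi hj
  have hx : γx ^ i * αx ^ (L₁ - 1 - i) = αx ^ (L₁ - 1) * u ^ i := by
    rw [hγx, mul_pow]
    have : αx ^ (L₁ - 1) = αx ^ i * αx ^ (L₁ - 1 - i) := by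
      rw [← pow_add]
      congr 1
      omega
    rw [this]
    ring
  have hy : γy ^ j * αy ^ (L₂ - 1 - j) = αy ^ (L₂ - 1) * v ^ j := by
    rw [hγy, mul_pow]
    have : αy ^ (L₂ - 1) = αy ^ j * αy ^ (L₂ - 1 - j) := by
      rw [← pow_add]
      congr 1
      omega
    rw [this]
    ring
  rw [hx, hy, hθ, ← hσk]
  ring

private theorem YG_cont (P : ℂ[X][Y]) {f g : ℂ × ℂ → ℂ} {z : ℂ × ℂ} (hf : ContinuousAt f z)
    (hg : ContinuousAt g z) : ContinuousAt (fun y => P.evalEval (f y) (g y)) z := by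
  have h1 : ∀ (x y : ℂ), P.evalEval x y = ∑ k ∈ Finset.range (P.natDegree + 1),
      (P.coeff k).eval x * y ^ k := by
    intro x y
    unfold evalEval
    rw [eval_eq_sum_range (p := P) (x := C y), eval_finsetSum]
    refine Finset.sum_congr rfl fun k _ => ?_
    rw [eval_mul, eval_pow, eval_C]
  have h2 : (fun y => P.evalEval (f y) (g y)) = fun y => ∑ k ∈ Finset.range (P.natDegree + 1),
      (P.coeff k).eval (f y) * g y ^ k := funext fun y => h1 _ _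
  rw [h2]
  refine tendsto_finsetSum _ fun k _ => ?_
  exact ((P.coeff k).continuous.continuousAt.comp hf).mul (hg.pow k)

/-- the reflection -/
private def YG_refl : ℂ × ℂ ≃ₜ ℂ × ℂ where
  toFun z := (z.1, -z.2)
  invFun z := (z.1, -z.2)
  left_inv z := by simp
  right_inv z := by simp
  continuous_toFun := by fun_prop
  continuous_invFun := by fun_prop


private theorem YG_dense (h : ZD2 w τ c₁ c₂ d₁ d₂ N N' d n I a b a' b') :
    Dense (Gen2 w τ c₁ c₂ d₁ d₂ a b a' b' ∩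
      {z : ℂ × ℂ | (z.1, -z.2) ∈ Gen2 w τ c₁ c₂ d₁ d₂ a b a' b'}) := by
  have h1 : {z : ℂ × ℂ | (z.1, -z.2) ∈ Gen2 w τ c₁ c₂ d₁ d₂ a b a' b'} =
      YG_refl ⁻¹' (Gen2 w τ c₁ c₂ d₁ d₂ a b a' b') := rfl
  rw [h1]
  refine (gen2_dense h).inter_of_isOpen_left ?_ (gen2_open h)
  exact (gen2_dense h).preimage YG_refl.isOpenMap

/-- the sum for the two roots -/
private theorem YG_sum2 {V σ V' σ' : ℂ} {W : ℂ} (hVW : V = W ^ 2) (hσ : σ ≠ 0) (hσ' : σ' ≠ 0)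
    {αx αy γx γy : ℂ} {u v : ℂ} (hγx : γx = αx * u) (hγy : γy = αy * v) (L₁ L₂ K K' : ℕ)
    (p : ℕ → ℕ → ℕ → ℕ → ℂ) :
    ∑ k ∈ Finset.range K, ∑ l ∈ Finset.range K', (∑ i ∈ Finset.range L₁,
      ∑ j ∈ Finset.range L₂,
      p i j k l * ((γx ^ i * αx ^ (L₁ - 1 - i)) * (γy ^ j * αy ^ (L₂ - 1 - j)))) *
        (V ^ k * (V * σ) ^ (K - 1 - k)) * (V' ^ l * (V' * σ') ^ (K' - 1 - l)) =
      (V * σ) ^ (K - 1) * (V' * σ') ^ (K' - 1) * αx ^ (L₁ - 1) * αy ^ (L₂ - 1) *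
        ∑ l ∈ Finset.range K', (∑ i ∈ Finset.range L₁, ∑ j ∈ Finset.range L₂,
          ∑ k ∈ Finset.range K, p i j k l * u ^ i * v ^ j * (σ⁻¹) ^ k) * (σ'⁻¹) ^ l := by
  subst hVW
  rw [Finset.sum_comm, Finset.mul_sum]
  refine Finset.sum_congr rfl fun l hl => ?_
  rw [Finset.mem_range] at hl
  rw [← Finset.sum_mul]
  have h1 := YG_sum (W := W) hσ hγx hγy L₁ L₂ K (fun i j k => p i j k l)
  have h2 : ∑ k ∈ Finset.range K, (∑ i ∈ Finset.range L₁, ∑ j ∈ Finset.range L₂,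
      p i j k l * ((γx ^ i * αx ^ (L₁ - 1 - i)) * (γy ^ j * αy ^ (L₂ - 1 - j)))) *
        ((W ^ 2) ^ k * (W ^ 2 * σ) ^ (K - 1 - k)) =
      ∑ k ∈ Finset.range K, (∑ i ∈ Finset.range L₁, ∑ j ∈ Finset.range L₂,
      p i j k l * ((γx ^ i * αx ^ (L₁ - 1 - i)) * (γy ^ j * αy ^ (L₂ - 1 - j)))) *
        (W ^ 2) ^ k * (W ^ 2 * σ) ^ (K - 1 - k) :=
    Finset.sum_congr rfl fun k _ => by ring
  rw [h2, h1]
  have h3 : V' ^ l * (V' * σ') ^ (K' - 1 - l) = (V' * σ') ^ (K' - 1) * (σ'⁻¹) ^ l := by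
    have e1 : (V' * σ') ^ (K' - 1) = (V' * σ') ^ (K' - 1 - l) * (V' * σ') ^ l := by
      rw [← pow_add]
      congr 1
      omega
    have e2 : (V' * σ') ^ l * (σ'⁻¹) ^ l = V' ^ l := by
      rw [← mul_pow, mul_assoc, mul_inv_cancel₀ hσ', mul_one]
    rw [e1, ← e2]
    ring
  rw [h3]
  ring

/-- the polynomial with `℘'(z)² = F(℘(z))` -/
private noncomputable def YG_F (g2 g3 : ℂ) : ℂ[X] := C 4 * X ^ 3 - C g2 * X - C g3

private theorem YG_F_eval (g2 g3 x : ℂ) : (YG_F g2 g3).eval x = 4 * x ^ 3 - g2 * x - g3 := by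
  unfold YG_F
  simp

private theorem YG_F_deg (g2 g3 : ℂ) : (YG_F g2 g3).natDegree ≤ 4 := by
  unfold YG_F
  refine (natDegree_sub_le _ _).trans (max_le ((natDegree_sub_le _ _).trans (max_le ?_ ?_)) ?_)
  · exact (natDegree_C_mul_X_pow_le _ _).trans (by norm_num)
  · exact ((natDegree_C_mul_le _ _).trans natDegree_X_le).trans (by norm_num)
  · rw [natDegree_C]
    norm_num

private theorem YG_arith {I K K' L : ℕ} (hI : 1 ≤ I) (hK : K ≤ I) (hK' : K' ≤ I) :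
    2 * ((L - 1) * (2 * I ^ 2) + (K - 1) * (4 * I ^ 4 + 2) + (K' - 1) * (4 * I ^ 4 + 2)) ≤
      4 * I ^ 2 * L + 64 * I ^ 5 := by
  have e1 : (L - 1) * (2 * I ^ 2) ≤ L * (2 * I ^ 2) := Nat.mul_le_mul_right _ (by omega)
  have e0 : 1 ≤ I ^ 4 := Nat.one_le_pow _ _ hI
  have e2 : (K - 1) * (4 * I ^ 4 + 2) ≤ I * (6 * I ^ 4) :=
    Nat.mul_le_mul (by omega) (by omega)
  have e3 : (K' - 1) * (4 * I ^ 4 + 2) ≤ I * (6 * I ^ 4) :=
    Nat.mul_le_mul (by omega) (by omega)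
  have e4 : I * (6 * I ^ 4) = 6 * I ^ 5 := by ring
  have e5 : L * (2 * I ^ 2) = 2 * (I ^ 2 * L) := by ring
  have e6 : 4 * I ^ 2 * L = 4 * (I ^ 2 * L) := by ring
  omega

private theorem YG_arith2 {I K K' : ℕ} (hK : K ≤ I) (hK' : K' ≤ I) :
    (K - 1) * (8 * I ^ 4) + (K' - 1) * (8 * I ^ 4) ≤ 64 * I ^ 5 := by
  have e2 : (K - 1) * (8 * I ^ 4) ≤ I * (8 * I ^ 4) := Nat.mul_le_mul_right _ (by omega)
  have e3 : (K' - 1) * (8 * I ^ 4) ≤ I * (8 * I ^ 4) := Nat.mul_le_mul_right _ (by omega)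
  have e4 : I * (8 * I ^ 4) = 8 * I ^ 5 := by ring
  omega

private theorem YG_lat1 (h : ZD w τ c₁ c₂ N a b) (y : ℤ × ℤ) :
    ∃ x : ℤ × ℤ, lat c₁ c₂ y = lat w (w * τ) x := by
  obtain ⟨k, t, ht⟩ := (h.mem (lat c₁ c₂ y)).1 ⟨y, rfl⟩
  refine ⟨(k * a + N * t.1, k * b + N * t.2), ?_⟩
  rw [ht]
  unfold lat
  push_cast
  ring

private theorem YG_lat2 (h : ZD w τ c₁ c₂ N a b) {M : ℕ} (hM : N ∣ M) (x : ℤ × ℤ) :
    ∃ y : ℤ × ℤ, M * lat w (w * τ) x = lat c₁ c₂ y := by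
  obtain ⟨q, rfl⟩ := hM
  obtain ⟨y, hy⟩ := (h.mem (((N * q : ℕ) : ℂ) * lat w (w * τ) x)).2
    ⟨0, (q * x.1, q * x.2), by
      unfold lat
      push_cast
      ring⟩
  exact ⟨y, hy⟩

/-- the values for one of the two signs -/
private theorem YG_val {α γ : ℂ[X]} (hI : ZD w τ c₁ c₂ I 1 1)
    (hα : ∀ z, Off (I * w) (I * (w * τ)) z → Off w (w * τ) (1 * z) →
      γ.eval (wp (I * w) (I * (w * τ)) z) ≠ 0 ∧
        wp w (w * τ) (1 * z) * γ.eval (wp (I * w) (I * (w * τ)) z) =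
          α.eval (wp (I * w) (I * (w * τ)) z)) {t : ℂ} (ht : Go w τ t) :
    α.eval (xx w τ I t) ≠ 0 ∧ γ.eval (xx w τ I t) = α.eval (xx w τ I t) * iu w (w * τ) t := by
  obtain ⟨h1, h2⟩ := ht
  have h3 := hα t (offN_of_off hI h1) (by rwa [one_mul])
  rw [one_mul] at h3
  have h4 : wp w (w * τ) t * γ.eval (xx w τ I t) = α.eval (xx w τ I t) := h3.2
  refine ⟨?_, ?_⟩
  · rw [← h4]
    exact mul_ne_zero h2 h3.1
  · rw [← h4, iu]
    field_simp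

theorem exists_GX2 (h : ZD2 w τ c₁ c₂ d₁ d₂ N N' d n I a b a' b') (L₁ L₂ K K' : ℕ)
    (hK : 1 ≤ K) (hKN : K ≤ N) (hK' : 1 ≤ K') (hKn : K' ≤ n) (p : ℕ → ℕ → ℕ → ℕ → ℂ) :
    ∃ (G R : ℂ[X][Y]) (α : ℂ[X]), GX w τ I (Gen2 w τ c₁ c₂ d₁ d₂ a b a' b')
      (FF2 w τ c₁ c₂ d₁ d₂ a b a' b' L₁ L₂ K K' p) L₁ L₂ (64 * I ^ 5) G R α := by
  have hN1 : 1 ≤ N := h.h.N1
  have hn1 : 1 ≤ n := hK'.trans hKn
  have hNI : N ≤ I := by
    rw [h.eI]
    exact Nat.le_mul_of_pos_right N hn1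
  have hnI : n ≤ I := by
    rw [h.eI]
    exact Nat.le_mul_of_pos_left n hN1
  have hI1 : 1 ≤ I := hN1.trans hNI
  have hdvd : N ∣ I := by
    rw [h.eI]
    exact Dvd.intro _ rfl
  have hdvd' : N' ∣ I := by
    rw [h.eI, h.eN]
    exact Nat.mul_dvd_mul_right h.dN n
  have hN'I : N' ≤ I := Nat.le_of_dvd hI1 hdvd'
  have hI := fake h.h.w0 h.h.im h.h.cm hI1
  obtain ⟨α, γ, hαγ, hα0, hγ0, hαd, hγd, hα1, hα2⟩ := exists_rat hI.indN hI.ind1 one_ne_zero hI1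
    (fun x => ⟨(I * x.1, I * x.2), by
      unfold lat
      push_cast
      ring⟩)
    (fun y => ⟨y, by
      unfold lat
      ring⟩)
  obtain ⟨W, S, D, R₀, hR₀, xW, yW, xS, yS, xD, yD, xR₀, yR₀, hth⟩ := exists_th hI1 h.h.ind1
    h.h.ind h.h.a0 h.h.b0 (h.h.aN.trans (by exact_mod_cast hNI))
    (h.h.bN.trans (by exact_mod_cast hNI)) (YG_lat1 h.h) (YG_lat2 h.h hdvd)
  obtain ⟨W', S', D', R₀', hR₀', xW', yW', xS', yS', xD', yD', xR₀', yR₀', hth'⟩ :=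
    exists_th hI1 h.h'.ind1
    h.h'.ind h.h'.a0 h.h'.b0 (h.h'.aN.trans (by exact_mod_cast hN'I))
    (h.h'.bN.trans (by exact_mod_cast hN'I)) (YG_lat1 h.h') (YG_lat2 h.h' hdvd')
  obtain ⟨g2, hg2⟩ : ∃ x, x = G2 ((I : ℂ) * w) (I * (w * τ)) := ⟨_, rfl⟩
  obtain ⟨g3, hg3⟩ : ∃ x, x = G3 ((I : ℂ) * w) (I * (w * τ)) := ⟨_, rfl⟩
  obtain ⟨Q, hQ⟩ : ∃ x : ℂ[X][Y], x = C (YG_F g2 g3) * (YG_F g2 g3).map C := ⟨_, rfl⟩
  obtain ⟨c, hc⟩ : ∃ x : ℕ → ℕ → ℂ[X][Y], x = fun k l =>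
      YG_c (C γ) (C α) (γ.map C) (α.map C) L₁ L₂ (fun i j k => p i j k l) k := ⟨_, rfl⟩
  -- degrees
  have xV : dX (W ^ 2) ≤ 4 * I ^ 4 + 2 := by
    have := YG_dX.pow xW 2
    omega
  have yV : dY (W ^ 2) ≤ 4 * I ^ 4 + 2 := by
    have := YG_dY.pow yW 2
    omega
  have xV' : dX (W' ^ 2) ≤ 4 * I ^ 4 + 2 := by
    have := YG_dX.pow xW' 2
    omega
  have yV' : dY (W' ^ 2) ≤ 4 * I ^ 4 + 2 := by
    have := YG_dY.pow yW' 2
    omega
  have xQ : dX Q ≤ 4 := by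
    have := YG_dX.mul' ((YG_dX_C (YG_F g2 g3)).trans (YG_F_deg g2 g3)) (YG_dX_map (YG_F g2 g3)).le
    rw [hQ]
    omega
  have yQ : dY Q ≤ 4 := by
    have := YG_dY.mul' (YG_dY_C (YG_F g2 g3)).le ((YG_dY_map (YG_F g2 g3)).trans (YG_F_deg g2 g3))
    rw [hQ]
    omega
  have xc : ∀ k < K, ∀ l < K', dX (c k l) ≤ (L₁ - 1) * (2 * I ^ 2) := by
    intro k _ l _
    have := YG_c_deg YG_dX (((YG_dX_C γ).trans hγd)) (((YG_dX_C α).trans hαd))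
      (YG_dX_map γ).le (YG_dX_map α).le L₁ L₂ (fun i j k => p i j k l) k
    rw [hc]
    simpa using this
  have yc : ∀ k < K, ∀ l < K', dY (c k l) ≤ (L₂ - 1) * (2 * I ^ 2) := by
    intro k _ l _
    have := YG_c_deg YG_dY (YG_dY_C γ).le (YG_dY_C α).le
      (((YG_dY_map γ).trans hγd)) (((YG_dY_map α).trans hαd)) L₁ L₂ (fun i j k => p i j k l) k
    rw [hc]
    simpa using this
  obtain ⟨A, B, G, xG, yG, hG⟩ := exists_norm2 K K' hK hK' c S D (W ^ 2) S' D' (W' ^ 2) Q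
    ((L₁ - 1) * (2 * I ^ 2)) ((L₂ - 1) * (2 * I ^ 2)) (4 * I ^ 4 + 2) (4 * I ^ 4 + 2)
    xc yc (by omega) (by omega) (by omega) (by omega) xV yV (by omega) (by omega) (by omega)
    (by omega) xV' yV' xQ yQ
  -- the function `s`
  obtain ⟨sf, hsf⟩ : ∃ f : ℂ × ℂ → ℂ, f = fun z => wq (I * w) (I * (w * τ)) z.1 *
      wq (I * w) (I * (w * τ)) z.2 := ⟨_, rfl⟩
  have hs2 : ∀ z : ℂ × ℂ, OffN w τ I z.1 → OffN w τ I z.2 →
      sf z ^ 2 = Q.evalEval (xx w τ I z.1) (xx w τ I z.2) := by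
    intro z h1 h2
    have o1 := ode hI.indN h1
    have o2 := ode hI.indN h2
    rw [hQ, evalEval_mul, evalEval_C, evalEval_map_C, YG_F_eval, YG_F_eval, hsf]
    simp only
    rw [mul_pow, o1, o2, hg2, hg3]
    rfl
  have hce : ∀ k l x y, (c k l).evalEval x y = ∑ i ∈ Finset.range L₁, ∑ j ∈ Finset.range L₂,
      p i j k l * ((γ.eval x ^ i * α.eval x ^ (L₁ - 1 - i)) *
        (γ.eval y ^ j * α.eval y ^ (L₂ - 1 - j))) := by
    intro k l x y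
    rw [hc]
    unfold YG_c
    rw [evalEval_finsetSum]
    refine Finset.sum_congr rfl fun i _ => ?_
    rw [evalEval_finsetSum]
    refine Finset.sum_congr rfl fun j _ => ?_
    simp only [evalEval_mul, evalEval_pow, evalEval_C, evalEval_map_C, eval_C]
  -- the values at a point
  have hpt : ∀ z ∈ Gen2 w τ c₁ c₂ d₁ d₂ a b a' b',
      (z.1, -z.2) ∈ Gen2 w τ c₁ c₂ d₁ d₂ a b a' b' →
      OffN w τ I z.1 ∧ OffN w τ I z.2 ∧
      α.eval (xx w τ I z.1) ≠ 0 ∧ α.eval (xx w τ I z.2) ≠ 0 ∧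
      (S.evalEval (xx w τ I z.1) (xx w τ I z.2) +
        D.evalEval (xx w τ I z.1) (xx w τ I z.2) * sf z) ≠ 0 ∧
      (S.evalEval (xx w τ I z.1) (xx w τ I z.2) +
        D.evalEval (xx w τ I z.1) (xx w τ I z.2) * (-sf z)) ≠ 0 ∧
      (S'.evalEval (xx w τ I z.1) (xx w τ I z.2) +
        D'.evalEval (xx w τ I z.1) (xx w τ I z.2) * sf z) ≠ 0 ∧
      (S'.evalEval (xx w τ I z.1) (xx w τ I z.2) +
        D'.evalEval (xx w τ I z.1) (xx w τ I z.2) * (-sf z)) ≠ 0 ∧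
      R₀.evalEval (xx w τ I z.1) (xx w τ I z.2) =
        (S.evalEval (xx w τ I z.1) (xx w τ I z.2) +
          D.evalEval (xx w τ I z.1) (xx w τ I z.2) * sf z) *
        (S.evalEval (xx w τ I z.1) (xx w τ I z.2) +
          D.evalEval (xx w τ I z.1) (xx w τ I z.2) * (-sf z)) ∧
      R₀'.evalEval (xx w τ I z.1) (xx w τ I z.2) =
        (S'.evalEval (xx w τ I z.1) (xx w τ I z.2) +
          D'.evalEval (xx w τ I z.1) (xx w τ I z.2) * sf z) *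
        (S'.evalEval (xx w τ I z.1) (xx w τ I z.2) +
          D'.evalEval (xx w τ I z.1) (xx w τ I z.2) * (-sf z)) ∧
      A.evalEval (xx w τ I z.1) (xx w τ I z.2) +
          B.evalEval (xx w τ I z.1) (xx w τ I z.2) * sf z =
        (S.evalEval (xx w τ I z.1) (xx w τ I z.2) +
          D.evalEval (xx w τ I z.1) (xx w τ I z.2) * sf z) ^ (K - 1) *
        (S'.evalEval (xx w τ I z.1) (xx w τ I z.2) +
          D'.evalEval (xx w τ I z.1) (xx w τ I z.2) * sf z) ^ (K' - 1) *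
        α.eval (xx w τ I z.1) ^ (L₁ - 1) * α.eval (xx w τ I z.2) ^ (L₂ - 1) *
        FF2 w τ c₁ c₂ d₁ d₂ a b a' b' L₁ L₂ K K' p z ∧
      A.evalEval (xx w τ I z.1) (xx w τ I z.2) +
          B.evalEval (xx w τ I z.1) (xx w τ I z.2) * (-sf z) =
        (S.evalEval (xx w τ I z.1) (xx w τ I z.2) +
          D.evalEval (xx w τ I z.1) (xx w τ I z.2) * (-sf z)) ^ (K - 1) *
        (S'.evalEval (xx w τ I z.1) (xx w τ I z.2) +
          D'.evalEval (xx w τ I z.1) (xx w τ I z.2) * (-sf z)) ^ (K' - 1) *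
        α.eval (xx w τ I z.1) ^ (L₁ - 1) * α.eval (xx w τ I z.2) ^ (L₂ - 1) *
        FF2 w τ c₁ c₂ d₁ d₂ a b a' b' L₁ L₂ K K' p (z.1, -z.2) := by
    intro z hz hz'
    obtain ⟨⟨hz1, hz2, hzp, hzp0⟩, ⟨-, -, hzp', hzp0'⟩⟩ := hz
    obtain ⟨⟨-, -, hzm, hzm0⟩, ⟨-, -, hzm', hzm0'⟩⟩ := hz'
    dsimp only at hzm hzm0 hzm' hzm0'
    rw [mul_neg, ← sub_eq_add_neg] at hzm hzm0 hzm' hzm0'
    have hO1 : OffN w τ I z.1 := offN_of_off hI hz1.1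
    have hO2 : OffN w τ I z.2 := offN_of_off hI hz2.1
    obtain ⟨hαx, hγx⟩ := YG_val hI hα1 hz1
    obtain ⟨hαy, hγy⟩ := YG_val hI hα1 hz2
    obtain ⟨t1, t2, t3, t4⟩ := hth z.1 z.2 hO1 hO2 hzp hzm
    obtain ⟨t1', t2', t3', t4'⟩ := hth' z.1 z.2 hO1 hO2 hzp' hzm'
    have hsq := hs2 z hO1 hO2
    have hse : wq (I * w) (I * (w * τ)) z.1 * wq (I * w) (I * (w * τ)) z.2 = sf z := by
      rw [hsf]
    rw [hse] at t2 t3 t2' t3'
    change W.evalEval (xx w τ I z.1) (xx w τ I z.2) ≠ 0 at t1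
    change W'.evalEval (xx w τ I z.1) (xx w τ I z.2) ≠ 0 at t1'
    change W.evalEval (xx w τ I z.1) (xx w τ I z.2) ^ 2 * wp c₁ c₂ (a * z.1 + b * z.2) =
      S.evalEval (xx w τ I z.1) (xx w τ I z.2) +
        D.evalEval (xx w τ I z.1) (xx w τ I z.2) * sf z at t2
    change W.evalEval (xx w τ I z.1) (xx w τ I z.2) ^ 2 * wp c₁ c₂ (a * z.1 - b * z.2) =
      S.evalEval (xx w τ I z.1) (xx w τ I z.2) -
        D.evalEval (xx w τ I z.1) (xx w τ I z.2) * sf z at t3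
    change W'.evalEval (xx w τ I z.1) (xx w τ I z.2) ^ 2 * wp d₁ d₂ (a' * z.1 + b' * z.2) =
      S'.evalEval (xx w τ I z.1) (xx w τ I z.2) +
        D'.evalEval (xx w τ I z.1) (xx w τ I z.2) * sf z at t2'
    change W'.evalEval (xx w τ I z.1) (xx w τ I z.2) ^ 2 * wp d₁ d₂ (a' * z.1 - b' * z.2) =
      S'.evalEval (xx w τ I z.1) (xx w τ I z.2) -
        D'.evalEval (xx w τ I z.1) (xx w τ I z.2) * sf z at t3'
    change R₀.evalEval (xx w τ I z.1) (xx w τ I z.2) =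
      (W.evalEval (xx w τ I z.1) (xx w τ I z.2) ^ 2 * wp c₁ c₂ (a * z.1 + b * z.2)) *
      (W.evalEval (xx w τ I z.1) (xx w τ I z.2) ^ 2 * wp c₁ c₂ (a * z.1 - b * z.2)) at t4
    change R₀'.evalEval (xx w τ I z.1) (xx w τ I z.2) =
      (W'.evalEval (xx w τ I z.1) (xx w τ I z.2) ^ 2 * wp d₁ d₂ (a' * z.1 + b' * z.2)) *
      (W'.evalEval (xx w τ I z.1) (xx w τ I z.2) ^ 2 * wp d₁ d₂ (a' * z.1 - b' * z.2)) at t4'
    rw [sub_eq_add_neg (S.evalEval _ _), ← mul_neg] at t3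
    rw [sub_eq_add_neg (S'.evalEval _ _), ← mul_neg] at t3'
    obtain ⟨x, hx⟩ : ∃ x, x = xx w τ I z.1 := ⟨_, rfl⟩
    obtain ⟨y, hy⟩ : ∃ y, y = xx w τ I z.2 := ⟨_, rfl⟩
    rw [← hx, ← hy] at t1 t2 t3 t4 t1' t2' t3' t4' hsq
    rw [← hx] at hαx hγx
    rw [← hy] at hαy hγy
    rw [← hx, ← hy]
    have g1 := (hG x y (sf z) hsq).1
    have g2' := (hG x y (-sf z) (by rw [neg_sq]; exact hsq)).1
    have hW2 : (W ^ 2).evalEval x y = W.evalEval x y ^ 2 := by rw [evalEval_pow]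
    have hW2' : (W' ^ 2).evalEval x y = W'.evalEval x y ^ 2 := by rw [evalEval_pow]
    refine ⟨hO1, hO2, hαx, hαy, ?_, ?_, ?_, ?_, ?_, ?_, ?_, ?_⟩
    · rw [← t2]
      exact mul_ne_zero (pow_ne_zero 2 t1) hzp0
    · rw [← t3]
      exact mul_ne_zero (pow_ne_zero 2 t1) hzm0
    · rw [← t2']
      exact mul_ne_zero (pow_ne_zero 2 t1') hzp0'
    · rw [← t3']
      exact mul_ne_zero (pow_ne_zero 2 t1') hzm0'
    · rw [t4, t2, t3]
    · rw [t4', t2', t3']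
    · rw [← g1]
      simp only [hce]
      rw [← t2, ← t2', hW2, hW2']
      rw [YG_sum2 rfl hzp0 hzp0' hγx hγy]
      rfl
    · rw [← g2']
      simp only [hce]
      rw [← t3, ← t3', hW2, hW2']
      rw [YG_sum2 rfl hzm0 hzm0' hγx hγy]
      unfold FF2 FF
      dsimp only
      rw [mul_neg, mul_neg, ← sub_eq_add_neg, ← sub_eq_add_neg, iu_neg h.h.ind1]
      rfl
  refine ⟨G, R₀ ^ (K - 1) * R₀' ^ (K' - 1), α,
    ⟨xG.trans (YG_arith hI1 (hKN.trans hNI) (hKn.trans hnI)),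
    yG.trans (YG_arith hI1 (hKN.trans hNI) (hKn.trans hnI)),
    mul_ne_zero (pow_ne_zero _ hR₀) (pow_ne_zero _ hR₀'), ?_, ?_, hα0, ?_, ?_, ?_⟩⟩
  · exact (YG_dX.mul' (YG_dX.pow xR₀ (K - 1)) (YG_dX.pow xR₀' (K' - 1))).trans
      (YG_arith2 (hKN.trans hNI) (hKn.trans hnI))
  · exact (YG_dY.mul' (YG_dY.pow yR₀ (K - 1)) (YG_dY.pow yR₀' (K' - 1))).trans
      (YG_arith2 (hKN.trans hNI) (hKn.trans hnI))
  · intro z hz
    exact ord_rat hI.indN hI.ind1 one_ne_zero hαγ hα1 hα2 hz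
  · intro z hz hz'
    obtain ⟨hO1, hO2, hαx, hαy, q1, q2, q3, q4, r1, r2, s1, s2⟩ := hpt z hz hz'
    have g1 := (hG _ _ (sf z) (hs2 z hO1 hO2)).2
    refine ⟨?_, hαx, hαy, ?_⟩
    · rw [evalEval_mul, evalEval_pow, evalEval_pow, r1, r2]
      exact mul_ne_zero (pow_ne_zero _ (mul_ne_zero q1 q2)) (pow_ne_zero _ (mul_ne_zero q3 q4))
    · rw [g1, s1, sub_eq_add_neg, ← mul_neg, s2, evalEval_mul, evalEval_pow, evalEval_pow, r1, r2,
        mul_pow, mul_pow]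
      ring
  · -- the bound
    obtain ⟨Ψ, hΨ⟩ : ∃ f : ℂ × ℂ → ℂ, f = fun z =>
        (S.evalEval (xx w τ I z.1) (xx w τ I z.2) +
          D.evalEval (xx w τ I z.1) (xx w τ I z.2) * sf z) ^ (K - 1) *
        (S'.evalEval (xx w τ I z.1) (xx w τ I z.2) +
          D'.evalEval (xx w τ I z.1) (xx w τ I z.2) * sf z) ^ (K' - 1) *
        α.eval (xx w τ I z.1) ^ (L₁ - 1) * α.eval (xx w τ I z.2) ^ (L₂ - 1) *
        (A.evalEval (xx w τ I z.1) (xx w τ I z.2) -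
          B.evalEval (xx w τ I z.1) (xx w τ I z.2) * sf z) := ⟨_, rfl⟩
    have hx1 : ∀ z : ℂ × ℂ, OffN w τ I z.1 →
        ContinuousAt (fun y : ℂ × ℂ => xx w τ I y.1) z := fun z hz =>
      ContinuousAt.comp (f := fun y : ℂ × ℂ => y.1) (g := xx w τ I) (xx_an hI hz).continuousAt
        continuousAt_fst
    have hx2 : ∀ z : ℂ × ℂ, OffN w τ I z.2 →
        ContinuousAt (fun y : ℂ × ℂ => xx w τ I y.2) z := fun z hz =>
      ContinuousAt.comp (f := fun y : ℂ × ℂ => y.2) (g := xx w τ I) (xx_an hI hz).continuousAt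
        continuousAt_snd
    have hsc : ∀ z : ℂ × ℂ, OffN w τ I z.1 → OffN w τ I z.2 → ContinuousAt sf z := by
      intro z h1 h2
      rw [hsf]
      exact (ContinuousAt.comp (f := fun y : ℂ × ℂ => y.1) (g := wq (I * w) (I * (w * τ)))
        (hasDerivAt_wq hI.indN h1).continuousAt continuousAt_fst).mul
        (ContinuousAt.comp (f := fun y : ℂ × ℂ => y.2) (g := wq (I * w) (I * (w * τ)))
        (hasDerivAt_wq hI.indN h2).continuousAt continuousAt_snd)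
    have hΨc : ∀ z : ℂ × ℂ, OffN w τ I z.1 → OffN w τ I z.2 → ContinuousAt Ψ z := by
      intro z h1 h2
      have k1 := hx1 z h1
      have k2 := hx2 z h2
      have k3 := hsc z h1 h2
      have kα1 : ContinuousAt (fun y : ℂ × ℂ => α.eval (xx w τ I y.1)) z :=
        ContinuousAt.comp (f := fun y : ℂ × ℂ => xx w τ I y.1) (g := fun t => α.eval t)
          α.continuous.continuousAt k1
      have kα2 : ContinuousAt (fun y : ℂ × ℂ => α.eval (xx w τ I y.2)) z :=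
        ContinuousAt.comp (f := fun y : ℂ × ℂ => xx w τ I y.2) (g := fun t => α.eval t)
          α.continuous.continuousAt k2
      rw [hΨ]
      exact ((((((YG_cont S k1 k2).add ((YG_cont D k1 k2).mul k3)).pow _).mul
        (((YG_cont S' k1 k2).add ((YG_cont D' k1 k2).mul k3)).pow _)).mul (kα1.pow _)).mul
        (kα2.pow _)).mul ((YG_cont A k1 k2).sub ((YG_cont B k1 k2).mul k3))
    have hkey : ∀ y ∈ Gen2 w τ c₁ c₂ d₁ d₂ a b a' b',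
        G.evalEval (xx w τ I y.1) (xx w τ I y.2) =
          Ψ y * FF2 w τ c₁ c₂ d₁ d₂ a b a' b' L₁ L₂ K K' p y := by
      intro y hy
      have hO1 : OffN w τ I y.1 := offN_of_off hI hy.1.1.1
      have hO2 : OffN w τ I y.2 := offN_of_off hI hy.1.2.1.1
      have hne : (𝓝[Gen2 w τ c₁ c₂ d₁ d₂ a b a' b' ∩
          {z : ℂ × ℂ | (z.1, -z.2) ∈ Gen2 w τ c₁ c₂ d₁ d₂ a b a' b'}] y).NeBot :=
        mem_closure_iff_nhdsWithin_neBot.1 (YG_dense h y)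
      refine tendsto_nhds_unique_of_eventuallyEq (l := 𝓝[Gen2 w τ c₁ c₂ d₁ d₂ a b a' b' ∩
          {z : ℂ × ℂ | (z.1, -z.2) ∈ Gen2 w τ c₁ c₂ d₁ d₂ a b a' b'}] y)
        ((YG_cont G (hx1 y hO1) (hx2 y hO2)).tendsto.mono_left nhdsWithin_le_nhds)
        (((hΨc y hO1 hO2).mul (an_FF2 h L₁ L₂ K K' p hy).continuousAt).tendsto.mono_left
          nhdsWithin_le_nhds) ?_
      filter_upwards [self_mem_nhdsWithin] with u hu
      obtain ⟨hu1, hu2⟩ := hu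
      obtain ⟨o1, o2, -, -, -, -, -, -, -, -, s1, -⟩ := hpt u hu1 hu2
      have g1 := (hG _ _ (sf u) (hs2 u o1 o2)).2
      change G.evalEval (xx w τ I u.1) (xx w τ I u.2) =
        Ψ u * FF2 w τ c₁ c₂ d₁ d₂ a b a' b' L₁ L₂ K K' p u
      rw [g1, s1, hΨ]
      dsimp only
      ring
    intro z hz1 hz2
    have hev : ∀ᶠ y in 𝓝 z, ‖Ψ y‖ < ‖Ψ z‖ + 1 :=
      (hΨc z hz1 hz2).norm.eventually_lt continuousAt_const (lt_add_one _)
    refine IsBigO.of_bound (‖Ψ z‖ + 1) ?_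
    rw [eventually_nhdsWithin_iff]
    filter_upwards [hev] with y hy hyG
    rw [hkey y hyG, norm_mul]
    exact mul_le_mul_of_nonneg_right hy.le (norm_nonneg _)

end Pool.Agent.LGO.F3
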