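import Mathlib
import Pool.Agent.LGO.F3.YDef
import Pool.Agent.LGO.F.ZLk

/-!
# LGO/F3 (zero estimate, two `y`): the entire numerator and the order along a line

`NN2(z) = ∑_l NN(p_··l)(z) s₄(a' z₁ + b' z₂)^l e₄(a' z₁ + b' z₂)^(K'-1-l)` (`NN` in `F/ZNum.lean`).

PROOFS.  `NN2_eq`: `NN_eq` for every `l` and `s₄ = e₄ y'` (`EN.eq_iu`).  `line_FF2`: as `line_FF` in `F/ZLk.lean`: the analogues of `ord_le₁`, `ord_le₂` for `FF2`, `NN2` (the factor is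
`e(t)^(L₁-1) e(y)^(L₂-1) e₃(a t + b y)^(K-1) e₄(a' t + b' y)^(K'-1)`, of order between `0` and `2 (L₂ - 1) + 2 (K - 1) + 2 (K' - 1)`), and `line_ent` for `F = NN2`.
-/

namespace Pool.Agent.LGO.F3

open Pool.Agent.EllSch Pool.Agent.LGO.Mul Pool.Agent.LGO.F Filter Topology Asymptotics

variable {w τ c₁ c₂ d₁ d₂ : ℂ} {N N' d n I : ℕ} {a b a' b' : ℤ} {s e s₃ e₃ s₄ e₄ : ℂ → ℂ}

/-- the numerator -/
noncomputable def NN2 (s e s₃ e₃ s₄ e₄ : ℂ → ℂ) (a b a' b' : ℤ) (L₁ L₂ K K' : ℕ)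
    (p : ℕ → ℕ → ℕ → ℕ → ℂ) (z : ℂ × ℂ) : ℂ :=
  ∑ l ∈ Finset.range K', NN s e s₃ e₃ a b L₁ L₂ K (fun i j k => p i j k l) z *
    (s₄ (a' * z.1 + b' * z.2) ^ l * e₄ (a' * z.1 + b' * z.2) ^ (K' - 1 - l))

theorem NN2_diff (hs : Differentiable ℂ s) (he : Differentiable ℂ e) (hs₃ : Differentiable ℂ s₃)
    (he₃ : Differentiable ℂ e₃) (hs₄ : Differentiable ℂ s₄) (he₄ : Differentiable ℂ e₄)
    (L₁ L₂ K K' : ℕ) (p : ℕ → ℕ → ℕ → ℕ → ℂ) :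
    Differentiable ℂ (NN2 s e s₃ e₃ s₄ e₄ a b a' b' L₁ L₂ K K' p) := by
  have hf : Differentiable ℂ fun z : ℂ × ℂ => (a' : ℂ) * z.1 + (b' : ℂ) * z.2 := by fun_prop
  have h5 : Differentiable ℂ fun z : ℂ × ℂ => s₄ ((a' : ℂ) * z.1 + (b' : ℂ) * z.2) := hs₄.comp hf
  have h6 : Differentiable ℂ fun z : ℂ × ℂ => e₄ ((a' : ℂ) * z.1 + (b' : ℂ) * z.2) := he₄.comp hf
  unfold NN2
  refine Differentiable.fun_sum fun l _ => ?_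
  exact (NN_diff hs he hs₃ he₃ L₁ L₂ K _).mul ((h5.pow _).mul (h6.pow _))

private theorem YNum_pow {x y u : ℂ} (h : x = y * u) {i L : ℕ} (hi : i < L) :
    x ^ i * y ^ (L - 1 - i) = y ^ (L - 1) * u ^ i := by
  rw [h, mul_pow, mul_assoc, mul_comm (u ^ i), ← mul_assoc, ← pow_add,
    show i + (L - 1 - i) = L - 1 by omega]

theorem NN2_eq (h : ZD2 w τ c₁ c₂ d₁ d₂ N N' d n I a b a' b') (E : EN w (w * τ) s e)
    (E₃ : EN c₁ c₂ s₃ e₃) (E₄ : EN d₁ d₂ s₄ e₄)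
    (L₁ L₂ K K' : ℕ) (p : ℕ → ℕ → ℕ → ℕ → ℂ) {z : ℂ × ℂ} (h1 : e z.1 ≠ 0) (h2 : e z.2 ≠ 0)
    (h3 : e₃ (a * z.1 + b * z.2) ≠ 0) (h4 : e₄ (a' * z.1 + b' * z.2) ≠ 0) :
    NN2 s e s₃ e₃ s₄ e₄ a b a' b' L₁ L₂ K K' p z = e z.1 ^ (L₁ - 1) * e z.2 ^ (L₂ - 1) *
      e₃ (a * z.1 + b * z.2) ^ (K - 1) * e₄ (a' * z.1 + b' * z.2) ^ (K' - 1) *
      FF2 w τ c₁ c₂ d₁ d₂ a b a' b' L₁ L₂ K K' p z := by
  have k4 := E₄.eq_iu h.h'.ind h4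
  unfold NN2 FF2
  rw [Finset.mul_sum]
  refine Finset.sum_congr rfl fun l hl => ?_
  rw [NN_eq h.h E E₃ L₁ L₂ K _ h1 h2 h3, YNum_pow k4 (Finset.mem_range.1 hl)]
  ring

private theorem YNum_bd {f : ℂ → ℂ} {z : ℂ} (hf : AnalyticAt ℂ f z)
    (ho : meromorphicOrderAt f z ≤ 2) (m : ℕ) :
    ∃ n : ℕ, n ≤ 2 * m ∧ meromorphicOrderAt (f ^ m) z = ((n : ℤ) : WithTop ℤ) := by
  have h0 := hf.meromorphicOrderAt_nonneg
  cases h1 : meromorphicOrderAt f z with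
  | top =>
    rw [h1] at ho
    exact absurd ho (by simp [top_le_iff])
  | coe n =>
    rw [h1] at ho h0
    have h2 : n ≤ 2 := WithTop.coe_le_coe.1 (show (n : WithTop ℤ) ≤ ((2 : ℤ) : WithTop ℤ) from ho)
    have h3 : 0 ≤ n := by exact_mod_cast h0
    lift n to ℕ using h3
    refine ⟨m * n, ?_, ?_⟩
    · have h4 : n ≤ 2 := by exact_mod_cast h2
      calc m * n ≤ m * 2 := Nat.mul_le_mul_left m h4
        _ = 2 * m := Nat.mul_comm m 2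
    · rw [meromorphicOrderAt_pow hf.meromorphicAt, h1]
      push_cast
      rfl

private theorem YNum_ord {F G e₁ e₂ e₃ : ℂ → ℂ} {z c : ℂ} {m n q : ℕ} (hc : c ≠ 0)
    (hF : MeromorphicAt F z) (h₁ : AnalyticAt ℂ e₁ z) (h₂ : AnalyticAt ℂ e₂ z)
    (h₃ : AnalyticAt ℂ e₃ z)
    (o₁ : meromorphicOrderAt e₁ z ≤ 2) (o₂ : meromorphicOrderAt e₂ z ≤ 2)
    (o₃ : meromorphicOrderAt e₃ z ≤ 2)
    (n₁ : ∀ᶠ u in 𝓝[≠] z, e₁ u ≠ 0) (n₂ : ∀ᶠ u in 𝓝[≠] z, e₂ u ≠ 0)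
    (n₃ : ∀ᶠ u in 𝓝[≠] z, e₃ u ≠ 0)
    (hFG : ∀ᶠ u in 𝓝[≠] z, F u = c * e₁ u ^ m * e₂ u ^ n * e₃ u ^ q * G u) :
    meromorphicOrderAt G z ≤ meromorphicOrderAt F z ∧
      meromorphicOrderAt F z ≤ meromorphicOrderAt G z + ((2 * m + 2 * n + 2 * q : ℕ) : ℤ) := by
  have hD : MeromorphicAt (fun u => c * e₁ u ^ m * e₂ u ^ n * e₃ u ^ q) z :=
    (((analyticAt_const.mul (h₁.pow m)).mul (h₂.pow n)).mul (h₃.pow q)).meromorphicAt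
  have hG : MeromorphicAt G z := by
    refine (hF.fun_mul hD.fun_inv).congr ?_
    filter_upwards [hFG, n₁, n₂, n₃] with u h3 h4 h5 h6
    rw [h3]
    field_simp
  obtain ⟨k₁, hk₁, q₁⟩ := YNum_bd h₁ o₁ m
  obtain ⟨k₂, hk₂, q₂⟩ := YNum_bd h₂ o₂ n
  obtain ⟨k₃, hk₃, q₃⟩ := YNum_bd h₃ o₃ q
  have h6 : F =ᶠ[𝓝[≠] z] (fun _ => c) * (e₁ ^ m * (e₂ ^ n * (e₃ ^ q * G))) := by
    filter_upwards [hFG] with u h3
    rw [h3]
    simp only [Pi.mul_apply, Pi.pow_apply]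
    ring
  have hG3 : MeromorphicAt (e₃ ^ q * G) z := (h₃.pow q).meromorphicAt.mul hG
  have hG2 : MeromorphicAt (e₂ ^ n * (e₃ ^ q * G)) z := (h₂.pow n).meromorphicAt.mul hG3
  have h7 : meromorphicOrderAt F z =
      (((k₁ + k₂ + k₃ : ℕ) : ℤ) : WithTop ℤ) + meromorphicOrderAt G z := by
    rw [meromorphicOrderAt_congr h6, meromorphicOrderAt_mul_of_ne_zero analyticAt_const hc,
      meromorphicOrderAt_mul (h₁.pow m).meromorphicAt hG2,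
      meromorphicOrderAt_mul (h₂.pow n).meromorphicAt hG3,
      meromorphicOrderAt_mul (h₃.pow q).meromorphicAt hG, q₁, q₂, q₃, ← add_assoc, ← add_assoc]
    push_cast
    rfl
  rw [h7]
  constructor
  · refine le_add_of_nonneg_left ?_
    exact_mod_cast Int.natCast_nonneg (k₁ + k₂ + k₃)
  · rw [add_comm]
    refine add_le_add le_rfl ?_
    exact_mod_cast (by omega : k₁ + k₂ + k₃ ≤ 2 * m + 2 * n + 2 * q)

private theorem YNum_ne {a b : ℂ} {s e : ℂ → ℂ} (h : Ind a b) (E : EN a b s e) (z : ℂ) :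
    ∀ᶠ u in 𝓝[≠] z, e u ≠ 0 := by
  have h1 : MeromorphicAt e z := (E.de.analyticAt z).meromorphicAt
  rw [← meromorphicOrderAt_ne_top_iff_eventually_ne_zero h1]
  intro h2
  have h3 := E.order_e h z
  rw [h2] at h3
  exact absurd h3 (by simp [top_le_iff])

private theorem YNum_comp {a b c d : ℂ} {s e : ℂ → ℂ} (h : Ind a b) (E : EN a b s e) (hd : d ≠ 0)
    (z : ℂ) : AnalyticAt ℂ (fun u => e (c + d * u)) z ∧
      meromorphicOrderAt (fun u => e (c + d * u)) z ≤ 2 ∧ ∀ᶠ u in 𝓝[≠] z, e (c + d * u) ≠ 0 := by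
  have h1 : AnalyticAt ℂ (fun u => e (c + d * u)) z :=
    (E.de.comp (by fun_prop : Differentiable ℂ fun u : ℂ => c + d * u)).analyticAt z
  have h2 : AnalyticAt ℂ (fun u : ℂ => c + d * u) z := by fun_prop
  have h3 : deriv (fun u : ℂ => c + d * u) z ≠ 0 := by
    have : HasDerivAt (fun u : ℂ => c + d * u) d z := by
      have h4 := ((hasDerivAt_id z).const_mul d).const_add c
      rwa [mul_one] at h4
    rw [this.deriv]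
    exact hd
  have h5 : meromorphicOrderAt (fun u => e (c + d * u)) z ≤ 2 := by
    have h6 := meromorphicOrderAt_comp_of_deriv_ne_zero (f := e) h2 h3
    rw [show (fun u => e (c + d * u)) = e ∘ (fun u : ℂ => c + d * u) from rfl, h6]
    exact E.order_e h _
  refine ⟨h1, h5, ?_⟩
  rw [← meromorphicOrderAt_ne_top_iff_eventually_ne_zero h1.meromorphicAt]
  intro h7
  rw [h7] at h5
  exact absurd h5 (by simp [top_le_iff])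

private theorem YNum_go (E : EN w (w * τ) s e) {t : ℂ} (ht : Go w τ t) : e t ≠ 0 := by
  intro h0
  exact ht.2 ((E.e_eq_zero t).1 h0).2

private theorem YNum_ord_le₁ (h : ZD2 w τ c₁ c₂ d₁ d₂ N N' d n I a b a' b') (E : EN w (w * τ) s e)
    (E₃ : EN c₁ c₂ s₃ e₃) (E₄ : EN d₁ d₂ s₄ e₄)
    (L₁ L₂ K K' : ℕ) (p : ℕ → ℕ → ℕ → ℕ → ℂ) {t : ℂ} (ht : Go w τ t) (y : ℂ) :
    meromorphicOrderAt (fun y => FF2 w τ c₁ c₂ d₁ d₂ a b a' b' L₁ L₂ K K' p (t, y)) y ≤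
        meromorphicOrderAt (fun y => NN2 s e s₃ e₃ s₄ e₄ a b a' b' L₁ L₂ K K' p (t, y)) y ∧
      meromorphicOrderAt (fun y => NN2 s e s₃ e₃ s₄ e₄ a b a' b' L₁ L₂ K K' p (t, y)) y ≤
        meromorphicOrderAt (fun y => FF2 w τ c₁ c₂ d₁ d₂ a b a' b' L₁ L₂ K K' p (t, y)) y +
          ((2 * L₂ + 2 * K + 2 * K' : ℕ) : ℤ) := by
  have hb : (b : ℂ) ≠ 0 := by exact_mod_cast h.h.b0
  have hb' : (b' : ℂ) ≠ 0 := by exact_mod_cast h.h'.b0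
  have ht0 := YNum_go E ht
  obtain ⟨g1, g2, g3⟩ := YNum_comp (c := (a : ℂ) * t) h.h.ind E₃ hb y
  obtain ⟨f1, f2, f3⟩ := YNum_comp (c := (a' : ℂ) * t) h.h'.ind E₄ hb' y
  have hN : MeromorphicAt (fun y => NN2 s e s₃ e₃ s₄ e₄ a b a' b' L₁ L₂ K K' p (t, y)) y :=
    (((NN2_diff E.ds E.de E₃.ds E₃.de E₄.ds E₄.de L₁ L₂ K K' p).comp
      (by fun_prop : Differentiable ℂ fun y : ℂ => (t, y))).analyticAt y).meromorphicAt
  have key := YNum_ord (m := L₂ - 1) (n := K - 1) (q := K' - 1) (pow_ne_zero (L₁ - 1) ht0) hN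
    (E.de.analyticAt y) g1 f1 (E.order_e h.h.ind1 y) g2 f2 (YNum_ne h.h.ind1 E y) g3 f3 (by
      filter_upwards [YNum_ne h.h.ind1 E y, g3, f3] with u h4 h5 h6
      exact NN2_eq h E E₃ E₄ L₁ L₂ K K' p (z := (t, u)) ht0 h4 h5 h6)
  refine ⟨key.1, key.2.trans (add_le_add le_rfl ?_)⟩
  exact_mod_cast (by omega : 2 * (L₂ - 1) + 2 * (K - 1) + 2 * (K' - 1) ≤ 2 * L₂ + 2 * K + 2 * K')

private theorem YNum_ord_le₂ (h : ZD2 w τ c₁ c₂ d₁ d₂ N N' d n I a b a' b') (E : EN w (w * τ) s e)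
    (E₃ : EN c₁ c₂ s₃ e₃) (E₄ : EN d₁ d₂ s₄ e₄)
    (L₁ L₂ K K' : ℕ) (p : ℕ → ℕ → ℕ → ℕ → ℂ) {y : ℂ} (hy : Go w τ y) (t : ℂ) :
    meromorphicOrderAt (fun t => NN2 s e s₃ e₃ s₄ e₄ a b a' b' L₁ L₂ K K' p (t, y)) t ≤
      meromorphicOrderAt (fun t => FF2 w τ c₁ c₂ d₁ d₂ a b a' b' L₁ L₂ K K' p (t, y)) t +
        ((2 * L₁ + 2 * K + 2 * K' : ℕ) : ℤ) := by
  have ha : (a : ℂ) ≠ 0 := by exact_mod_cast h.h.a0
  have ha' : (a' : ℂ) ≠ 0 := by exact_mod_cast h.h'.a0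
  have hy0 := YNum_go E hy
  obtain ⟨g1, g2, g3⟩ := YNum_comp (c := (b : ℂ) * y) h.h.ind E₃ ha t
  obtain ⟨f1, f2, f3⟩ := YNum_comp (c := (b' : ℂ) * y) h.h'.ind E₄ ha' t
  have hN : MeromorphicAt (fun t => NN2 s e s₃ e₃ s₄ e₄ a b a' b' L₁ L₂ K K' p (t, y)) t :=
    (((NN2_diff E.ds E.de E₃.ds E₃.de E₄.ds E₄.de L₁ L₂ K K' p).comp
      (by fun_prop : Differentiable ℂ fun t : ℂ => (t, y))).analyticAt t).meromorphicAt
  have key := YNum_ord (m := L₁ - 1) (n := K - 1) (q := K' - 1) (pow_ne_zero (L₂ - 1) hy0) hN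
    (G := fun t => FF2 w τ c₁ c₂ d₁ d₂ a b a' b' L₁ L₂ K K' p (t, y))
    (E.de.analyticAt t) g1 f1 (E.order_e h.h.ind1 t) g2 f2 (YNum_ne h.h.ind1 E t) g3 f3 (by
      filter_upwards [YNum_ne h.h.ind1 E t, g3, f3] with u h4 h5 h6
      have h5' : e₃ ((a : ℂ) * u + (b : ℂ) * y) ≠ 0 := by
        rw [add_comm]
        exact h5
      have h6' : e₄ ((a' : ℂ) * u + (b' : ℂ) * y) ≠ 0 := by
        rw [add_comm]
        exact h6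
      have h7 := NN2_eq h E E₃ E₄ L₁ L₂ K K' p (z := (u, y)) h4 hy0 h5' h6'
      rw [h7]
      simp only
      rw [add_comm ((a : ℂ) * u), add_comm ((a' : ℂ) * u)]
      ring)
  refine key.2.trans (add_le_add le_rfl ?_)
  exact_mod_cast (by omega : 2 * (L₁ - 1) + 2 * (K - 1) + 2 * (K' - 1) ≤ 2 * L₁ + 2 * K + 2 * K')

theorem line_FF2 (h : ZD2 w τ c₁ c₂ d₁ d₂ N N' d n I a b a' b') {L₁ L₂ K K' : ℕ}
    {p : ℕ → ℕ → ℕ → ℕ → ℂ} {l μ : ℂ} {k : ℕ} {A : Set ℂ} (hA : ¬ A.Countable)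
    (hk : ∀ t ∈ A, ((k : ℤ) : WithTop ℤ) ≤
      meromorphicOrderAt (fun y => FF2 w τ c₁ c₂ d₁ d₂ a b a' b' L₁ L₂ K K' p (t, y)) (l * t + μ)) :
    (∀ t, Go w τ t → ((k : ℤ) : WithTop ℤ) ≤
      meromorphicOrderAt (fun y => FF2 w τ c₁ c₂ d₁ d₂ a b a' b' L₁ L₂ K K' p (t, y)) (l * t + μ) +
        ((2 * L₂ + 2 * K + 2 * K' : ℕ) : ℤ)) ∧
      (l ≠ 0 → ∀ t, Go w τ (l * t + μ) → ((k : ℤ) : WithTop ℤ) ≤
        meromorphicOrderAt (fun r => FF2 w τ c₁ c₂ d₁ d₂ a b a' b' L₁ L₂ K K' p (r, l * t + μ)) t +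
          ((2 * L₁ + 2 * K + 2 * K' : ℕ) : ℤ)) := by
  obtain ⟨s, e, E⟩ := exists_en h.h.ind1
  obtain ⟨s₃, e₃, E₃⟩ := exists_en h.h.ind
  obtain ⟨s₄, e₄, E₄⟩ := exists_en h.h'.ind
  have hN : Differentiable ℂ (NN2 s e s₃ e₃ s₄ e₄ a b a' b' L₁ L₂ K K' p) :=
    NN2_diff E.ds E.de E₃.ds E₃.de E₄.ds E₄.de L₁ L₂ K K' p
  have hA' : ¬ (A ∩ {t | Go w τ t}).Countable := by
    intro hc
    apply hA
    refine (hc.union (go_countable h.h)).mono fun t ht => ?_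
    by_cases hg : Go w τ t
    · exact Or.inl ⟨ht, hg⟩
    · exact Or.inr hg
  obtain ⟨h1, h2⟩ := line_ent hN hA' (l := l) (μ := μ) (k := k) (fun t ht =>
    (hk t ht.1).trans (YNum_ord_le₁ h E E₃ E₄ L₁ L₂ K K' p ht.2 _).1)
  exact ⟨fun t ht => (h1 t).trans (YNum_ord_le₁ h E E₃ E₄ L₁ L₂ K K' p ht _).2,
    fun hl t ht => (h2 hl t).trans (YNum_ord_le₂ h E E₃ E₄ L₁ L₂ K K' p ht _)⟩

end Pool.Agent.LGO.F3
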