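import Mathlib
import Pool.Agent.LGO.F3.AbDef
import Pool.Agent.LGO.F3.YNum
import Pool.Agent.LGO.F.ZNe

/-!
# LGO/F3 (zero estimate, two `y`): `FF2` and `G` are not identically zero (model: `F/ZNe.lean`)

PROOF of `exists_cosets2`.  `Δ = a b' - b a'`.  By `mx`, `dd`, `dN`, `eN` the integers `N, N', Δ` have the greatest common divisor `d`: `d = x Δ + y N + z N'`.  `r a' + s b' + t N' = 1`.
`κ₀ = r' w + s' (w τ)` with `a' s' - b' r'` prime to `N'` (see the proof of `exists_cosets` in `F/ZNe.lean`): `m κ₀ ∈ Λ_v'` iff `N' ∣ m`.  `h₀ = (- x b κ₀ + y N r κ₀, x a κ₀ + y N s κ₀)`: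
`a h₀₁ + b h₀₂ = y N (a r + b s) κ₀ ∈ N Λ ⊆ Λ_v`, so `h₀ ∈ Gam`(first data), and `a' h₀₁ + b' h₀₂ = x Δ κ₀ + y N (a' r + b' s) κ₀ = x Δ κ₀ + y N κ₀ - y N t N' κ₀`, which is `d κ₀` modulo
`N' Λ ⊆ Λ_v'`.  `g m = m h₀`: for `m ≠ m' < n` the difference is `(m - m') d κ₀` modulo `Λ_v'`, not in `Λ_v'` because `N' = d n` does not divide `(m - m') d`.
PROOF of `FF2_ne`.  As `FF_ne`: if `FF2 = 0` on `O ∩ Gen2` then `NN2 = 0` everywhere (identity theorem), so `FF2 = 0` on `Gen2`.  Translate by the `g m` (`FF_add` for the first data: the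
coefficients `C_l(z) = FF(p_··l)(z)` do not change) : `∑_(l < K') C_l(z) y'(ζ' + η_m)^l = 0`, `ζ' = a' z₁ + b' z₂`, for `m < n`: `K' ≤ n` and the `n` values `y'(ζ' + η_m)` are different for `ζ'` outside a
countable set, so `C_l(z) = 0` for all `z` in an open dense set minus .. (for all `z₁` outside a countable set, all `z₂` outside a countable set); `FF_ne` for the first data (with
`p_··l`, some `l` with `p_··l ≠ 0`; the set where `C_l ≠ 0` is open and not empty, it contains points with `z₁, z₂` outside countable sets) gives a contradiction.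
`G2_ne`: as `G_ne` (`gen2_open`, `gen2_dense`, `an_FF2`, `GX.eq`).
-/

namespace Pool.Agent.LGO.F3

open Polynomial Pool.Agent.EllSch Pool.Agent.LGO.Mul Pool.Agent.LGO.F Filter Topology Asymptotics
open scoped Polynomial.Bivariate

variable {w τ c₁ c₂ d₁ d₂ : ℂ} {N N' d n I : ℕ} {a b a' b' : ℤ}

private theorem YNe_ind (h : ZD w τ c₁ c₂ N a b) {m n : ℤ}
    (e : (m : ℂ) * w + (n : ℂ) * (w * τ) = 0) : m = 0 ∧ n = 0 := by
  have h1 : (m : ℂ) + n * τ = 0 := by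
    have h2 : w * ((m : ℂ) + n * τ) = 0 := by linear_combination e
    exact (mul_eq_zero.1 h2).resolve_left h.w0
  have h2 := congrArg Complex.im h1
  rw [Complex.add_im, Complex.intCast_im, zero_add, ← Complex.ofReal_intCast, Complex.im_ofReal_mul,
    Complex.zero_im] at h2
  have h3 : (n : ℝ) = 0 := (mul_eq_zero.1 h2).resolve_right h.im.ne'
  have h4 : n = 0 := by exact_mod_cast h3
  rw [h4] at h1
  refine ⟨?_, h4⟩
  have h5 : (m : ℂ) = 0 := by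
    rw [Int.cast_zero, zero_mul, add_zero] at h1
    exact h1
  exact_mod_cast h5

/-- the periods of `y` represent `n` classes of `Λ / Λ_v'` -/
theorem exists_cosets2 (h : ZD2 w τ c₁ c₂ d₁ d₂ N N' d n I a b a' b') : ∃ g : ℕ → ℂ × ℂ,
    (∀ m, Gam w τ c₁ c₂ a b (g m)) ∧
    ∀ m < n, ∀ m' < n, m ≠ m' →
      ∀ x, (a' * (g m).1 + b' * (g m).2) - (a' * (g m').1 + b' * (g m').2) ≠ lat d₁ d₂ x := by
  obtain ⟨x, y, z, hd⟩ : ∃ x y z : ℤ, (d : ℤ) = x * (a * b' - b * a') + y * N + z * N' := by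
    have h1 := Int.gcd_eq_gcd_ab (N : ℤ) (N' : ℤ)
    have h2 := Int.gcd_eq_gcd_ab (Int.gcd (N : ℤ) (N' : ℤ) : ℤ) (a * b' - b * a')
    have h3 : Int.gcd (Int.gcd (N : ℤ) (N' : ℤ) : ℤ) (a * b' - b * a') ∣ d := by
      refine h.mx _ ?_ ?_ ?_
      · exact Int.natCast_dvd_natCast.1 ((Int.gcd_dvd_left _ _).trans (Int.gcd_dvd_left _ _))
      · exact Int.natCast_dvd_natCast.1 ((Int.gcd_dvd_left _ _).trans (Int.gcd_dvd_right _ _))
      · exact Int.gcd_dvd_right _ _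
    obtain ⟨q, hq⟩ := h3
    have h4 : (d : ℤ) = (Int.gcd (Int.gcd (N : ℤ) (N' : ℤ) : ℤ) (a * b' - b * a') : ℤ) * q := by
      exact_mod_cast hq
    generalize Int.gcdA (Int.gcd (N : ℤ) (N' : ℤ) : ℤ) (a * b' - b * a') = u3 at h2
    generalize Int.gcdB (Int.gcd (N : ℤ) (N' : ℤ) : ℤ) (a * b' - b * a') = u4 at h2
    rw [h2] at h4
    generalize (Int.gcd (N : ℤ) (N' : ℤ) : ℤ) = g1 at h1 h4
    refine ⟨q * u4, q * u3 * Int.gcdA (N : ℤ) (N' : ℤ), q * u3 * Int.gcdB (N : ℤ) (N' : ℤ), ?_⟩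
    rw [h4]
    linear_combination q * u3 * h1
  obtain ⟨r, s, t, ht⟩ : ∃ r s t : ℤ, r * a' + s * b' + t * N' = 1 := by
    have h1 : IsCoprime (N' : ℤ) (Int.gcd a' b' : ℤ) := by
      rw [Int.isCoprime_iff_gcd_eq_one]
      have h1 : ((Int.gcd (N' : ℤ) (Int.gcd a' b' : ℤ) : ℕ) : ℤ) ∣ (Int.gcd a' b' : ℤ) :=
        Int.gcd_dvd_right _ _
      have h2 := h.h'.cop _ (h1.trans (Int.gcd_dvd_left _ _)) (h1.trans (Int.gcd_dvd_right _ _))
        (Int.gcd_dvd_left _ _)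
      exact Int.ofNat_isUnit.1 h2 |> Nat.isUnit_iff.1
    obtain ⟨u, v, huv⟩ := h1
    have h2 := Int.gcd_eq_gcd_ab a' b'
    refine ⟨v * Int.gcdA a' b', v * Int.gcdB a' b', u, ?_⟩
    linear_combination huv - v * h2
  have hG : IsCoprime (N' : ℤ) (a' * r + b' * s) := ⟨t, 1, by linear_combination ht⟩
  refine ⟨fun m => ((m : ℂ) * ((-x * b + y * N * r) * (-s * w + r * (w * τ))),
      (m : ℂ) * ((x * a + y * N * s) * (-s * w + r * (w * τ)))),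
    fun m => ⟨⟨(m * ((-x * b + y * N * r) * -s), m * ((-x * b + y * N * r) * r)), ?_⟩,
      ⟨(m * ((x * a + y * N * s) * -s), m * ((x * a + y * N * s) * r)), ?_⟩, ?_⟩, ?_⟩
  · simp only [lat]
    push_cast
    ring
  · simp only [lat]
    push_cast
    ring
  · refine (h.h.mem _).2 ⟨0, (m * (y * (a * r + b * s) * -s), m * (y * (a * r + b * s) * r)), ?_⟩
    simp only [lat]
    push_cast
    ring
  · intro m hm m' hm' hne x₀ hx
    simp only at hx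
    obtain ⟨k, y₀, hk⟩ := (h.h'.mem _).1 ⟨x₀, hx⟩
    have e1 : ((((m : ℤ) - m') * (x * (a * b' - b * a') + y * N * (a' * r + b' * s)) * -s - k * a' - N' * y₀.1 : ℤ) : ℂ) * w +
        ((((m : ℤ) - m') * (x * (a * b' - b * a') + y * N * (a' * r + b' * s)) * r - k * b' - N' * y₀.2 : ℤ) : ℂ) * (w * τ) = 0 := by
      simp only [lat] at hk
      push_cast
      linear_combination hk
    obtain ⟨e2, e3⟩ := YNe_ind h.h e1
    have e4 : (((m : ℤ) - m') * (x * (a * b' - b * a') + y * N * (a' * r + b' * s))) * (a' * r + b' * s) =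
        N' * (a' * y₀.2 - b' * y₀.1) := by
      linear_combination a' * e3 - b' * e2
    have e5 : (N' : ℤ) ∣ ((m : ℤ) - m') * (x * (a * b' - b * a') + y * N * (a' * r + b' * s)) :=
      hG.dvd_of_dvd_mul_right ⟨_, e4⟩
    obtain ⟨v, hv⟩ := e5
    have e6 : ((m : ℤ) - m') * d = N' * (v + ((m : ℤ) - m') * (z + y * N * t)) := by
      rw [hd]
      linear_combination hv - ((m : ℤ) - m') * y * N * ht
    have hN' : (N' : ℤ) = d * n := by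
      rw [h.eN]
      push_cast
      rfl
    have hd0 : (d : ℤ) ≠ 0 := by
      intro h0
      have h1 := h.h'.N1
      rw [h0, zero_mul] at hN'
      omega
    have e7 : (n : ℤ) ∣ (m : ℤ) - m' := by
      refine ⟨v + ((m : ℤ) - m') * (z + y * N * t), mul_left_cancel₀ hd0 ?_⟩
      rw [mul_comm (d : ℤ), e6, hN']
      ring
    have e8 : (m : ℤ) - m' = 0 := by
      refine Int.eq_zero_of_abs_lt_dvd e7 ?_
      rw [abs_lt]
      omega
    omega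

private theorem YNe_poly {n M : ℕ} (hn : n ≤ M) {c : ℕ → ℂ} {f : ℕ → ℂ}
    (hf : ∀ m < M, ∀ m' < M, m ≠ m' → f m ≠ f m')
    (h : ∀ m < M, ∑ k ∈ Finset.range n, c k * f m ^ k = 0) : ∀ k < n, c k = 0 := by
  have h1 := Matrix.eq_zero_of_forall_index_sum_mul_pow_eq_zero (f := fun j : Fin n => f j)
    (v := fun j : Fin n => c j) ?_ ?_
  · intro k hk
    exact congrFun h1 ⟨k, hk⟩
  · intro i j hij
    by_contra hne
    exact hf i (by omega) j (by omega) (fun e => hne (Fin.ext e)) hij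
  · intro j
    have h2 := h j (by omega)
    rw [Finset.sum_range] at h2
    exact h2

private theorem YNe_wp {α β : ℂ} (h : Ind α β) {z y : ℂ} (hz : Off α β z) (hy : Off α β y)
    (he : wp α β z = wp α β y) : (∃ x, z - y = lat α β x) ∨ ∃ x, z + y = lat α β x := by
  have e1 := ode h hz
  have e2 := ode h hy
  have e3 : (wq α β z - wq α β y) * (wq α β z + wq α β y) = 0 := by
    have e4 : wq α β z ^ 2 = wq α β y ^ 2 := by
      rw [e1, e2, he]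
    linear_combination e4
  rcases mul_eq_zero.1 e3 with e4 | e4
  · left
    obtain ⟨x, hx⟩ := exists_lat_of_eq h hz hy he (sub_eq_zero.1 e4)
    refine ⟨x, ?_⟩
    rw [hx]
    ring
  · right
    obtain ⟨x, hx⟩ := exists_lat_of_eq h hz (off_neg.2 hy) (by rw [wp_neg h]; exact he)
      (by rw [wq_neg h]; linear_combination e4)
    refine ⟨x, ?_⟩
    rw [hx]
    ring

private theorem YNe_aff {α : ℂ} (hα : α ≠ 0) (β z : ℂ) :
    Tendsto (fun y : ℂ => α * y + β) (𝓝[≠] z) (𝓝[≠] (α * z + β)) := by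
  rw [tendsto_nhdsWithin_iff]
  constructor
  · have h1 : Continuous fun y : ℂ => α * y + β := by fun_prop
    exact (h1.tendsto z).mono_left nhdsWithin_le_nhds
  · filter_upwards [self_mem_nhdsWithin] with y hy
    intro he
    exact hy (mul_left_cancel₀ hα (add_right_cancel he))

private theorem YNe_an {s e s₃ e₃ : ℂ → ℂ} (hs : Differentiable ℂ s) (he : Differentiable ℂ e)
    (hs₃ : Differentiable ℂ s₃) (he₃ : Differentiable ℂ e₃) (L₁ L₂ K : ℕ) (p : ℕ → ℕ → ℕ → ℂ) :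
    AnalyticOnNhd ℂ (NN s e s₃ e₃ a b L₁ L₂ K p) Set.univ := by
  intro z _
  have k1 : ∀ f : ℂ → ℂ, Differentiable ℂ f → AnalyticAt ℂ (fun z : ℂ × ℂ => f z.1) z := fun f hf =>
    AnalyticAt.fun_comp (f := fun z : ℂ × ℂ => z.1) (g := f) (hf.analyticAt _) analyticAt_fst
  have k2 : ∀ f : ℂ → ℂ, Differentiable ℂ f → AnalyticAt ℂ (fun z : ℂ × ℂ => f z.2) z := fun f hf =>
    AnalyticAt.fun_comp (f := fun z : ℂ × ℂ => z.2) (g := f) (hf.analyticAt _) analyticAt_snd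
  have k3 : ∀ f : ℂ → ℂ, Differentiable ℂ f →
      AnalyticAt ℂ (fun z : ℂ × ℂ => f (a * z.1 + b * z.2)) z := fun f hf =>
    AnalyticAt.fun_comp (f := fun z : ℂ × ℂ => (a : ℂ) * z.1 + (b : ℂ) * z.2) (g := f)
      (hf.analyticAt _)
      ((analyticAt_const.mul analyticAt_fst).add (analyticAt_const.mul analyticAt_snd))
  unfold NN
  refine Finset.analyticAt_fun_sum _ fun i _ => Finset.analyticAt_fun_sum _ fun j _ =>
    Finset.analyticAt_fun_sum _ fun k _ => ?_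
  exact ((analyticAt_const.mul (((k1 s hs).pow i).mul ((k1 e he).pow _))).mul
    (((k2 s hs).pow j).mul ((k2 e he).pow _))).mul (((k3 s₃ hs₃).pow k).mul ((k3 e₃ he₃).pow _))

/-- if `FF2` vanishes on a nonempty open set, it vanishes on all generic points -/
private theorem YNe_zero (h : ZD2 w τ c₁ c₂ d₁ d₂ N N' d n I a b a' b') {L₁ L₂ K K' : ℕ}
    {p : ℕ → ℕ → ℕ → ℕ → ℂ} {O : Set (ℂ × ℂ)} (hO : IsOpen O)
    (hne : (O ∩ Gen2 w τ c₁ c₂ d₁ d₂ a b a' b').Nonempty)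
    (h0 : ∀ z ∈ O ∩ Gen2 w τ c₁ c₂ d₁ d₂ a b a' b',
      FF2 w τ c₁ c₂ d₁ d₂ a b a' b' L₁ L₂ K K' p z = 0) {z : ℂ × ℂ}
    (hz : z ∈ Gen2 w τ c₁ c₂ d₁ d₂ a b a' b') :
    FF2 w τ c₁ c₂ d₁ d₂ a b a' b' L₁ L₂ K K' p z = 0 := by
  obtain ⟨s, e, E⟩ := exists_en h.h.ind1
  obtain ⟨s₃, e₃, E₃⟩ := exists_en h.h.ind
  obtain ⟨s₄, e₄, E₄⟩ := exists_en h.h'.ind
  have hNN : ∀ y ∈ Gen2 w τ c₁ c₂ d₁ d₂ a b a' b', e y.1 ≠ 0 ∧ e y.2 ≠ 0 ∧
      e₃ (a * y.1 + b * y.2) ≠ 0 ∧ e₄ (a' * y.1 + b' * y.2) ≠ 0 := by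
    rintro y ⟨⟨y1, y2, y3, y4⟩, ⟨-, -, y5, y6⟩⟩
    exact ⟨fun h1 => y1.2 ((E.e_eq_zero _).1 h1).2, fun h1 => y2.2 ((E.e_eq_zero _).1 h1).2,
      fun h1 => y4 ((E₃.e_eq_zero _).1 h1).2, fun h1 => y6 ((E₄.e_eq_zero _).1 h1).2⟩
  have k3 : ∀ f : ℂ → ℂ, Differentiable ℂ f → ∀ z : ℂ × ℂ,
      AnalyticAt ℂ (fun z : ℂ × ℂ => f (a' * z.1 + b' * z.2)) z := fun f hf z =>
    AnalyticAt.fun_comp (f := fun z : ℂ × ℂ => (a' : ℂ) * z.1 + (b' : ℂ) * z.2) (g := f)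
      (hf.analyticAt _)
      ((analyticAt_const.mul analyticAt_fst).add (analyticAt_const.mul analyticAt_snd))
  have hA : AnalyticOnNhd ℂ (NN2 s e s₃ e₃ s₄ e₄ a b a' b' L₁ L₂ K K' p) Set.univ := by
    intro z _
    unfold NN2
    refine Finset.analyticAt_fun_sum _ fun l _ => ?_
    exact (YNe_an E.ds E.de E₃.ds E₃.de L₁ L₂ K (fun i j k => p i j k l) z trivial).mul
      (((k3 s₄ E₄.ds z).pow l).mul ((k3 e₄ E₄.de z).pow _))
  have h1 : NN2 s e s₃ e₃ s₄ e₄ a b a' b' L₁ L₂ K K' p = fun _ => 0 := by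
    obtain ⟨z₀, hz₀⟩ := hne
    refine hA.eq_of_eventuallyEq (z₀ := z₀) analyticOnNhd_const ?_
    filter_upwards [(hO.inter (gen2_open h)).mem_nhds hz₀] with y hy
    obtain ⟨y1, y2, y3, y4⟩ := hNN y hy.2
    rw [NN2_eq h E E₃ E₄ L₁ L₂ K K' p y1 y2 y3 y4, h0 y hy, mul_zero]
  obtain ⟨z1, z2, z3, z4⟩ := hNN z hz
  have h2 := NN2_eq h E E₃ E₄ L₁ L₂ K K' p z1 z2 z3 z4
  rw [h1] at h2
  have h3 : e z.1 ^ (L₁ - 1) * e z.2 ^ (L₂ - 1) * e₃ (a * z.1 + b * z.2) ^ (K - 1) *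
      e₄ (a' * z.1 + b' * z.2) ^ (K' - 1) ≠ 0 :=
    mul_ne_zero (mul_ne_zero (mul_ne_zero (pow_ne_zero _ z1) (pow_ne_zero _ z2))
      (pow_ne_zero _ z3)) (pow_ne_zero _ z4)
  exact (mul_eq_zero.1 h2.symm).resolve_left h3

theorem FF2_ne (h : ZD2 w τ c₁ c₂ d₁ d₂ N N' d n I a b a' b') {L₁ L₂ K K' : ℕ}
    (hKN : K ≤ N) (hKn : K' ≤ n) {p : ℕ → ℕ → ℕ → ℕ → ℂ}
    (hp : ∃ i < L₁, ∃ j < L₂, ∃ k < K, ∃ l < K', p i j k l ≠ 0) {O : Set (ℂ × ℂ)}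
    (hO : IsOpen O) (hne : (O ∩ Gen2 w τ c₁ c₂ d₁ d₂ a b a' b').Nonempty) :
    ∃ z ∈ O ∩ Gen2 w τ c₁ c₂ d₁ d₂ a b a' b',
      FF2 w τ c₁ c₂ d₁ d₂ a b a' b' L₁ L₂ K K' p z ≠ 0 := by
  by_contra hcon
  push Not at hcon
  have hz0 : ∀ z ∈ Gen2 w τ c₁ c₂ d₁ d₂ a b a' b',
      FF2 w τ c₁ c₂ d₁ d₂ a b a' b' L₁ L₂ K K' p z = 0 := fun z hz =>
    YNe_zero h hO hne hcon hz
  obtain ⟨g, hg1, hg2⟩ := exists_cosets2 h
  obtain ⟨i, hi, j, hj, k, hk, l, hl, hpk⟩ := hp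
  have hb : (b' : ℂ) ≠ 0 := by exact_mod_cast h.h'.b0
  -- a point where the coefficient of `y' ^ l` does not vanish
  obtain ⟨z₀, ⟨-, hz₀⟩, hz₁⟩ := FF_ne h.h hKN (p := fun i j k => p i j k l)
    ⟨i, hi, j, hj, k, hk, hpk⟩ isOpen_univ
    (by rw [Set.univ_inter]; exact (gen_dense h.h).nonempty)
  have ht : Go w τ z₀.1 := hz₀.1
  -- the good points of the slice
  have hgood : ∀ᶠ y in 𝓝[≠] z₀.2, (∀ m ∈ Finset.range n,
      (z₀.1 + (g m).1, y + (g m).2) ∈ Gen2 w τ c₁ c₂ d₁ d₂ a b a' b') ∧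
      ∀ q ∈ Finset.range n ×ˢ Finset.range n,
      Off d₁ d₂ (2 * (a' * z₀.1 + b' * y) + ((a' * (g q.1).1 + b' * (g q.1).2) +
        (a' * (g q.2).1 + b' * (g q.2).2))) := by
    refine Filter.Eventually.and ?_ ?_
    · rw [Filter.eventually_all_finset]
      intro m _
      obtain ⟨⟨x, hx⟩, -⟩ := hg1 m
      have ht' : Go w τ (z₀.1 + (g m).1) := by rw [hx]; exact (Go.add h.h x).2 ht
      have h1 := gen2_slice h ht' (1 * z₀.2 + (g m).2)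
      have h2 := (YNe_aff one_ne_zero (g m).2 z₀.2).eventually h1
      filter_upwards [h2] with y hy
      rwa [one_mul] at hy
    · rw [Filter.eventually_all_finset]
      intro q _
      have h1 := Basic.eventually_off h.h'.ind (2 * b' * z₀.2 + (2 * (a' * z₀.1) +
        ((a' * (g q.1).1 + b' * (g q.1).2) + (a' * (g q.2).1 + b' * (g q.2).2))))
      have h2 := (YNe_aff (mul_ne_zero two_ne_zero hb) _ z₀.2).eventually h1
      filter_upwards [h2] with y hy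
      have e1 : 2 * (a' * z₀.1 + b' * y) + ((a' * (g q.1).1 + b' * (g q.1).2) +
        (a' * (g q.2).1 + b' * (g q.2).2)) = 2 * b' * y + (2 * (a' * z₀.1) +
        ((a' * (g q.1).1 + b' * (g q.1).2) + (a' * (g q.2).1 + b' * (g q.2).2))) := by ring
      rw [e1]
      exact hy
  -- near `z₀` the coefficient does not vanish
  have hU : ∀ᶠ y in 𝓝[≠] z₀.2,
      FF w τ c₁ c₂ a b L₁ L₂ K (fun i j k => p i j k l) (z₀.1, y) ≠ 0 := by
    have h1 : ∀ᶠ z in 𝓝 z₀, FF w τ c₁ c₂ a b L₁ L₂ K (fun i j k => p i j k l) z ≠ 0 :=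
      (an_FF h.h L₁ L₂ K _ hz₀).continuousAt.eventually_ne hz₁
    have h2 : Tendsto (fun y : ℂ => (z₀.1, y)) (𝓝[≠] z₀.2) (𝓝 z₀) := by
      have h3 : Continuous fun y : ℂ => (z₀.1, y) := by fun_prop
      exact (h3.tendsto z₀.2).mono_left nhdsWithin_le_nhds
    exact h2.eventually h1
  obtain ⟨y, ⟨hy1, hy2⟩, hy3⟩ := (hgood.and hU).exists
  apply hy3
  refine YNe_poly hKn (c := fun l => FF w τ c₁ c₂ a b L₁ L₂ K (fun i j k => p i j k l) (z₀.1, y))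
    (f := fun m => iu d₁ d₂ (a' * (z₀.1 + (g m).1) + b' * (y + (g m).2))) ?_ ?_ l hl
  · intro m hm m' hm' hne' he
    have g1 := (hy1 m (Finset.mem_range.2 hm)).2
    have g2 := (hy1 m' (Finset.mem_range.2 hm')).2
    have he2 : wp d₁ d₂ (a' * (z₀.1 + (g m).1) + b' * (y + (g m).2)) =
        wp d₁ d₂ (a' * (z₀.1 + (g m').1) + b' * (y + (g m').2)) := inv_injective he
    rcases YNe_wp h.h'.ind g1.2.2.1 g2.2.2.1 he2 with ⟨x, hx⟩ | ⟨x, hx⟩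
    · refine hg2 m hm m' hm' hne' x ?_
      rw [← hx]
      ring
    · refine hy2 (m, m') (Finset.mem_product.2 ⟨Finset.mem_range.2 hm, Finset.mem_range.2 hm'⟩) x ?_
      rw [← hx]
      ring
  · intro m hm
    have g1 := hz0 _ (hy1 m (Finset.mem_range.2 hm))
    unfold FF2 at g1
    rw [← g1]
    refine Finset.sum_congr rfl fun l _ => ?_
    have g2 := FF_add h.h L₁ L₂ K (fun i j k => p i j k l) (z₀.1, y) (hg1 m)
    have g3 : ((z₀.1, y) : ℂ × ℂ) + g m = (z₀.1 + (g m).1, y + (g m).2) := rfl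
    rw [g3] at g2
    rw [g2]

theorem G2_ne (h : ZD2 w τ c₁ c₂ d₁ d₂ N N' d n I a b a' b') {L₁ L₂ K K' : ℕ}
    (hKN : K ≤ N) (hKn : K' ≤ n) {p : ℕ → ℕ → ℕ → ℕ → ℂ}
    (hp : ∃ i < L₁, ∃ j < L₂, ∃ k < K, ∃ l < K', p i j k l ≠ 0) {E : ℕ} {G R : ℂ[X][Y]}
    {α : ℂ[X]} (g : GX w τ I (Gen2 w τ c₁ c₂ d₁ d₂ a b a' b')
      (FF2 w τ c₁ c₂ d₁ d₂ a b a' b' L₁ L₂ K K' p) L₁ L₂ E G R α) : G ≠ 0 := by
  have hc : Continuous fun z : ℂ × ℂ => (z.1, -z.2) := by fun_prop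
  have hO₁ : IsOpen ((fun z : ℂ × ℂ => (z.1, -z.2)) ⁻¹' Gen2 w τ c₁ c₂ d₁ d₂ a b a' b') :=
    (gen2_open h).preimage hc
  have hne₁ : (((fun z : ℂ × ℂ => (z.1, -z.2)) ⁻¹' Gen2 w τ c₁ c₂ d₁ d₂ a b a' b') ∩
      Gen2 w τ c₁ c₂ d₁ d₂ a b a' b').Nonempty := by
    refine (gen2_dense h).inter_open_nonempty _ hO₁ ?_
    obtain ⟨y, hy⟩ := (gen2_dense h).nonempty
    exact ⟨(y.1, -y.2), by simpa using hy⟩
  obtain ⟨z₀, ⟨hz1, hz2⟩, hz3⟩ := FF2_ne h hKN hKn hp hO₁ hne₁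
  have hU : {z | z ∈ Gen2 w τ c₁ c₂ d₁ d₂ a b a' b' ∧
      FF2 w τ c₁ c₂ d₁ d₂ a b a' b' L₁ L₂ K K' p z ≠ 0} ∈ 𝓝 z₀ := by
    filter_upwards [(gen2_open h).mem_nhds hz2,
      (an_FF2 h L₁ L₂ K K' p hz2).continuousAt.eventually_ne hz3] with y h1 h2
    exact ⟨h1, h2⟩
  obtain ⟨U, hU1, hU2, hU3⟩ := mem_nhds_iff.1 hU
  have hne₂ : (((fun z : ℂ × ℂ => (z.1, -z.2)) ⁻¹' U) ∩
      Gen2 w τ c₁ c₂ d₁ d₂ a b a' b').Nonempty := by
    refine ⟨(z₀.1, -z₀.2), ?_, hz1⟩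
    show (z₀.1, - -z₀.2) ∈ U
    rw [neg_neg]
    exact hU3
  obtain ⟨y, ⟨hy1, hy2⟩, hy3⟩ := FF2_ne h hKN hKn hp (hU2.preimage hc) hne₂
  obtain ⟨hy4, hy5⟩ := hU1 hy1
  have e : (((y.1, -y.2) : ℂ × ℂ).1, -((y.1, -y.2) : ℂ × ℂ).2) = y := by
    ext
    · rfl
    · simp
  obtain ⟨k1, k2, k3, k4⟩ := g.eq (y.1, -y.2) hy4 (by rw [e]; exact hy2)
  rw [e] at k4
  intro hG
  rw [hG] at k4
  have k5 : (0 : ℂ[X][Y]).evalEval (xx w τ I ((y.1, -y.2) : ℂ × ℂ).1)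
      (xx w τ I ((y.1, -y.2) : ℂ × ℂ).2) = 0 := by simp
  rw [k5] at k4
  exact (mul_ne_zero (mul_ne_zero (mul_ne_zero k1 (pow_ne_zero _ k2))
    (pow_ne_zero _ k3)) (mul_ne_zero hy5 hy3)) k4.symm

end Pool.Agent.LGO.F3
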