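import Mathlib
import Pool.Agent.LGO.F3.AbDef
import Pool.Agent.LGO.F3.YDef

/-!
# LGO/F3 (zero estimate, two `y`): the group of periods has index `I`

PROOF of `gam2_pgp`.  `lat₁`, `lat₂`, `sub`: clear.  `diag`: `a w + b w τ ∈ Λ_v`, `a' w + b' w τ ∈ Λ_v'` (`ZD.mem`).  `big`: `I Λ ⊆ N Λ ⊆ Λ_v`, `N' ∣ I` (`N' = d n`, `d ∣ N`, `I = N n`).
`cnt`.  Coordinates: `h = ((r₁, s₁), (r₂, s₂))`, `h₁ = r₁ w + s₁ w τ`, `h₂ = r₂ w + s₂ w τ`; by the private lemma `ZPts_mem` (`F/ZPts.lean`; copy it) `h` is a period iff `N ∣ φ(h)` and `N' ∣ φ'(h)`,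
`φ(h) = a (a s₁ + b s₂) - b (a r₁ + b r₂)`, `φ'` the same with `a', b'`.  Count the solutions in `(ℤ/I)⁴`: the homomorphism `(φ, φ') : (ℤ/I)⁴ → ℤ/N × ℤ/N'` has its image in
`{(α, β) | β ≡ c α mod d}`, a group of `N N' / d = I` elements (`N N' = N d n = d I`), so the kernel has at least `I⁴ / I = I³` elements; take `I³` of them, with the representatives
`0 ≤ · < I` (`EqN` with `N := I` means congruence of all coordinates modulo `I`).
The congruence: `d` divides `a b' - b a'` and `gcd(a, b, d) = 1` (`d ∣ N`), `gcd(a', b', d) = 1` (`d ∣ N'`): `(a', b') ≡ λ (a, b)` mod `d`: with `x a + y b + z d = 1` put `λ = x a' + y b'`: `λ a = x a a' + y a b' ≡ x a a' + y b a' =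
a' (x a + y b) ≡ a'`, the same for `b`.  So `φ' ≡ λ² φ` mod `d`, `c = λ²`.
-/

namespace Pool.Agent.LGO.F3

open Pool.Agent.EllSch Pool.Agent.LGO.Mul Pool.Agent.LGO.F

variable {w τ c₁ c₂ d₁ d₂ : ℂ} {N N' d n I : ℕ} {a b a' b' : ℤ}

/-- the Bezout relation -/
private theorem YPts_bez {N : ℕ} {a b : ℤ} (hcop : ∀ d : ℤ, d ∣ a → d ∣ b → d ∣ N → IsUnit d) :
    ∃ u v m : ℤ, u * a + v * b + m * N = 1 := by
  have h1 : IsUnit ((Int.gcd (Int.gcd a b) N : ℕ) : ℤ) := by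
    apply hcop
    · exact (Int.gcd_dvd_left _ _).trans (Int.gcd_dvd_left _ _)
    · exact (Int.gcd_dvd_left _ _).trans (Int.gcd_dvd_right _ _)
    · exact Int.gcd_dvd_right _ _
  have h2 : Int.gcd (Int.gcd a b) N = 1 := by
    have := Int.isUnit_iff_natAbs_eq.1 h1
    simpa using this
  have h3 := Int.gcd_eq_gcd_ab (Int.gcd a b) N
  have h4 := Int.gcd_eq_gcd_ab a b
  rw [h2] at h3
  refine ⟨Int.gcdA a b * Int.gcdA (Int.gcd a b) N, Int.gcdB a b * Int.gcdA (Int.gcd a b) N,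
    Int.gcdB (Int.gcd a b) N, ?_⟩
  push_cast at h3
  linear_combination -h3 - Int.gcdA (Int.gcd a b) N * h4

/-- the periods in `Λ_v` by coordinates -/
private theorem YPts_mem {c₁ c₂ : ℂ} {N : ℕ} {a b : ℤ} (h : ZD w τ c₁ c₂ N a b) (x : ℤ × ℤ) :
    (∃ y, lat w (w * τ) x = lat c₁ c₂ y) ↔ (N : ℤ) ∣ a * x.2 - b * x.1 := by
  rw [h.mem]
  constructor
  · rintro ⟨k, y, e⟩
    have e1 : lat w (w * τ) x = lat w (w * τ) (k * a + N * y.1, k * b + N * y.2) := by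
      rw [e]
      unfold lat
      push_cast
      ring
    have e2 := lat_injective h.ind1 e1
    rw [e2]
    refine ⟨a * y.2 - b * y.1, ?_⟩
    simp only
    ring
  · rintro ⟨q, hq⟩
    obtain ⟨u, v, m, hm⟩ := YPts_bez h.cop
    refine ⟨u * x.1 + v * x.2, (m * x.1 - v * q, m * x.2 + u * q), ?_⟩
    have e1 : x.1 = (u * x.1 + v * x.2) * a + N * (m * x.1 - v * q) := by
      linear_combination (-x.1) * hm - v * hq
    have e2 : x.2 = (u * x.1 + v * x.2) * b + N * (m * x.2 + u * q) := by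
      linear_combination (-x.2) * hm + u * hq
    have e3 : lat w (w * τ) x = lat w (w * τ)
        ((u * x.1 + v * x.2) * a + N * (m * x.1 - v * q), (u * x.1 + v * x.2) * b + N * (m * x.2 + u * q)) := by
      rw [← e1, ← e2]
    rw [e3]
    unfold lat
    push_cast
    ring

/-- the periods by coordinates -/
private theorem YPts_gam {c₁ c₂ : ℂ} {N : ℕ} {a b : ℤ} (h : ZD w τ c₁ c₂ N a b)
    (r₁ s₁ r₂ s₂ : ℤ) :
    Gam w τ c₁ c₂ a b (lat w (w * τ) (r₁, s₁), lat w (w * τ) (r₂, s₂)) ↔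
      (N : ℤ) ∣ a * (a * s₁ + b * s₂) - b * (a * r₁ + b * r₂) := by
  have e1 : (a : ℂ) * lat w (w * τ) (r₁, s₁) + b * lat w (w * τ) (r₂, s₂) =
      lat w (w * τ) (a * r₁ + b * r₂, a * s₁ + b * s₂) := by
    unfold lat
    push_cast
    ring
  unfold Gam
  simp only
  rw [e1, YPts_mem h]
  constructor
  · rintro ⟨-, -, h3⟩
    exact h3
  · intro h3
    exact ⟨⟨_, rfl⟩, ⟨_, rfl⟩, h3⟩

/-- the homomorphism -/
private def YPts_phi (I : ℕ) (a b : ℤ) : ((ZMod I × ZMod I) × (ZMod I × ZMod I)) →+ ZMod I where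
  toFun x := a * (a * x.1.2 + b * x.2.2) - b * (a * x.1.1 + b * x.2.1)
  map_zero' := by simp
  map_add' x y := by
    simp only [Prod.fst_add, Prod.snd_add]
    ring

private theorem YPts_phi_apply (I : ℕ) (a b : ℤ) (x : (ZMod I × ZMod I) × (ZMod I × ZMod I)) :
    YPts_phi I a b x = a * (a * x.1.2 + b * x.2.2) - b * (a * x.1.1 + b * x.2.1) := rfl

/-- the congruence of the two forms -/
private theorem YPts_lam {d : ℕ} {a b a' b' : ℤ} (hcop : ∀ e : ℤ, e ∣ a → e ∣ b → e ∣ d → IsUnit e)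
    (hd : (d : ℤ) ∣ a * b' - b * a') :
    ∃ l : ZMod d, (a' : ZMod d) = l * a ∧ (b' : ZMod d) = l * b := by
  obtain ⟨u, v, m, hm⟩ := YPts_bez hcop
  have h5 : (u : ZMod d) * a + v * b = 1 := by
    have h6 : ((u * a + v * b + m * d : ℤ) : ZMod d) = ((1 : ℤ) : ZMod d) := by rw [hm]
    push_cast at h6
    rw [ZMod.natCast_self, mul_zero, add_zero] at h6
    exact h6
  have h7 : (a : ZMod d) * b' - b * a' = 0 := by
    have h8 := (ZMod.intCast_zmod_eq_zero_iff_dvd (a * b' - b * a') d).2 hd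
    push_cast at h8
    exact h8
  refine ⟨u * a' + v * b', ?_, ?_⟩
  · linear_combination (-(a' : ZMod d)) * h5 - v * h7
  · linear_combination (-(b' : ZMod d)) * h5 + u * h7

/-- the kernel is large -/
private theorem YPts_card {N N' d n I : ℕ} [NeZero N] [NeZero N'] [NeZero I] [NeZero d]
    (eN : N' = d * n) (eI : I = N * n) (hI : N ∣ I) (hI' : N' ∣ I) (hdN : d ∣ N) (hdN' : d ∣ N')
    {a b a' b' : ℤ} {l : ZMod d} (ha : (a' : ZMod d) = l * a) (hb : (b' : ZMod d) = l * b) :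
    I ^ 3 ≤ (Finset.univ.filter fun x : (ZMod I × ZMod I) × (ZMod I × ZMod I) =>
      ZMod.castHom hI (ZMod N) (YPts_phi I a b x) = 0 ∧
        ZMod.castHom hI' (ZMod N') (YPts_phi I a' b' x) = 0).card := by
  classical
  have hI0 : 0 < I := Nat.pos_of_ne_zero (NeZero.ne I)
  let Ψ : ((ZMod I × ZMod I) × (ZMod I × ZMod I)) → ZMod N × ZMod N' := fun x =>
    (ZMod.castHom hI (ZMod N) (YPts_phi I a b x), ZMod.castHom hI' (ZMod N') (YPts_phi I a' b' x))
  set S := (Finset.univ.filter fun x : (ZMod I × ZMod I) × (ZMod I × ZMod I) =>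
      ZMod.castHom hI (ZMod N) (YPts_phi I a b x) = 0 ∧
        ZMod.castHom hI' (ZMod N') (YPts_phi I a' b' x) = 0) with hS
  have hfib : ∀ t ∈ (Finset.univ : Finset ((ZMod I × ZMod I) × (ZMod I × ZMod I))).image Ψ,
      (Finset.univ.filter fun x => Ψ x = t).card ≤ S.card := by
    intro t ht
    obtain ⟨y, -, rfl⟩ := Finset.mem_image.1 ht
    apply Finset.card_le_card_of_injOn (fun x => x - y)
    · intro x hx
      have hx' : Ψ x = Ψ y := by simpa using hx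
      have h1 := congrArg Prod.fst hx'
      have h2 := congrArg Prod.snd hx'
      simp only [Ψ] at h1 h2
      rw [hS, Finset.coe_filter]
      refine ⟨Finset.mem_univ _, ?_, ?_⟩
      · rw [map_sub, map_sub, h1, sub_self]
      · rw [map_sub, map_sub, h2, sub_self]
    · intro x _ x' _ he
      exact sub_left_injective he
  have h1 := Finset.card_le_mul_card_image (s := (Finset.univ : Finset ((ZMod I × ZMod I) × (ZMod I × ZMod I))))
    (f := Ψ) S.card hfib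
  have h2 : (Finset.univ.image Ψ).card ≤ I := by
    have h3 : (Finset.univ.image Ψ).card ≤
        ((Finset.univ : Finset (ZMod N)) ×ˢ Finset.range n).card := by
      apply Finset.card_le_card_of_injOn (fun t => (t.1, t.2.val / d))
      · intro t _
        rw [Finset.mem_coe, Finset.mem_product]
        refine ⟨Finset.mem_univ _, ?_⟩
        rw [Finset.mem_range]
        have h4 := ZMod.val_lt t.2
        rw [Nat.div_lt_iff_lt_mul (Nat.pos_of_ne_zero (NeZero.ne d))]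
        calc t.2.val < N' := h4
          _ = n * d := by rw [eN, mul_comm]
      · intro t ht t' ht' htt
        have key : ∀ t ∈ (Finset.univ.image Ψ), ZMod.castHom hdN' (ZMod d) t.2 =
            l ^ 2 * ZMod.castHom hdN (ZMod d) t.1 := by
          intro t ht
          obtain ⟨y, -, rfl⟩ := Finset.mem_image.1 ht
          have hd1 : d ∣ I := hdN.trans hI
          have c1 : ∀ z : ZMod I, ZMod.castHom hdN' (ZMod d) (ZMod.castHom hI' (ZMod N') z) =
              ZMod.castHom hd1 (ZMod d) z := fun z => by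
            have : (ZMod.castHom hdN' (ZMod d)).comp (ZMod.castHom hI' (ZMod N')) =
              ZMod.castHom hd1 (ZMod d) := Subsingleton.elim _ _
            rw [← this]
            rfl
          have c2 : ∀ z : ZMod I, ZMod.castHom hdN (ZMod d) (ZMod.castHom hI (ZMod N) z) =
              ZMod.castHom hd1 (ZMod d) z := fun z => by
            have : (ZMod.castHom hdN (ZMod d)).comp (ZMod.castHom hI (ZMod N)) =
              ZMod.castHom hd1 (ZMod d) := Subsingleton.elim _ _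
            rw [← this]
            rfl
          simp only [Ψ]
          rw [c1, c2, YPts_phi_apply, YPts_phi_apply]
          simp only [map_sub, map_mul, map_add, map_intCast]
          rw [ha, hb]
          ring
        simp only [Prod.mk.injEq] at htt
        obtain ⟨f1, f2⟩ := htt
        have g1 := key t ht
        have g2 := key t' ht'
        rw [← f1, ← g1] at g2
        have g3 : t'.2.val % d = t.2.val % d := by
          rw [← ZMod.natCast_eq_natCast_iff']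
          rw [ZMod.natCast_val, ZMod.natCast_val]
          exact g2
        have g4 : t.2.val = t'.2.val := by
          rw [← Nat.div_add_mod t.2.val d, ← Nat.div_add_mod t'.2.val d, f2, g3]
        exact Prod.ext f1 (ZMod.val_injective _ g4)
    rw [Finset.card_product, Finset.card_univ, ZMod.card, Finset.card_range, ← eI] at h3
    exact h3
  have h3 : (Finset.univ : Finset ((ZMod I × ZMod I) × (ZMod I × ZMod I))).card = I ^ 4 := by
    simp only [Finset.card_univ, Fintype.card_prod, ZMod.card]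
    ring
  rw [h3] at h1
  have h4 : I ^ 3 * I ≤ S.card * I := by
    calc I ^ 3 * I = I ^ 4 := by ring
      _ ≤ _ := h1
      _ ≤ S.card * I := Nat.mul_le_mul_left _ h2
  exact Nat.le_of_mul_le_mul_right h4 hI0

private theorem YPts_inj {I : ℕ} [NeZero I] {r s r' s' : ZMod I} (h : Ind w (w * τ)) {y : ℤ × ℤ}
    (e : lat w (w * τ) ((r.val : ℤ), (s.val : ℤ)) - lat w (w * τ) ((r'.val : ℤ), (s'.val : ℤ)) =
      I * lat w (w * τ) y) : r = r' ∧ s = s' := by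
  have e1 : lat w (w * τ) ((r.val : ℤ), (s.val : ℤ)) =
      lat w (w * τ) ((r'.val : ℤ) + I * y.1, (s'.val : ℤ) + I * y.2) := by
    rw [sub_eq_iff_eq_add] at e
    rw [e]
    unfold lat
    push_cast
    ring
  have e2 := lat_injective h e1
  rw [Prod.mk.injEq] at e2
  obtain ⟨e3, e4⟩ := e2
  constructor
  · have e5 : (((r.val : ℤ)) : ZMod I) = (((r'.val : ℤ) + I * y.1 : ℤ) : ZMod I) := by rw [e3]
    push_cast at e5
    rw [ZMod.natCast_self, zero_mul, add_zero, ZMod.natCast_rightInverse, ZMod.natCast_rightInverse] at e5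
    exact e5
  · have e5 : (((s.val : ℤ)) : ZMod I) = (((s'.val : ℤ) + I * y.2 : ℤ) : ZMod I) := by rw [e4]
    push_cast at e5
    rw [ZMod.natCast_self, zero_mul, add_zero, ZMod.natCast_rightInverse, ZMod.natCast_rightInverse] at e5
    exact e5

/-- the kernel consists of periods -/
private theorem YPts_ker {c₁ c₂ : ℂ} {N : ℕ} {a b : ℤ} (h : ZD w τ c₁ c₂ N a b) {I : ℕ} [NeZero I]
    (hI : N ∣ I) {x : (ZMod I × ZMod I) × (ZMod I × ZMod I)}
    (hx : ZMod.castHom hI (ZMod N) (YPts_phi I a b x) = 0) :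
    Gam w τ c₁ c₂ a b (lat w (w * τ) ((x.1.1.val : ℤ), (x.1.2.val : ℤ)),
      lat w (w * τ) ((x.2.1.val : ℤ), (x.2.2.val : ℤ))) := by
  rw [YPts_gam h, ← ZMod.intCast_zmod_eq_zero_iff_dvd, ← hx, YPts_phi_apply]
  simp only [map_sub, map_mul, map_add, map_intCast]
  push_cast
  simp only [ZMod.natCast_val, ZMod.castHom_apply]

private theorem YPts_fac (h : ZD2 w τ c₁ c₂ d₁ d₂ N N' d n I a b a' b') :
    0 < N ∧ 0 < N' ∧ 0 < d ∧ 0 < n ∧ 0 < I ∧ N ∣ I ∧ N' ∣ I ∧ d ∣ N' := by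
  have h1 : 0 < N := h.h.N1
  have h2 : 0 < N' := h.h'.N1
  have h3 : 0 < d * n := by rw [← h.eN]; exact h2
  have h4 : 0 < d := Nat.pos_of_mul_pos_right h3
  have h5 : 0 < n := Nat.pos_of_mul_pos_left h3
  refine ⟨h1, h2, h4, h5, ?_, ?_, ?_, ?_⟩
  · rw [h.eI]
    positivity
  · rw [h.eI]
    exact dvd_mul_right _ _
  · rw [h.eI, h.eN]
    exact Nat.mul_dvd_mul_right h.dN n
  · rw [h.eN]
    exact dvd_mul_right _ _

private theorem YPts_sub {c₁ c₂ : ℂ} {a b : ℤ} {g g' : ℂ × ℂ} (hg : Gam w τ c₁ c₂ a b g)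
    (hg' : Gam w τ c₁ c₂ a b g') : Gam w τ c₁ c₂ a b (g - g') := by
  obtain ⟨⟨x, hx⟩, ⟨y, hy⟩, ⟨t, ht⟩⟩ := hg
  obtain ⟨⟨x', hx'⟩, ⟨y', hy'⟩, ⟨t', ht'⟩⟩ := hg'
  refine ⟨⟨x - x', ?_⟩, ⟨y - y', ?_⟩, ⟨t - t', ?_⟩⟩
  · rw [lat_sub, Prod.fst_sub, hx, hx']
  · rw [lat_sub, Prod.snd_sub, hy, hy']
  · rw [lat_sub, ← ht, ← ht', Prod.fst_sub, Prod.snd_sub]
    ring

private theorem YPts_diag {c₁ c₂ : ℂ} {N : ℕ} {a b : ℤ} (h : ZD w τ c₁ c₂ N a b) :
    Gam w τ c₁ c₂ a b (w, w * τ) := by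
  refine ⟨⟨(1, 0), by simp [lat]⟩, ⟨(0, 1), by simp [lat]⟩, ?_⟩
  rw [h.mem]
  refine ⟨1, 0, ?_⟩
  simp [lat]

private theorem YPts_big {c₁ c₂ : ℂ} {N : ℕ} {a b : ℤ} (h : ZD w τ c₁ c₂ N a b) {I : ℕ} (hI : N ∣ I)
    (x y : ℤ × ℤ) :
    Gam w τ c₁ c₂ a b ((I : ℂ) * lat w (w * τ) x, (I : ℂ) * lat w (w * τ) y) := by
  obtain ⟨k, rfl⟩ := hI
  have e : ∀ x : ℤ × ℤ, ((N * k : ℕ) : ℂ) * lat w (w * τ) x =
      lat w (w * τ) ((N * k : ℕ) * x.1, (N * k : ℕ) * x.2) := by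
    intro x
    unfold lat
    push_cast
    ring
  rw [e, e, YPts_gam h]
  refine ⟨k * (a * (a * x.2 + b * y.2) - b * (a * x.1 + b * y.1)), ?_⟩
  push_cast
  ring

theorem gam2_pgp (h : ZD2 w τ c₁ c₂ d₁ d₂ N N' d n I a b a' b') :
    PGp w τ I (Gam2 w τ c₁ c₂ d₁ d₂ a b a' b') := by
  classical
  obtain ⟨p1, p2, p3, p4, p5, hI, hI', hdN'⟩ := YPts_fac h
  have i1 : NeZero N := ⟨p1.ne'⟩
  have i2 : NeZero N' := ⟨p2.ne'⟩
  have i3 : NeZero d := ⟨p3.ne'⟩
  have i4 : NeZero I := ⟨p5.ne'⟩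
  refine ⟨fun g hg => hg.1.1, fun g hg => hg.1.2.1,
    fun g hg g' hg' => ⟨YPts_sub hg.1 hg'.1, YPts_sub hg.2 hg'.2⟩,
    ⟨YPts_diag h.h, YPts_diag h.h'⟩,
    fun x y => ⟨YPts_big h.h hI x y, YPts_big h.h' hI' x y⟩, ?_⟩
  obtain ⟨l, ha, hb⟩ := YPts_lam (d := d) (a := a) (b := b) (a' := a') (b' := b')
    (fun e h1 h2 h3 => h.h.cop e h1 h2 (h3.trans (by exact_mod_cast h.dN))) h.dd
  have hcard := YPts_card h.eN h.eI hI hI' h.dN hdN' ha hb
  obtain ⟨S, hSsub, hScard⟩ := Finset.exists_subset_card_eq hcard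
  let e : (ZMod I × ZMod I) × (ZMod I × ZMod I) → ℂ × ℂ := fun x =>
    (lat w (w * τ) ((x.1.1.val : ℤ), (x.1.2.val : ℤ)), lat w (w * τ) ((x.2.1.val : ℤ), (x.2.2.val : ℤ)))
  have he : ∀ x x', EqN w τ I (e x) (e x') → x = x' := by
    rintro ⟨⟨r₁, s₁⟩, ⟨r₂, s₂⟩⟩ ⟨⟨r₁', s₁'⟩, ⟨r₂', s₂'⟩⟩ ⟨⟨y, hy⟩, ⟨y', hy'⟩⟩
    obtain ⟨f1, f2⟩ := YPts_inj h.h.ind1 hy
    obtain ⟨f3, f4⟩ := YPts_inj h.h.ind1 hy'
    simp only at f1 f2 f3 f4
    subst f1 f2 f3 f4
    rfl
  have hinj : Function.Injective e := by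
    intro x x' hx
    apply he
    rw [hx]
    refine ⟨⟨(0, 0), ?_⟩, ⟨(0, 0), ?_⟩⟩
    · simp [lat]
    · simp [lat]
  refine ⟨S.image e, ?_, ?_, ?_⟩
  · rw [Finset.card_image_of_injective _ hinj]
    exact hScard
  · intro g hg
    rw [Finset.mem_image] at hg
    obtain ⟨x, hx, rfl⟩ := hg
    have hx' := (Finset.mem_filter.1 (hSsub hx)).2
    exact ⟨YPts_ker h.h hI hx'.1, YPts_ker h.h' hI' hx'.2⟩
  · intro g hg g' hg' hgg
    rw [Finset.mem_image] at hg hg'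
    obtain ⟨x, hx, rfl⟩ := hg
    obtain ⟨x', hx', rfl⟩ := hg'
    rw [he x x' hgg]

/-- the slice condition in coordinates -/
theorem sl_coord (h : ZD2 w τ c₁ c₂ d₁ d₂ N N' d n I a b a' b') {P Q : ℤ} {g : ℕ}
    (hs : Sl w τ (Gam2 w τ c₁ c₂ d₁ d₂ a b a' b') P Q g) (r₁ s₁ r₂ s₂ : ℤ)
    (h1 : (N : ℤ) ∣ a * (a * s₁ + b * s₂) - b * (a * r₁ + b * r₂))
    (h2 : (N' : ℤ) ∣ a' * (a' * s₁ + b' * s₂) - b' * (a' * r₁ + b' * r₂)) :
    (g : ℤ) ∣ Q * (P * s₂ - Q * s₁) + P * (P * r₂ - Q * r₁) := by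
  obtain ⟨k, y, e⟩ := (hs (P * lat w (w * τ) (r₂, s₂) - Q * lat w (w * τ) (r₁, s₁))).1
    ⟨(lat w (w * τ) (r₁, s₁), lat w (w * τ) (r₂, s₂)),
      ⟨(YPts_gam h.h _ _ _ _).2 h1, (YPts_gam h.h' _ _ _ _).2 h2⟩, rfl⟩
  have e1 : lat w (w * τ) (P * r₂ - Q * r₁, P * s₂ - Q * s₁) =
      lat w (w * τ) (-(k * Q) + g * y.1, k * P + g * y.2) := by
    have e2 : lat w (w * τ) (P * r₂ - Q * r₁, P * s₂ - Q * s₁) =
        P * lat w (w * τ) (r₂, s₂) - Q * lat w (w * τ) (r₁, s₁) := by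
      unfold lat
      push_cast
      ring
    rw [e2, e]
    unfold lat
    push_cast
    ring
  have e2 := lat_injective h.h.ind1 e1
  rw [Prod.mk.injEq] at e2
  obtain ⟨e3, e4⟩ := e2
  refine ⟨Q * y.2 + P * y.1, ?_⟩
  rw [e3, e4]
  ring

end Pool.Agent.LGO.F3
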