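import Mathlib
import Pool.Agent.LGO.F3.AbFin
import Pool.Agent.LGO.F3.YG
import Pool.Agent.LGO.F3.YNe
import Pool.Agent.LGO.F3.YPts

/-!
# LGO/F3: the zero estimate with two functions `y`

PROOF.  `zest_ab` for `N := I`, the carrier `fake`, `Gm = Gam2` (`gam2_pgp`), `f = FF2`, `E = 64 I⁵`: `FD`: `FF2_add`, `gen2_dense`, `gen2_slice`, `mero_FF2`, `line_FF2` (`2 K + 2 K' ≤ 4 I ≤ E`); `GX`: `exists_GX2`,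
`G2_ne`.  The rotated data: `ZD2.rot`, `f' = FF2` of the rotated data (`FF2_rot`; `rotS (Gam2 ..) = Gam2` of the rotated data: `gam2_rot`), `Gn' = Gen2` of the rotated data `= rotS (Gen2 ..)` (`gen2_rot`);
`GX.rot` with `FF2_neg`, `gen2_neg`.
-/

namespace Pool.Agent.LGO.F3

open Pool.Agent.EllSch Pool.Agent.LGO.Mul Pool.Agent.LGO.F Filter Topology Asymptotics

private theorem YFin_fd {w τ c₁ c₂ d₁ d₂ : ℂ} {N N' d n I : ℕ} {a b a' b' : ℤ}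
    (h : ZD2 w τ c₁ c₂ d₁ d₂ N N' d n I a b a' b') (_hI : 16 ≤ I) {K K' : ℕ} (hK1 : 1 ≤ K)
    (hK : K ≤ N) (hK1' : 1 ≤ K') (hK' : K' ≤ n) (L₁ L₂ : ℕ) (p : ℕ → ℕ → ℕ → ℕ → ℂ) :
    FD w τ I (Gam2 w τ c₁ c₂ d₁ d₂ a b a' b') (Gen2 w τ c₁ c₂ d₁ d₂ a b a' b')
      (FF2 w τ c₁ c₂ d₁ d₂ a b a' b' L₁ L₂ K K' p) L₁ L₂ (64 * I ^ 5) := by
  have hNI : N ≤ I := by
    rw [h.eI]
    exact Nat.le_mul_of_pos_right _ (by omega)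
  have hnI : n ≤ I := by
    rw [h.eI]
    exact Nat.le_mul_of_pos_left _ (by omega)
  have hI5 : I ≤ I ^ 5 := Nat.le_self_pow (by norm_num) I
  have hup : ∀ (x : WithTop ℤ) (L : ℕ), x + ((2 * L + 2 * K + 2 * K' : ℕ) : ℤ) ≤
      x + ((2 * L + 64 * I ^ 5 : ℕ) : ℤ) := by
    intro x L
    refine add_le_add le_rfl (WithTop.coe_le_coe.2 ?_)
    have : 2 * L + 2 * K + 2 * K' ≤ 2 * L + 64 * I ^ 5 := by omega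
    exact_mod_cast this
  refine ⟨fun g hg z => FF2_add h L₁ L₂ K K' p hg z, gen2_dense h, fun t ht z => gen2_slice h ht z,
    fun t z => mero_FF2 h L₁ L₂ K K' p t z, ?_⟩
  intro l μ k A hA hk
  obtain ⟨h1, h2⟩ := line_FF2 h hA hk
  exact ⟨fun t ht => (h1 t ht).trans (hup _ _), fun hl t ht => (h2 hl t ht).trans (hup _ _)⟩

/-- **the zero estimate with two functions `y`** -/
theorem zest2 : ∃ C : ℕ, 1 ≤ C ∧ ∀ (w τ c₁ c₂ d₁ d₂ : ℂ) (N N' d n I : ℕ) (a b a' b' : ℤ),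
    ZD2 w τ c₁ c₂ d₁ d₂ N N' d n I a b a' b' → 16 ≤ I →
    ∀ (L₁ L₂ K K' T : ℕ) (p : ℕ → ℕ → ℕ → ℕ → ℂ), 1 ≤ K → K ≤ N → 1 ≤ K' → K' ≤ n →
    64 * I ^ 5 ≤ L₁ → 64 * I ^ 5 ≤ L₂ →
    (∃ i < L₁, ∃ j < L₂, ∃ k < K, ∃ l < K', p i j k l ≠ 0) →
    (FF2 w τ c₁ c₂ d₁ d₂ a b a' b' L₁ L₂ K K' p =O[𝓝 0] fun z => ‖z‖ ^ T) →
    T ^ 2 ≤ C * I * L₁ * L₂ ∨ T ≤ C * (L₁ + L₂) ∨ ∃ (P Q : ℤ) (g : ℕ), IsCoprime P Q ∧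
      1 ≤ g ∧ g ∣ I ∧ Sl w τ (Gam2 w τ c₁ c₂ d₁ d₂ a b a' b') P Q g ∧
      (T : ℤ) * P ^ 2 ≤ C * (g : ℤ) * L₂ ∧ (T : ℤ) * Q ^ 2 ≤ C * (g : ℤ) * L₁ := by
  obtain ⟨C, hC, hz⟩ := zest_ab
  refine ⟨C, hC, ?_⟩
  intro w τ c₁ c₂ d₁ d₂ N N' d n I a b a' b' h hI L₁ L₂ K K' T p hK1 hK hK1' hK' hL₁ hL₂ hp hT
  have hf := fake (N := I) h.h.w0 h.h.im h.h.cm (by omega)
  obtain ⟨G, R, α, g⟩ := exists_GX2 h L₁ L₂ K K' hK1 hK hK1' hK' p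
  have hG0 : G ≠ 0 := G2_ne h hK hK' hp g
  have s := YFin_fd h hI hK1 hK hK1' hK' L₁ L₂ p
  have s' := YFin_fd h.rot hI hK1 hK hK1' hK' L₂ L₁ (fun j i k l => p i j k l)
  have hrot := FF2_rot h L₁ L₂ K K' p
  have g' := GX.rot hf g (fun z => FF2_neg h L₁ L₂ K K' p z) (fun z => gen2_neg h z) hrot
  have e1 : Gam2 (w * τ) (-1 / τ) c₁ c₂ d₁ d₂ b (-a) b' (-a') =
      rotS (Gam2 w τ c₁ c₂ d₁ d₂ a b a' b') := Set.ext fun z => gam2_rot h z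
  have e2 : Gen2 (w * τ) (-1 / τ) c₁ c₂ d₁ d₂ b (-a) b' (-a') =
      rotS (Gen2 w τ c₁ c₂ d₁ d₂ a b a' b') := Set.ext fun z => gen2_rot h z
  rw [e1, e2] at s'
  have hI5 : 1 ≤ 64 * I ^ 5 := by
    have : 0 < I ^ 5 := pow_pos (by omega) 5
    omega
  exact hz w τ (w + w * τ) (I * (w * τ)) I 1 1 hf hI _ _ _ _ _ L₁ L₂ (64 * I ^ 5) T G R α
    (gam2_pgp h) s g hG0 s' g' hrot hI5 hL₁ hL₂ hT

end Pool.Agent.LGO.F3
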