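import Pool.Agent.LGO.F3.EEng
import Pool.Agent.LGO.F3.YFin

/-!
# LGO/F3 (note 3121): Engine P3, the statement `EngP3`
-/

namespace Pool.Agent.LGO.F3

/-- **Engine P3** -/
theorem engine_P3 : EngP3 := by
  obtain ⟨Cz, hCz, hz⟩ := zest2
  exact engineP3 hCz hz

end Pool.Agent.LGO.F3
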