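import Pool.Agent.LGO.F3.ESmall
import Pool.Agent.LGO.F.PRow

/-!
# LGO/F3, engine P3: the hypothesis `hbd` of `pl_main` (copy of `F/PRow.lean`)
-/

namespace Pool.Agent.LGO.F3

open Polynomial Pool.Agent.Schn Pool.Agent.LGO.E3 Pool.Agent.LGO.F.PE

variable {L₁ L₂ L₃ L₄ : ℕ}

/-- if all functionals up to level `m` vanish, so does the form -/
theorem fr4_zero {U₁ U₂ U₃ U₄ : PowerSeries ℂ} {l₁ l₂ k₁ k₂ : ℂ} {p : Ix4 L₁ L₂ L₃ L₄ → ℂ}
    {m : ℕ} (h : ∀ i ≤ m, cc4 U₁ U₂ U₃ U₄ l₁ l₂ k₁ k₂ L₁ L₂ L₃ L₄ m i p = 0) :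
    fr4 U₁ U₂ U₃ U₄ l₁ l₂ k₁ k₂ p m = 0 := by
  ext i
  rw [coeff_zero]
  by_cases hi : i ≤ m
  · exact h i hi
  · exact coeff_eq_zero_of_natDegree_lt
      ((natDegree_fr4 U₁ U₂ U₃ U₄ l₁ l₂ k₁ k₂ p m).trans_lt (by omega))

/-- the sizes of the exponents -/
structure Sz (N N' n I : ℕ) : Prop where
  I1 : 1 ≤ I
  eI : I = N * n
  nN : N ≤ I
  nn : n ≤ I
  N2 : N * N ≤ I ^ 2
  n2 : n * N' ≤ I ^ 2

theorem row4 {c G : ℝ} {N N' n I θ : ℕ} {w τ η η' l₁ l₂ k₁ k₂ : ℂ} {U₁ U₃ U₄ : PowerSeries ℂ}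
    {s₁ e₁ s₂ e₂ s₃ e₃ s₄ e₄ : ℂ → ℂ}
    (h : AD4 c G N N' w τ η η' l₁ l₂ k₁ k₂ U₁ U₃ U₄ s₁ e₁ s₂ e₂ s₃ e₃ s₄ e₄) (hc : 1 ≤ c)
    (hG : 0 ≤ G) (hZ : Sz N N' n I) (hθ : 1 ≤ θ) (hi : 0 < τ.im) (hτθ : τ.im ≤ θ)
    (hθτ : (θ : ℝ) ≤ 3 * τ.im) {m T : ℕ} (hm : m ≤ T)
    (p : Ix4 (64 * I ^ 5 * θ ^ 2) (64 * I ^ 5) N n → ℂ) (hp : ∑ q, ‖p q‖ ^ 2 = 1)
    (h0 : ∀ m' < m, ∀ i ≤ m', cc4 U₁ U₁ U₃ U₄ l₁ l₂ k₁ k₂ (64 * I ^ 5 * θ ^ 2) (64 * I ^ 5) N n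
      m' i p = 0)
    {t W : ℝ} (ht : t = 64 * I ^ 5 * θ) (hW : W = t ^ 2 * I) :
    ∃ x : ℕ → ℂ, (∀ i ≤ m, cc4 U₁ U₁ U₃ U₄ l₁ l₂ k₁ k₂ (64 * I ^ 5 * θ ^ 2) (64 * I ^ 5) N n
        m i p = ∑ j ∈ Finset.range (m + 1), x j * Bb τ j i) ∧
      ∀ j ≤ m, ‖x j‖ ≤ Real.exp ((3 * (540 * c) * t * θ ^ 2 + Real.log W + 4 * t * θ * G +
        (4 * G + 1) * T) - 1 / (16 * (540 * c) * t) * ((m : ℝ) - j) ^ 2) := by
  have hI' : (1 : ℝ) ≤ I := by exact_mod_cast hZ.I1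
  have hθ' : (1 : ℝ) ≤ θ := by exact_mod_cast hθ
  obtain ⟨s, hs⟩ : ∃ s : ℝ, s = 64 * (I : ℝ) ^ 5 := ⟨_, rfl⟩
  have hI5 : (1 : ℝ) ≤ (I : ℝ) ^ 5 := one_le_pow₀ hI'
  have hs1 : (1 : ℝ) ≤ s := by rw [hs]; linarith
  have ht' : t = s * θ := by rw [ht, hs]
  have ht1 : 1 ≤ t := by rw [ht']; exact one_le_mul_of_one_le_of_one_le hs1 hθ'
  have hW1 : 1 ≤ W := by rw [hW]; exact one_le_mul_of_one_le_of_one_le (one_le_pow₀ ht1) hI'
  have hw0 : w ≠ 0 := norm_pos_iff.1 ((Real.exp_pos _).trans_le h.ad.w₁.1)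
  have hwτ : w * τ / w = τ := by field_simp
  refine ⟨fun j => (taylor τ (fr4 U₁ U₁ U₃ U₄ l₁ l₂ k₁ k₂ p m)).coeff j, fun i _ => ?_,
    fun j hj => ?_⟩
  · rw [cc4_apply]
    exact coeff_taylor_sum _ τ m (natDegree_fr4 _ _ _ _ _ _ _ _ p m) i
  · have hlow : ∀ k < m, fr4 U₁ U₁ U₃ U₄ l₁ l₂ k₁ k₂ p k = 0 := fun k hk => fr4_zero (h0 k hk)
    obtain ⟨S, hS1, hS⟩ := row_S (A := 540 * c * t) (θ := θ) (d := (m : ℝ) - j) (by positivity) hθ'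
      (by rw [sub_nonneg]; exact_mod_cast hj)
    have hSr : (1 : ℝ) ≤ S := by exact_mod_cast hS1
    have hSS : (S : ℝ) ≤ (S : ℝ) ^ 2 := by nlinarith
    have key := smallc4 h.ad.loc₁ h.ad.loc₂ h.ad.loc₃ h.loc₄ hG h.ad.gr₁ h.ad.gr₂ h.ad.gr₃ h.gr₄
      h.ad.w₁ h.ad.w₂ h.ad.w₃ h.w₄ h.ad.hl₂ h.hk₂ h.ad.rel h.rel' p m
      hlow S hS1 (by positivity) (by positivity) (by positivity) (by positivity) j hj
    rw [hwτ] at key
    refine key.trans ?_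
    -- the sum of the coefficients
    have hcard : ((Fintype.card (Ix4 (64 * I ^ 5 * θ ^ 2) (64 * I ^ 5) N n) : ℕ) : ℝ) = W := by
      rw [Fintype.card_prod, Fintype.card_prod, Fintype.card_prod, Fintype.card_fin,
        Fintype.card_fin, Fintype.card_fin, Fintype.card_fin, hW, ht, ← hZ.eI]
      push_cast
      ring
    have hP : ∑ q, ‖p q‖ ≤ W := by
      have h1 : ∀ q, ‖p q‖ ≤ 1 := by
        intro q
        have h2 : ‖p q‖ ^ 2 ≤ 1 := by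
          rw [← hp]
          exact Finset.single_le_sum (f := fun q => ‖p q‖ ^ 2) (fun _ _ => by positivity)
            (Finset.mem_univ q)
        have := norm_nonneg (p q)
        nlinarith
      calc ∑ q, ‖p q‖ ≤ ∑ _q : Ix4 (64 * I ^ 5 * θ ^ 2) (64 * I ^ 5) N n, (1 : ℝ) :=
            Finset.sum_le_sum fun q _ => h1 q
        _ = W := by rw [Finset.sum_const, Finset.card_univ, nsmul_eq_mul, mul_one, hcard]
    have hPW : ∑ q, ‖p q‖ ≤ Real.exp (Real.log W) := by rwa [Real.exp_log (by linarith)]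
    have h2pow : (2 : ℝ) ^ (2 * S * (m - j)) =
        Real.exp (2 * S * ((m : ℝ) - j) * Real.log 2) := by
      have e : ((2 * S * (m - j) : ℕ) : ℝ) = 2 * S * ((m : ℝ) - j) := by
        rw [Nat.cast_mul, Nat.cast_sub hj]
        push_cast
        ring
      rw [← e, Real.exp_nat_mul, Real.exp_log (by norm_num)]
    rw [h2pow, div_le_iff₀ (Real.exp_pos _), ← Real.exp_add]
    refine (mul_le_mul_of_nonneg_right hPW (Real.exp_pos _).le).trans ?_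
    rw [← Real.exp_add]
    apply Real.exp_le_exp.2
    -- growth
    have hst : s ≤ t := by rw [ht']; nlinarith
    have hc0 : 0 < c := by linarith
    have hs0 : 0 < s := by linarith
    have c1 : ((64 * I ^ 5 * θ ^ 2 : ℕ) : ℝ) = s * θ ^ 2 := by rw [hs]; push_cast; ring
    have c2 : ((64 * I ^ 5 : ℕ) : ℝ) = s := by rw [hs]; push_cast; ring
    have a1 : s * θ ^ 2 * (c * ((9 * (S : ℝ)) ^ 2 / τ.im + 9 * S) + G) ≤
        243 * c * t * S ^ 2 + 9 * c * t * (θ * S) + t * θ * G := by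
      have b1 : (θ : ℝ) / τ.im ≤ 3 := by rw [div_le_iff₀ hi]; exact hθτ
      have b2 : s * θ ^ 2 * (c * ((9 * (S : ℝ)) ^ 2 / τ.im + 9 * S) + G) =
          81 * c * t * S ^ 2 * (θ / τ.im) + 9 * c * t * (θ * S) + t * θ * G := by
        rw [ht']
        field_simp
        ring
      have b3 : 81 * c * t * S ^ 2 * (θ / τ.im) ≤ 81 * c * t * S ^ 2 * 3 :=
        mul_le_mul_of_nonneg_left b1 (by positivity)
      rw [b2]
      linarith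
    have b9 : (9 * (S : ℝ)) ^ 2 + 9 * S ≤ 90 * S ^ 2 := by nlinarith
    have htG : t * G ≤ t * θ * G := by
      apply mul_le_mul_of_nonneg_right _ hG
      nlinarith
    have a2 : s * (c * τ.im * ((9 * (S : ℝ)) ^ 2 + 9 * S) + G) ≤
        90 * c * t * S ^ 2 + t * θ * G := by
      have b2 : s * τ.im ≤ t := by
        rw [ht']
        exact mul_le_mul_of_nonneg_left hτθ hs0.le
      have b3 : s * τ.im * (c * ((9 * (S : ℝ)) ^ 2 + 9 * S)) ≤ t * (c * (90 * S ^ 2)) := by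
        gcongr
      have b4 : s * G ≤ t * θ * G := (mul_le_mul_of_nonneg_right hst hG).trans htG
      nlinarith
    have hI2s : (I : ℝ) ^ 2 ≤ s := by
      have : (I : ℝ) ^ 2 ≤ (I : ℝ) ^ 5 := pow_le_pow_right₀ hI' (by norm_num)
      rw [hs]
      linarith
    have hIs : (I : ℝ) ≤ s := by
      have : (I : ℝ) ≤ (I : ℝ) ^ 2 := by nlinarith
      linarith
    have hI2t : (I : ℝ) ^ 2 * τ.im ≤ t := by
      rw [ht']
      exact mul_le_mul hI2s hτθ hi.le hs0.le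
    have hIt : (I : ℝ) * G ≤ t * θ * G :=
      (mul_le_mul_of_nonneg_right (hIs.trans hst) hG).trans htG
    have a3 : (N : ℝ) * (c * N * τ.im * ((9 * (S : ℝ)) ^ 2 + 9 * S) + G) ≤
        90 * c * t * S ^ 2 + t * θ * G := by
      have b0 : (N : ℝ) * N ≤ (I : ℝ) ^ 2 := by exact_mod_cast hZ.N2
      have b0' : (N : ℝ) ≤ I := by exact_mod_cast hZ.nN
      have b3 : (N : ℝ) * N * τ.im * (c * ((9 * (S : ℝ)) ^ 2 + 9 * S)) ≤
          t * (c * (90 * S ^ 2)) := by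
        have : (N : ℝ) * N * τ.im ≤ t := (mul_le_mul_of_nonneg_right b0 hi.le).trans hI2t
        gcongr
      have b4 : (N : ℝ) * G ≤ t * θ * G := (mul_le_mul_of_nonneg_right b0' hG).trans hIt
      nlinarith
    have a3' : (n : ℝ) * (c * N' * τ.im * ((9 * (S : ℝ)) ^ 2 + 9 * S) + G) ≤
        90 * c * t * S ^ 2 + t * θ * G := by
      have b0 : (n : ℝ) * N' ≤ (I : ℝ) ^ 2 := by exact_mod_cast hZ.n2
      have b0' : (n : ℝ) ≤ I := by exact_mod_cast hZ.nn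
      have b3 : (n : ℝ) * N' * τ.im * (c * ((9 * (S : ℝ)) ^ 2 + 9 * S)) ≤
          t * (c * (90 * S ^ 2)) := by
        have : (n : ℝ) * N' * τ.im ≤ t := (mul_le_mul_of_nonneg_right b0 hi.le).trans hI2t
        gcongr
      have b4 : (n : ℝ) * G ≤ t * θ * G := (mul_le_mul_of_nonneg_right b0' hG).trans hIt
      nlinarith
    have a4 : (4 * G + 1) * (m : ℝ) ≤ (4 * G + 1) * T := by
      have : (m : ℝ) ≤ T := by exact_mod_cast hm
      gcongr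
    have a5 : 513 * c * t * S ^ 2 + 9 * c * t * (θ * S) ≤ 540 * c * t * ((S : ℝ) ^ 2 + θ * S) := by
      have : 0 ≤ c * t * (S : ℝ) ^ 2 := by positivity
      have : 0 ≤ c * t * (θ * S) := by positivity
      nlinarith
    have a6 : ((m : ℝ) - j) ^ 2 / (16 * (540 * c * t)) =
        1 / (16 * (540 * c) * t) * ((m : ℝ) - j) ^ 2 := by
      field_simp
    rw [a6] at hS
    rw [c1, c2]
    linarith

end Pool.Agent.LGO.F3
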