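import Pool.Agent.LGO.F3.EVan
import Pool.Agent.LGO.F3.ERow
import Pool.Agent.LGO.F3.YPts

/-!
# LGO/F3, engine P3: the functionals of level `≤ T` separate, from the zero estimate (copy of `F/PInj.lean`)
-/

namespace Pool.Agent.LGO.F3

open Pool.Agent.Schn Pool.Agent.LGO.E3 Pool.Agent.EllSch Pool.Agent.LGO.Bs Pool.Agent.LGO.F
  Pool.Agent.LGO.F.PE

theorem inj4 {Cz : ℕ} (hCz : 1 ≤ Cz) (hz : ZEst2 Cz) {w τ c₁ c₂ d₁ d₂ μ μ' e₁ e₂ f₁ f₂ : ℂ}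
    {N N' d n I θ r : ℕ} {a b a' b' : ℤ} {Y : ℝ}
    (h : ZD2 w τ c₁ c₂ d₁ d₂ N N' d n I a b a' b') (hn : 1 ≤ n) (h16 : 16 ≤ I) (hμ : μ ≠ 0)
    (hμ' : μ' ≠ 0) (he₁ : e₁ = μ * c₁) (he₂ : e₂ = μ * c₂) (hf₁ : f₁ = μ' * d₁)
    (hf₂ : f₂ = μ' * d₂)
    (hθ : 1 ≤ θ) (hτθ : τ.im ≤ θ) (hθτ : (θ : ℝ) ≤ 3 * τ.im) (hY0 : 0 ≤ Y)
    (hY : ∀ (P Q : ℤ) (g : ℕ), IsCoprime P Q → 1 ≤ g → g ∣ I →
      (∀ r1 s1 r2 s2 : ℤ, (N : ℤ) ∣ a * (a * s1 + b * s2) - b * (a * r1 + b * r2) →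
        (N' : ℤ) ∣ a' * (a' * s1 + b' * s2) - b' * (a' * r1 + b' * r2) →
        (g : ℤ) ∣ Q * (P * s2 - Q * s1) + P * (P * r2 - Q * r1)) →
      (g : ℝ) ≤ Y * (P ^ 2 * τ.im + Q ^ 2 / τ.im))
    (hr : I ≤ r ^ 2) (h1 : 2 * θ ≤ r) (h2 : 4 * Y ≤ r) {T : ℕ}
    (hT : T = Cz * (64 * I ^ 5 * θ) * r)
    (p : Ix4 (64 * I ^ 5 * θ ^ 2) (64 * I ^ 5) N n → ℂ)
    (hp : ∀ m ≤ T, ∀ i ≤ m, cc4 (us (3 / 2 * G2 w (w * τ)) (2 * G3 w (w * τ)))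
      (us (3 / 2 * G2 w (w * τ)) (2 * G3 w (w * τ))) (us (3 / 2 * G2 e₁ e₂) (2 * G3 e₁ e₂))
      (us (3 / 2 * G2 f₁ f₂) (2 * G3 f₁ f₂))
      (μ * a) (μ * b) (μ' * a') (μ' * b') (64 * I ^ 5 * θ ^ 2) (64 * I ^ 5) N n m i p = 0) :
    p = 0 := by
  by_contra hne
  obtain ⟨q, hq⟩ : ∃ q, p q ≠ 0 := by
    by_contra hcon
    push Not at hcon
    exact hne (funext hcon)
  have hvan := van4 h hμ hμ' he₁ he₂ hf₁ hf₂ T p fun m hm => fr4_zero (hp m hm)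
  have hN := h.h.N1
  have hθ2 : 1 ≤ θ ^ 2 := Nat.one_le_pow _ _ hθ
  obtain ⟨s, hs⟩ : ∃ s : ℕ, s = 64 * I ^ 5 := ⟨_, rfl⟩
  have hex : ∃ i < 64 * I ^ 5 * θ ^ 2, ∃ j < 64 * I ^ 5, ∃ k < N, ∃ l < n,
      pz4 μ μ' p i j k l ≠ 0 := by
    refine ⟨q.1, q.1.2, q.2.1, q.2.1.2, q.2.2.1, q.2.2.1.2, q.2.2.2, q.2.2.2.2, ?_⟩
    have e : pz4 μ μ' p q.1 q.2.1 q.2.2.1 q.2.2.2 =
        p q * μ ^ (2 * (q.2.2.1 : ℕ)) * μ' ^ (2 * (q.2.2.2 : ℕ)) := by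
      rw [pz4, dif_pos ⟨q.1.2, q.2.1.2, q.2.2.1.2, q.2.2.2.2⟩]
    rw [e]
    exact mul_ne_zero (mul_ne_zero hq (pow_ne_zero _ hμ)) (pow_ne_zero _ hμ')
  have hiN : 0 < τ.im := h.h.im
  rcases hz w τ c₁ c₂ d₁ d₂ N N' d n I a b a' b' h h16 (64 * I ^ 5 * θ ^ 2) (64 * I ^ 5) N n
    (T + 1) (pz4 μ μ' p) hN le_rfl hn le_rfl
    (Nat.le_mul_of_pos_right _ (by positivity)) le_rfl hex hvan with
    hc | hc | ⟨P, Q, g, hPQ, hg1, hgI, hsl, hP, hQ⟩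
  · -- first case
    have e1 : T ^ 2 = Cz ^ 2 * (64 * I ^ 5 * θ) ^ 2 * r ^ 2 := by rw [hT]; ring
    have e2 : Cz * I * (64 * I ^ 5 * θ ^ 2) * (64 * I ^ 5) = Cz * (64 * I ^ 5 * θ) ^ 2 * I := by
      ring
    rw [e2] at hc
    have e3 : Cz * (64 * I ^ 5 * θ) ^ 2 * I ≤ T ^ 2 := by
      rw [e1]
      have : Cz ≤ Cz ^ 2 := Nat.le_self_pow (by norm_num) Cz
      gcongr
    nlinarith
  · -- second case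
    have e1 : 64 * I ^ 5 * θ ^ 2 + 64 * I ^ 5 ≤ 64 * I ^ 5 * θ * (2 * θ) := by
      nlinarith [Nat.zero_le (64 * I ^ 5)]
    have e2 : Cz * (64 * I ^ 5 * θ ^ 2 + 64 * I ^ 5) ≤ T := by
      calc Cz * (64 * I ^ 5 * θ ^ 2 + 64 * I ^ 5) ≤ Cz * (64 * I ^ 5 * θ * (2 * θ)) :=
            Nat.mul_le_mul_left _ e1
        _ ≤ Cz * (64 * I ^ 5 * θ * r) := by gcongr
        _ = T := by rw [hT]; ring
    omega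
  · -- third case
    have hg := hY P Q g hPQ hg1 hgI fun r1 s1 r2 s2 k1 k2 => sl_coord h hsl r1 s1 r2 s2 k1 k2
    have hg0 : (0 : ℝ) < g := by exact_mod_cast hg1
    have hP' : ((T : ℝ) + 1) * (P : ℝ) ^ 2 ≤ Cz * g * (64 * I ^ 5) := by
      exact_mod_cast hP
    have hQ' : ((T : ℝ) + 1) * (Q : ℝ) ^ 2 ≤ Cz * g * (64 * I ^ 5 * θ ^ 2) := by
      exact_mod_cast hQ
    have hCr : (0 : ℝ) ≤ Cz * g * (64 * I ^ 5) := by positivity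
    have hT1 : (0 : ℝ) ≤ (T : ℝ) + 1 := by positivity
    have k1 : ((T : ℝ) + 1) * (P : ℝ) ^ 2 * τ.im ≤ Cz * g * (64 * I ^ 5) * θ := by
      calc ((T : ℝ) + 1) * (P : ℝ) ^ 2 * τ.im ≤ Cz * g * (64 * I ^ 5) * τ.im :=
            mul_le_mul_of_nonneg_right hP' hiN.le
        _ ≤ _ := mul_le_mul_of_nonneg_left hτθ hCr
    have k2 : ((T : ℝ) + 1) * (Q : ℝ) ^ 2 / τ.im ≤ 3 * (Cz * g * (64 * I ^ 5) * θ) := by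
      rw [div_le_iff₀ hiN]
      calc ((T : ℝ) + 1) * (Q : ℝ) ^ 2 ≤ Cz * g * (64 * I ^ 5 * θ ^ 2) := hQ'
        _ = Cz * g * (64 * I ^ 5) * θ * θ := by ring
        _ ≤ Cz * g * (64 * I ^ 5) * θ * (3 * τ.im) := by gcongr
        _ = _ := by ring
    have k3 : ((T : ℝ) + 1) * g ≤ 4 * Y * (Cz * g * (64 * I ^ 5) * θ) := by
      calc ((T : ℝ) + 1) * g ≤ ((T : ℝ) + 1) * (Y * (P ^ 2 * τ.im + Q ^ 2 / τ.im)) :=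
            mul_le_mul_of_nonneg_left hg hT1
        _ = Y * (((T : ℝ) + 1) * (P : ℝ) ^ 2 * τ.im + ((T : ℝ) + 1) * (Q : ℝ) ^ 2 / τ.im) := by
            ring
        _ ≤ Y * (Cz * g * (64 * I ^ 5) * θ + 3 * (Cz * g * (64 * I ^ 5) * θ)) := by gcongr
        _ = _ := by ring
    have k4 : ((T : ℝ) + 1) ≤ 4 * Y * (Cz * (64 * I ^ 5) * θ) := by
      refine le_of_mul_le_mul_right ?_ hg0
      calc ((T : ℝ) + 1) * g ≤ 4 * Y * (Cz * g * (64 * I ^ 5) * θ) := k3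
        _ = _ := by ring
    have k5 : 4 * Y * (Cz * (64 * I ^ 5) * θ) ≤ (T : ℝ) := by
      rw [hT]
      push_cast
      calc 4 * Y * (Cz * (64 * (I : ℝ) ^ 5) * θ) ≤ r * (Cz * (64 * (I : ℝ) ^ 5) * θ) := by gcongr
        _ = _ := by ring
    linarith

end Pool.Agent.LGO.F3
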