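import Pool.Agent.LGO.F.PTwo
import Pool.Agent.LGO.F3.ESer
import Pool.Agent.LGO.F3.EBnd
import Pool.Agent.LGO.E3.Unif

/-!
# LGO/F3, engine P3: the Taylor coefficients of the leading form at `θ = w₂ / w₁` are small (copy of `F/PSmall.lean`)
-/

namespace Pool.Agent.LGO.F3

open Polynomial Pool.Agent.Schn Pool.Agent.LGO.E3 Pool.Agent.LGO.F.PE

variable {L₁ L₂ L₃ L₄ : ℕ}

theorem natDegree_fr4 (U₁ U₂ U₃ U₄ : PowerSeries ℂ) (l₁ l₂ k₁ k₂ : ℂ)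
    (p : Ix4 L₁ L₂ L₃ L₄ → ℂ) (m : ℕ) :
    (fr4 U₁ U₂ U₃ U₄ l₁ l₂ k₁ k₂ p m).natDegree ≤ m := by
  refine natDegree_sum_le_of_forall_le _ _ fun q _ => ?_
  exact (natDegree_C_mul_le _ _).trans
    (natDegree_dirS4 U₁ U₂ U₃ U₄ l₁ l₂ k₁ k₂ _ _ _ _ m)

private theorem kap_le {G : ℝ} {l w w' : ℂ} (hl : ‖l‖ ≤ Real.exp G) (hw : ‖w‖ ≤ Real.exp G)
    (hw' : Real.exp (-G) ≤ ‖w'‖) : ‖l * w / w'‖ ≤ Real.exp (3 * G) := by
  have h0 : 0 < ‖w'‖ := (Real.exp_pos _).trans_le hw'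
  rw [norm_div, norm_mul, div_le_iff₀ h0]
  calc ‖l‖ * ‖w‖ ≤ Real.exp G * Real.exp G :=
        mul_le_mul hl hw (norm_nonneg _) (Real.exp_pos _).le
    _ = Real.exp (3 * G) * Real.exp (-G) := by
        rw [← Real.exp_add, ← Real.exp_add]
        congr 1
        ring
    _ ≤ Real.exp (3 * G) * ‖w'‖ := mul_le_mul_of_nonneg_left hw' (Real.exp_pos _).le

theorem smallc4 {w₁ w₂ w₃ w₄ l₁ l₂ k₁ k₂ : ℂ} {U₁ U₂ U₃ U₄ : PowerSeries ℂ}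
    {s₁ e₁ s₂ e₂ s₃ e₃ s₄ e₄ : ℂ → ℂ}
    (h₁ : Loc w₁ U₁ s₁ e₁) (h₂ : Loc w₂ U₂ s₂ e₂) (h₃ : Loc w₃ U₃ s₃ e₃)
    (h₄ : Loc w₄ U₄ s₄ e₄) {G : ℝ} {E₁ E₂ E₃ E₄ : ℝ → ℝ} (hG : 0 ≤ G) (g₁ : Grf E₁ s₁ e₁)
    (g₂ : Grf E₂ s₂ e₂) (g₃ : Grf E₃ s₃ e₃) (g₄ : Grf E₄ s₄ e₄)
    (hw₁ : Real.exp (-G) ≤ ‖w₁‖ ∧ ‖w₁‖ ≤ Real.exp G)
    (hw₂ : Real.exp (-G) ≤ ‖w₂‖ ∧ ‖w₂‖ ≤ Real.exp G)
    (hw₃ : Real.exp (-G) ≤ ‖w₃‖ ∧ ‖w₃‖ ≤ Real.exp G)
    (hw₄ : Real.exp (-G) ≤ ‖w₄‖ ∧ ‖w₄‖ ≤ Real.exp G) (hl₂ : ‖l₂‖ ≤ Real.exp G)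
    (hk₂ : ‖k₂‖ ≤ Real.exp G)
    (hl : l₁ * w₁ + l₂ * w₂ = w₃) (hk : k₁ * w₁ + k₂ * w₂ = w₄) (p : Ix4 L₁ L₂ L₃ L₄ → ℂ)
    (O : ℕ) (hlow : ∀ k < O, fr4 U₁ U₂ U₃ U₄ l₁ l₂ k₁ k₂ p k = 0) (S : ℕ) (hS : 1 ≤ S)
    (h₁0 : 0 ≤ E₁ (9 * S)) (h₂0 : 0 ≤ E₂ (9 * S)) (h₃0 : 0 ≤ E₃ (9 * S))
    (h₄0 : 0 ≤ E₄ (9 * S)) (j : ℕ) (hjO : j ≤ O) :
    ‖(taylor (w₂ / w₁) (fr4 U₁ U₂ U₃ U₄ l₁ l₂ k₁ k₂ p O)).coeff j‖ ≤
      (∑ q, ‖p q‖) * Real.exp (L₁ * E₁ (9 * S) + L₂ * E₂ (9 * S) + L₃ * E₃ (9 * S) +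
        L₄ * E₄ (9 * S) + (4 * G + 1) * O) / 2 ^ (2 * S * (O - j)) := by
  have hw1n : 0 < ‖w₁‖ := (Real.exp_pos _).trans_le hw₁.1
  have hw2n : 0 < ‖w₂‖ := (Real.exp_pos _).trans_le hw₂.1
  have hw3n : 0 < ‖w₃‖ := (Real.exp_pos _).trans_le hw₃.1
  have hw4n : 0 < ‖w₄‖ := (Real.exp_pos _).trans_le hw₄.1
  have hw10 : w₁ ≠ 0 := norm_pos_iff.1 hw1n
  have hw20 : w₂ ≠ 0 := norm_pos_iff.1 hw2n
  have hw30 : w₃ ≠ 0 := norm_pos_iff.1 hw3n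
  have hw40 : w₄ ≠ 0 := norm_pos_iff.1 hw4n
  have hdeg := natDegree_fr4 U₁ U₂ U₃ U₄ l₁ l₂ k₁ k₂ p O
  set f : ℂ[X] := fr4 U₁ U₂ U₃ U₄ l₁ l₂ k₁ k₂ p O with hf
  set θ : ℂ := w₂ / w₁ with hθ
  have hκb : ‖l₂ * w₂ / w₃‖ ≤ Real.exp (3 * G) := kap_le hl₂ hw₂.2 hw₃.1
  have hκb' : ‖k₂ * w₂ / w₄‖ ≤ Real.exp (3 * G) := kap_le hk₂ hw₂.2 hw₄.1
  set κ : ℂ := l₂ * w₂ / w₃ with hκ
  set κ' : ℂ := k₂ * w₂ / w₄ with hκ'
  set q : ℕ → ℂ := fun i => w₁ ^ O * θ ^ i * (taylor θ f).coeff i with hq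
  obtain ⟨hF, hper⟩ := analytic_Fc4 h₁ h₂ h₃ h₄ κ κ' p
  -- the coefficients along a line
  have hco : ∀ η : ℂ, (∀ k < O, PowerSeries.coeff k
      (tay fun t => Fc4 s₁ e₁ s₂ e₂ s₃ e₃ s₄ e₄ κ κ' p (t, η * t)) = 0) ∧
      PowerSeries.coeff O (tay fun t => Fc4 s₁ e₁ s₂ e₂ s₃ e₃ s₄ e₄ κ κ' p (t, η * t)) =
        ∑ i ∈ Finset.range (O + 1), q i * η ^ i := by
    intro η
    obtain ⟨V, hV, hT⟩ := tay_Fc4 h₁ h₂ h₃ h₄ hw10 hw30 hw40 hl hk p η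
    have hz : ∀ k < O, PowerSeries.coeff k (PowerSeries.rescale w₁
        (PowerSeries.mk fun k =>
          (fr4 U₁ U₂ U₃ U₄ l₁ l₂ k₁ k₂ p k).eval (w₂ * (1 + η) / w₁))) = 0 := by
      intro k hk
      rw [PowerSeries.coeff_rescale, PowerSeries.coeff_mk, hlow k hk, eval_zero, mul_zero]
    constructor
    · intro k hk
      rw [hT, PowerSeries.coeff_mul]
      refine Finset.sum_eq_zero fun x hx => ?_
      have hx2 : x.1 + x.2 = k := Finset.HasAntidiagonal.mem_antidiagonal.1 hx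
      rw [hz x.2 (by omega), mul_zero]
    · rw [hT, PowerSeries.coeff_mul, Finset.sum_eq_single ((0, O) : ℕ × ℕ)]
      · rw [PowerSeries.coeff_zero_eq_constantCoeff_apply, hV, one_mul, PowerSeries.coeff_rescale,
          PowerSeries.coeff_mk]
        have hx : w₂ * (1 + η) / w₁ = θ * η + θ := by rw [hθ]; ring
        have he : f.eval (w₂ * (1 + η) / w₁) = (taylor θ f).eval (θ * η) := by
          rw [taylor_eval, hx]
        have hn : (taylor θ f).natDegree < O + 1 := by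
          rw [natDegree_taylor]
          omega
        rw [← hf, he, eval_eq_sum_range' hn, Finset.mul_sum]
        refine Finset.sum_congr rfl fun i _ => ?_
        simp only [hq]
        rw [mul_pow]
        ring
      · intro x hx hne
        have hx2 : x.1 + x.2 = O := Finset.HasAntidiagonal.mem_antidiagonal.1 hx
        have hlt : x.2 < O := by
          rcases Nat.lt_or_ge x.2 O with h | h
          · exact h
          · exact absurd (Prod.ext (by simp; omega) (by simp; omega)) hne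
        rw [hz x.2 hlt, mul_zero]
      · intro h
        exact absurd (Finset.HasAntidiagonal.mem_antidiagonal.2 (Nat.zero_add O)) h
  have hloc := unif_taylor (Fc4 s₁ e₁ s₂ e₂ s₃ e₃ s₄ e₄ κ κ' p) hF O q
    (fun η _ k hk => (hco η).1 k hk) (fun η _ => (hco η).2)
  have hρ1 : (1 : ℝ) ≤ Real.exp (3 * G) := Real.one_le_exp (by linarith)
  have hρ0 : (0 : ℝ) < Real.exp (3 * G) := Real.exp_pos _
  have hmain := schwarz2b (Fc4 s₁ e₁ s₂ e₂ s₃ e₃ s₄ e₄ κ κ' p) hF hper O S hS q hloc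
    (1 / Real.exp (3 * G))
    ((∑ q, ‖p q‖) * Real.exp (L₁ * E₁ (9 * S) + L₂ * E₂ (9 * S) + L₃ * E₃ (9 * S) +
      L₄ * E₄ (9 * S))) (by positivity)
    (fun z v hz hv => bndc4 g₁ g₂ g₃ g₄ κ κ' p S hS h₁0 h₂0 h₃0 h₄0 hρ1 hκb hκb' z v hz hv) j hjO
  have hP : 0 ≤ ∑ q, ‖p q‖ := Finset.sum_nonneg fun _ _ => norm_nonneg _
  set P : ℝ := ∑ q, ‖p q‖ with hPdef
  set E : ℝ := L₁ * E₁ (9 * S) + L₂ * E₂ (9 * S) + L₃ * E₃ (9 * S) + L₄ * E₄ (9 * S) with hE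
  set B : ℝ := P * Real.exp E with hB
  have hB0 : 0 ≤ B := by positivity
  -- lower bound for `q j`
  have hlow2 : Real.exp (-G * O) * ‖(taylor θ f).coeff j‖ ≤ ‖q j‖ := by
    have h1 : ‖q j‖ = ‖w₁‖ ^ (O - j) * ‖w₂‖ ^ j * ‖(taylor θ f).coeff j‖ := by
      simp only [hq]
      rw [norm_mul, norm_mul, norm_pow, norm_pow, hθ, norm_div, div_pow]
      congr 1
      have h2 : ‖w₁‖ ^ O = ‖w₁‖ ^ (O - j) * ‖w₁‖ ^ j := by
        rw [← pow_add]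
        congr 1
        omega
      rw [h2]
      field_simp
    rw [h1]
    refine mul_le_mul_of_nonneg_right ?_ (norm_nonneg _)
    calc Real.exp (-G * O) = Real.exp (-G) ^ (O - j) * Real.exp (-G) ^ j := by
          rw [← pow_add, ← Real.exp_nat_mul]
          congr 1
          have h3 : O - j + j = O := by omega
          rw [h3]
          ring
      _ ≤ ‖w₁‖ ^ (O - j) * ‖w₂‖ ^ j := by
          gcongr
          · exact hw₁.1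
          · exact hw₂.1
  have hκj : Real.exp (3 * G) ^ j ≤ Real.exp ((3 * G + 1) * O) := by
    calc Real.exp (3 * G) ^ j = Real.exp (j * (3 * G)) := by rw [Real.exp_nat_mul]
      _ ≤ Real.exp ((3 * G + 1) * O) := by
          apply Real.exp_le_exp.2
          have : (j : ℝ) ≤ O := by exact_mod_cast hjO
          have h0 : (0 : ℝ) ≤ j := by positivity
          nlinarith
  have hq2 : ‖q j‖ ≤ B * Real.exp ((3 * G + 1) * O) / 2 ^ (2 * S * (O - j)) := by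
    refine hmain.trans ?_
    have h1 : B / (1 / Real.exp (3 * G)) ^ j = B * Real.exp (3 * G) ^ j := by
      rw [one_div, inv_pow, div_inv_eq_mul]
    rw [h1]
    gcongr
  have hfin : ‖(taylor θ f).coeff j‖ ≤ Real.exp (G * O) * ‖q j‖ := by
    calc ‖(taylor θ f).coeff j‖
        = Real.exp (G * O) * (Real.exp (-G * O) * ‖(taylor θ f).coeff j‖) := by
          rw [← mul_assoc, ← Real.exp_add]
          have : G * (O : ℝ) + -G * O = 0 := by ring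
          rw [this, Real.exp_zero, one_mul]
      _ ≤ Real.exp (G * O) * ‖q j‖ := mul_le_mul_of_nonneg_left hlow2 (Real.exp_pos _).le
  calc ‖(taylor θ f).coeff j‖ ≤ Real.exp (G * O) * ‖q j‖ := hfin
    _ ≤ Real.exp (G * O) * (B * Real.exp ((3 * G + 1) * O) / 2 ^ (2 * S * (O - j))) :=
        mul_le_mul_of_nonneg_left hq2 (Real.exp_pos _).le
    _ = P * Real.exp (E + (4 * G + 1) * O) / 2 ^ (2 * S * (O - j)) := by
        have h1 : Real.exp (E + (4 * G + 1) * O) =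
            Real.exp E * (Real.exp (G * O) * Real.exp ((3 * G + 1) * O)) := by
          rw [← Real.exp_add, ← Real.exp_add]
          congr 1
          ring
        rw [h1, hB]
        ring

end Pool.Agent.LGO.F3
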