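import Pool.Agent.LGO.F3.ESer
import Pool.Agent.LGO.F.PVan

/-!
# LGO/F3, engine P3: if the forms of degree `≤ T` vanish, the function `FF2` vanishes of order `T + 1` at `0`

PROOF.  Copy of `F/PVan.lean` (`van`): `FF2` is the sum over `Ix4` of
`p q * iu w (w τ) z.1 ^ q.1 * iu w (w τ) z.2 ^ q.2.1 * iu e₁ e₂ (μ (a z.1 + b z.2)) ^ q.2.2.1 * iu f₁ f₂ (μ' (a' z.1 + b' z.2)) ^ q.2.2.2`
(`FF2`: the outer sum is over `l`; reorder the finite sums; `pz4`); then `PVan_line` and `ser_fr4` exactly as `van`.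
-/

namespace Pool.Agent.LGO.F3

open Polynomial Pool.Agent.Schn Pool.Agent.LGO.E3 Pool.Agent.EllSch Pool.Agent.LGO.Mul
  Pool.Agent.LGO.Bs Pool.Agent.LGO.F Pool.Agent.LGO.F.PE Filter Topology Asymptotics

private theorem EVan_iu_smul {a b μ : ℂ} (hμ : μ ≠ 0) (z : ℂ) :
    iu (μ * a) (μ * b) (μ * z) = μ ^ 2 * iu a b z := by
  unfold iu
  rw [wp_smul hμ, inv_div, div_eq_mul_inv]

theorem van4 {w τ c₁ c₂ d₁ d₂ μ μ' e₁ e₂ f₁ f₂ : ℂ} {N N' d n I : ℕ} {a b a' b' : ℤ}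
    {L₁ L₂ L₃ L₄ : ℕ} (h : ZD2 w τ c₁ c₂ d₁ d₂ N N' d n I a b a' b')
    (hμ : μ ≠ 0) (hμ' : μ' ≠ 0) (he₁ : e₁ = μ * c₁) (he₂ : e₂ = μ * c₂) (hf₁ : f₁ = μ' * d₁)
    (hf₂ : f₂ = μ' * d₂) (T : ℕ) (p : Ix4 L₁ L₂ L₃ L₄ → ℂ)
    (hp : ∀ m ≤ T, fr4 (us (3 / 2 * G2 w (w * τ)) (2 * G3 w (w * τ)))
      (us (3 / 2 * G2 w (w * τ)) (2 * G3 w (w * τ))) (us (3 / 2 * G2 e₁ e₂) (2 * G3 e₁ e₂))
      (us (3 / 2 * G2 f₁ f₂) (2 * G3 f₁ f₂)) (μ * a) (μ * b) (μ' * a') (μ' * b') p m = 0) :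
    (FF2 w τ c₁ c₂ d₁ d₂ a b a' b' L₁ L₂ L₃ L₄ (pz4 μ μ' p)) =O[𝓝 0]
      (fun z => ‖z‖ ^ (T + 1)) := by
  subst he₁ he₂ hf₁ hf₂
  have hI : Ind w (w * τ) := h.h.ind1
  have hI' : Ind (μ * c₁) (μ * c₂) := ind_smul h.h.ind hμ
  have hI'' : Ind (μ' * d₁) (μ' * d₂) := ind_smul h.h'.ind hμ'
  have hF : FF2 w τ c₁ c₂ d₁ d₂ a b a' b' L₁ L₂ L₃ L₄ (pz4 μ μ' p) =
      fun z => ∑ q : Ix4 L₁ L₂ L₃ L₄, p q *
      (iu w (w * τ) z.1 ^ (q.1 : ℕ) * iu w (w * τ) z.2 ^ (q.2.1 : ℕ) *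
        iu (μ * c₁) (μ * c₂) (μ * (a * z.1 + b * z.2)) ^ (q.2.2.1 : ℕ) *
        iu (μ' * d₁) (μ' * d₂) (μ' * (a' * z.1 + b' * z.2)) ^ (q.2.2.2 : ℕ)) := by
    funext z
    unfold FF2 FF
    simp only [Finset.sum_mul]
    rw [Finset.sum_comm]
    rw [Finset.sum_range, Fintype.sum_prod_type]
    refine Finset.sum_congr rfl fun i _ => ?_
    rw [Finset.sum_comm]
    rw [Finset.sum_range, Fintype.sum_prod_type]
    refine Finset.sum_congr rfl fun j _ => ?_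
    rw [Finset.sum_comm]
    rw [Finset.sum_range, Fintype.sum_prod_type]
    refine Finset.sum_congr rfl fun k _ => ?_
    rw [Finset.sum_range]
    refine Finset.sum_congr rfl fun l _ => ?_
    rw [pz4, dif_pos ⟨i.2, j.2, k.2, l.2⟩, EVan_iu_smul hμ, EVan_iu_smul hμ', mul_pow, mul_pow,
      ← pow_mul, ← pow_mul]
    simp only [Fin.eta]
    ring
  rw [hF]
  have hg : ∀ {c d : ℂ} {g : ℂ × ℂ → ℂ}, Ind c d → AnalyticAt ℂ g 0 → g 0 = 0 →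
      AnalyticAt ℂ (fun z => iu c d (g z)) 0 := by
    intro c d g hcd hg h0
    have h1 : AnalyticAt ℂ (iu c d) (g 0) := by
      rw [h0]
      exact analyticAt_iu_zero hcd
    exact h1.comp hg
  have a1 : AnalyticAt ℂ (fun z : ℂ × ℂ => z.1) 0 := analyticAt_fst
  have a2 : AnalyticAt ℂ (fun z : ℂ × ℂ => z.2) 0 := analyticAt_snd
  have a3 : AnalyticAt ℂ (fun z : ℂ × ℂ => μ * (a * z.1 + b * z.2)) 0 :=
    analyticAt_const.mul ((analyticAt_const.mul a1).add (analyticAt_const.mul a2))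
  have a4 : AnalyticAt ℂ (fun z : ℂ × ℂ => μ' * (a' * z.1 + b' * z.2)) 0 :=
    analyticAt_const.mul ((analyticAt_const.mul a1).add (analyticAt_const.mul a2))
  refine PVan_line ?_ T fun y hy k hk => ?_
  · refine Finset.analyticAt_fun_sum _ fun q _ => ?_
    exact analyticAt_const.mul (((((hg hI a1 rfl).pow _).mul ((hg hI a2 rfl).pow _)).mul
      ((hg hI' a3 (by simp)).pow _)).mul ((hg hI'' a4 (by simp)).pow _))
  · obtain ⟨α, β⟩ := y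
    simp only at hy
    set x : ℂ := β / α with hx
    have hx1 : x * α = β := by rw [hx]; field_simp
    have hx2 : (μ * a + μ * b * x) * α = μ * (a * α + b * β) := by
      calc (μ * a + μ * b * x) * α = μ * a * α + μ * b * (x * α) := by ring
        _ = _ := by rw [hx1]; ring
    have hx3 : (μ' * a' + μ' * b' * x) * α = μ' * (a' * α + b' * β) := by
      calc (μ' * a' + μ' * b' * x) * α = μ' * a' * α + μ' * b' * (x * α) := by ring
        _ = _ := by rw [hx1]; ring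
    have e1 : (fun t : ℂ => ∑ q : Ix4 L₁ L₂ L₃ L₄, p q *
        (iu w (w * τ) (t • ((α, β) : ℂ × ℂ)).1 ^ (q.1 : ℕ) *
        iu w (w * τ) (t • ((α, β) : ℂ × ℂ)).2 ^ (q.2.1 : ℕ) *
        iu (μ * c₁) (μ * c₂) (μ * (a * (t • ((α, β) : ℂ × ℂ)).1 + b * (t • ((α, β) : ℂ × ℂ)).2)) ^
          (q.2.2.1 : ℕ) *
        iu (μ' * d₁) (μ' * d₂)
          (μ' * (a' * (t • ((α, β) : ℂ × ℂ)).1 + b' * (t • ((α, β) : ℂ × ℂ)).2)) ^
          (q.2.2.2 : ℕ))) =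
        fun t => ∑ q : Ix4 L₁ L₂ L₃ L₄, p q *
        (iu w (w * τ) (α * t) ^ (q.1 : ℕ) * iu w (w * τ) (β * t) ^ (q.2.1 : ℕ) *
        iu (μ * c₁) (μ * c₂) (μ * (a * α + b * β) * t) ^ (q.2.2.1 : ℕ) *
        iu (μ' * d₁) (μ' * d₂) (μ' * (a' * α + b' * β) * t) ^ (q.2.2.2 : ℕ)) := by
      funext t
      refine Finset.sum_congr rfl fun q _ => ?_
      have t1 : (t • ((α, β) : ℂ × ℂ)).1 = α * t := by simp [mul_comm]
      have t2 : (t • ((α, β) : ℂ × ℂ)).2 = β * t := by simp [mul_comm]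
      have t3 : μ * (a * (α * t) + b * (β * t)) = μ * (a * α + b * β) * t := by ring
      have t4 : μ' * (a' * (α * t) + b' * (β * t)) = μ' * (a' * α + b' * β) * t := by ring
      rw [t1, t2, t3, t4]
    rw [e1]
    have hT : ∀ q : Ix4 L₁ L₂ L₃ L₄, AnalyticAt ℂ (fun t => p q *
        (iu w (w * τ) (α * t) ^ (q.1 : ℕ) * iu w (w * τ) (β * t) ^ (q.2.1 : ℕ) *
        iu (μ * c₁) (μ * c₂) (μ * (a * α + b * β) * t) ^ (q.2.2.1 : ℕ) *
        iu (μ' * d₁) (μ' * d₂) (μ' * (a' * α + b' * β) * t) ^ (q.2.2.2 : ℕ))) 0 := fun q =>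
      analyticAt_const.mul (((((iu_comp_an hI _).pow _).mul ((iu_comp_an hI _).pow _)).mul
        ((iu_comp_an hI' _).pow _)).mul ((iu_comp_an hI'' _).pow _))
    have e2 : tay (fun t => ∑ q : Ix4 L₁ L₂ L₃ L₄, p q *
        (iu w (w * τ) (α * t) ^ (q.1 : ℕ) * iu w (w * τ) (β * t) ^ (q.2.1 : ℕ) *
        iu (μ * c₁) (μ * c₂) (μ * (a * α + b * β) * t) ^ (q.2.2.1 : ℕ) *
        iu (μ' * d₁) (μ' * d₂) (μ' * (a' * α + b' * β) * t) ^ (q.2.2.2 : ℕ))) =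
        PowerSeries.rescale α (PowerSeries.mk fun k =>
          (fr4 (us (3 / 2 * G2 w (w * τ)) (2 * G3 w (w * τ)))
          (us (3 / 2 * G2 w (w * τ)) (2 * G3 w (w * τ)))
          (us (3 / 2 * G2 (μ * c₁) (μ * c₂)) (2 * G3 (μ * c₁) (μ * c₂)))
          (us (3 / 2 * G2 (μ' * d₁) (μ' * d₂)) (2 * G3 (μ' * d₁) (μ' * d₂)))
          (μ * a) (μ * b) (μ' * a') (μ' * b') p k).eval x) := by
      rw [ser_fr4, map_sum, tay_sum _ _ fun q _ => hT q]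
      refine Finset.sum_congr rfl fun q _ => ?_
      have q1 : AnalyticAt ℂ (fun t => iu w (w * τ) (α * t) ^ (q.1 : ℕ)) 0 :=
        (iu_comp_an hI α).pow (q.1 : ℕ)
      have q2 : AnalyticAt ℂ (fun t => iu w (w * τ) (β * t) ^ (q.2.1 : ℕ)) 0 :=
        (iu_comp_an hI β).pow (q.2.1 : ℕ)
      have q3 : AnalyticAt ℂ
          (fun t => iu (μ * c₁) (μ * c₂) (μ * (a * α + b * β) * t) ^ (q.2.2.1 : ℕ)) 0 :=
        (iu_comp_an hI' (μ * (a * α + b * β))).pow (q.2.2.1 : ℕ)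
      have q4 : AnalyticAt ℂ
          (fun t => iu (μ' * d₁) (μ' * d₂) (μ' * (a' * α + b' * β) * t) ^ (q.2.2.2 : ℕ)) 0 :=
        (iu_comp_an hI'' (μ' * (a' * α + b' * β))).pow (q.2.2.2 : ℕ)
      have q12 : AnalyticAt ℂ (fun t => iu w (w * τ) (α * t) ^ (q.1 : ℕ) *
        iu w (w * τ) (β * t) ^ (q.2.1 : ℕ)) 0 := q1.mul q2
      have q123 : AnalyticAt ℂ (fun t => iu w (w * τ) (α * t) ^ (q.1 : ℕ) *
        iu w (w * τ) (β * t) ^ (q.2.1 : ℕ) *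
        iu (μ * c₁) (μ * c₂) (μ * (a * α + b * β) * t) ^ (q.2.2.1 : ℕ)) 0 := q12.mul q3
      have q1234 : AnalyticAt ℂ (fun t => iu w (w * τ) (α * t) ^ (q.1 : ℕ) *
        iu w (w * τ) (β * t) ^ (q.2.1 : ℕ) *
        iu (μ * c₁) (μ * c₂) (μ * (a * α + b * β) * t) ^ (q.2.2.1 : ℕ) *
        iu (μ' * d₁) (μ' * d₂) (μ' * (a' * α + b' * β) * t) ^ (q.2.2.2 : ℕ)) 0 := q123.mul q4
      have q0 : AnalyticAt ℂ (fun _ : ℂ => p q) 0 := analyticAt_const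
      have hCr : PowerSeries.rescale α (PowerSeries.C (p q)) = PowerSeries.C (p q) := by
        ext n
        rw [PowerSeries.coeff_rescale, PowerSeries.coeff_C]
        by_cases hn : n = 0
        · simp [hn]
        · simp [hn]
      rw [tay_mul q0 q1234, tay_mul q123 q4, tay_mul q12 q3, tay_mul q1 q2, tay_const,
        tay_pow (iu_comp_an hI _), tay_pow (iu_comp_an hI _), tay_pow (iu_comp_an hI' _),
        tay_pow (iu_comp_an hI'' _), iu_tay_comp hI, iu_tay_comp hI,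
        iu_tay_comp hI', iu_tay_comp hI'', map_mul, map_mul, map_mul, map_mul, map_pow, map_pow,
        map_pow, map_pow, PowerSeries.rescale_rescale, PowerSeries.rescale_rescale,
        PowerSeries.rescale_rescale, hx1, hx2, hx3, hCr]
    rw [e2, PowerSeries.coeff_rescale, PowerSeries.coeff_mk, hp k hk]
    simp

end Pool.Agent.LGO.F3
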