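import Pool.Agent.LGO.F.Tri

/-!
# LGO/F3 (note 3121): the slices are defined over `K`

`σ ∈ Aut(ℂ/K)` acts on the lattices of cyclic index by a matrix `M` (`exists_tor`); `M u ∥ u` mod `N`, `M u' ∥ u'` mod `N'`
(`IsJ.eq_iff`), so `M v' ∥ v'` mod `g`, `v' = (-Q, P)`, and `σ` fixes `j(g, v')`.
-/

namespace Pool.Agent.LGO.F3

open UpperHalfPlane Pool.Agent.Hhelper14.ZP Pool.Agent.Hhelper14.ZPL Pool.Agent.EllSch
open Pool.Agent.LGO.F

theorem IsJ_pos {τ : ℍ} {n : ℕ} {a b : ℤ} {y : ℂ} (h : IsJ τ n a b y) : 0 < n := by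
  obtain ⟨w, τ', hw, -, hl⟩ := h
  rcases Nat.eq_zero_or_pos n with rfl | hn
  · exfalso
    obtain ⟨k, x, hk⟩ := (hl w).1 ⟨(1, 0), by simp [lat]⟩
    obtain ⟨k', x', hk'⟩ := (hl (w * τ')).1 ⟨(0, 1), by simp [lat]⟩
    rw [Nat.cast_zero, zero_mul, add_zero] at hk hk'
    have h1 : (k : ℂ) * (τ' : ℂ) = k' := by
      have h2 : w * ((k : ℂ) * (τ' : ℂ) - k') = 0 := by
        linear_combination (k : ℂ) * hk' - (k' : ℂ) * hk
      rcases mul_eq_zero.1 h2 with h3 | h3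
      · exact absurd h3 hw
      · linear_combination h3
    have h3 := congrArg Complex.im h1
    rw [← Complex.ofReal_intCast, ← Complex.ofReal_intCast, Complex.im_ofReal_mul,
      Complex.ofReal_im] at h3
    have h4 : (k : ℝ) = 0 := (mul_eq_zero.1 h3).resolve_right τ'.im_pos.ne'
    have h5 : (k : ℂ) = 0 := by exact_mod_cast h4
    rw [h5, zero_mul] at hk
    exact hw hk
  · exact hn

/-- the determinant is prime to the divisors of `n` -/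
private theorem GSl_dvd {m : ℤ} {n d : ℕ} (h : IsCoprime m (n : ℤ)) (hd : d ∣ n) :
    IsCoprime m (d : ℤ) :=
  h.of_isCoprime_of_dvd_right (by exact_mod_cast hd)

theorem mem_slice (K : IntermediateField ℚ ℂ) [FiniteDimensional ℚ K] {x y z t : ℂ} (hx : x ∈ K)
    (hy : y ∈ K) (hz : z ∈ K) {τ : ℍ} (hτ : jInv τ = x) (hcm : NonCM (τ : ℂ)) {N N' g : ℕ}
    {a b a' b' P Q : ℤ} (hc : Cop N a b) (hc' : Cop N' a' b') (hy' : IsJ τ N a b y)
    (hz' : IsJ τ N' a' b' z) (hPQ : IsCoprime P Q) (hg : 1 ≤ g)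
    (hS : ∀ r1 s1 r2 s2 : ℤ, (N : ℤ) ∣ a * (a * s1 + b * s2) - b * (a * r1 + b * r2) →
      (N' : ℤ) ∣ a' * (a' * s1 + b' * s2) - b' * (a' * r1 + b' * r2) →
      (g : ℤ) ∣ Q * (P * s2 - Q * s1) + P * (P * r2 - Q * r1))
    (ht : IsJ τ g (-Q) P t) : t ∈ K := by
  have hN := IsJ_pos hy'
  have hN' := IsJ_pos hz'
  have hg' : 0 < g := hg
  have hcg : Cop g (-Q) P := by
    intro d h1 h2 _
    exact hPQ.isUnit_of_dvd' h2 (by rwa [dvd_neg] at h1)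
  have halg : IsAlgebraic ℚ (jInv τ) := by
    rw [hτ]
    have h1 : IsAlgebraic ℚ (⟨x, hx⟩ : K) := Algebra.IsAlgebraic.isAlgebraic _
    exact (isAlgebraic_algebraMap_iff (algebraMap K ℂ).injective).2 h1
  have hta : IsAlgebraic ℚ t := isAlgebraic_of_isog halg ⟨g, hg', ht.isog hg' hcg⟩
  refine mem_of_fixed K hta fun s hs => ?_
  obtain ⟨m, hm, hact⟩ := exists_tor hcm s (by rw [hτ]; exact hs x hx)
    (n := N * N' * g) (Nat.mul_pos (Nat.mul_pos hN hN') hg')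
  have dN : N ∣ N * N' * g := ⟨N' * g, by ring⟩
  have dN' : N' ∣ N * N' * g := ⟨N * g, by ring⟩
  have dg : g ∣ N * N' * g := Dvd.intro_left _ rfl
  have key : ∀ {d : ℕ} {p q : ℤ} {y₀ : ℂ}, 0 < d → d ∣ N * N' * g → Cop d p q → IsJ τ d p q y₀ →
      (y₀ = s y₀ ↔ (d : ℤ) ∣ p * (m 1 0 * p + m 1 1 * q) - (m 0 0 * p + m 0 1 * q) * q) := by
    intro d p q y₀ hd0 hd hpq hy₀
    exact IsJ.eq_iff hcm hd0 hpq (hpq.matrix (GSl_dvd hm hd)) hy₀ (hact d p q y₀ hd hpq hy₀)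
  have h1 := (key hN dN hc hy').1 (hs y hy).symm
  have h2 := (key hN' dN' hc' hz').1 (hs z hz).symm
  have h3 := hS (m 0 0) (m 1 0) (m 0 1) (m 1 1) (by
    convert h1 using 1
    ring) (by
    convert h2 using 1
    ring)
  refine ((key hg' dg hcg ht).2 ?_).symm
  obtain ⟨e, he⟩ := h3
  exact ⟨-e, by linear_combination -he⟩

/-- the index -/
theorem index_sq {x y z : ℂ} {τ : ℍ} (hτ : jInv τ = x) (hcm : NonCM (τ : ℂ)) {N N' : ℕ}
    {a b a' b' : ℤ} (hc : Cop N a b) (hc' : Cop N' a' b') (hy' : IsJ τ N a b y)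
    (hz' : IsJ τ N' a' b' z) :
    mdeg x y * mdeg x z * mdeg y z * (Nat.gcd N (Nat.gcd N' (a * b' - a' * b).natAbs)) ^ 2 =
      (N * N') ^ 2 := by
  have hN := IsJ_pos hy'
  have hN' := IsJ_pos hz'
  subst hτ
  rw [IsJ.mdeg hcm hN hc hy', IsJ.mdeg hcm hN' hc' hz', mul_assoc,
    mdeg_isJ hcm hN hN' hc hc' hy' hz', pow_two]

end Pool.Agent.LGO.F3
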