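import Pool.Agent.LGO.F3.EndDef
import Pool.Agent.LGO.F3.GSl
import Pool.Agent.LGO.F.Cen
import Pool.Agent.LGO.PC.HtBd

/-!
# LGO/F3 (note 3121): the product of the three degrees

`triple_bd`: from the statement `EngP3` of the engine: for `x, y, z ∈ K` isogenous, not CM, `x` of (full) height `h`:
`mdeg x y mdeg x z mdeg y z ≤ (C D) ^ C (h + 1) ^ 4`.

PROOF.  `τ` reduced with `j(τ) = x`, `y = j(N, (a, b))`, `z = j(N', (a', b'))` (`exists_of_mdeg`), `d = gcd(N, N', a b' - a' b)`, `N' = d n`, `I = N n`,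
`I ^ 2` is the product of the three degrees (`index_sq`).  The heights of `y, z` are `≤ C D (h + 1 + log I)` (`ht_bd`).  For the slice `(P, Q, g)`:
`t = j(g, (-Q, P)) = j(τ_t)` with `Im τ_t ‖P τ - Q‖ ^ 2 = g Im τ` (`EndP_pt`), so `g ≤ 2 Im τ_t (P ^ 2 Im τ + Q ^ 2 / Im τ)`, `t ∈ K` (`mem_slice`), `mdeg x t = g`, so the
height of `t` is `≤ C D (h + 1 + log I)` and `Im τ_t ≤ C D (h + 1 + log I)` (`Cen_exp_im_le`).  The engine: `√I ≤ C D ^ 3 (h + 1 + log I)`.
-/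

namespace Pool.Agent.LGO.F3

open UpperHalfPlane Pool.Agent.Hhelper14.ZP Pool.Agent.Hhelper14.ZPL Pool.Agent.EllSch
open Pool.Agent.LGO.F

/-- the point of a slice -/
theorem EndP_pt (τ : ℍ) {P Q : ℤ} (hPQ : IsCoprime P Q) {g : ℕ} (hg : 0 < g) :
    ∃ τ' : ℍ, IsJ τ g (-Q) P (jInv τ') ∧
      τ'.im * ((P * (τ : ℂ).re - Q) ^ 2 + (P * τ.im) ^ 2) = g * τ.im := by
  obtain ⟨u, v, huv⟩ := id hPQ
  have hdet : (!![(g : ℤ) * (-v), g * (-u); P, -Q]).det = g := by
    rw [Matrix.det_fin_two_of]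
    linear_combination (g : ℤ) * huv
  have hm := Gal.maps_act hg (mkDD _ hdet) τ
  have hcg : Cop g (-Q) P := by
    intro d h1 h2 _
    exact hPQ.isUnit_of_dvd' h2 (by rwa [dvd_neg] at h1)
  refine ⟨act hg (mkDD _ hdet) τ, isJ_of_maps hg hdet hm hcg ?_ ?_, ?_⟩
  · simp only [Matrix.of_apply, Matrix.cons_val', Matrix.cons_val_zero, Matrix.cons_val_one,
      Matrix.cons_val_fin_one]
    exact ⟨0, by ring⟩
  · simp only [Matrix.of_apply, Matrix.cons_val', Matrix.cons_val_zero, Matrix.cons_val_one,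
      Matrix.cons_val_fin_one]
    exact ⟨1, by linear_combination (g : ℤ) * huv⟩
  · set τ' := act hg (mkDD _ hdet) τ with hτ'
    have h1 : (τ' : ℂ) * ((P : ℂ) * (τ : ℂ) + ((-Q : ℤ) : ℂ)) =
        (((g : ℤ) * (-v) : ℤ) : ℂ) * (τ : ℂ) + (((g : ℤ) * (-u) : ℤ) : ℂ) := hm
    have hre := congrArg Complex.re h1
    have him := congrArg Complex.im h1
    push_cast at hre him
    simp only [Complex.mul_re, Complex.mul_im, Complex.add_re, Complex.add_im, Complex.intCast_re,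
      Complex.intCast_im, Complex.neg_re, Complex.neg_im, Complex.natCast_re, Complex.natCast_im,
      zero_mul, mul_zero, sub_zero, add_zero, neg_zero] at hre him
    have huv' : (u : ℝ) * P + v * Q = 1 := by exact_mod_cast huv
    have e1 : τ'.im = (τ' : ℂ).im := rfl
    have e2 : τ.im = (τ : ℂ).im := rfl
    rw [e1, e2]
    linear_combination (P * (τ : ℂ).re - Q) * him - (P * (τ : ℂ).im) * hre +
      (g : ℝ) * (τ : ℂ).im * huv'

/-- the index of a slice -/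
private theorem EndP_g {x y T g P Q : ℝ} (hx : |x| ≤ 1 / 2) (hy : 3 / 4 ≤ y ^ 2) (hy0 : 0 < y)
    (hT : 0 < T) (h : T * ((P * x - Q) ^ 2 + (P * y) ^ 2) = g * y) :
    g ≤ 2 * T * (P ^ 2 * y + Q ^ 2 / y) := by
  have hx2 : x ^ 2 ≤ 1 / 4 := by
    have h1 := sq_le_sq' (by linarith [(abs_le.1 hx).1]) (abs_le.1 hx).2
    norm_num at h1 ⊢
    exact h1
  have h1 : (P * x - Q) ^ 2 + (P * y) ^ 2 ≤ 2 * (P ^ 2 * y ^ 2 + Q ^ 2) := by
    have h2 : 0 ≤ (P * x + Q) ^ 2 := sq_nonneg _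
    have h3 : P ^ 2 * x ^ 2 ≤ P ^ 2 * (1 / 4) := mul_le_mul_of_nonneg_left hx2 (sq_nonneg P)
    have h4 : P ^ 2 * (3 / 4) ≤ P ^ 2 * y ^ 2 := mul_le_mul_of_nonneg_left hy (sq_nonneg P)
    nlinarith
  have h2 : g * y ≤ 2 * T * (P ^ 2 * y + Q ^ 2 / y) * y := by
    rw [← h]
    have h3 := mul_le_mul_of_nonneg_left h1 hT.le
    have h4 : 2 * T * (P ^ 2 * y + Q ^ 2 / y) * y = T * (2 * (P ^ 2 * y ^ 2 + Q ^ 2)) := by
      field_simp
    rw [h4]
    exact h3
  exact le_of_mul_le_mul_right h2 hy0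

/-- solving the inequality for `I` -/
private theorem EndP_solve {I A u : ℝ} (hI : 1 ≤ I) (hA : 1 ≤ A) (hu : 1 ≤ u)
    (h : √I ≤ A * (u + Real.log I)) : I ≤ 4096 * A ^ 4 * u ^ 2 := by
  have hI0 : 0 < I := by linarith
  set r := √I with hr
  have hr0 : 0 < r := Real.sqrt_pos.2 hI0
  set s := √r with hs
  have hs0 : 0 < s := Real.sqrt_pos.2 hr0
  have hrr : r ^ 2 = I := Real.sq_sqrt hI0.le
  have hss : s ^ 2 = r := Real.sq_sqrt hr0.le
  have hlog : Real.log I ≤ 4 * s := by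
    have h1 : Real.log I = 4 * Real.log s := by
      rw [← hrr, ← hss, ← pow_mul, Real.log_pow]
      norm_num
    rw [h1]
    have h2 := Real.log_le_sub_one_of_pos hs0
    linarith
  have h1 : s ^ 2 ≤ A * u + 4 * A * s := by
    rw [hss]
    refine h.trans ?_
    have h2 : A * Real.log I ≤ A * (4 * s) := mul_le_mul_of_nonneg_left hlog (by linarith)
    linarith
  have h2 : s ^ 2 ≤ 64 * A ^ 2 * u := by
    rcases le_or_gt s (8 * A) with h3 | h3
    · have h4 : s ^ 2 ≤ (8 * A) ^ 2 := pow_le_pow_left₀ hs0.le h3 2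
      have h5 : (0 : ℝ) ≤ 64 * A ^ 2 := by positivity
      have h6 : 64 * A ^ 2 * 1 ≤ 64 * A ^ 2 * u := mul_le_mul_of_nonneg_left hu h5
      nlinarith
    · have h4 : 4 * A * s ≤ s ^ 2 / 2 := by nlinarith
      have h5 : s ^ 2 ≤ 2 * (A * u) := by linarith
      have h6 : A ≤ A ^ 2 := by nlinarith
      have h7 : A * u ≤ A ^ 2 * u := mul_le_mul_of_nonneg_right h6 (by linarith)
      have h8 : 0 ≤ A ^ 2 * u := by positivity
      nlinarith
  have h3 : I = (s ^ 2) ^ 2 := by rw [hss, hrr]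
  rw [h3]
  have h4 := pow_le_pow_left₀ (sq_nonneg s) h2 2
  calc (s ^ 2) ^ 2 ≤ (64 * A ^ 2 * u) ^ 2 := h4
    _ = _ := by ring

/-- **the product of the three degrees** -/
theorem triple_bd (hE : EngP3) : ∃ C : ℕ, 1 ≤ C ∧ ∀ (K : IntermediateField ℚ ℂ)
    [FiniteDimensional ℚ K] (h : ℝ) (x y z : ℂ), Bd K h x → y ∈ K → z ∈ K → NCM x →
      (∃ N, 0 < N ∧ IsogDeg N x y) → (∃ N, 0 < N ∧ IsogDeg N x z) →
      ((mdeg x y * mdeg x z * mdeg y z : ℕ) : ℝ) ≤
        ((C : ℝ) * Module.finrank ℚ K) ^ C * (h + 1) ^ 4 := by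
  obtain ⟨CE, hCE, hexp⟩ := Cen_exp_im_le
  obtain ⟨CH, hCH, hht⟩ := Pool.Agent.LGO.PC.ht_bd
  obtain ⟨C₁, hC₁, heng⟩ := hE
  set L₀ : ℝ := |Real.log CE| + 2 with hL₀
  have hL₀1 : 1 ≤ L₀ := by
    have := abs_nonneg (Real.log CE)
    linarith
  -- the constant `A = A₀ D ^ 3`
  set A₀ : ℝ := C₁ * (2 * CH + 2 * (L₀ + CH)) with hA₀
  have hA₀1 : 1 ≤ A₀ := by
    rw [hA₀]
    have : (1 : ℝ) ≤ 2 * CH + 2 * (L₀ + CH) := by linarith
    exact one_le_mul_of_one_le_of_one_le hC₁ this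
  obtain ⟨C, hC⟩ := exists_nat_ge (max 24 (4096 ^ 2 * A₀ ^ 8))
  have hC24 : (24 : ℝ) ≤ C := (le_max_left _ _).trans hC
  have hCA : 4096 ^ 2 * A₀ ^ 8 ≤ (C : ℝ) := (le_max_right _ _).trans hC
  refine ⟨C, by exact_mod_cast (by linarith : (1 : ℝ) ≤ C), ?_⟩
  intro K _ h₀ x y z hx hy hz hN hxy hxz
  have hh₀ : 0 ≤ h₀ := hx.nonneg
  obtain ⟨τ, hred, hj⟩ := exists_red x
  have hcm : NonCM (τ : ℂ) := by
    rw [← ncm_jInv, hj]
    exact hN
  rw [← hj] at hxy hxz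
  obtain ⟨a, b, hc, hJ⟩ := exists_of_mdeg hcm hxy
  obtain ⟨a', b', hc', hJ'⟩ := exists_of_mdeg hcm hxz
  have hNpos := mdeg_pos hxy
  have hNpos' := mdeg_pos hxz
  rw [hj] at hxy hxz hc hc' hJ hJ' hNpos hNpos'
  set N := mdeg x y with hNdef
  set N' := mdeg x z with hNdef'
  set d := Nat.gcd N (Nat.gcd N' (a * b' - a' * b).natAbs) with hd
  have hdN : d ∣ N := Nat.gcd_dvd_left _ _
  have hdN' : d ∣ N' := (Nat.gcd_dvd_right _ _).trans (Nat.gcd_dvd_left _ _)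
  have hd0 : 0 < d := Nat.pos_of_dvd_of_pos hdN hNpos
  obtain ⟨n, hn⟩ := hdN'
  have hn0 : 0 < n := by
    rcases Nat.eq_zero_or_pos n with h0 | h0
    · rw [h0, mul_zero] at hn
      omega
    · exact h0
  have hIN : N' ∣ N * n := by
    rw [hn]
    exact Nat.mul_dvd_mul_right hdN n
  have hI0 : 0 < N * n := Nat.mul_pos hNpos hn0
  have hI1 : (1 : ℝ) ≤ ((N * n : ℕ) : ℝ) := by exact_mod_cast hI0
  -- the product of the three degrees
  have hprod : mdeg x y * mdeg x z * mdeg y z = (N * n) ^ 2 := by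
    have h1 := index_sq hj hcm hc hc' hJ hJ'
    rw [← hNdef, ← hNdef', ← hd] at h1
    have h2 : (N * N') ^ 2 = (N * n) ^ 2 * d ^ 2 := by
      rw [hn]
      ring
    rw [h2] at h1
    exact Nat.eq_of_mul_eq_mul_right (pow_pos hd0 2) h1
  set D : ℝ := (Module.finrank ℚ K : ℝ) with hD
  have hD1 : 1 ≤ D := by
    rw [hD]
    exact_mod_cast Module.finrank_pos (R := ℚ) (M := K)
  set lI : ℝ := Real.log ((N * n : ℕ) : ℝ) with hlI
  have hlI0 : 0 ≤ lI := Real.log_nonneg hI1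
  set U : ℝ := h₀ + 1 + lI with hU
  have hU1 : 1 ≤ U := by linarith
  -- heights
  have hbd : ∀ t : ℂ, t ∈ K → (∃ N, 0 < N ∧ IsogDeg N x t) → mdeg x t ∣ N * n →
      Bd K (CH * D * U) t := by
    intro t ht hxt hdv
    refine (hht K h₀ x t hx ht hN hxt).mono ?_
    have h1 : 0 < mdeg x t := mdeg_pos hxt
    have h2 : Real.log (mdeg x t) ≤ lI := by
      refine Real.log_le_log (by exact_mod_cast h1) ?_
      exact_mod_cast Nat.le_of_dvd hI0 hdv
    have h3 : 0 ≤ CH * D := by positivity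
    refine mul_le_mul_of_nonneg_left ?_ h3
    linarith
  have hCU : 1 ≤ CH * D * U :=
    one_le_mul_of_one_le_of_one_le (one_le_mul_of_one_le_of_one_le hCH hD1) hU1
  have hx' : Bd K (CH * D * U) x := by
    refine hx.mono ?_
    have h1 : U ≤ CH * D * U :=
      le_mul_of_one_le_left (by linarith) (one_le_mul_of_one_le_of_one_le hCH hD1)
    linarith
  have hy' := hbd y hy hxy (Dvd.intro n rfl)
  have hz' := hbd z hz hxz hIN
  have hY1 : 1 ≤ 2 * (L₀ + CH * D * U) := by linarith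
  have key := heng K x y z (CH * D * U) (2 * (L₀ + CH * D * U)) τ N N' n a b a' b' hCU hx' hy' hz'
    hcm hred hj hNpos hc hJ hNpos' hc' hJ' hn hY1 ?_
  · -- solve
    have hA1 : 1 ≤ A₀ * D ^ 3 := one_le_mul_of_one_le_of_one_le hA₀1 (one_le_pow₀ hD1)
    have h1 : √((N * n : ℕ) : ℝ) ≤ A₀ * D ^ 3 * (h₀ + 1 + Real.log ((N * n : ℕ) : ℝ)) := by
      refine key.trans ?_
      rw [← hlI, ← hD, ← hU, hA₀, mul_assoc C₁, mul_assoc C₁]
      refine mul_le_mul_of_nonneg_left ?_ (by linarith)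
      have e0 : 1 ≤ D ^ 2 := one_le_pow₀ hD1
      have e1 : D ≤ D ^ 3 := by nlinarith [mul_nonneg (by linarith : 0 ≤ D) (by linarith : 0 ≤ D ^ 2 - 1)]
      have e2 : D ^ 2 ≤ D ^ 3 := by nlinarith [mul_nonneg (by linarith : 0 ≤ D ^ 2) (by linarith : 0 ≤ D - 1)]
      have e3 : 1 ≤ D ^ 3 := one_le_pow₀ hD1
      have e4 : D ^ 2 * (CH * D * U + 1 + lI) ≤ 2 * CH * (D ^ 3 * U) := by
        have e5 : D ^ 2 * (CH * D * U) = CH * (D ^ 3 * U) := by ring
        have e6 : D ^ 2 * (1 + lI) ≤ CH * (D ^ 3 * U) := by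
          calc D ^ 2 * (1 + lI) ≤ D ^ 3 * U :=
                mul_le_mul e2 (by linarith) (by linarith) (by positivity)
            _ ≤ CH * (D ^ 3 * U) := le_mul_of_one_le_left (by positivity) hCH
        nlinarith
      have e7 : L₀ ≤ L₀ * (D ^ 3 * U) :=
        le_mul_of_one_le_right (by linarith) (one_le_mul_of_one_le_of_one_le e3 hU1)
      have e8 : CH * D * U ≤ CH * (D ^ 3 * U) := by
        rw [mul_assoc]
        refine mul_le_mul_of_nonneg_left ?_ (by linarith)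
        exact mul_le_mul_of_nonneg_right e1 (by linarith)
      nlinarith
    have h2 := EndP_solve hI1 hA1 (by linarith : (1 : ℝ) ≤ h₀ + 1) h1
    rw [hprod]
    push_cast
    have h3 : (((N : ℝ) * n)) ^ 2 ≤ (4096 * (A₀ * D ^ 3) ^ 4 * (h₀ + 1) ^ 2) ^ 2 := by
      have h4 : (0 : ℝ) ≤ (N : ℝ) * n := by positivity
      have h5 : (N : ℝ) * n ≤ 4096 * (A₀ * D ^ 3) ^ 4 * (h₀ + 1) ^ 2 := by
        have := h2
        push_cast at this
        exact this
      exact pow_le_pow_left₀ h4 h5 2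
    refine h3.trans ?_
    have h6 : (4096 * (A₀ * D ^ 3) ^ 4 * (h₀ + 1) ^ 2) ^ 2 =
        4096 ^ 2 * A₀ ^ 8 * D ^ 24 * (h₀ + 1) ^ 4 := by ring
    rw [h6]
    refine mul_le_mul_of_nonneg_right ?_ (by positivity)
    have hCn : 24 ≤ C := by exact_mod_cast hC24
    rw [mul_pow (C : ℝ) D C]
    have h7 : D ^ 24 ≤ D ^ C := pow_le_pow_right₀ hD1 hCn
    have h8 : (C : ℝ) ≤ (C : ℝ) ^ C := le_self_pow₀ (by linarith) (by omega)
    exact mul_le_mul (hCA.trans h8) h7 (by positivity) (by positivity)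
  · -- the slices
    intro P Q g hPQ hg hgI hS
    obtain ⟨τ', hJt, him⟩ := EndP_pt τ hPQ hg
    have hcg : Cop g (-Q) P := by
      intro d h1 h2 _
      exact hPQ.isUnit_of_dvd' h2 (by rwa [dvd_neg] at h1)
    have htK : jInv τ' ∈ K := mem_slice K hx.mem hy hz hj hcm hc hc' hJ hJ' hPQ hg hS hJt
    have hiso : IsogDeg g x (jInv τ') := by
      have := hJt.isog hg hcg
      rwa [hj] at this
    have hmd : mdeg x (jInv τ') = g := by
      have := hJt.mdeg hcm hg hcg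
      rwa [hj] at this
    have ht := hbd (jInv τ') htK ⟨g, hg, hiso⟩ (by rw [hmd]; exact hgI)
    have hnorm : ‖jInv τ'‖ ≤ Real.exp (CH * D * U) := ht.aut (RingEquiv.refl ℂ)
    have hT : τ'.im ≤ L₀ + CH * D * U := by
      have h1 := hexp τ'
      have h3 : 1 + ‖jInv τ'‖ ≤ 2 * Real.exp (CH * D * U) := by
        have h4 : 1 ≤ Real.exp (CH * D * U) := Real.one_le_exp (by positivity)
        linarith
      have h5 : Real.exp (2 * Real.pi * τ'.im) ≤ CE * (2 * Real.exp (CH * D * U)) :=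
        h1.trans (mul_le_mul_of_nonneg_left h3 hCE.le)
      have h6 := Real.log_le_log (Real.exp_pos _) h5
      rw [Real.log_exp, Real.log_mul hCE.ne' (by positivity), Real.log_mul two_ne_zero
        (Real.exp_pos _).ne', Real.log_exp] at h6
      have h7 := le_abs_self (Real.log CE)
      have h8 := Real.log_two_lt_d9
      have h10 := Real.pi_gt_three
      have h11 : τ'.im ≤ 2 * Real.pi * τ'.im := by nlinarith [τ'.im_pos]
      linarith
    have h1 := EndP_g (P := P) (Q := Q) hred.re_le ?_ τ.im_pos τ'.im_pos him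
    · refine h1.trans ?_
      have h2 : 0 ≤ (P : ℝ) ^ 2 * τ.im + (Q : ℝ) ^ 2 / τ.im := by
        have := τ.im_pos
        positivity
      refine mul_le_mul_of_nonneg_right ?_ h2
      linarith
    · have h2 := hred.one_le
      have h3 : (1 : ℝ) ≤ (τ : ℂ).re ^ 2 + (τ : ℂ).im ^ 2 := by
        have h4 : ‖(τ : ℂ)‖ ^ 2 = (τ : ℂ).re ^ 2 + (τ : ℂ).im ^ 2 := by
          rw [Complex.sq_norm, Complex.normSq_apply]
          ring
        rw [← h4]
        exact one_le_pow₀ h2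
      have h5 : (τ : ℂ).re ^ 2 ≤ 1 / 4 := by
        have h6 := sq_le_sq' (by linarith [(abs_le.1 hred.re_le).1]) (abs_le.1 hred.re_le).2
        norm_num at h6 ⊢
        exact h6
      have e2 : τ.im = (τ : ℂ).im := rfl
      rw [e2]
      linarith

end Pool.Agent.LGO.F3
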