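import Pool.Agent.LGO.F3.EndP
import Pool.Agent.LGO.CP.Main
import Pool.Agent.LGO.F.AsCore
import Pool.Agent.LGO.ZV.Tied

/-!
# LGO/F3 (note 3099, part (4)): three isogenous coordinates with common poles

`t1_cp`: if every two of the coordinates `i 0, i 1, i 2` of the curve have a common pole then only finitely many points have
these three coordinates isogenous and not CM (any genus, no condition at the other places).

PROOF.  `cp_pair` (`CP/Main.lean`): `x (i 0)` has height `≤ C D ^ 2 √N` for each of the three degrees `N`.  `triple_bd` (`F3/EndP.lean`) with `N` the smallest of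
the three degrees: `N ^ 3 ≤ (C D) ^ C (h + 1) ^ 4` and `h = C D ^ 2 √N`, so `N ≤ (C D) ^ C`, `h ≤ (C D) ^ C`.
-/

namespace Pool.Agent.LGO.F3

open UpperHalfPlane Pool.Agent.Hhelper14.ZP Pool.Agent.Hhelper14.ZPL Pool.Agent.LGO
  Pool.Agent.LGO.ZF Pool.Agent.LGO.ZG Pool.Agent.LGO.ZV Pool.Agent.LGO.PWG

variable {n : ℕ} {V : Set (Fin n → ℂ)}

/-- the lower bound for a pair of coordinates with a common pole -/
theorem cp_pair (h : Pool.Agent.LGO.ZV.Crv V) {a b : Fin n} (hab : a ≠ b) (hcp : F.CommonPole V a b) (c : Fin n) :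
    ∃ (C : ℕ) (E : Set (Fin n → ℂ)), 1 ≤ C ∧ E.Finite ∧ ∀ x ∈ V, x ∉ E →
      ∀ (K : IntermediateField ℚ ℂ) [FiniteDimensional ℚ K], x a ∈ K → x b ∈ K → x c ∈ K →
        (∃ N, 0 < N ∧ IsogDeg N (x a) (x b)) →
        Bd K (C * (Module.finrank ℚ K : ℝ) ^ 2 * Real.sqrt (mdeg (x a) (x b))) (x c) := by
  rcases CP.cp_main h.irr h.kcl h.dim hab (h.nc a) (h.nc b) (h.nomod a b hab) with ⟨C, hC⟩ | h1
  · exfalso
    obtain ⟨P, hP, ha, hb⟩ := hcp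
    obtain ⟨k, hk⟩ := ((ha.eventually_gt_atTop (C : ℝ)).and (hb.eventually_gt_atTop (C : ℝ))).exists
    rcases hC (P k) (hP k) (RingEquiv.refl ℂ) with h2 | h2
    · exact absurd h2 (not_le.mpr hk.1)
    · exact absurd h2 (not_le.mpr hk.2)
  · exact h1 c

private theorem EndT1_num {C₀ C₄ : ℕ} (h0 : 1 ≤ C₀) {D N : ℝ} (hD : 1 ≤ D)
    (hN : 1 ≤ N) (h : N ^ 3 ≤ ((C₄ : ℝ) * D) ^ C₄ * (C₀ * D ^ 2 * √N + 1) ^ 4) :
    C₀ * D ^ 2 * √N ≤ (((16 * C₀ ^ 5 + C₄ + 11 : ℕ) : ℝ) * D) ^ (16 * C₀ ^ 5 + C₄ + 11) := by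
  have h0' : (1 : ℝ) ≤ C₀ := by exact_mod_cast h0
  have hs1 : 1 ≤ √N := Real.one_le_sqrt.mpr hN
  have hD2 : 1 ≤ D ^ 2 := one_le_pow₀ hD
  have hA : 1 ≤ C₀ * D ^ 2 := one_le_mul_of_one_le_of_one_le h0' hD2
  have hX : 1 ≤ C₀ * D ^ 2 * √N := one_le_mul_of_one_le_of_one_le hA hs1
  have hsq : √N ^ 2 = N := Real.sq_sqrt (by linarith)
  have h1 : (C₀ * D ^ 2 * √N + 1) ^ 4 ≤ 16 * (C₀ * D ^ 2) ^ 4 * N ^ 2 := by
    have e1 : C₀ * D ^ 2 * √N + 1 ≤ 2 * (C₀ * D ^ 2 * √N) := by linarith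
    have e2 := pow_le_pow_left₀ (by linarith) e1 4
    refine e2.trans (le_of_eq ?_)
    have e3 : √N ^ 4 = N ^ 2 := by
      calc √N ^ 4 = (√N ^ 2) ^ 2 := by ring
        _ = N ^ 2 := by rw [hsq]
    calc (2 * (C₀ * D ^ 2 * √N)) ^ 4 = 16 * (C₀ * D ^ 2) ^ 4 * √N ^ 4 := by ring
      _ = _ := by rw [e3]
  have hP : 0 ≤ ((C₄ : ℝ) * D) ^ C₄ := by positivity
  have h2 : N ^ 3 ≤ ((C₄ : ℝ) * D) ^ C₄ * (16 * (C₀ * D ^ 2) ^ 4) * N ^ 2 := by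
    refine h.trans ((mul_le_mul_of_nonneg_left h1 hP).trans (le_of_eq ?_))
    ring
  have hN2 : 0 < N ^ 2 := by positivity
  have h3 : N ≤ ((C₄ : ℝ) * D) ^ C₄ * (16 * (C₀ * D ^ 2) ^ 4) := by
    have e1 : N * N ^ 2 ≤ ((C₄ : ℝ) * D) ^ C₄ * (16 * (C₀ * D ^ 2) ^ 4) * N ^ 2 := by
      calc N * N ^ 2 = N ^ 3 := by ring
        _ ≤ _ := h2
    exact le_of_mul_le_mul_right e1 hN2
  have h4 : √N ≤ N := by nlinarith
  set C : ℕ := 16 * C₀ ^ 5 + C₄ + 11 with hC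
  have hCR : (C : ℝ) = 16 * (C₀ : ℝ) ^ 5 + C₄ + 11 := by rw [hC]; push_cast; ring
  have hC1 : (1 : ℝ) ≤ C := by
    rw [hCR]
    have : (0 : ℝ) ≤ 16 * (C₀ : ℝ) ^ 5 + C₄ := by positivity
    linarith
  have hCD : 1 ≤ C * D := one_le_mul_of_one_le_of_one_le hC1 hD
  have hDC : D ≤ C * D := le_mul_of_one_le_left (by linarith) hC1
  have f1 : 16 * (C₀ : ℝ) ^ 5 ≤ C * D := by
    have e1 : 16 * (C₀ : ℝ) ^ 5 ≤ C := by
      rw [hCR]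
      have : (0 : ℝ) ≤ (C₄ : ℝ) := Nat.cast_nonneg _
      linarith
    exact e1.trans (le_mul_of_one_le_right (by linarith) hD)
  have f2 : D ^ 10 ≤ (C * D) ^ 10 := pow_le_pow_left₀ (by linarith) hDC 10
  have f3 : ((C₄ : ℝ) * D) ^ C₄ ≤ (C * D) ^ C₄ := by
    refine pow_le_pow_left₀ (by positivity) ?_ _
    refine mul_le_mul_of_nonneg_right ?_ (by linarith)
    rw [hCR]
    have : (0 : ℝ) ≤ 16 * (C₀ : ℝ) ^ 5 := by positivity
    linarith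
  calc C₀ * D ^ 2 * √N ≤ C₀ * D ^ 2 * N := mul_le_mul_of_nonneg_left h4 (by linarith)
    _ ≤ C₀ * D ^ 2 * (((C₄ : ℝ) * D) ^ C₄ * (16 * (C₀ * D ^ 2) ^ 4)) :=
        mul_le_mul_of_nonneg_left h3 (by linarith)
    _ = (16 * (C₀ : ℝ) ^ 5) * D ^ 10 * ((C₄ : ℝ) * D) ^ C₄ := by ring
    _ ≤ (C * D) * (C * D) ^ 10 * (C * D) ^ C₄ := by
        refine mul_le_mul (mul_le_mul f1 f2 (by positivity) (by linarith)) f3 hP (by positivity)
    _ = (C * D) ^ (C₄ + 11) := by ring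
    _ ≤ (C * D) ^ C := pow_le_pow_right₀ hCD (by rw [hC]; omega)

/-- **the height of three isogenous coordinates with common poles** -/
theorem cp_ht (hE : EngP3) (h : Pool.Agent.LGO.ZV.Crv V) (i : Fin 3 → Fin n) (hi : Function.Injective i)
    (hcp : ∀ a b, a ≠ b → F.CommonPole V (i a) (i b)) :
    ∃ (C : ℕ) (E : Set (Fin n → ℂ)), E.Finite ∧ ∀ x ∈ V, x ∉ E → (∀ a, NCM (x (i a))) →
      (∀ a b, ∃ N, 0 < N ∧ IsogDeg N (x (i a)) (x (i b))) →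
      ∀ (K : IntermediateField ℚ ℂ) [FiniteDimensional ℚ K], (∀ a, x (i a) ∈ K) →
        Bd K (((C : ℝ) * Module.finrank ℚ K) ^ C) (x (i 0)) := by
  obtain ⟨C₁, E₁, hC₁, hE₁, h01⟩ := cp_pair h (hi.ne (by decide : (0 : Fin 3) ≠ 1))
    (hcp 0 1 (by decide)) (i 0)
  obtain ⟨C₂, E₂, hC₂, hE₂, h02⟩ := cp_pair h (hi.ne (by decide : (0 : Fin 3) ≠ 2))
    (hcp 0 2 (by decide)) (i 0)
  obtain ⟨C₃, E₃, hC₃, hE₃, h12⟩ := cp_pair h (hi.ne (by decide : (1 : Fin 3) ≠ 2))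
    (hcp 1 2 (by decide)) (i 0)
  obtain ⟨C₄, hC₄, htri⟩ := triple_bd hE
  set C₀ : ℕ := C₁ + C₂ + C₃ with hC₀
  have hC₀1 : 1 ≤ C₀ := by omega
  refine ⟨16 * C₀ ^ 5 + C₄ + 11, E₁ ∪ E₂ ∪ E₃, (hE₁.union hE₂).union hE₃, ?_⟩
  intro x hx hxE hN hI K _ hK
  set D : ℝ := (Module.finrank ℚ K : ℝ) with hD
  have hD1 : 1 ≤ D := by
    rw [hD]
    exact_mod_cast Module.finrank_pos (R := ℚ) (M := K)
  have b1 := h01 x hx (fun h => hxE (Or.inl (Or.inl h))) K (hK 0) (hK 1) (hK 0) (hI 0 1)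
  have b2 := h02 x hx (fun h => hxE (Or.inl (Or.inr h))) K (hK 0) (hK 2) (hK 0) (hI 0 2)
  have b3 := h12 x hx (fun h => hxE (Or.inr h)) K (hK 1) (hK 2) (hK 0) (hI 1 2)
  have p1 := mdeg_pos (hI 0 1)
  have p2 := mdeg_pos (hI 0 2)
  have p3 := mdeg_pos (hI 1 2)
  set N₁ := mdeg (x (i 0)) (x (i 1)) with hN₁
  set N₂ := mdeg (x (i 0)) (x (i 2)) with hN₂
  set N₃ := mdeg (x (i 1)) (x (i 2)) with hN₃
  -- the smallest degree
  have key : ∀ N : ℕ, 0 < N → N ≤ N₁ → N ≤ N₂ → N ≤ N₃ →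
      Bd K (C₀ * D ^ 2 * √(N : ℝ)) (x (i 0)) →
      Bd K ((((16 * C₀ ^ 5 + C₄ + 11 : ℕ) : ℝ) * D) ^ (16 * C₀ ^ 5 + C₄ + 11)) (x (i 0)) := by
    intro N h0 h1 h2 h3 hb
    have ht := htri K _ (x (i 0)) (x (i 1)) (x (i 2)) hb (hK 1) (hK 2) (hN 0) (hI 0 1) (hI 0 2)
    have h4 : N ^ 3 ≤ N₁ * N₂ * N₃ := by
      calc N ^ 3 = N * N * N := by ring
        _ ≤ N₁ * N₂ * N₃ := Nat.mul_le_mul (Nat.mul_le_mul h1 h2) h3
    have h5 : (N : ℝ) ^ 3 ≤ ((N₁ * N₂ * N₃ : ℕ) : ℝ) := by exact_mod_cast h4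
    exact hb.mono (EndT1_num hC₀1 hD1 (by exact_mod_cast h0) (h5.trans ht))
  have hm : ∀ {C' N : ℕ}, C' ≤ C₀ → Bd K (C' * D ^ 2 * √(N : ℝ)) (x (i 0)) →
      Bd K (C₀ * D ^ 2 * √(N : ℝ)) (x (i 0)) := by
    intro C' N hle hb
    refine hb.mono ?_
    have : (C' : ℝ) ≤ C₀ := by exact_mod_cast hle
    gcongr
  rcases le_total N₁ N₂ with h12' | h12'
  · rcases le_total N₁ N₃ with h13' | h13'
    · exact key N₁ p1 le_rfl h12' h13' (hm (by omega) b1)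
    · exact key N₃ p3 h13' (h13'.trans h12') le_rfl (hm (by omega) b3)
  · rcases le_total N₂ N₃ with h23' | h23'
    · exact key N₂ p2 h12' le_rfl h23' (hm (by omega) b2)
    · exact key N₃ p3 (h23'.trans h12') h23' le_rfl (hm (by omega) b3)

/-- **three isogenous coordinates with common poles** -/
theorem t1_cp (hE : EngP3) (h : Pool.Agent.LGO.ZV.Crv V) (i : Fin 3 → Fin n) (hi : Function.Injective i)
    (hcp : ∀ a b, a ≠ b → F.CommonPole V (i a) (i b)) :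
    {x ∈ V | (∀ a, NCM (x (i a))) ∧
      ∀ a b, ∃ N, 0 < N ∧ IsogDeg N (x (i a)) (x (i b))}.Finite := by
  obtain ⟨C₁, E, hE₁, h1⟩ := hts_v h.irr h.kcl h.dim (i 0) (h.nc (i 0))
  obtain ⟨C₂, E₂, hE₂, h2⟩ := cp_ht hE h i hi hcp
  obtain ⟨C₃, hC₃, h3⟩ := pw_absorb C₁ C₂ C₂
  refine (t1_v h i hi (C₁ + C₃) (hE₁.union hE₂) ?_ ((allFin_v h).f1 i hi)).subset ?_
  · intro x hx hxE hn h01 h02 K _ hK
    have hall : ∀ a, HeckeRel (x (i 0)) (x (i a)) := by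
      intro a
      fin_cases a
      · exact HeckeRel.refl' _
      · exact h01
      · exact h02
    obtain ⟨K', h4, h5, h6, h7⟩ := h1 x hx (fun h => hxE (Or.inl h)) K _
      (h2 x hx (fun h => hxE (Or.inr h)) hn
        (fun a b => heckeRel_iff.mp (HeckeRel.trans' (HeckeRel.symm' (hall a)) (hall b))) K hK)
    have hD1 : 1 ≤ Module.finrank ℚ K := Module.finrank_pos
    refine ⟨K', h4, h5, h6.trans ?_, fun k => (h7 k).mono ?_⟩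
    · refine mul_le_mul_of_nonneg_right ?_ (Nat.cast_nonneg _)
      exact_mod_cast Nat.le_add_right _ _
    · exact (h3 _ hD1).trans (pw_mono (Nat.le_add_left _ _) hD1)
  · rintro x ⟨hx, h4, h5⟩
    exact ⟨hx, h4, heckeRel_iff.mpr (h5 0 1), heckeRel_iff.mpr (h5 0 2)⟩

end Pool.Agent.LGO.F3
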