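import Pool.Agent.LGO.H.MDeg
import Pool.Agent.LGO.Defs

/-!
# LGO/F3: the short bound for a pair of coordinates
-/

namespace Pool.Agent.LGO.F3

open UpperHalfPlane Pool.Agent.Hhelper14.ZP Pool.Agent.Hhelper14.ZPL Pool.Agent.LGO

variable {n : ℕ}

/-- the short bound for the coordinates `a`, `b` and the height of the coordinate `c` -/
def ShortBd (V : Set (Fin n → ℂ)) (a b c : Fin n) : Prop :=
  ∃ (C : ℕ) (E : Set (Fin n → ℂ)), 1 ≤ C ∧ E.Finite ∧ ∀ x ∈ V, x ∉ E →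
    ∀ (K : IntermediateField ℚ ℂ) [FiniteDimensional ℚ K], x a ∈ K → x b ∈ K → x c ∈ K →
      (∃ N, 0 < N ∧ IsogDeg N (x a) (x b)) →
      Bd K (C * (Module.finrank ℚ K : ℝ) ^ 2 * (mdeg (x a) (x b) : ℝ)) (x c)

end Pool.Agent.LGO.F3
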