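import Pool.Agent.LGO.F3.EndT1
import Pool.Agent.LGO.F3.ShDef

/-!
# LGO/F3 (note 3130): three isogenous coordinates, two pairs with a common pole

`t1_two`: if `i 0, i 1` have a common pole, `i 0, i 2` have a common pole, and the pair `i 1, i 2` satisfies the short bound then only finitely many points have
these three coordinates isogenous and not CM (any genus).

PROOF.  `cp_pair` (`F3/EndT1.lean`) and `ShortBd` (`F3/ShDef.lean`): `x (i 0)` has height `≤ A √N₁`, `≤ A √N₂`, `≤ A N₃` with `A = C D ^ 2`.  Let `h` be the smallest of the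
three bounds: `(h / A) ^ 5 ≤ N₁ N₂ N₃ ≤ (C D) ^ C (h + 1) ^ 4` (`triple_bd`), so `h ≤ (C D) ^ C`.
-/

namespace Pool.Agent.LGO.F3

open UpperHalfPlane Pool.Agent.Hhelper14.ZP Pool.Agent.Hhelper14.ZPL Pool.Agent.LGO
  Pool.Agent.LGO.ZF Pool.Agent.LGO.ZG Pool.Agent.LGO.ZV Pool.Agent.LGO.PWG

variable {n : ℕ} {V : Set (Fin n → ℂ)}

private theorem EndT2_num {C₀ C₄ : ℕ} (h0 : 1 ≤ C₀) {D h N : ℝ} (hD : 1 ≤ D) (hh : 1 ≤ h)
    (hN : (h / (C₀ * D ^ 2)) ^ 5 ≤ N) (h4 : N ≤ ((C₄ : ℝ) * D) ^ C₄ * (h + 1) ^ 4) :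
    h ≤ (((16 * C₀ ^ 5 + C₄ + 11 : ℕ) : ℝ) * D) ^ (16 * C₀ ^ 5 + C₄ + 11) := by
  have h0' : (1 : ℝ) ≤ C₀ := by exact_mod_cast h0
  have hD2 : 1 ≤ D ^ 2 := one_le_pow₀ hD
  have hA : 1 ≤ C₀ * D ^ 2 := one_le_mul_of_one_le_of_one_le h0' hD2
  have hP : 0 ≤ ((C₄ : ℝ) * D) ^ C₄ := by positivity
  have h1 : (h + 1) ^ 4 ≤ 16 * h ^ 4 := by
    have e1 : h + 1 ≤ 2 * h := by linarith
    have e2 := pow_le_pow_left₀ (by linarith) e1 4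
    refine e2.trans (le_of_eq ?_)
    ring
  have h2 : h ^ 5 / (C₀ * D ^ 2) ^ 5 ≤ ((C₄ : ℝ) * D) ^ C₄ * (16 * h ^ 4) := by
    rw [← div_pow]
    exact hN.trans (h4.trans (mul_le_mul_of_nonneg_left h1 hP))
  have hA5 : 0 < (C₀ * D ^ 2) ^ 5 := by positivity
  rw [div_le_iff₀ hA5] at h2
  have h3 : h ≤ ((C₄ : ℝ) * D) ^ C₄ * 16 * (C₀ * D ^ 2) ^ 5 := by
    have e1 : h * h ^ 4 ≤ ((C₄ : ℝ) * D) ^ C₄ * 16 * (C₀ * D ^ 2) ^ 5 * h ^ 4 := by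
      calc h * h ^ 4 = h ^ 5 := by ring
        _ ≤ _ := h2
        _ = _ := by ring
    exact le_of_mul_le_mul_right e1 (by positivity)
  set C : ℕ := 16 * C₀ ^ 5 + C₄ + 11 with hC
  have hCR : (C : ℝ) = 16 * (C₀ : ℝ) ^ 5 + C₄ + 11 := by rw [hC]; push_cast; ring
  have hC1 : (1 : ℝ) ≤ C := by
    rw [hCR]
    have : (0 : ℝ) ≤ 16 * (C₀ : ℝ) ^ 5 + C₄ := by positivity
    linarith
  have hCD : 1 ≤ C * D := one_le_mul_of_one_le_of_one_le hC1 hD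
  have hDC : D ≤ C * D := le_mul_of_one_le_left (by linarith) hC1
  have f1 : 16 * (C₀ : ℝ) ^ 5 ≤ C * D := by
    have e1 : 16 * (C₀ : ℝ) ^ 5 ≤ C := by
      rw [hCR]
      have : (0 : ℝ) ≤ (C₄ : ℝ) := Nat.cast_nonneg _
      linarith
    exact e1.trans (le_mul_of_one_le_right (by linarith) hD)
  have f2 : D ^ 10 ≤ (C * D) ^ 10 := pow_le_pow_left₀ (by linarith) hDC 10
  have f3 : ((C₄ : ℝ) * D) ^ C₄ ≤ (C * D) ^ C₄ := by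
    refine pow_le_pow_left₀ (by positivity) ?_ _
    refine mul_le_mul_of_nonneg_right ?_ (by linarith)
    rw [hCR]
    have : (0 : ℝ) ≤ 16 * (C₀ : ℝ) ^ 5 := by positivity
    linarith
  calc h ≤ ((C₄ : ℝ) * D) ^ C₄ * 16 * (C₀ * D ^ 2) ^ 5 := h3
    _ = (16 * (C₀ : ℝ) ^ 5) * D ^ 10 * ((C₄ : ℝ) * D) ^ C₄ := by ring
    _ ≤ (C * D) * (C * D) ^ 10 * (C * D) ^ C₄ := by
        refine mul_le_mul (mul_le_mul f1 f2 (by positivity) (by linarith)) f3 hP (by positivity)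
    _ = (C * D) ^ (C₄ + 11) := by ring
    _ ≤ (C * D) ^ C := pow_le_pow_right₀ hCD (by rw [hC]; omega)

/-- **the height of three isogenous coordinates, two pairs with a common pole** -/
theorem cp_ht2 (hE : EngP3) (h : Pool.Agent.LGO.ZV.Crv V) (i : Fin 3 → Fin n)
    (hi : Function.Injective i) (hcp1 : F.CommonPole V (i 0) (i 1))
    (hcp2 : F.CommonPole V (i 0) (i 2)) (hsh : ShortBd V (i 1) (i 2) (i 0)) :
    ∃ (C : ℕ) (E : Set (Fin n → ℂ)), E.Finite ∧ ∀ x ∈ V, x ∉ E → (∀ a, NCM (x (i a))) →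
      (∀ a b, ∃ N, 0 < N ∧ IsogDeg N (x (i a)) (x (i b))) →
      ∀ (K : IntermediateField ℚ ℂ) [FiniteDimensional ℚ K], (∀ a, x (i a) ∈ K) →
        Bd K (((C : ℝ) * Module.finrank ℚ K) ^ C) (x (i 0)) := by
  obtain ⟨C₁, E₁, hC₁, hE₁, h01⟩ := cp_pair h (hi.ne (by decide : (0 : Fin 3) ≠ 1)) hcp1 (i 0)
  obtain ⟨C₂, E₂, hC₂, hE₂, h02⟩ := cp_pair h (hi.ne (by decide : (0 : Fin 3) ≠ 2)) hcp2 (i 0)
  obtain ⟨C₃, E₃, hC₃, hE₃, h12⟩ := hsh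
  obtain ⟨C₄, hC₄, htri⟩ := triple_bd hE
  set C₀ : ℕ := C₁ + C₂ + C₃ with hC₀
  have hC₀1 : 1 ≤ C₀ := by omega
  refine ⟨16 * C₀ ^ 5 + C₄ + 11, E₁ ∪ E₂ ∪ E₃, (hE₁.union hE₂).union hE₃, ?_⟩
  intro x hx hxE hN hI K _ hK
  set D : ℝ := (Module.finrank ℚ K : ℝ) with hD
  have hD1 : 1 ≤ D := by
    rw [hD]
    exact_mod_cast Module.finrank_pos (R := ℚ) (M := K)
  have b1 := h01 x hx (fun h => hxE (Or.inl (Or.inl h))) K (hK 0) (hK 1) (hK 0) (hI 0 1)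
  have b2 := h02 x hx (fun h => hxE (Or.inl (Or.inr h))) K (hK 0) (hK 2) (hK 0) (hI 0 2)
  have b3 := h12 x hx (fun h => hxE (Or.inr h)) K (hK 1) (hK 2) (hK 0) (hI 1 2)
  have p1 := mdeg_pos (hI 0 1)
  have p2 := mdeg_pos (hI 0 2)
  have p3 := mdeg_pos (hI 1 2)
  set N₁ := mdeg (x (i 0)) (x (i 1)) with hN₁
  set N₂ := mdeg (x (i 0)) (x (i 2)) with hN₂
  set N₃ := mdeg (x (i 1)) (x (i 2)) with hN₃
  have q1 : (1 : ℝ) ≤ N₁ := by exact_mod_cast p1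
  have q2 : (1 : ℝ) ≤ N₂ := by exact_mod_cast p2
  have q3 : (1 : ℝ) ≤ N₃ := by exact_mod_cast p3
  have hC₀R : (1 : ℝ) ≤ C₀ := by exact_mod_cast hC₀1
  have hA : 1 ≤ C₀ * D ^ 2 := one_le_mul_of_one_le_of_one_le hC₀R (one_le_pow₀ hD1)
  have hA0 : 0 < C₀ * D ^ 2 := by linarith
  -- the smallest bound
  have key : ∀ y : ℝ, 1 ≤ y → y ^ 2 ≤ N₁ → y ^ 2 ≤ N₂ → y ≤ N₃ →
      Bd K (C₀ * D ^ 2 * y) (x (i 0)) →
      Bd K ((((16 * C₀ ^ 5 + C₄ + 11 : ℕ) : ℝ) * D) ^ (16 * C₀ ^ 5 + C₄ + 11)) (x (i 0)) := by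
    intro y h0 h1 h2 h3 hb
    have ht := htri K _ (x (i 0)) (x (i 1)) (x (i 2)) hb (hK 1) (hK 2) (hN 0) (hI 0 1) (hI 0 2)
    have h5 : y ^ 5 ≤ ((N₁ * N₂ * N₃ : ℕ) : ℝ) := by
      push_cast
      calc y ^ 5 = y ^ 2 * y ^ 2 * y := by ring
        _ ≤ (N₁ : ℝ) * N₂ * N₃ := by gcongr
    refine hb.mono (EndT2_num hC₀1 hD1 (one_le_mul_of_one_le_of_one_le hA h0) ?_ ht)
    rw [mul_div_cancel_left₀ _ hA0.ne']
    exact h5
  have hm1 : ∀ {C' : ℕ} {y : ℝ}, 0 ≤ y → C' ≤ C₀ → Bd K (C' * D ^ 2 * y) (x (i 0)) →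
      Bd K (C₀ * D ^ 2 * y) (x (i 0)) := by
    intro C' y hy hle hb
    refine hb.mono ?_
    have : (C' : ℝ) ≤ C₀ := by exact_mod_cast hle
    gcongr
  have s1 : √(N₁ : ℝ) ^ 2 = N₁ := Real.sq_sqrt (Nat.cast_nonneg _)
  have s2 : √(N₂ : ℝ) ^ 2 = N₂ := Real.sq_sqrt (Nat.cast_nonneg _)
  have t1 : 1 ≤ √(N₁ : ℝ) := Real.one_le_sqrt.mpr q1
  have t2 : 1 ≤ √(N₂ : ℝ) := Real.one_le_sqrt.mpr q2
  have c1 := hm1 (Real.sqrt_nonneg _) (by omega) b1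
  have c2 := hm1 (Real.sqrt_nonneg _) (by omega) b2
  have c3 := hm1 (Nat.cast_nonneg _) (by omega) b3
  rcases le_total √(N₁ : ℝ) √(N₂ : ℝ) with h12' | h12'
  · have e1 : √(N₁ : ℝ) ^ 2 ≤ N₂ := by
      rw [← s2]
      exact pow_le_pow_left₀ (by linarith) h12' 2
    rcases le_total √(N₁ : ℝ) (N₃ : ℝ) with h13' | h13'
    · exact key _ t1 s1.le e1 h13' c1
    · have e2 : (N₃ : ℝ) ^ 2 ≤ √(N₁ : ℝ) ^ 2 := pow_le_pow_left₀ (by linarith) h13' 2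
      exact key _ q3 (e2.trans s1.le) (e2.trans e1) le_rfl c3
  · have e1 : √(N₂ : ℝ) ^ 2 ≤ N₁ := by
      rw [← s1]
      exact pow_le_pow_left₀ (by linarith) h12' 2
    rcases le_total √(N₂ : ℝ) (N₃ : ℝ) with h13' | h13'
    · exact key _ t2 e1 s2.le h13' c2
    · have e2 : (N₃ : ℝ) ^ 2 ≤ √(N₂ : ℝ) ^ 2 := pow_le_pow_left₀ (by linarith) h13' 2
      exact key _ q3 (e2.trans e1) (e2.trans s2.le) le_rfl c3

/-- **three isogenous coordinates, two pairs with a common pole** -/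
theorem t1_two (hE : EngP3) (h : Pool.Agent.LGO.ZV.Crv V) (i : Fin 3 → Fin n)
    (hi : Function.Injective i) (hcp1 : F.CommonPole V (i 0) (i 1))
    (hcp2 : F.CommonPole V (i 0) (i 2)) (hsh : ShortBd V (i 1) (i 2) (i 0)) :
    {x ∈ V | (∀ a, NCM (x (i a))) ∧
      ∀ a b, ∃ N, 0 < N ∧ IsogDeg N (x (i a)) (x (i b))}.Finite := by
  obtain ⟨C₁, E, hE₁, h1⟩ := hts_v h.irr h.kcl h.dim (i 0) (h.nc (i 0))
  obtain ⟨C₂, E₂, hE₂, h2⟩ := cp_ht2 hE h i hi hcp1 hcp2 hsh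
  obtain ⟨C₃, hC₃, h3⟩ := pw_absorb C₁ C₂ C₂
  refine (t1_v h i hi (C₁ + C₃) (hE₁.union hE₂) ?_ ((allFin_v h).f1 i hi)).subset ?_
  · intro x hx hxE hn h01 h02 K _ hK
    have hall : ∀ a, HeckeRel (x (i 0)) (x (i a)) := by
      intro a
      fin_cases a
      · exact HeckeRel.refl' _
      · exact h01
      · exact h02
    obtain ⟨K', h4, h5, h6, h7⟩ := h1 x hx (fun h => hxE (Or.inl h)) K _
      (h2 x hx (fun h => hxE (Or.inr h)) hn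
        (fun a b => heckeRel_iff.mp (HeckeRel.trans' (HeckeRel.symm' (hall a)) (hall b))) K hK)
    have hD1 : 1 ≤ Module.finrank ℚ K := Module.finrank_pos
    refine ⟨K', h4, h5, h6.trans ?_, fun k => (h7 k).mono ?_⟩
    · refine mul_le_mul_of_nonneg_right ?_ (Nat.cast_nonneg _)
      exact_mod_cast Nat.le_add_right _ _
    · exact (h3 _ hD1).trans (pw_mono (Nat.le_add_left _ _) hD1)
  · rintro x ⟨hx, h4, h5⟩
    exact ⟨hx, h4, heckeRel_iff.mpr (h5 0 1), heckeRel_iff.mpr (h5 0 2)⟩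

end Pool.Agent.LGO.F3
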