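import Pool.Agent.LGO.F.Main5
import Pool.Agent.LGO.F.Sharp
import Pool.Agent.LGO.F3.Inf3
import Pool.Agent.LGO.F3.EFin
import Pool.Agent.LGO.F3.EndT1

/-!
# LGO/F3 (note 3121): the Zilber-Pink statement for special subvarieties of dimension `< n / 4`, every curve
-/

namespace Pool.Agent.LGO.F3

open UpperHalfPlane MvPolynomial Filter Topology Pool.Agent.Hhelper14.ZP Pool.Agent.Hhelper14.ZPL
  Pool.Agent.LGO

variable {n : ℕ} {V : Set (Fin n → ℂ)}

/-- the finiteness of the isogenous quintuples, every curve -/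
theorem fin_five (h : Pool.Agent.LGO.ZV.Crv V) {m : ℕ} (hm : 5 ≤ m) (i : Fin m → Fin n)
    (hi : Function.Injective i) :
    {x ∈ V | (∀ a, NCM (x (i a))) ∧ ∀ a b, ∃ N, 0 < N ∧ IsogDeg N (x (i a)) (x (i b))}.Finite := by
  set k : Fin 3 → Fin m := fun a => ⟨a, by omega⟩ with hk
  have hkinj : Function.Injective k := by
    intro a b hab
    have := congrArg Fin.val hab
    exact Fin.ext this
  rcases inf3 h.irr h.kcl h.dim (fun a => i (k a)) with ⟨Q, hQ0, hQ⟩ | ⟨P, hP, hlim⟩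
  · exact F.as_finite F.sharp h.irr h.kcl h.dim i (fun a => h.nc (i a))
      (fun a b hab => h.nomod (i a) (i b) (hi.ne hab)) (F.poleGraph_of_five hm V i) k hkinj hQ0 hQ
  · refine (t1_cp engine_P3 h (fun a => i (k a)) (hi.comp hkinj)
      (fun a b _ => ⟨P, hP, hlim a, hlim b⟩)).subset ?_
    rintro x ⟨hx, h1, h2⟩
    exact ⟨hx, fun a => h1 (k a), fun a b => h2 (k a) (k b)⟩

/-- **the Zilber-Pink statement for the special subvarieties of dimension `< n / 4`** -/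
theorem low5 (hV : Pool.Agent.Hhelper14.ZPL.IsIrredClosed V) (hVk : KClosed V)
    (hdim : Pool.Agent.Hhelper14.ZPL.dim V = 1) (hnc : ∀ (i : Fin n) (c : ℂ), ∃ x ∈ V, x i ≠ c)
    (hn : 2 ≤ n) :
    ∃ S : Set (Set (Fin n → ℂ)), S.Finite ∧
      (∀ T ∈ S, Pool.Agent.Hhelper14.ZP.IsSpecial T ∧ T ≠ Set.univ) ∧
      ∀ Z, Pool.Agent.Hhelper14.ZP.IsSpecial Z →
        ((4 : ℕ) : WithBot ℕ∞) * Pool.Agent.Hhelper14.ZP.dim Z < n →
          ∀ C, Pool.Agent.Hhelper14.ZP.IsComponent C (V ∩ Z) → ∃ T ∈ S, C ⊆ T := by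
  refine ZV.low_main hV hVk hdim hnc ZG.cmAll (fun x hx => ZG.cm_alg hx) (k := 4) (by norm_num) hn ?_
  intro hcrv i hi
  refine (fin_five hcrv (le_refl 5) i hi).subset ?_
  rintro x ⟨hx, h1, h2⟩
  exact ⟨hx, h1, fun a b => heckeRel_iff.mp (h2 a b)⟩

end Pool.Agent.LGO.F3
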