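import Pool.Agent.LGO.F3.EndT1
import Pool.Agent.LGO.F3.ShDef
import Pool.Agent.LGO.F3.Inf3
import Pool.Agent.LGO.CP.TateP
import Pool.Agent.LGO.PC.BdLoc
import Pool.Agent.LGO.H.Use
import Pool.Agent.ZPB.BPoly

/-!
# LGO/F3 (note 3130): the short bound for every pair of coordinates

`short_all`: if `x a` and `x b` are isogenous, of minimal degree `N`, then every coordinate of `x` has height at most `C D ^ 2 N`, up to finitely many points.

PROOF.  `cp_main`: if the bound `√N` fails then `‖s (x a)‖ ≤ C` or `‖s (x b)‖ ≤ C` for all `s`; then `inf3` for `a, b, b` gives a polynomial with nonzero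
constant term which vanishes at the inverses; `exists_int_poly`: with integral coefficients, constant term `c`.  Archimedean places: `log_le` from `b` to `a`
(`‖s (x b)‖ ≤ C`).  Finite places with `‖φ (x a)‖ > 1`: `tate_pair`: `‖φ (x b)‖ ^ d = ‖φ (x a)‖ ^ e`, `d e = N`, and the polynomial gives
`min ‖φ (x a)‖ ‖φ (x b)‖ ≤ ‖c‖⁻¹`, so `‖φ (x a)‖ ≤ ‖c‖ ^ (-N)`.  `bd_of_loc` with the denominator `|c| ^ N`.
-/

namespace Pool.Agent.LGO.F3

open UpperHalfPlane MvPolynomial Pool.Agent.Hhelper14.ZP Pool.Agent.Hhelper14.ZPL Pool.Agent.LGO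
  Pool.Agent.LGO.PA

variable {n : ℕ} {V : Set (Fin n → ℂ)}

/-- a polynomial with integral coefficients at small arguments -/
private theorem Short_poly {p : ℕ} [Fact p.Prime] (g : MvPolynomial (Fin 3) ℤ) (w : Fin 3 → ℂ_[p])
    {r : ℝ} (hr0 : 0 ≤ r) (hr : r ≤ 1) (hw : ∀ a, ‖w a‖ ≤ r) :
    ‖aeval w g - ((constantCoeff g : ℤ) : ℂ_[p])‖ ≤ r ∧ ‖(aeval w g : ℂ_[p])‖ ≤ 1 := by
  induction g using MvPolynomial.induction_on with
  | C a =>
    rw [algHom_C, constantCoeff_C]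
    simp only [eq_intCast, sub_self, norm_zero]
    exact ⟨hr0, Pool.Agent.Hhelper14.ZP.norm_intCast_le a⟩
  | add P Q hP hQ =>
    rw [map_add, map_add]
    constructor
    · have h1 : aeval w P + aeval w Q - ((constantCoeff P + constantCoeff Q : ℤ) : ℂ_[p]) =
          (aeval w P - ((constantCoeff P : ℤ) : ℂ_[p])) + (aeval w Q - ((constantCoeff Q : ℤ) : ℂ_[p])) := by
        push_cast
        ring
      rw [h1]
      exact (IsUltrametricDist.norm_add_le_max _ _).trans (max_le hP.1 hQ.1)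
    · exact (IsUltrametricDist.norm_add_le_max _ _).trans (max_le hP.2 hQ.2)
  | mul_X P b hP =>
    rw [map_mul, map_mul, aeval_X, constantCoeff_X, mul_zero, Int.cast_zero, sub_zero, norm_mul]
    have h1 : ‖(aeval w P : ℂ_[p])‖ * ‖w b‖ ≤ 1 * r :=
      mul_le_mul hP.2 (hw b) (norm_nonneg _) zero_le_one
    rw [one_mul] at h1
    exact ⟨h1, h1.trans hr⟩

/-- the finite places -/
private theorem Short_fin {p : ℕ} [Fact p.Prime] (φ : ℂ →+* ℂ_[p]) {g : MvPolynomial (Fin 3) ℤ}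
    (hg0 : constantCoeff g ≠ 0) {x y : ℂ} (hiso : ∃ N, 0 < N ∧ IsogDeg N x y)
    (hg : aeval (fun a => ((![x, y, y] : Fin 3 → ℂ) a)⁻¹) g = 0) :
    ‖(((constantCoeff g).natAbs ^ mdeg x y : ℕ) : ℂ_[p])‖ * max 1 ‖φ x‖ ≤ 1 := by
  set c := (constantCoeff g).natAbs with hc
  have hc1 : ‖((c ^ mdeg x y : ℕ) : ℂ_[p])‖ ≤ 1 := Pool.Agent.Hhelper14.ZP.norm_natCast_le _
  rcases le_or_gt ‖φ x‖ 1 with h1 | h1
  · rw [max_eq_left h1, mul_one]
    exact hc1
  rw [max_eq_right h1.le]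
  obtain ⟨q, hq0, hq1, hq⟩ := jP_surj h1
  obtain ⟨a, d, q', ha, hd, had, hq'0, hq'1, hpow, hy⟩ := CP.tate_pair φ hiso hq0 hq1 hq.symm
  have hnx : ‖φ x‖ = ‖q‖⁻¹ := by rw [← hq, jP_norm hq0 hq1]
  have hny : ‖φ y‖ = ‖q'‖⁻¹ := by rw [hy, jP_norm hq'0 hq'1]
  -- the polynomial
  have hw : ∀ b, ‖φ (((![x, y, y] : Fin 3 → ℂ) b)⁻¹)‖ ≤ max ‖q‖ ‖q'‖ := by
    intro b
    fin_cases b
    · simp only [Fin.zero_eta, Matrix.cons_val_zero]
      rw [map_inv₀, norm_inv, hnx, inv_inv]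
      exact le_max_left _ _
    · simp only [Fin.mk_one, Matrix.cons_val_one, Matrix.cons_val_zero]
      rw [map_inv₀, norm_inv, hny, inv_inv]
      exact le_max_right _ _
    · simp only [Fin.reduceFinMk, Matrix.cons_val]
      rw [map_inv₀, norm_inv, hny, inv_inv]
      exact le_max_right _ _
  have h2 := (Short_poly g (fun b => φ (((![x, y, y] : Fin 3 → ℂ) b)⁻¹)) (le_max_of_le_left hq0.le)
    (max_le hq1.le hq'1.le) hw).1
  have h3 : aeval (fun b => φ (((![x, y, y] : Fin 3 → ℂ) b)⁻¹)) g = (0 : ℂ_[p]) := by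
    have h4 : φ (aeval (fun a => ((![x, y, y] : Fin 3 → ℂ) a)⁻¹) g) =
        aeval (fun b => φ (((![x, y, y] : Fin 3 → ℂ) b)⁻¹)) g := by
      have := (MvPolynomial.map_aeval (fun a => ((![x, y, y] : Fin 3 → ℂ) a)⁻¹) φ g)
      rw [this, aeval_def]
      simp only [coe_eval₂Hom]
      congr 1
      exact RingHom.ext_int _ _
    rw [← h4, hg, map_zero]
  rw [h3, zero_sub, norm_neg] at h2
  have h4 : ‖(c : ℂ_[p])‖ ≤ max ‖q‖ ‖q'‖ := by
    refine le_trans (le_of_eq ?_) h2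
    have h5 : ((c : ℤ) : ℂ_[p]) = ((constantCoeff g : ℤ) : ℂ_[p]) ∨
        ((c : ℤ) : ℂ_[p]) = -((constantCoeff g : ℤ) : ℂ_[p]) := by
      rcases Int.natAbs_eq (constantCoeff g) with h6 | h6
      · left
        rw [hc]
        exact_mod_cast congrArg (fun z : ℤ => (z : ℂ_[p])) h6.symm
      · right
        rw [hc, ← Int.cast_neg]
        congr 1
        omega
    rcases h5 with h5 | h5
    · rw [← h5, Int.cast_natCast]
    · have h6 := congrArg norm h5
      rw [norm_neg, Int.cast_natCast] at h6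
      exact h6
  -- the inequality for `q`
  have hcn : 0 ≤ ‖(c : ℂ_[p])‖ := norm_nonneg _
  have hc1' : ‖(c : ℂ_[p])‖ ≤ 1 := Pool.Agent.Hhelper14.ZP.norm_natCast_le _
  have hqd : ‖q'‖ ^ d = ‖q‖ ^ a := by rw [← norm_pow, ← norm_pow, hpow]
  have h5 : ‖(c : ℂ_[p])‖ ^ mdeg x y ≤ ‖q‖ := by
    rcases le_total ‖q'‖ ‖q‖ with h6 | h6
    · rw [max_eq_left h6] at h4
      have h7 : mdeg x y ≠ 0 := by
        rw [← had]
        exact (Nat.mul_pos ha hd).ne'
      exact (pow_le_of_le_one hcn hc1' h7).trans h4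
    · rw [max_eq_right h6] at h4
      have h7 : ‖(c : ℂ_[p])‖ ^ d ≤ ‖q‖ ^ a := by
        rw [← hqd]
        exact pow_le_pow_left₀ hcn h4 d
      have h8 : d ≤ mdeg x y := by
        rw [← had]
        exact Nat.le_mul_of_pos_left d ha
      calc ‖(c : ℂ_[p])‖ ^ mdeg x y ≤ ‖(c : ℂ_[p])‖ ^ d := pow_le_pow_of_le_one hcn hc1' h8
        _ ≤ ‖q‖ ^ a := h7
        _ ≤ ‖q‖ := pow_le_of_le_one hq0.le hq1.le ha.ne'
  rw [Nat.cast_pow, norm_pow, hnx]
  rw [← div_eq_mul_inv, div_le_one hq0]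
  exact h5

/-- **the short bound** -/
theorem short_all (h : Pool.Agent.LGO.ZV.Crv V) {a b : Fin n} (hab : a ≠ b) (c : Fin n) :
    ShortBd V a b c := by
  rcases CP.cp_main h.irr h.kcl h.dim hab (h.nc a) (h.nc b) (h.nomod a b hab) with ⟨C₁, hC₁⟩ | h1
  swap
  · obtain ⟨C, E, hC, hE, h2⟩ := h1 c
    refine ⟨C, E, hC, hE, fun x hx hxE K _ ha hb hc hN => (h2 x hx hxE K ha hb hc hN).mono ?_⟩
    have h3 : 0 < mdeg (x a) (x b) := mdeg_pos hN
    have h4 : (1 : ℝ) ≤ mdeg (x a) (x b) := by exact_mod_cast h3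
    have h5 : √(mdeg (x a) (x b) : ℝ) ≤ mdeg (x a) (x b) := by
      rw [Real.sqrt_le_left (by linarith)]
      nlinarith
    gcongr
  -- no common pole
  rcases inf3 h.irr h.kcl h.dim ![a, b, b] with ⟨Q, hQ0, hQ⟩ | ⟨P, hP, hlim⟩
  swap
  · exfalso
    have ha := hlim 0
    have hb := hlim 1
    simp only [Matrix.cons_val_zero, Matrix.cons_val_one] at ha hb
    obtain ⟨k, hk⟩ := ((ha.eventually_gt_atTop (C₁ : ℝ)).and (hb.eventually_gt_atTop (C₁ : ℝ))).exists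
    rcases hC₁ (P k) (hP k) (RingEquiv.refl ℂ) with h2 | h2
    · exact absurd h2 (not_le.mpr hk.1)
    · exact absurd h2 (not_le.mpr hk.2)
  let B : Set (Fin 3 → ℂ) := {y | ∃ x ∈ V, (∃ N, 0 < N ∧ IsogDeg N (x a) (x b)) ∧ x a ≠ 0 ∧ x b ≠ 0 ∧
    y = fun k => (x ((![a, b, b] : Fin 3 → Fin n) k))⁻¹}
  have hBalg : ∀ y ∈ B, ∀ k, IsAlgebraic ℚ (y k) := by
    rintro _ ⟨x, hx, hN, -, -, rfl⟩ k
    exact (PW.alg_of_isog h.irr h.kcl h.dim hab (h.nomod a b hab) hx hN _).inv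
  have hBQ : ∀ y ∈ B, eval y Q = 0 := by
    rintro _ ⟨x, hx, -, ha, hb, rfl⟩
    refine hQ x hx fun k => ?_
    fin_cases k
    · exact ha
    · exact hb
    · exact hb
  obtain ⟨g, hg0, hg⟩ := Pool.Agent.ZPB.exists_int_poly hBalg hQ0 hBQ
  obtain ⟨C₂, hC₂, hlog⟩ := log_le
  obtain ⟨C₃, E, hE, hts⟩ := ZV.hts_v h.irr h.kcl h.dim a (h.nc a)
  set m := (constantCoeff g).natAbs with hm
  have hm0 : 0 < m := Int.natAbs_pos.mpr hg0
  set A : ℝ := (C₁ : ℝ) + C₂ * (1 + Real.log (1 + C₁)) with hA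
  have hC₁0 : (0 : ℝ) ≤ C₁ := Nat.cast_nonneg _
  have hl0 : 0 ≤ Real.log (1 + (C₁ : ℝ)) := Real.log_nonneg (by linarith)
  have hlm : 0 ≤ Real.log m := Real.log_nonneg (by exact_mod_cast hm0)
  have hA0 : 0 ≤ A := by
    rw [hA]
    positivity
  set C : ℝ := (C₃ : ℝ) * C₃ * (1 + (A + Real.log m)) with hC
  have hC0 : 0 ≤ C := by
    rw [hC]
    positivity
  refine ⟨⌈C⌉₊ + 1, E ∪ ({x ∈ V | x a = 0} ∪ {x ∈ V | x b = 0}), by omega,
    hE.union ((h.fib a 0).union (h.fib b 0)), ?_⟩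
  intro x hx hxE K _ haK hbK hcK hN
  have ha0 : x a ≠ 0 := fun h0 => hxE (Or.inr (Or.inl ⟨hx, h0⟩))
  have hb0 : x b ≠ 0 := fun h0 => hxE (Or.inr (Or.inr ⟨hx, h0⟩))
  have hN0 : 0 < mdeg (x a) (x b) := mdeg_pos hN
  obtain ⟨-, hNi⟩ := mdeg_spec hN
  set N := mdeg (x a) (x b) with hNdef
  have hN1 : (1 : ℝ) ≤ N := by exact_mod_cast hN0
  set D : ℝ := (Module.finrank ℚ K : ℝ) with hD
  have hD1 : 1 ≤ D := by
    rw [hD]
    exact_mod_cast Module.finrank_pos (R := ℚ) (M := K)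
  -- the height of `x a`
  have hgx : aeval (fun k => ((![x a, x b, x b] : Fin 3 → ℂ) k)⁻¹) g = 0 := by
    have h2 := hg (fun k => (x ((![a, b, b] : Fin 3 → Fin n) k))⁻¹) ⟨x, hx, hN, ha0, hb0, rfl⟩
    have h3 : (fun k => ((![x a, x b, x b] : Fin 3 → ℂ) k)⁻¹) =
        fun k => (x ((![a, b, b] : Fin 3 → Fin n) k))⁻¹ := by
      funext k
      fin_cases k <;> rfl
    rw [h3]
    exact h2
  have hbd : Bd K (Module.finrank ℚ K * (A * N + (1 : ℕ) * Real.log ((m ^ N : ℕ) : ℝ))) (x a) := by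
    refine PC.bd_of_loc K haK (one_mem K) one_ne_zero (pow_pos hm0 N) one_pos ?_ ?_
    · intro p _ φ
      rw [map_one, norm_one]
      exact Short_fin φ hg0 hN hgx
    · intro s
      rw [map_one, norm_one, one_pow, mul_one]
      have hAN : A ≤ A * N := le_mul_of_one_le_right hA0 hN1
      refine max_le (Real.one_le_exp (by positivity)) ?_
      rcases hC₁ x hx s with h2 | h2
      · have h3 : (C₁ : ℝ) ≤ Real.exp (C₁ : ℝ) := (by linarith [Real.add_one_le_exp (C₁ : ℝ)])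
        refine h2.trans (h3.trans (Real.exp_le_exp.mpr ?_))
        have : (C₁ : ℝ) ≤ A := by
          rw [hA]
          have : 0 ≤ C₂ * (1 + Real.log (1 + (C₁ : ℝ))) := by positivity
          linarith
        linarith
      · have h3 : IsogDeg N (s (x b)) (s (x a)) := (hNi.symm).map (s : ℂ →+* ℂ) hN0
        have h4 := hlog N (s (x b)) (s (x a)) hN0 h3
        have hpos : 0 < ‖s (x a)‖ := norm_pos_iff.mpr ((map_ne_zero _).mpr ha0)
        rw [← Real.log_le_iff_le_exp hpos]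
        refine h4.trans ?_
        have h5 : Real.log (1 + ‖s (x b)‖) ≤ Real.log (1 + (C₁ : ℝ)) :=
          Real.log_le_log (by positivity) (by linarith)
        calc C₂ * N * (1 + Real.log (1 + ‖s (x b)‖)) ≤ C₂ * N * (1 + Real.log (1 + (C₁ : ℝ))) := by
              gcongr
          _ = (C₂ * (1 + Real.log (1 + (C₁ : ℝ)))) * N := by ring
          _ ≤ A * N := by
              refine mul_le_mul_of_nonneg_right ?_ (by linarith)
              rw [hA]
              linarith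
  have hxc : x ∉ E := fun h0 => hxE (Or.inl h0)
  obtain ⟨K', hKK', hfd, hrk, hall⟩ := hts x hx hxc K _ hbd
  refine (bd_down (hall c) hcK).mono ?_
  rw [← hD, Nat.cast_one, one_mul, Nat.cast_pow, Real.log_pow]
  have hDN : 1 ≤ D * N := one_le_mul_of_one_le_of_one_le hD1 hN1
  have hC₃0 : (0 : ℝ) ≤ C₃ := Nat.cast_nonneg _
  have e1 : 1 + D * (A * N + N * Real.log m) ≤ (1 + (A + Real.log m)) * (D * N) := by
    nlinarith
  have hC₃1 : (1 : ℝ) ≤ C₃ := by
    have h2 : (1 : ℝ) ≤ Module.finrank ℚ K' := by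
      exact_mod_cast Module.finrank_pos (R := ℚ) (M := K')
    have h3 : 1 ≤ C₃ := by
      by_contra hcon
      have h4 : C₃ = 0 := by omega
      rw [h4, Nat.cast_zero, zero_mul] at hrk
      linarith
    exact_mod_cast h3
  calc (C₃ : ℝ) * D * (1 + D * (A * N + N * Real.log m))
      ≤ C₃ * D * ((1 + (A + Real.log m)) * (D * N)) := by gcongr
    _ = C₃ * (1 + (A + Real.log m)) * D ^ 2 * N := by ring
    _ ≤ C * D ^ 2 * N := by
        have e2 : C₃ * (1 + (A + Real.log m)) ≤ C := by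
          rw [hC]
          have e3 : (C₃ : ℝ) ≤ C₃ * C₃ := by nlinarith
          exact mul_le_mul_of_nonneg_right e3 (by positivity)
        gcongr
    _ ≤ ((⌈C⌉₊ + 1 : ℕ) : ℝ) * D ^ 2 * N := by
        gcongr
        push_cast
        exact (Nat.le_ceil _).trans (by linarith)

end Pool.Agent.LGO.F3
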